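import Pool.Agent.Helper79.GX.RepK
import Pool.Agent.Helper79.GC.RelBad

/-!
# GX-14: a relation at an integer point of a curve gives a bad integer for the words

Write `u = w(n)`, `β = Fin m × ι`; `Z_n ∈ M_β(κ)` the value of `Z` at `n` (invertible). `r` from `HasRelationC`, `M₀ ∈ BFibreC` with `r(M₀) ≠ 0`; `M₀` is invertible, so (as `ι` is
nonempty) some entry `(M₀)_{a₀k₀} ≠ 0`. `l` from `rep_exists` (`x = n`, `hu` from `hf` at `t = n`: the value at `n` of a polynomial over `κ` is in `κ`).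

* The pair `(P n, V n)` satisfies the hypothesis of `rep_exists` (by `hP` at `t = n`; `aeval (n : ℂ) p = (p.eval (n : κ) : ℂ)`), and `Vt ω V n = sqK ω (V n)` by definition, so
  `∑ l_α wz_α(n) = P(n)_{a₀k₀} r(P(n)) = 0` (`P n ∈ ZClosure (P n)` as `det P(n)` is a unit).
* Suppose `v ∈ ℚ[X]^words`, `v(n) = l` and `∑ v_α(t) wz_α(t) = 0` for large real `t`. Let `q ∈ Qbar[x, y, M]` be `∑_α v_α(x) ∏_j λ(α j)` with `λ(none) = det Z(x)`,
  `λ(some ((j,b),(j',(l',k)))) = ω_j ∑_{(l,a)} adj(Z)(x)_{b,(l,a)} y^l M_{ak}`. For a pair `(M, W)` over `(t, y)` with `y^l M_{ak} = ∑_c Z(t)_{(l,a),c} W_{c,k}` we have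
  `evC q t y M = (det Z(t))^(δ+1) ∑_α v_α(t) ∏_j ltr (sqK ω W) (α j)` (since `adj(Z) Z = det Z`). So `evC q t (w t) (P t) = 0` for large real `t` (`W = V t`), it is analytic on `U`
  (`P` is analytic by `hP` with `l = 0`; `m ≥ 1` because of `hf` at `n`), so zero on `U` (identity theorem, see `rel_bad` in `Pool.Agent.Helper79.GC.RelBad`). So
  `0 = evC q n u M₀ = (det Z_n)^(δ+1) ∑ l_α ∏ ltr(sqK ω W₀)(α j) = (det Z_n)^(δ+1) (M₀)_{a₀k₀} r(M₀) ≠ 0` with `W₀ = Z_n⁻¹ (u^l (M₀)_{ak})`, a contradiction.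
-/

open Polynomial Filter Topology

namespace Pool.Agent.Helper79.GX

open Pool.Agent.Helper37.GP Pool.Agent.Helper79.GC Pool.Agent.Helper64.Per

variable {ι : Type} [Fintype ι] [DecidableEq ι]

/-- A polynomial over `κ` as a polynomial in the first coordinate of the plane. -/
noncomputable def toX (ι : Type) {κ : IntermediateField ℚ Qbar} (p : Polynomial κ) :
    MvPolynomial (Bool ⊕ ι × ι) Qbar :=
  Polynomial.eval₂ (MvPolynomial.C.comp (algebraMap κ Qbar)) (MvPolynomial.X (Sum.inl true)) p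

omit [Fintype ι] [DecidableEq ι] in
theorem evC_toX {κ : IntermediateField ℚ Qbar} (p : Polynomial κ) (x y : ℂ)
    (M : Matrix ι ι ℂ) : evC (toX ι p) x y M = aeval x p := by
  unfold evC toX
  rw [← AlgHom.coe_toRingHom, Polynomial.hom_eval₂, Polynomial.aeval_def]
  congr 1
  · ext c
    simp
    rfl
  · simp

/-- The polynomial of a letter. -/
noncomputable def lC {κ : IntermediateField ℚ Qbar} {J : Type} {m : ℕ} (ω : J → κ)
    (Z : Matrix (Fin m × ι) (Fin m × ι) (Polynomial κ)) :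
    Option ((J × (Fin m × ι)) × (J × (Fin m × ι))) → MvPolynomial (Bool ⊕ ι × ι) Qbar
  | none => toX ι Z.det
  | some p => MvPolynomial.C (ω p.1.1 : Qbar) * ∑ c : Fin m × ι, toX ι (Z.adjugate p.1.2 c) *
      (MvPolynomial.X (Sum.inl false) ^ (c.1 : ℕ) * MvPolynomial.X (Sum.inr (c.2, p.2.2.2)))

omit [Fintype ι] [DecidableEq ι] in
theorem evC_mul (p q : MvPolynomial (Bool ⊕ ι × ι) Qbar) (x y : ℂ) (M : Matrix ι ι ℂ) :
    evC (p * q) x y M = evC p x y M * evC q x y M := by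
  unfold evC
  rw [map_mul]

omit [Fintype ι] [DecidableEq ι] in
theorem evC_sum {σ : Type} (s : Finset σ) (f : σ → MvPolynomial (Bool ⊕ ι × ι) Qbar) (x y : ℂ)
    (M : Matrix ι ι ℂ) : evC (∑ i ∈ s, f i) x y M = ∑ i ∈ s, evC (f i) x y M := by
  unfold evC
  rw [map_sum]

omit [Fintype ι] [DecidableEq ι] in
theorem evC_prod {σ : Type} (s : Finset σ) (f : σ → MvPolynomial (Bool ⊕ ι × ι) Qbar) (x y : ℂ)
    (M : Matrix ι ι ℂ) : evC (∏ i ∈ s, f i) x y M = ∏ i ∈ s, evC (f i) x y M := by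
  unfold evC
  rw [map_prod]

theorem evC_lC {κ : IntermediateField ℚ Qbar} {J : Type} {m : ℕ} (ω : J → κ)
    (Z : Matrix (Fin m × ι) (Fin m × ι) (Polynomial κ)) {x y : ℂ} {M : Matrix ι ι ℂ}
    {W : Matrix (Fin m × ι) ι ℂ}
    (h : ∀ (b : Fin m × ι) (k : ι), y ^ (b.1 : ℕ) * M b.2 k = ∑ c, aeval x (Z b c) * W c k)
    (o : Option ((J × (Fin m × ι)) × (J × (Fin m × ι)))) :
    evC (lC ω Z o) x y M = aeval x Z.det * ltr (sqK ω W) o := by
  cases o with
  | none => simp only [lC, ltr, evC_toX, mul_one]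
  | some p =>
    obtain ⟨⟨j, b⟩, ⟨j', ⟨l', k⟩⟩⟩ := p
    simp only [lC, ltr, evC_mul, evC_sum, evC_toX, sqK, Matrix.of_apply]
    have h1 : evC (MvPolynomial.C (ω j : Qbar) : MvPolynomial (Bool ⊕ ι × ι) Qbar) x y M =
        ((ω j : Qbar) : ℂ) := by
      unfold evC
      rw [MvPolynomial.aeval_C]
      rfl
    have h2 : ∀ c : Fin m × ι, evC ((MvPolynomial.X (Sum.inl false) :
        MvPolynomial (Bool ⊕ ι × ι) Qbar) ^ (c.1 : ℕ)) x y M *
        evC (MvPolynomial.X (Sum.inr (c.2, k))) x y M = y ^ (c.1 : ℕ) * M c.2 k := by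
      intro c
      unfold evC
      simp
    rw [h1]
    rw [Finset.sum_congr rfl fun c _ => by rw [h2 c, h c k, Finset.mul_sum]]
    rw [Finset.sum_comm]
    have h3 : ∀ c' : Fin m × ι, ∑ c, aeval x (Z.adjugate b c) * (aeval x (Z c c') * W c' k) =
        aeval x ((Z.det • (1 : Matrix (Fin m × ι) (Fin m × ι) (Polynomial κ))) b c') * W c' k := by
      intro c'
      rw [← Matrix.adjugate_mul, Matrix.mul_apply, map_sum, Finset.sum_mul]
      refine Finset.sum_congr rfl fun c _ => ?_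
      rw [map_mul, mul_assoc]
    rw [Finset.sum_congr rfl fun c _ => h3 c]
    rw [Finset.sum_eq_single b]
    · simp
      ring
    · intro c' _ hc'
      simp [Matrix.one_apply_ne hc'.symm]
    · intro hb
      exact absurd (Finset.mem_univ b) hb

/-- The polynomial of a combination of words. -/
noncomputable def qC {κ : IntermediateField ℚ Qbar} {J : Type} [Fintype J] [DecidableEq J]
    {m : ℕ} (ω : J → κ)
    (Z : Matrix (Fin m × ι) (Fin m × ι) (Polynomial κ)) {e : ℕ}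
    (v : (Fin e → Option ((J × (Fin m × ι)) × (J × (Fin m × ι)))) → ℚ[X]) :
    MvPolynomial (Bool ⊕ ι × ι) Qbar :=
  ∑ α, toX ι ((v α).map (algebraMap ℚ κ)) * ∏ j, lC ω Z (α j)

theorem evC_qC {κ : IntermediateField ℚ Qbar} {J : Type} [Fintype J] [DecidableEq J]
    {m : ℕ} (ω : J → κ)
    (Z : Matrix (Fin m × ι) (Fin m × ι) (Polynomial κ)) {e : ℕ}
    (v : (Fin e → Option ((J × (Fin m × ι)) × (J × (Fin m × ι)))) → ℚ[X]) {x y : ℂ}
    {M : Matrix ι ι ℂ} {W : Matrix (Fin m × ι) ι ℂ}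
    (h : ∀ (b : Fin m × ι) (k : ι), y ^ (b.1 : ℕ) * M b.2 k = ∑ c, aeval x (Z b c) * W c k) :
    evC (qC ω Z v) x y M =
      (aeval x Z.det) ^ e * ∑ α, aeval x (v α) * ∏ j, ltr (sqK ω W) (α j) := by
  unfold qC
  rw [evC_sum, Finset.mul_sum]
  refine Finset.sum_congr rfl fun α _ => ?_
  rw [evC_mul, evC_prod, evC_toX, Polynomial.aeval_map_algebraMap]
  rw [Finset.prod_congr rfl fun j _ => evC_lC ω Z h (α j)]
  rw [Finset.prod_mul_distrib]
  simp only [Finset.prod_const, Finset.card_univ, Fintype.card_fin]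
  ring

theorem rel_badK [Nonempty ι] {κ : IntermediateField ℚ Qbar} {J : Type} [Fintype J]
    [DecidableEq J] (ω : Module.Basis J ℚ κ) {m : ℕ} {U : Set ℂ} (hU : IsOpen U)
    (hU' : IsPreconnected U) {t₀ : ℝ} (ht : ∀ t : ℝ, t₀ < t → (t : ℂ) ∈ U) {w : ℂ → ℂ}
    (hw : AnalyticOnNhd ℂ w U) {f : Fin m → Polynomial κ}
    (hf : ∀ t ∈ U, w t ^ m = ∑ l : Fin m, aeval t (f l) * w t ^ (l : ℕ))
    {V : ℂ → Matrix (Fin m × ι) ι ℂ} (hV : ∀ b k, AnalyticOnNhd ℂ (fun t => V t b k) U)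
    {Z : Matrix (Fin m × ι) (Fin m × ι) (Polynomial κ)} {P : ℂ → Matrix ι ι ℂ}
    (hP : ∀ t ∈ U, ∀ (l : Fin m) (a k : ι),
      w t ^ (l : ℕ) * P t a k = ∑ b, aeval t (Z (l, a) b) * V t b k)
    {δ n : ℕ} (hZ : Z.det.eval (n : κ) ≠ 0) (hn : (n : ℂ) ∈ U) (hdet : IsUnit (P n).det)
    (h : HasRelationC U w P (n : ℂ) κ δ) :
    Bad (wz (δ + 1) (Vt (fun j => ω j) V)) n := by
  classical
  obtain ⟨r, hdeg, hZc, hB⟩ := h
  push Not at hB
  obtain ⟨M₀, hM₀, hne⟩ := hB
  -- an entry different from zero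
  obtain ⟨a₀, k₀, hak⟩ : ∃ a₀ k₀, M₀ a₀ k₀ ≠ 0 := by
    by_contra hcon
    push Not at hcon
    have h0 : M₀ = 0 := by
      ext a k
      exact hcon a k
    have h1 := hM₀.1
    rw [h0, Matrix.det_zero] at h1
    exact not_isUnit_zero h1
  have hm : 0 < m := by
    rcases Nat.eq_zero_or_pos m with h0 | h0
    · subst h0
      have h1 := hf _ hn
      simp at h1
    · exact h0
  -- values at `n`
  have hval : ∀ p : Polynomial κ, aeval (n : ℂ) p = (((p.eval (n : κ) : κ) : Qbar) : ℂ) := by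
    intro p
    have h1 : (n : ℂ) = algebraMap κ ℂ (n : κ) := by simp
    rw [h1, Polynomial.aeval_algebraMap_apply_eq_algebraMap_eval]
    rfl
  have hu : ∃ c : Fin m → κ, (w n) ^ m = ∑ l, ((c l : Qbar) : ℂ) * (w n) ^ (l : ℕ) := by
    refine ⟨fun l => (f l).eval (n : κ), ?_⟩
    rw [hf _ hn]
    refine Finset.sum_congr rfl fun l _ => ?_
    rw [hval]
  obtain ⟨l, hl⟩ := rep_exists ω hm ⟨n, rfl⟩ hu (Z.map fun p => p.eval (n : κ)) a₀ k₀ r hdeg
  have hpair : ∀ t ∈ U, ∀ (b : Fin m × ι) (k : ι),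
      (w t) ^ (b.1 : ℕ) * P t b.2 k = ∑ c, aeval t (Z b c) * V t c k := by
    intro t htU b k
    exact hP t htU b.1 b.2 k
  refine ⟨l, ?_, ?_⟩
  · have h1 := hl (P n) (V n) (by
      intro b k
      rw [hpair _ hn b k]
      refine Finset.sum_congr rfl fun c _ => ?_
      rw [hval, Matrix.map_apply])
    rw [hZc (P n) ⟨hdet, fun q hq => hq⟩, mul_zero] at h1
    rw [← h1]
    refine Finset.sum_congr rfl fun α _ => ?_
    simp only [wz, Complex.ofReal_natCast]
    rfl
  · rintro ⟨v, hv1, hv2⟩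
    set q := qC (fun j => ω j) Z v with hq
    have hqU : ∀ t ∈ U, evC q t (w t) (P t) = 0 := by
      -- the identity theorem
      set g : ℂ → ℂ := fun t => (aeval t Z.det) ^ (δ + 1) *
        ∑ α, aeval t (v α) * ∏ j, ltr (sqK (fun j => ω j) (V t)) (α j) with hg
      have hga : AnalyticOnNhd ℂ g U := by
        intro t htU
        have h0 : AnalyticAt ℂ (fun t => (aeval t Z.det) ^ (δ + 1)) t :=
          (AnalyticAt.aeval_polynomial analyticAt_id Z.det).pow _
        have h1 : ∀ α, AnalyticAt ℂ (fun t => aeval t (v α)) t := fun α =>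
          AnalyticAt.aeval_polynomial analyticAt_id (v α)
        have h2 : ∀ o : Option ((J × (Fin m × ι)) × (J × (Fin m × ι))),
            AnalyticAt ℂ (fun t => ltr (sqK (fun j => ω j) (V t)) o) t := by
          intro o
          cases o with
          | none => exact analyticAt_const
          | some p => exact analyticAt_const.mul (hV p.1.2 p.2.2.2 t htU)
        have h3 : ∀ α : Fin (δ + 1) → Option ((J × (Fin m × ι)) × (J × (Fin m × ι))),
            AnalyticAt ℂ (fun t => ∏ j, ltr (sqK (fun j => ω j) (V t)) (α j)) t := fun α =>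
          Finset.analyticAt_fun_prod _ fun j _ => h2 (α j)
        exact h0.mul (Finset.analyticAt_fun_sum _ fun α _ => (h1 α).mul (h3 α))
      obtain ⟨t₁, ht₁⟩ := Filter.eventually_atTop.mp hv2
      set t₂ : ℝ := max t₀ t₁ + 1 with ht₂
      have h20 : t₀ < t₂ := lt_of_le_of_lt (le_max_left t₀ t₁) (lt_add_one _)
      have h21 : t₁ < t₂ := lt_of_le_of_lt (le_max_right t₀ t₁) (lt_add_one _)
      have hgz : ∀ t : ℝ, t₁ ≤ t → g (t : ℂ) = 0 := by
        intro t h1
        rw [hg]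
        have h2 := ht₁ t h1
        have h3 : ∑ α, aeval (t : ℂ) (v α) *
            ∏ j, ltr (sqK (fun j => ω j) (V (t : ℂ))) (α j) = 0 := h2
        show (aeval (t : ℂ) Z.det) ^ (δ + 1) * ∑ α, aeval (t : ℂ) (v α) *
            ∏ j, ltr (sqK (fun j => ω j) (V (t : ℂ))) (α j) = 0
        rw [h3, mul_zero]
      have hfreq : ∃ᶠ z in 𝓝[≠] (t₂ : ℂ), g z = 0 := by
        have hten : Tendsto (fun t : ℝ => (t : ℂ)) (𝓝[≠] t₂) (𝓝[≠] (t₂ : ℂ)) := by
          refine tendsto_nhdsWithin_of_tendsto_nhds_of_eventually_within _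
            ((Complex.continuous_ofReal.tendsto t₂).mono_left nhdsWithin_le_nhds) ?_
          filter_upwards [self_mem_nhdsWithin] with t h1
          intro h2
          exact h1 (Complex.ofReal_injective h2)
        refine hten.frequently (Eventually.frequently ?_)
        filter_upwards [mem_nhdsWithin_of_mem_nhds (lt_mem_nhds h21)] with t h1
        exact hgz t h1.le
      have hz := hga.eqOn_zero_of_preconnected_of_frequently_eq_zero hU' (ht t₂ h20) hfreq
      intro t htU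
      rw [hq, evC_qC (fun j => ω j) Z v (hpair t htU)]
      exact hz htU
    have hq0 := hM₀.2 q hqU
    -- the solution over `n`
    set Zn : Matrix (Fin m × ι) (Fin m × ι) ℂ := Z.map fun p => aeval (n : ℂ) p with hZn
    have hdetn : Zn.det = aeval (n : ℂ) Z.det := by
      rw [hZn]
      have h1 := AlgHom.map_det (aeval (n : ℂ) : Polynomial κ →ₐ[κ] ℂ) Z
      rw [h1]
      rfl
    have hdet0 : aeval (n : ℂ) Z.det ≠ 0 := by
      rw [hval]
      intro h1
      apply hZ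
      have h2 : ((Z.det.eval (n : κ) : κ) : Qbar) = 0 := by
        exact_mod_cast h1
      exact_mod_cast h2
    set W₀ : Matrix (Fin m × ι) ι ℂ :=
      Zn⁻¹ * Matrix.of fun (b : Fin m × ι) (k : ι) => (w n) ^ (b.1 : ℕ) * M₀ b.2 k with hW₀
    have hW : ∀ (b : Fin m × ι) (k : ι), (w n) ^ (b.1 : ℕ) * M₀ b.2 k =
        ∑ c, aeval (n : ℂ) (Z b c) * W₀ c k := by
      intro b k
      have h1 : Zn * W₀ = Matrix.of fun (b : Fin m × ι) (k : ι) =>
          (w n) ^ (b.1 : ℕ) * M₀ b.2 k := by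
        rw [hW₀]
        apply Matrix.mul_nonsing_inv_cancel_left
        rw [hdetn]
        exact isUnit_iff_ne_zero.mpr hdet0
      have h2 := congrFun (congrFun h1 b) k
      rw [Matrix.mul_apply] at h2
      exact h2.symm
    rw [hq, evC_qC (fun j => ω j) Z v hW] at hq0
    have h5 := hl M₀ W₀ (by
      intro b k
      rw [hW b k]
      refine Finset.sum_congr rfl fun c _ => ?_
      rw [hval, Matrix.map_apply])
    have h6 : ∑ α, aeval (n : ℂ) (v α) * ∏ j, ltr (sqK (fun j => ω j) W₀) (α j) =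
        M₀ a₀ k₀ * evK (kapC κ (n : ℂ) (w n)) r M₀ := by
      rw [← h5]
      refine Finset.sum_congr rfl fun α _ => ?_
      congr 1
      rw [← hv1 α]
      have h2 : aeval (n : ℂ) (v α) = algebraMap ℚ ℂ ((v α).eval (n : ℚ)) := by
        rw [← Polynomial.aeval_algebraMap_apply_eq_algebraMap_eval]
        simp
      rw [h2]
      rfl
    rw [h6] at hq0
    rcases mul_eq_zero.mp hq0 with h7 | h7
    · exact hdet0 (pow_eq_zero_iff (Nat.succ_ne_zero δ) |>.mp h7)
    · rcases mul_eq_zero.mp h7 with h8 | h8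
      · exact hak h8
      · exact hne h8

end Pool.Agent.Helper79.GX
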