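import Pool.Agent.Helper79.GC.Defs3

/-!
# GX: definitions for systems over number fields and curves over the line
-/

open Polynomial

namespace Pool.Agent.Helper79.GX

open Pool.Agent.Helper37.GP Pool.Agent.Helper79.GC Pool.Agent.Helper64.Per

/-! ### Systems over a field -/

/-- The divided iterates: `T^j V^(j) / j! = β_j V` for every solution of `T V' = A V`. -/
noncomputable def betaF {F : Type} [Field F] {β : Type} [Fintype β] [DecidableEq β] (T : F[X])
    (A : Matrix β β F[X]) : ℕ → Matrix β β F[X]
  | 0 => 1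
  | (j + 1) => (C (((j : F) + 1)⁻¹) : F[X]) • (T • (betaF T A j).map derivative
      - ((j : F[X]) * derivative T) • betaF T A j + betaF T A j * A)

/-- Galochkin's condition with constant `H`: for every `j` there is a natural number
`0 < q ≤ H^(j+1)` such that the coefficients of `q β_0, …, q β_j` are algebraic integers. -/
def GalF {F : Type} [Field F] {β : Type} [Fintype β] [DecidableEq β] (T : F[X])
    (A : Matrix β β F[X]) (H : ℕ) : Prop :=
  ∀ j, ∃ q : ℕ, 0 < q ∧ q ≤ H ^ (j + 1) ∧ ∀ i ≤ j, ∀ a b n,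
    IsIntegral ℤ ((q : F) * (betaF T A i a b).coeff n)

/-! ### Relations over a plane curve -/

section Rel

variable {ι : Type} [Fintype ι] [DecidableEq ι]

/-- The field generated over `κ` by those of the numbers `x`, `y` which are algebraic. -/
noncomputable def kapC (κ : IntermediateField ℚ Qbar) (x y : ℂ) : IntermediateField ℚ Qbar :=
  κ ⊔ IntermediateField.adjoin ℚ {z : Qbar | (z : ℂ) = x ∨ (z : ℂ) = y}

/-- Value at `(x, y, M)` of a polynomial in the coordinates `x`, `y` of the plane and the entries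
of `M`, with algebraic coefficients. -/
noncomputable def evC (q : MvPolynomial (Bool ⊕ ι × ι) Qbar) (x y : ℂ) (M : Matrix ι ι ℂ) : ℂ :=
  MvPolynomial.aeval (Sum.elim (fun b => if b then x else y) fun p => M p.1 p.2) q

/-- The fibre over `(s, w s)` of the `ℚ̄`-Zariski closure in `S × GL` of the graph of the
matrix-valued function `P` along the branch `t ↦ (t, w t)`, `t ∈ U`, of the plane curve `S`. -/
def BFibreC (U : Set ℂ) (w : ℂ → ℂ) (P : ℂ → Matrix ι ι ℂ) (s : ℂ) : Set (Matrix ι ι ℂ) :=
  {M | IsUnit M.det ∧ ∀ q : MvPolynomial (Bool ⊕ ι × ι) Qbar,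
    (∀ t ∈ U, evC q t (w t) (P t) = 0) → evC q s (w s) M = 0}

/-- There is a relation of degree at most `δ` over `κ(s, w s)` at the point `(s, w s)`: a
polynomial over this field of total degree at most `δ` which vanishes on the `ℚ̄`-Zariski closure of
`P s` but not on `BFibreC U w P s`. -/
def HasRelationC (U : Set ℂ) (w : ℂ → ℂ) (P : ℂ → Matrix ι ι ℂ) (s : ℂ)
    (κ : IntermediateField ℚ Qbar) (δ : ℕ) : Prop :=
  ∃ r : MvPolynomial (ι × ι) (kapC κ s (w s)), r.totalDegree ≤ δ ∧
    (∀ M ∈ ZClosure (P s), evK (kapC κ s (w s)) r M = 0) ∧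
    ¬ ∀ M ∈ BFibreC U w P s, evK (kapC κ s (w s)) r M = 0

end Rel

/-! ### Restriction of scalars -/

section Res

variable {F J β : Type} [Field F] [Algebra ℚ F] [Fintype J] [DecidableEq J]

/-- The matrix of the multiplication with a polynomial (transposed). -/
noncomputable def resP (ω : Module.Basis J ℚ F) (p : F[X]) (j j' : J) : ℚ[X] :=
  ∑ n ∈ p.support, monomial n (Algebra.leftMulMatrix ω (p.coeff n) j' j)

/-- Restriction of scalars of a matrix of polynomials. -/
noncomputable def resM (ω : Module.Basis J ℚ F) (A : Matrix β β F[X]) :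
    Matrix (J × β) (J × β) ℚ[X] :=
  Matrix.of fun p q => resP ω (A p.2 q.2) p.1 q.1

/-- Restriction of scalars of a matrix. -/
noncomputable def resC (ω : Module.Basis J ℚ F) (N : Matrix β β F) :
    Matrix (J × β) (J × β) ℚ :=
  Matrix.of fun p q => Algebra.leftMulMatrix ω (N p.2 q.2) q.1 p.1

/-- The vectors `ω_j V`, as a square matrix (the columns depend only on the last index). -/
noncomputable def Vt {κ : IntermediateField ℚ Qbar} {m : ℕ} {ι : Type} (ω : J → κ)
    (V : ℂ → Matrix (Fin m × ι) ι ℂ) (t : ℂ) :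
    Matrix (J × (Fin m × ι)) (J × (Fin m × ι)) ℂ :=
  Matrix.of fun p q => ((ω p.1 : Qbar) : ℂ) * V t p.2 q.2.2

end Res

end Pool.Agent.Helper79.GX
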