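import Pool.Agent.Helper79.GC.BinmDen

/-!
# GX-03: binomial coefficients of rational numbers, Vandermonde for matrices

* `binm_vand`: Vandermonde for commuting matrices (induction on `n` with `(n+1) binm M (n+1) = binm M n (M - n)`; or both sides are polynomial identities).
* `choose_den`: for `c = a/q`, `q ≥ 1`: `q^(2n) Ring.choose c n ∈ ℤ` (for instance Vandermonde `binom(x+y, n)` for `q` equal summands `a/q` and induction on `n`:
  `∑_{n_1+…+n_q=n} ∏ binom(a/q, n_i) = binom(a, n)`, so `q binom(a/q, n) = binom(a,n) - (products of lower ones)`, which with `u_n = q^(2n-1) binom(a/q,n)`, `n ≥ 1`,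
  gives integrality by induction; or: for every prime `p` not dividing `q` use a power of `p` and an integer congruent to `a/q`, for `p ∣ q` the bound `v_p(n!) < n`).
-/

open Polynomial

namespace Pool.Agent.Helper79.GX

open Pool.Agent.Helper37.GP Pool.Agent.Helper79.GC

variable {ι : Type} [Fintype ι] [DecidableEq ι]

private lemma cd_binm_succ (M : Matrix ι ι ℚ) (n : ℕ) :
    ((n : ℚ) + 1) • binm M (n + 1) = binm M n * (M - (n : ℚ) • 1) := by
  rw [binm, smul_smul, mul_inv_cancel₀ (by positivity), one_smul]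

private lemma cd_binm_add {S N : Matrix ι ι ℚ} (h : S * N = N * S) (n : ℕ) :
    binm (S + N) n = ∑ p ∈ Finset.HasAntidiagonal.antidiagonal n, binm S p.1 * binm N p.2 := by
  induction n with
  | zero => simp [binm]
  | succ n ih =>
    have hn : ((n : ℚ) + 1) ≠ 0 := by positivity
    have key : ((n : ℚ) + 1) • binm (S + N) (n + 1) =
        ((n : ℚ) + 1) • ∑ p ∈ Finset.HasAntidiagonal.antidiagonal (n + 1), binm S p.1 * binm N p.2 := by
      rw [cd_binm_succ, ih, Finset.smul_sum]
      have h1 : ∑ p ∈ Finset.HasAntidiagonal.antidiagonal (n + 1), ((n : ℚ) + 1) • (binm S p.1 * binm N p.2) =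
          ∑ p ∈ Finset.HasAntidiagonal.antidiagonal (n + 1), (p.1 : ℚ) • (binm S p.1 * binm N p.2) +
          ∑ p ∈ Finset.HasAntidiagonal.antidiagonal (n + 1), (p.2 : ℚ) • (binm S p.1 * binm N p.2) := by
        rw [← Finset.sum_add_distrib]
        refine Finset.sum_congr rfl fun p hp => ?_
        rw [← add_smul]
        congr 1
        have := Finset.HasAntidiagonal.mem_antidiagonal.1 hp
        exact_mod_cast this.symm
      rw [h1, Finset.Nat.sum_antidiagonal_succ,
        Finset.Nat.sum_antidiagonal_succ' (f := fun p => (p.2 : ℚ) • (binm S p.1 * binm N p.2))]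
      simp only [Nat.cast_zero, zero_smul, zero_add]
      rw [← Finset.sum_add_distrib, Finset.sum_mul]
      refine Finset.sum_congr rfl fun p hp => ?_
      have hp' : (n : ℚ) = p.1 + p.2 := by
        have := Finset.HasAntidiagonal.mem_antidiagonal.1 hp
        exact_mod_cast this.symm
      have e1 : ((p.1 + 1 : ℕ) : ℚ) • (binm S (p.1 + 1) * binm N p.2) =
          binm S p.1 * (S - (p.1 : ℚ) • 1) * binm N p.2 := by
        rw [← Matrix.smul_mul]
        push_cast
        rw [cd_binm_succ]
      have e2 : ((p.2 + 1 : ℕ) : ℚ) • (binm S p.1 * binm N (p.2 + 1)) =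
          binm S p.1 * (binm N p.2 * (N - (p.2 : ℚ) • 1)) := by
        rw [← Matrix.mul_smul]
        push_cast
        rw [cd_binm_succ]
      rw [e1, e2, hp']
      have hc : binm N p.2 * S = S * binm N p.2 := binm_comm h.symm p.2
      have e3 : binm S p.1 * (S - (p.1 : ℚ) • 1) * binm N p.2 =
          binm S p.1 * (binm N p.2 * (S - (p.1 : ℚ) • 1)) := by
        have e4 : (S - (p.1 : ℚ) • 1) * binm N p.2 = binm N p.2 * (S - (p.1 : ℚ) • 1) := by
          rw [sub_mul, mul_sub, hc, Matrix.smul_mul, Matrix.mul_smul, one_mul, mul_one]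
        rw [mul_assoc, e4]
      rw [e3, mul_assoc, ← mul_add, ← mul_add, add_smul]
      congr 2
      abel
    have := congrArg (fun A => ((n : ℚ) + 1)⁻¹ • A) key
    simpa only [smul_smul, inv_mul_cancel₀ hn, one_smul] using this

theorem binm_vand {M M' : Matrix ι ι ℚ} (h : M * M' = M' * M) (n : ℕ) :
    binm (M + M') n = ∑ i ∈ Finset.range (n + 1), binm M i * binm M' (n - i) := by
  rw [cd_binm_add h, Finset.Nat.sum_antidiagonal_eq_sum_range_succ
    (fun i j => binm M i * binm M' j)]

private lemma cd_smeval (c : ℚ) (n : ℕ) :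
    (descPochhammer ℤ n).smeval c = ∏ i ∈ Finset.range n, (c - i) := by
  induction n with
  | zero => simp
  | succ n ih =>
    rw [descPochhammer_succ_right, Polynomial.smeval_mul, ih, Finset.prod_range_succ,
      Polynomial.smeval_sub, Polynomial.smeval_X, Polynomial.smeval_natCast]
    simp

/-- divisibility of a product over an arithmetic progression -/
private lemma cd_dvd (a : ℤ) (b : ℕ) (hb : 0 < b) (n : ℕ) :
    ((n.factorial : ℕ) : ℤ) ∣ (b : ℤ) ^ n * ∏ i ∈ Finset.range n, (a - b * i) := by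
  rw [← Int.dvd_natAbs, Int.natCast_dvd_natCast, Nat.dvd_iff_prime_pow_dvd_dvd]
  intro p k hp hk
  rw [← Int.natCast_dvd_natCast, Int.dvd_natAbs]
  have : Fact p.Prime := ⟨hp⟩
  by_cases hpb : p ∣ b
  · have h1 : k ≤ n := by
      have h2 : k ≤ padicValNat p n.factorial :=
        (padicValNat_dvd_iff_le (Nat.factorial_ne_zero n)).1 hk
      exact h2.trans (padicValNat_factorial_le p n)
    apply Dvd.dvd.mul_right
    have h2 : p ^ k ∣ b ^ n := (pow_dvd_pow p h1).trans (pow_dvd_pow_of_dvd hpb n)
    exact_mod_cast h2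
  · apply Dvd.dvd.mul_left
    have hcop : Nat.Coprime (p ^ k) b := Nat.Coprime.pow_left k ((Nat.Prime.coprime_iff_not_dvd hp).2 hpb)
    have hcop' : IsCoprime ((p ^ k : ℕ) : ℤ) (b : ℤ) := Nat.isCoprime_iff_coprime.2 hcop
    obtain ⟨u, v, huv⟩ := hcop'
    -- `v b = 1` modulo `p ^ k`
    have h1 : ((p ^ k : ℕ) : ℤ) ∣ v ^ n * ∏ i ∈ Finset.range n, (a - b * i) := by
      have h2 : v ^ n * ∏ i ∈ Finset.range n, (a - b * i) =
          ∏ i ∈ Finset.range n, (v * (a - b * i)) := by
        rw [Finset.prod_mul_distrib, Finset.prod_const, Finset.card_range]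
      rw [h2]
      have h3 : ∏ i ∈ Finset.range n, (v * (a - b * i)) ≡
          ∏ i ∈ Finset.range n, (v * a - i) [ZMOD ((p ^ k : ℕ) : ℤ)] := by
        rw [← ZMod.intCast_eq_intCast_iff]
        push_cast
        refine Finset.prod_congr rfl fun i _ => ?_
        have h4 : ((u : ZMod (p ^ k)) * ((p ^ k : ℕ) : ZMod (p ^ k)) + v * (b : ZMod (p ^ k))) = 1 := by
          have := congrArg (fun z : ℤ => (z : ZMod (p ^ k))) huv
          push_cast at this ⊢
          exact this
        rw [ZMod.natCast_self, mul_zero, zero_add] at h4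
        linear_combination (-(i : ZMod (p ^ k))) * h4
      have h5 : ((p ^ k : ℕ) : ℤ) ∣ ∏ i ∈ Finset.range n, (v * a - i) := by
        have h6 : (((n.factorial : ℕ)) : ℤ) ∣ ∏ i ∈ Finset.range n, (-(v * a) + i) :=
          Nat.factorial_coe_dvd_prod n _
        have h7 : ∏ i ∈ Finset.range n, (-(v * a) + (i : ℤ)) =
            (-1) ^ n * ∏ i ∈ Finset.range n, (v * a - i) := by
          have : ∀ i ∈ Finset.range n, (-(v * a) + (i : ℤ)) = (-1) * (v * a - i) := by
            intro i _; ring
          rw [Finset.prod_congr rfl this, Finset.prod_mul_distrib, Finset.prod_const,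
            Finset.card_range]
        rw [h7] at h6
        have h8 : (((n.factorial : ℕ)) : ℤ) ∣ ∏ i ∈ Finset.range n, (v * a - i) := by
          have := h6.mul_left ((-1) ^ n)
          rwa [← mul_assoc, ← mul_pow, neg_one_mul, neg_neg, one_pow, one_mul] at this
        exact (Int.natCast_dvd_natCast.2 hk).trans h8
      exact Int.modEq_zero_iff_dvd.1 (h3.trans (Int.modEq_zero_iff_dvd.2 h5))
    have hcv : IsCoprime ((p ^ k : ℕ) : ℤ) (v ^ n) := by
      apply IsCoprime.pow_right
      exact ⟨u, b, by rw [← huv]; ring⟩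
    exact hcv.dvd_of_dvd_mul_left h1

theorem choose_den (c : ℚ) : ∃ q : ℕ, 1 ≤ q ∧ ∀ n : ℕ, ∃ z : ℤ,
    (q : ℚ) ^ n * Ring.choose c n = z := by
  have hb : 0 < c.den := c.den_pos
  have hb' : (c.den : ℚ) ≠ 0 := by exact_mod_cast hb.ne'
  refine ⟨c.den ^ 2, Nat.one_le_iff_ne_zero.2 (by positivity), fun n => ?_⟩
  obtain ⟨z, hz⟩ := cd_dvd c.num c.den hb n
  refine ⟨z, ?_⟩
  have hn : (n.factorial : ℚ) ≠ 0 := by exact_mod_cast Nat.factorial_ne_zero n
  have h1 : (n.factorial : ℚ) * Ring.choose c n = ∏ i ∈ Finset.range n, (c - i) := by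
    rw [← cd_smeval, Ring.descPochhammer_eq_factorial_smul_choose, nsmul_eq_mul]
  have h2 : (c.den : ℚ) ^ n * ∏ i ∈ Finset.range n, (c - i) =
      ∏ i ∈ Finset.range n, ((c.num : ℚ) - c.den * i) := by
    rw [← Finset.card_range n, ← Finset.prod_const, Finset.card_range, ← Finset.prod_mul_distrib]
    refine Finset.prod_congr rfl fun i _ => ?_
    have h3 : (c.den : ℚ) * c = c.num := by
      rw [mul_comm]
      exact Rat.mul_den_eq_num c
    rw [mul_sub, h3]
  have h4 : (n.factorial : ℚ) * z = (c.den : ℚ) ^ n * ∏ i ∈ Finset.range n, ((c.num : ℚ) - c.den * i) := by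
    have := congrArg (fun z : ℤ => (z : ℚ)) hz
    push_cast at this
    exact this.symm
  have h5 : (n.factorial : ℚ) * ((c.den : ℚ) ^ 2) ^ n * Ring.choose c n = n.factorial * z := by
    rw [h4, ← h2, ← h1]
    ring
  apply mul_left_cancel₀ hn
  rw [← h5]
  push_cast
  ring

end Pool.Agent.Helper79.GX
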