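import Pool.Agent.Helper79.GX.KDefs

/-!
# GX: the substitution `t ↦ -t`, systems over a field and curves
-/

open Polynomial

namespace Pool.Agent.Helper79.GX

open Pool.Agent.Helper37.GP Pool.Agent.Helper79.GC Pool.Agent.Helper64.Per

section

variable {F β : Type} [Field F] [Fintype β] [DecidableEq β]

/-- The matrix `-A(-t)`. -/
noncomputable def negF (A : Matrix β β F[X]) : Matrix β β F[X] :=
  A.map fun p => -(p.comp (-X))

theorem betaF_neg (T : F[X]) (A : Matrix β β F[X]) (j : ℕ) (a b : β) :
    betaF (T.comp (-X)) (negF A) j a b = C ((-1 : F) ^ j) * (betaF T A j a b).comp (-X) := by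
  induction j generalizing a b with
  | zero =>
    rw [betaF, betaF, pow_zero, map_one, one_mul]
    by_cases h : a = b
    · rw [h, Matrix.one_apply_eq]
      simp
    · rw [Matrix.one_apply_ne h]
      simp
  | succ j ih =>
    have hd : ∀ p : F[X], derivative (p.comp (-X)) = -(derivative p).comp (-X) := by
      intro p
      rw [derivative_comp]
      simp
    have hN : ∀ x b, negF A x b = -(A x b).comp (-X) := fun _ _ => rfl
    rw [betaF, betaF]
    simp only [Matrix.smul_apply, Matrix.add_apply, Matrix.sub_apply, Matrix.map_apply,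
      Matrix.mul_apply, smul_eq_mul, ih, hN, hd, derivative_mul, derivative_C, zero_mul, zero_add,
      mul_comp, add_comp, sub_comp, C_comp, natCast_comp, Polynomial.sum_comp]
    have h1 : ∑ x, C ((-1 : F) ^ j) * (betaF T A j a x).comp (-X) * -(A x b).comp (-X) =
        -(C ((-1 : F) ^ j) * ∑ x, (betaF T A j a x).comp (-X) * (A x b).comp (-X)) := by
      rw [Finset.mul_sum, ← Finset.sum_neg_distrib]
      apply Finset.sum_congr rfl
      intro x _
      ring
    rw [h1, pow_succ, map_mul, map_neg, map_one]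
    ring

theorem galF_neg {T : ℤ[X]} {A : Matrix β β F[X]} {H : ℕ}
    (h : GalF (T.map (Int.castRingHom F)) A H) :
    GalF ((T.comp (-X)).map (Int.castRingHom F)) (negF A) H := by
  have hT : (T.comp (-X)).map (Int.castRingHom F) = (T.map (Int.castRingHom F)).comp (-X) := by
    rw [Polynomial.map_comp]
    simp
  intro j
  obtain ⟨q, h1, h2, h3⟩ := h j
  refine ⟨q, h1, h2, fun i hi a b n => ?_⟩
  rw [hT, betaF_neg]
  have hX : (-X : F[X]) = C (-1 : F) * X := by simp
  rw [coeff_C_mul, hX, comp_C_mul_X_coeff]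
  have h4 := h3 i hi a b n
  have h5 : IsIntegral ℤ ((-1 : F) ^ i * (-1) ^ n) := by
    refine IsIntegral.mul (IsIntegral.pow ?_ _) (IsIntegral.pow ?_ _) <;>
      exact isIntegral_one.neg
  have h6 := h5.mul h4
  have e : (q : F) * ((-1) ^ i * ((betaF (T.map (Int.castRingHom F)) A i a b).coeff n * (-1) ^ n)) =
      (-1 : F) ^ i * (-1) ^ n * ((q : F) * (betaF (T.map (Int.castRingHom F)) A i a b).coeff n) := by
    ring
  rw [e]
  exact h6

end

section

variable {ι : Type} [Fintype ι] [DecidableEq ι]

/-- Substitution of `-x` in a polynomial in `x, y` and the entries of a matrix. -/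
noncomputable def ngC (ι : Type) :
    MvPolynomial (Bool ⊕ ι × ι) Qbar →ₐ[Qbar] MvPolynomial (Bool ⊕ ι × ι) Qbar :=
  MvPolynomial.aeval (Sum.elim (fun b => if b then -MvPolynomial.X (Sum.inl true)
    else MvPolynomial.X (Sum.inl false)) fun p => MvPolynomial.X (Sum.inr p))

omit [Fintype ι] [DecidableEq ι] in
theorem evC_ngC (q : MvPolynomial (Bool ⊕ ι × ι) Qbar) (x y : ℂ) (M : Matrix ι ι ℂ) :
    evC (ngC ι q) x y M = evC q (-x) y M := by
  unfold evC ngC
  rw [MvPolynomial.aeval_def, MvPolynomial.aeval_def, MvPolynomial.aeval_def]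
  have h : ∀ q : MvPolynomial (Bool ⊕ ι × ι) Qbar,
      (MvPolynomial.aeval (Sum.elim (fun b => if b then x else y) fun p => M p.1 p.2))
        ((MvPolynomial.aeval (Sum.elim (fun b => if b then -MvPolynomial.X (Sum.inl true)
          else MvPolynomial.X (Sum.inl false)) fun p => MvPolynomial.X (Sum.inr p)) :
          MvPolynomial (Bool ⊕ ι × ι) Qbar →ₐ[Qbar] MvPolynomial (Bool ⊕ ι × ι) Qbar) q) =
      MvPolynomial.aeval (Sum.elim (fun b => if b then -x else y) fun p => M p.1 p.2) q := by
    intro q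
    induction q using MvPolynomial.induction_on with
    | C a => simp
    | add p q hp hq => rw [map_add, map_add, map_add, hp, hq]
    | mul_X p i hp =>
      rw [map_mul, map_mul, map_mul, hp]
      congr 1
      rcases i with b | p
      · cases b <;> simp
      · simp
  exact h q

theorem kapC_neg (κ : IntermediateField ℚ Qbar) (x y : ℂ) : kapC κ (-x) y = kapC κ x y := by
  unfold kapC
  apply le_antisymm
  · refine sup_le le_sup_left ?_
    rw [IntermediateField.adjoin_le_iff]
    rintro z (hz | hz)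
    · have h1 : (-z : Qbar) ∈ κ ⊔ IntermediateField.adjoin ℚ {z : Qbar | (z : ℂ) = x ∨ (z : ℂ) = y} := by
        refine (le_sup_right : _ ≤ κ ⊔ _) (IntermediateField.subset_adjoin _ _ (Or.inl ?_))
        push_cast
        rw [hz, neg_neg]
      have h2 := neg_mem h1
      rw [neg_neg] at h2
      exact h2
    · exact (le_sup_right : _ ≤ κ ⊔ _) (IntermediateField.subset_adjoin _ _ (Or.inr hz))
  · refine sup_le le_sup_left ?_
    rw [IntermediateField.adjoin_le_iff]
    rintro z (hz | hz)
    · have h1 : (-z : Qbar) ∈ κ ⊔ IntermediateField.adjoin ℚ {z : Qbar | (z : ℂ) = -x ∨ (z : ℂ) = y} := by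
        refine (le_sup_right : _ ≤ κ ⊔ _) (IntermediateField.subset_adjoin _ _ (Or.inl ?_))
        push_cast
        rw [hz]
      have h2 := neg_mem h1
      rw [neg_neg] at h2
      exact h2
    · exact (le_sup_right : _ ≤ κ ⊔ _) (IntermediateField.subset_adjoin _ _ (Or.inr hz))

theorem hasRelationC_neg {U : Set ℂ} {w : ℂ → ℂ} {P : ℂ → Matrix ι ι ℂ} {s : ℂ}
    {κ : IntermediateField ℚ Qbar} {δ : ℕ} (h : HasRelationC U w P (-s) κ δ) :
    HasRelationC {t | -t ∈ U} (fun t => w (-t)) (fun t => P (-t)) s κ δ := by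
  unfold HasRelationC at h ⊢
  rw [kapC_neg] at h
  obtain ⟨r, hdeg, hz, hnot⟩ := h
  refine ⟨r, hdeg, hz, fun hall => hnot fun M hM => hall M ⟨hM.1, fun q hq => ?_⟩⟩
  have h1 := hM.2 (ngC ι q) (fun t ht => by
      rw [evC_ngC]
      have h2 := hq (-t) (by rw [Set.mem_ofPred_eq, neg_neg]; exact ht)
      simp only [neg_neg] at h2
      exact h2)
  rw [evC_ngC, neg_neg] at h1
  exact h1

end

end Pool.Agent.Helper79.GX
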