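import Pool.Agent.Helper79.GX.Spec1

/-!
# GX-02: matrices with rational eigenvalues, spectral decomposition

* `spec_of_charpoly`: over `ℂ` the characteristic polynomial is a product of factors `X - c`, `c ∈ ℚ`; take `s` = the set of roots, `m` = the degree
  (compare `Pool.Agent.Helper79.GC.CharEig`).
* `ratIn_of_spec`: choose `lo`, `n`. `tame_of_ratIn`: the numbers in `[lo, lo + 1)` have distance less than `1`.
* `spec_split`: by the Chinese remainder theorem (the polynomials `(X - c)^m`, `c ∈ s`, are pairwise coprime) there are `e_c ∈ ℚ[X]` with `e_c ≡ 1 mod (X-c)^m`,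
  `e_c ≡ 0 mod (X-c')^m`; `π_c = e_c(M)`. `N₀ = M - ∑ c π_c = ∑ (M - c) π_c`, `N₀^m = ∑ (M-c)^m π_c = 0`. (`m ≥ 1` may be assumed. If `s` is empty then `1 = 0`.)
-/

open Polynomial

namespace Pool.Agent.Helper79.GX

open Pool.Agent.Helper37.GP Pool.Agent.Helper79.GC

variable {ι : Type} [Fintype ι] [DecidableEq ι]

private theorem ss_prod_dvd_pow {R : Type} [CommRing R] (s : Multiset R) {a : R}
    (h : ∀ x ∈ s, x ∣ a) : s.prod ∣ a ^ (Multiset.card s) := by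
  induction s using Multiset.induction_on with
  | empty => simp
  | cons x s ih =>
    rw [Multiset.prod_cons, Multiset.card_cons, pow_succ']
    exact mul_dvd_mul (h x (Multiset.mem_cons_self _ _))
      (ih fun y hy => h y (Multiset.mem_cons_of_mem hy))

theorem spec_of_charpoly {N : Matrix ι ι ℚ}
    (h : ∀ z : ℂ, (N.charpoly.map (algebraMap ℚ ℂ)).IsRoot z → ∃ c : ℚ, z = c) :
    ∃ s : Finset ℚ, Spec s N := by
  have hp : N.charpoly ≠ 0 := N.charpoly_monic.ne_zero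
  have hM : aeval N N.charpoly = 0 := Matrix.aeval_self_charpoly N
  set p := N.charpoly with hpdef
  set P := p.map (algebraMap ℚ ℂ) with hP
  have hP0 : P ≠ 0 := by
    rw [hP, Ne, Polynomial.map_eq_zero]
    exact hp
  have h1 : ∀ z ∈ P.roots, ∃ k : ℚ, z = k := fun z hz => h z (isRoot_of_mem_roots hz)
  classical
  let g : ℂ → ℚ := fun z => if hz : ∃ k : ℚ, z = k then hz.choose else 0
  have hg : ∀ z ∈ P.roots, z = g z := by
    intro z hz
    have hk := h1 z hz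
    have e : g z = hk.choose := by
      simp only [g]
      rw [dif_pos hk]
    rw [e]
    exact hk.choose_spec
  refine ⟨P.roots.toFinset.image g, Multiset.card P.roots, ?_⟩
  set Q : ℚ[X] := ∏ k ∈ P.roots.toFinset.image g, ((X : ℚ[X]) - C k) with hQ
  have hQm : Q.map (algebraMap ℚ ℂ) =
      ∏ k ∈ P.roots.toFinset.image g, ((X : ℂ[X]) - C (k : ℂ)) := by
    rw [hQ, Polynomial.map_prod]
    refine Finset.prod_congr rfl fun k _ => ?_
    rw [Polynomial.map_sub, Polynomial.map_X, Polynomial.map_C]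
    simp
  have h2 : P ∣ (Q.map (algebraMap ℚ ℂ)) ^ Multiset.card P.roots := by
    have h3 := (IsAlgClosed.splits P).eq_prod_roots
    have h4 : (Multiset.map (fun a => X - C a) P.roots).prod ∣
        (Q.map (algebraMap ℚ ℂ)) ^ Multiset.card P.roots := by
      have := ss_prod_dvd_pow (Multiset.map (fun a => (X : ℂ[X]) - C a) P.roots)
        (a := Q.map (algebraMap ℚ ℂ)) (by
          intro x hx
          obtain ⟨z, hz, rfl⟩ := Multiset.mem_map.1 hx
          rw [hQm]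
          have e1 : (X : ℂ[X]) - C z = X - C ((g z : ℚ) : ℂ) := by rw [← hg z hz]
          rw [e1]
          exact Finset.dvd_prod_of_mem (fun k : ℚ => (X : ℂ[X]) - C (k : ℂ))
            (Finset.mem_image_of_mem g (Multiset.mem_toFinset.2 hz)))
      rwa [Multiset.card_map] at this
    have h5 : IsUnit (C P.leadingCoeff) := by
      rw [isUnit_C]
      exact isUnit_iff_ne_zero.2 (leadingCoeff_ne_zero.2 hP0)
    rw [h3]
    conv_rhs => rw [← h3]
    exact (h5.mul_left_dvd).2 h4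
  have h6 : p ∣ Q ^ Multiset.card P.roots := by
    rw [← Polynomial.map_pow] at h2
    exact (Polynomial.map_dvd_map' (algebraMap ℚ ℂ)).1 h2
  obtain ⟨q, hq⟩ := h6
  rw [hq, map_mul, hM, zero_mul]

theorem ratIn_of_spec {s : Finset ℚ} {M : Matrix ι ι ℚ} (h : Spec s M) :
    ∃ (lo : ℤ) (n : ℕ), RatIn lo (n + 1) M := by
  obtain ⟨a, ha⟩ := s.bddBelow
  obtain ⟨b, hb⟩ := s.bddAbove
  refine ⟨⌊a⌋, (⌈b⌉ - ⌊a⌋).toNat, s, fun c hc => ?_, h⟩
  have h1 : a ≤ c := ha (Finset.mem_coe.2 hc)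
  have h2 : c ≤ b := hb (Finset.mem_coe.2 hc)
  have h3 : (⌊a⌋ : ℚ) ≤ a := Int.floor_le a
  have h4 : b ≤ (⌈b⌉ : ℚ) := Int.le_ceil b
  have h5 : ((⌈b⌉ - ⌊a⌋ : ℤ) : ℚ) ≤ (((⌈b⌉ - ⌊a⌋).toNat : ℕ) : ℚ) := by
    exact_mod_cast Int.self_le_toNat (⌈b⌉ - ⌊a⌋)
  rw [Int.cast_sub] at h5
  refine ⟨h3.trans h1, ?_⟩
  rw [Nat.cast_add, Nat.cast_one]
  linarith

theorem tame_of_ratIn {lo : ℤ} {M : Matrix ι ι ℚ} (h : RatIn lo 1 M) : Tame M := by
  obtain ⟨s, hs, hM⟩ := h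
  refine ⟨s, fun c hc c' hc' => ?_, hM⟩
  obtain ⟨h1, h2⟩ := hs c hc
  obtain ⟨h3, h4⟩ := hs c' hc'
  rw [Nat.cast_one] at h2 h4
  rw [abs_lt]
  constructor <;> linarith

theorem tame_neg {M : Matrix ι ι ℚ} (h : Tame M) : Tame (-M) := by
  obtain ⟨s, hs, hM⟩ := h
  refine ⟨s.image fun c => -c, fun c hc c' hc' => ?_, spec_neg hM⟩
  obtain ⟨a, ha, rfl⟩ := Finset.mem_image.1 hc
  obtain ⟨b, hb, rfl⟩ := Finset.mem_image.1 hc'
  have h1 := hs b hb a ha
  have h2 : -a - -b = b - a := by ring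
  rw [h2]
  exact h1

theorem tame_transpose {M : Matrix ι ι ℚ} (h : Tame M) : Tame M.transpose := by
  obtain ⟨s, hs, hM⟩ := h
  exact ⟨s, hs, spec_transpose hM⟩

/-- The spectral decomposition. -/
theorem spec_split {s : Finset ℚ} {M : Matrix ι ι ℚ} (h : Spec s M) :
    ∃ (π : ℚ → Matrix ι ι ℚ) (N₀ : Matrix ι ι ℚ), (∀ c, ∃ p : ℚ[X], π c = aeval M p) ∧
      (∃ p : ℚ[X], N₀ = aeval M p) ∧ IsNilpotent N₀ ∧ ∑ c ∈ s, π c = 1 ∧
      (∀ c ∈ s, ∀ c' ∈ s, π c * π c' = if c = c' then π c else 0) ∧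
      M = (∑ c ∈ s, c • π c) + N₀ := by
  obtain ⟨m, hm⟩ := h
  have hcop : ∀ c d : ℚ, c ≠ d →
      IsCoprime (((X : ℚ[X]) - C c) ^ (m + 1)) (((X : ℚ[X]) - C d) ^ (m + 1)) := fun c d hcd =>
    (isCoprime_X_sub_C_of_isUnit_sub (isUnit_iff_ne_zero.2 (sub_ne_zero.2 hcd))).pow
  have hex : ∀ c ∈ s, ∃ e : ℚ[X], ((X : ℚ[X]) - C c) ^ (m + 1) ∣ e - 1 ∧
      ∀ d ∈ s, d ≠ c → ((X : ℚ[X]) - C d) ^ (m + 1) ∣ e := by
    intro c _
    have h1 : IsCoprime (((X : ℚ[X]) - C c) ^ (m + 1))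
        (∏ d ∈ s.erase c, ((X : ℚ[X]) - C d) ^ (m + 1)) :=
      IsCoprime.prod_right fun d hd => hcop c d (Finset.ne_of_mem_erase hd).symm
    obtain ⟨a, b, hab⟩ := h1
    refine ⟨b * ∏ d ∈ s.erase c, ((X : ℚ[X]) - C d) ^ (m + 1), ⟨-a, ?_⟩, ?_⟩
    · linear_combination hab
    · intro d hd hdc
      exact (Finset.dvd_prod_of_mem (fun d => ((X : ℚ[X]) - C d) ^ (m + 1))
        (Finset.mem_erase.2 ⟨hdc, hd⟩)).mul_left b
  choose! e he1 he2 using hex
  have key : ∀ p : ℚ[X], (∀ d ∈ s, ((X : ℚ[X]) - C d) ^ (m + 1) ∣ p) → aeval M p = 0 := by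
    intro p hp
    have h1 : (∏ d ∈ s, ((X : ℚ[X]) - C d) ^ (m + 1)) ∣ p :=
      Finset.prod_dvd_of_coprime (fun c _ d _ hcd => hcop c d hcd) hp
    obtain ⟨q, rfl⟩ := h1
    rw [map_mul, Finset.prod_pow, pow_succ, map_mul, hm, zero_mul, zero_mul]
  have hsplit : ∀ (f : ℚ → ℚ[X]) (d : ℚ), d ∈ s →
      (∀ c ∈ s, c ≠ d → ((X : ℚ[X]) - C d) ^ (m + 1) ∣ f c) →
      ((X : ℚ[X]) - C d) ^ (m + 1) ∣ (∑ c ∈ s, f c) - f d := by
    intro f d hd hf
    rw [← Finset.add_sum_erase s f hd, add_sub_cancel_left]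
    exact Finset.dvd_sum fun c hc => hf c (Finset.mem_of_mem_erase hc) (Finset.ne_of_mem_erase hc)
  refine ⟨fun c => aeval M (e c), aeval M (X - ∑ c ∈ s, C c * e c), fun c => ⟨_, rfl⟩, ⟨_, rfl⟩,
    ⟨m + 1, ?_⟩, ?_, ?_, ?_⟩
  · rw [← map_pow]
    refine key _ fun d hd => pow_dvd_pow_of_dvd ?_ (m + 1)
    have h1 := hsplit (fun c => C c * e c) d hd fun c hc hcd => (he2 c hc d hd hcd.symm).mul_left _
    have h2 : ((X : ℚ[X]) - C d) ∣ (X - C d) ^ (m + 1) := dvd_pow_self _ (Nat.succ_ne_zero m)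
    have h3 : (X : ℚ[X]) - ∑ c ∈ s, C c * e c =
        (X - C d) - C d * (e d - 1) - ((∑ c ∈ s, C c * e c) - C d * e d) := by ring
    rw [h3]
    exact dvd_sub (dvd_sub dvd_rfl ((h2.trans (he1 d hd)).mul_left _)) (h2.trans h1)
  · have h1 : aeval M ((∑ c ∈ s, e c) - 1) = 0 := by
      refine key _ fun d hd => ?_
      have h2 := hsplit e d hd fun c hc hcd => he2 c hc d hd hcd.symm
      have h3 : (∑ c ∈ s, e c) - 1 = ((∑ c ∈ s, e c) - e d) + (e d - 1) := by ring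
      rw [h3]
      exact dvd_add h2 (he1 d hd)
    rw [map_sub, map_sum, map_one, sub_eq_zero] at h1
    exact h1
  · intro c hc c' hc'
    show aeval M (e c) * aeval M (e c') = if c = c' then aeval M (e c) else 0
    by_cases hcc : c = c'
    · subst hcc
      rw [if_pos rfl, ← map_mul, ← sub_eq_zero, ← map_sub]
      refine key _ fun d hd => ?_
      have h1 : e c * e c - e c = e c * (e c - 1) := by ring
      rw [h1]
      by_cases hdc : d = c
      · subst hdc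
        exact (he1 d hd).mul_left _
      · exact (he2 c hc d hd hdc).mul_right _
    · rw [if_neg hcc, ← map_mul]
      refine key _ fun d hd => ?_
      by_cases hdc : d = c
      · subst hdc
        exact (he2 c' hc' d hd hcc).mul_left _
      · exact (he2 c hc d hd hdc).mul_right _
  · show M = (∑ c ∈ s, c • aeval M (e c)) + aeval M (X - ∑ c ∈ s, C c * e c)
    have h1 : ∑ c ∈ s, c • aeval M (e c) = aeval M (∑ c ∈ s, C c * e c) := by
      rw [map_sum]
      refine Finset.sum_congr rfl fun c _ => ?_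
      rw [map_mul, aeval_C, Algebra.smul_def]
    rw [h1, ← map_add, add_sub_cancel, aeval_X]

end Pool.Agent.Helper79.GX
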