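import Pool.Agent.Helper79.GX.KDefs
import Pool.Agent.Helper79.GX.SpecSplit

/-!
# GX-12: restriction of scalars

`L = Algebra.leftMulMatrix ω : F →ₐ[ℚ] Matrix J J ℚ`, `x ω_j = ∑_{j'} L(x)_{j' j} ω_{j'}` (`Algebra.leftMulMatrix_apply`, `LinearMap.toMatrix_apply`, `Basis.sum_repr`).

* `exists_basis`: `κ` is a number field (`NumberField κ` from `FiniteDimensional ℚ κ`), `ω = NumberField.integralBasis κ` (index type `Module.Free.ChooseBasisIndex ℤ (𝓞 κ)`):
  for `x` integral over `ℤ` the products `x ω_j` are integral, so their coordinates (`integralBasis_repr_apply`) are integers.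
* `coeff_resP`: clear from the definition (`Polynomial.finset_sum_coeff`, `coeff_monomial`).
* `resM_mul`, `resM_one`, …: the map `A ↦ resM ω A` is additive and multiplicative (`L` is a homomorphism into matrices and `F` is commutative: the transpose reverses the
  order, `L(x) L(y) = L(y) L(x)`), commutes with `map derivative` and with the multiplication by polynomials over `ℤ` (or `ℚ`): `resM ω ((T.map _) • A) = (T.map _) • resM ω A`.
* `res_gal`: hence `beta (T.map _) (resM ω A) j = resM ω (betaF (T.map _) A j)` by induction. If `q x` is integral then `q L(x) = L(q x)` has integer entries.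
* `res_res`: degrees and leading coefficients.
* `res_spec`: all roots of the characteristic polynomial of `N` in `ℂ` are rational, so it is a product of factors `X - c`, `c ∈ ℚ`, over `κ` (it splits over `ℂ`; map injective), and by
  Cayley-Hamilton `∏_{c ∈ s} (N - c)^m = 0`, `m` = degree. `resC ω` is a homomorphism of `ℚ`-algebras (compare `Pool.Agent.Helper79.GC.CharEig`).
* `res_eval`: `∑_{j'} (L(x))_{j' j} ω_{j'} = x ω_j` for every coefficient `x`.
-/

open Polynomial

namespace Pool.Agent.Helper79.GX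

open Pool.Agent.Helper37.GP Pool.Agent.Helper79.GC Pool.Agent.Helper64.Per

theorem exists_basis (κ : IntermediateField ℚ Qbar) [FiniteDimensional ℚ κ] :
    ∃ (J : Type) (_ : Fintype J) (_ : DecidableEq J) (ω : Module.Basis J ℚ κ),
      ∀ x : κ, IsIntegral ℤ x → ∀ j j', ∃ z : ℤ, Algebra.leftMulMatrix ω x j j' = z := by
  classical
  have hnf : NumberField κ := { to_charZero := inferInstance, to_finiteDimensional := inferInstance }
  refine ⟨Module.Free.ChooseBasisIndex ℤ (NumberField.RingOfIntegers κ), inferInstance,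
    inferInstance, NumberField.integralBasis κ, ?_⟩
  intro x hx j j'
  rw [Algebra.leftMulMatrix_eq_repr_mul, NumberField.integralBasis_apply]
  have h1 : IsIntegral ℤ (algebraMap (NumberField.RingOfIntegers κ) κ
      ((NumberField.RingOfIntegers.basis κ) j')) :=
    NumberField.RingOfIntegers.isIntegral_coe _
  have h2 : IsIntegral ℤ (x * algebraMap (NumberField.RingOfIntegers κ) κ
      ((NumberField.RingOfIntegers.basis κ) j')) := hx.mul h1
  set y : NumberField.RingOfIntegers κ := ⟨_, h2⟩ with hy
  have h3 : x * algebraMap (NumberField.RingOfIntegers κ) κ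
      ((NumberField.RingOfIntegers.basis κ) j') = algebraMap (NumberField.RingOfIntegers κ) κ y :=
    rfl
  rw [h3, NumberField.integralBasis_repr_apply]
  exact ⟨_, rfl⟩

section

variable {F J β : Type} [Field F] [Algebra ℚ F] [Fintype J] [DecidableEq J] [Fintype β]
  [DecidableEq β]

omit [Fintype β] [DecidableEq β] in
theorem coeff_resP (ω : Module.Basis J ℚ F) (p : F[X]) (j j' : J) (n : ℕ) :
    (resP ω p j j').coeff n = Algebra.leftMulMatrix ω (p.coeff n) j' j := by
  unfold resP
  rw [finset_sum_coeff]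
  simp only [coeff_monomial]
  rw [Finset.sum_ite_eq']
  split_ifs with h
  · rfl
  · rw [notMem_support_iff.1 h, map_zero]
    rfl

private theorem lm_comm (ω : Module.Basis J ℚ F) (x y : F) (j j' : J) :
    Algebra.leftMulMatrix ω (x * y) j' j =
      ∑ k, Algebra.leftMulMatrix ω x k j * Algebra.leftMulMatrix ω y j' k := by
  rw [mul_comm, map_mul, Matrix.mul_apply]
  exact Finset.sum_congr rfl fun k _ => mul_comm _ _

private theorem resP_mul (ω : Module.Basis J ℚ F) (p q : F[X]) (j j' : J) :
    resP ω (p * q) j j' = ∑ k, resP ω p j k * resP ω q k j' := by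
  ext n
  rw [coeff_resP, coeff_mul, map_sum, Matrix.sum_apply, finset_sum_coeff]
  simp only [coeff_mul, coeff_resP]
  rw [Finset.sum_comm]
  exact Finset.sum_congr rfl fun x _ => lm_comm ω _ _ _ _

private theorem resP_zero (ω : Module.Basis J ℚ F) (j j' : J) : resP ω (0 : F[X]) j j' = 0 := by
  ext n
  rw [coeff_resP, coeff_zero, map_zero, coeff_zero]
  rfl

private theorem resP_add (ω : Module.Basis J ℚ F) (p q : F[X]) (j j' : J) :
    resP ω (p + q) j j' = resP ω p j j' + resP ω q j j' := by
  ext n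
  rw [coeff_resP, coeff_add, coeff_add, map_add, coeff_resP, coeff_resP]
  rfl

private theorem resP_sub (ω : Module.Basis J ℚ F) (p q : F[X]) (j j' : J) :
    resP ω (p - q) j j' = resP ω p j j' - resP ω q j j' := by
  ext n
  rw [coeff_resP, coeff_sub, coeff_sub, map_sub, coeff_resP, coeff_resP]
  rfl

private theorem resP_sum (ω : Module.Basis J ℚ F) {ι : Type} (s : Finset ι) (p : ι → F[X])
    (j j' : J) : resP ω (∑ i ∈ s, p i) j j' = ∑ i ∈ s, resP ω (p i) j j' := by
  classical
  induction s using Finset.induction_on with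
  | empty => rw [Finset.sum_empty, Finset.sum_empty, resP_zero]
  | insert a s ha ih => rw [Finset.sum_insert ha, Finset.sum_insert ha, resP_add, ih]

private theorem resP_map (ω : Module.Basis J ℚ F) (q : ℚ[X]) (j j' : J) :
    resP ω (q.map (algebraMap ℚ F)) j j' = if j = j' then q else 0 := by
  ext n
  rw [coeff_resP, coeff_map, AlgHom.commutes, Algebra.algebraMap_eq_smul_one, Matrix.smul_apply,
    Matrix.one_apply]
  by_cases h : j = j'
  · rw [if_pos h.symm, if_pos h, smul_eq_mul, mul_one]
  · rw [if_neg (Ne.symm h), if_neg h, smul_zero, coeff_zero]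

private theorem resP_smul (ω : Module.Basis J ℚ F) (q : ℚ[X]) (p : F[X]) (j j' : J) :
    resP ω (q.map (algebraMap ℚ F) * p) j j' = q * resP ω p j j' := by
  rw [resP_mul, Finset.sum_eq_single j]
  · rw [resP_map, if_pos rfl]
  · intro k _ hk
    rw [resP_map, if_neg (Ne.symm hk), zero_mul]
  · intro h
    exact absurd (Finset.mem_univ j) h

private theorem resP_derivative (ω : Module.Basis J ℚ F) (p : F[X]) (j j' : J) :
    resP ω (derivative p) j j' = derivative (resP ω p j j') := by
  ext n
  rw [coeff_resP, coeff_derivative, coeff_derivative, coeff_resP]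
  have h : p.coeff (n + 1) * ((n : F) + 1) = ((n : ℚ) + 1) • p.coeff (n + 1) := by
    rw [Algebra.smul_def, mul_comm]
    congr 1
    rw [map_add, map_natCast, map_one]
  rw [h, map_smul, Matrix.smul_apply, smul_eq_mul, mul_comm]

private theorem resM_apply (ω : Module.Basis J ℚ F) (A : Matrix β β F[X]) (p q : J × β) :
    resM ω A p q = resP ω (A p.2 q.2) p.1 q.1 := rfl

theorem resM_mul (ω : Module.Basis J ℚ F) (A B : Matrix β β F[X]) :
    resM ω (A * B) = resM ω A * resM ω B := by
  ext1 p q
  rw [resM_apply, Matrix.mul_apply, resP_sum, Matrix.mul_apply, Fintype.sum_prod_type,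
    Finset.sum_comm]
  exact Finset.sum_congr rfl fun b _ => resP_mul ω _ _ _ _

private theorem resM_one (ω : Module.Basis J ℚ F) : resM ω (1 : Matrix β β F[X]) = 1 := by
  ext1 p q
  rw [resM_apply, Matrix.one_apply, Matrix.one_apply]
  have h1 : (1 : F[X]) = (1 : ℚ[X]).map (algebraMap ℚ F) := by rw [Polynomial.map_one]
  by_cases h : p.2 = q.2
  · rw [if_pos h, h1, resP_map]
    by_cases h' : p.1 = q.1
    · rw [if_pos h', if_pos (Prod.ext h' h)]
    · rw [if_neg h', if_neg fun e => h' (congrArg Prod.fst e)]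
  · rw [if_neg h, resP_zero, if_neg fun e => h (congrArg Prod.snd e)]

private theorem resM_add (ω : Module.Basis J ℚ F) (A B : Matrix β β F[X]) :
    resM ω (A + B) = resM ω A + resM ω B := by
  ext1 p q
  exact resP_add ω _ _ _ _

private theorem resM_sub (ω : Module.Basis J ℚ F) (A B : Matrix β β F[X]) :
    resM ω (A - B) = resM ω A - resM ω B := by
  ext1 p q
  exact resP_sub ω _ _ _ _

private theorem resM_smul (ω : Module.Basis J ℚ F) (q : ℚ[X]) (A : Matrix β β F[X]) :
    resM ω (q.map (algebraMap ℚ F) • A) = q • resM ω A := by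
  ext1 p q'
  exact resP_smul ω _ _ _ _

private theorem resM_derivative (ω : Module.Basis J ℚ F) (A : Matrix β β F[X]) :
    resM ω (A.map derivative) = (resM ω A).map derivative := by
  ext1 p q
  exact resP_derivative ω _ _ _

private theorem beta_resM (ω : Module.Basis J ℚ F) (T : ℤ[X]) (A : Matrix β β F[X]) (j : ℕ) :
    beta (T.map (Int.castRingHom ℚ)) (resM ω A) j =
      resM ω (betaF (T.map (Int.castRingHom F)) A j) := by
  have hT : T.map (Int.castRingHom F) = (T.map (Int.castRingHom ℚ)).map (algebraMap ℚ F) := by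
    rw [Polynomial.map_map]
    congr 1
    exact RingHom.ext_int _ _
  induction j with
  | zero => exact (resM_one ω).symm
  | succ j ih =>
    show (C (((j : ℚ) + 1)⁻¹) : ℚ[X]) • ((T.map (Int.castRingHom ℚ)) •
      (beta (T.map (Int.castRingHom ℚ)) (resM ω A) j).map derivative
      - ((j : ℚ[X]) * derivative (T.map (Int.castRingHom ℚ))) •
        beta (T.map (Int.castRingHom ℚ)) (resM ω A) j +
        beta (T.map (Int.castRingHom ℚ)) (resM ω A) j * resM ω A) =
      resM ω ((C (((j : F) + 1)⁻¹) : F[X]) • ((T.map (Int.castRingHom F)) •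
        (betaF (T.map (Int.castRingHom F)) A j).map derivative
        - ((j : F[X]) * derivative (T.map (Int.castRingHom F))) •
          betaF (T.map (Int.castRingHom F)) A j +
          betaF (T.map (Int.castRingHom F)) A j * A))
    have e1 : (C (((j : F) + 1)⁻¹) : F[X]) =
        (C (((j : ℚ) + 1)⁻¹) : ℚ[X]).map (algebraMap ℚ F) := by
      rw [Polynomial.map_C]
      congr 1
      rw [map_inv₀, map_add, map_natCast, map_one]
    have e2 : (j : F[X]) * derivative (T.map (Int.castRingHom F)) =
        ((j : ℚ[X]) * derivative (T.map (Int.castRingHom ℚ))).map (algebraMap ℚ F) := by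
      rw [Polynomial.map_mul, Polynomial.map_natCast, ← Polynomial.derivative_map, hT]
    rw [ih, e1, e2, resM_smul, resM_add, resM_sub, resM_smul, resM_mul]
    conv_rhs => rw [hT, resM_smul, ← hT]
    rw [resM_derivative]

theorem res_gal (ω : Module.Basis J ℚ F)
    (hω : ∀ x : F, IsIntegral ℤ x → ∀ j j', ∃ z : ℤ, Algebra.leftMulMatrix ω x j j' = z)
    {T : ℤ[X]} {A : Matrix β β F[X]} {H : ℕ} (h : GalF (T.map (Int.castRingHom F)) A H) :
    Galochkin (T.map (Int.castRingHom ℚ)) (resM ω A) H := by
  intro j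
  obtain ⟨q, hq0, hqH, hq⟩ := h j
  refine ⟨q, hq0, hqH, ?_⟩
  intro i hi a b n
  rw [beta_resM, resM_apply, coeff_resP]
  obtain ⟨z, hz⟩ := hω _ (hq i hi a.2 b.2 n) b.1 a.1
  refine ⟨z, ?_⟩
  rw [← hz]
  have e : (q : F) * (betaF (T.map (Int.castRingHom F)) A i a.2 b.2).coeff n =
      (q : ℚ) • (betaF (T.map (Int.castRingHom F)) A i a.2 b.2).coeff n := by
    rw [Algebra.smul_def, map_natCast]
  rw [e, map_smul, Matrix.smul_apply, smul_eq_mul]

theorem res_res (ω : Module.Basis J ℚ F) {T : ℤ[X]} {A : Matrix β β F[X]} {N : Matrix β β F}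
    (hT : T ≠ 0) (hdeg : ∀ i j, (A i j).natDegree + 1 ≤ T.natDegree)
    (hN : ∀ i j, (A i j).coeff (T.natDegree - 1) = -((T.leadingCoeff : F) * N i j)) :
    IsRes (T.map (Int.castRingHom ℚ)) (resM ω A) (resC ω N) := by
  have hinj : Function.Injective (Int.castRingHom ℚ) := Int.cast_injective
  have hd : (T.map (Int.castRingHom ℚ)).natDegree = T.natDegree :=
    Polynomial.natDegree_map_eq_of_injective hinj T
  have hl : (T.map (Int.castRingHom ℚ)).leadingCoeff = (T.leadingCoeff : ℚ) := by
    rw [Polynomial.leadingCoeff_map_of_injective hinj]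
    rfl
  refine ⟨?_, ?_, ?_⟩
  · rw [Ne, Polynomial.map_eq_zero_iff hinj]
    exact hT
  · intro a b
    rw [hd]
    refine le_trans (Nat.add_le_add_right ?_ 1) (hdeg a.2 b.2)
    rw [natDegree_le_iff_coeff_eq_zero]
    intro n hn
    rw [resM_apply, coeff_resP, coeff_eq_zero_of_natDegree_lt hn, map_zero]
    rfl
  · rw [hd, hl]
    ext1 a b
    show (resM ω A a b).coeff (T.natDegree - 1) = -((T.leadingCoeff : ℚ) • resC ω N a b)
    rw [resM_apply, coeff_resP, hN]
    have e : -((T.leadingCoeff : F) * N a.2 b.2) = -((T.leadingCoeff : ℚ) • N a.2 b.2) := by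
      rw [Algebra.smul_def, map_intCast]
    rw [e, map_neg, map_smul]
    rfl

private theorem resC_apply (ω : Module.Basis J ℚ F) (N : Matrix β β F) (p q : J × β) :
    resC ω N p q = Algebra.leftMulMatrix ω (N p.2 q.2) q.1 p.1 := rfl

/-- restriction of scalars of matrices as a homomorphism of algebras -/
private noncomputable def resCH (ω : Module.Basis J ℚ F) :
    Matrix β β F →ₐ[ℚ] Matrix (J × β) (J × β) ℚ :=
  AlgHom.ofLinearMap
    { toFun := resC ω
      map_add' := by
        intro A B
        ext1 p q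
        show Algebra.leftMulMatrix ω (A p.2 q.2 + B p.2 q.2) q.1 p.1 = _
        rw [map_add]
        rfl
      map_smul' := by
        intro c A
        ext1 p q
        show Algebra.leftMulMatrix ω (c • A p.2 q.2) q.1 p.1 = _
        rw [map_smul]
        rfl }
    (by
      ext1 p q
      show Algebra.leftMulMatrix ω ((1 : Matrix β β F) p.2 q.2) q.1 p.1 = _
      rw [Matrix.one_apply, Matrix.one_apply]
      by_cases h : p.2 = q.2
      · rw [if_pos h, map_one, Matrix.one_apply]
        by_cases h' : p.1 = q.1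
        · rw [if_pos h'.symm, if_pos (Prod.ext h' h)]
        · rw [if_neg (Ne.symm h'), if_neg fun e => h' (congrArg Prod.fst e)]
      · rw [if_neg h, map_zero, if_neg fun e => h (congrArg Prod.snd e)]
        rfl)
    (by
      intro A B
      ext1 p q
      show Algebra.leftMulMatrix ω ((A * B) p.2 q.2) q.1 p.1 = (resC ω A * resC ω B) p q
      rw [Matrix.mul_apply, map_sum, Matrix.sum_apply, Matrix.mul_apply, Fintype.sum_prod_type,
        Finset.sum_comm]
      exact Finset.sum_congr rfl fun b _ => lm_comm ω _ _ _ _)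

end

section

variable {κ : IntermediateField ℚ Qbar} {J β : Type} [Fintype J] [DecidableEq J] [Fintype β]
  [DecidableEq β]

private theorem rk_prod_dvd_pow {R : Type} [CommRing R] (s : Multiset R) {a : R}
    (h : ∀ x ∈ s, x ∣ a) : s.prod ∣ a ^ (Multiset.card s) := by
  induction s using Multiset.induction_on with
  | empty => simp
  | cons x s ih =>
    rw [Multiset.prod_cons, Multiset.card_cons, pow_succ']
    exact mul_dvd_mul (h x (Multiset.mem_cons_self _ _))
      (ih fun y hy => h y (Multiset.mem_cons_of_mem hy))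

theorem res_spec (ω : Module.Basis J ℚ κ) {N : Matrix β β κ}
    (h : ∀ z : ℂ, (N.charpoly.map (algebraMap κ ℂ)).IsRoot z → ∃ c : ℚ, z = c) :
    ∃ s : Finset ℚ, Spec s (resC ω N) := by
  have hp : N.charpoly ≠ 0 := N.charpoly_monic.ne_zero
  have hM : aeval N N.charpoly = 0 := Matrix.aeval_self_charpoly N
  set p := N.charpoly with hpdef
  set P := p.map (algebraMap κ ℂ) with hP
  have hP0 : P ≠ 0 := by
    rw [hP, Ne, Polynomial.map_eq_zero]
    exact hp
  have h1 : ∀ z ∈ P.roots, ∃ k : ℚ, z = k := fun z hz => h z (isRoot_of_mem_roots hz)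
  classical
  let g : ℂ → ℚ := fun z => if hz : ∃ k : ℚ, z = k then hz.choose else 0
  have hg : ∀ z ∈ P.roots, z = g z := by
    intro z hz
    have hk := h1 z hz
    have e : g z = hk.choose := by
      simp only [g]
      rw [dif_pos hk]
    rw [e]
    exact hk.choose_spec
  refine ⟨P.roots.toFinset.image g, Multiset.card P.roots, ?_⟩
  set Q : ℚ[X] := ∏ k ∈ P.roots.toFinset.image g, ((X : ℚ[X]) - C k) with hQ
  have hQm : (Q.map (algebraMap ℚ κ)).map (algebraMap κ ℂ) =
      ∏ k ∈ P.roots.toFinset.image g, ((X : ℂ[X]) - C (k : ℂ)) := by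
    rw [Polynomial.map_map, hQ, Polynomial.map_prod]
    refine Finset.prod_congr rfl fun k _ => ?_
    rw [Polynomial.map_sub, Polynomial.map_X, Polynomial.map_C]
    have e : ((algebraMap κ ℂ).comp (algebraMap ℚ κ)) k = ((k : ℚ) : ℂ) :=
      eq_ratCast ((algebraMap κ ℂ).comp (algebraMap ℚ κ)) k
    rw [e]
  have h2 : P ∣ ((Q.map (algebraMap ℚ κ)).map (algebraMap κ ℂ)) ^ Multiset.card P.roots := by
    have h3 := (IsAlgClosed.splits P).eq_prod_roots
    have h4 : (Multiset.map (fun a => X - C a) P.roots).prod ∣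
        ((Q.map (algebraMap ℚ κ)).map (algebraMap κ ℂ)) ^ Multiset.card P.roots := by
      have := rk_prod_dvd_pow (Multiset.map (fun a => (X : ℂ[X]) - C a) P.roots)
        (a := (Q.map (algebraMap ℚ κ)).map (algebraMap κ ℂ)) (by
          intro x hx
          obtain ⟨z, hz, rfl⟩ := Multiset.mem_map.1 hx
          rw [hQm]
          have e1 : (X : ℂ[X]) - C z = X - C ((g z : ℚ) : ℂ) := by rw [← hg z hz]
          rw [e1]
          exact Finset.dvd_prod_of_mem (fun k : ℚ => (X : ℂ[X]) - C (k : ℂ))
            (Finset.mem_image_of_mem g (Multiset.mem_toFinset.2 hz)))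
      rwa [Multiset.card_map] at this
    have h5 : IsUnit (C P.leadingCoeff) := by
      rw [isUnit_C]
      exact isUnit_iff_ne_zero.2 (leadingCoeff_ne_zero.2 hP0)
    rw [h3]
    conv_rhs => rw [← h3]
    exact (h5.mul_left_dvd).2 h4
  have h6 : p ∣ (Q.map (algebraMap ℚ κ)) ^ Multiset.card P.roots := by
    rw [← Polynomial.map_pow] at h2
    exact (Polynomial.map_dvd_map' (algebraMap κ ℂ)).1 h2
  have h7 : aeval N ((Q ^ Multiset.card P.roots).map (algebraMap ℚ κ)) = 0 := by
    obtain ⟨q, hq⟩ := h6
    rw [Polynomial.map_pow, hq, map_mul, hM, zero_mul]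
  rw [aeval_map_algebraMap] at h7
  have h8 : aeval (resCH ω N) (Q ^ Multiset.card P.roots) =
      resCH ω (aeval N (Q ^ Multiset.card P.roots)) := aeval_algHom_apply (resCH ω) N _
  rw [h7, map_zero] at h8
  exact h8

theorem res_eval (ω : Module.Basis J ℚ κ) (A : Matrix β β (Polynomial κ)) (v : β → ℂ) (t : ℂ)
    (p : J × β) : ∑ q : J × β, aeval t (resM ω A p q) * (((ω q.1 : Qbar) : ℂ) * v q.2) =
      ((ω p.1 : Qbar) : ℂ) * ∑ b, aeval t (A p.2 b) * v b := by
  have hcoe : ∀ x : κ, algebraMap κ ℂ x = ((x : Qbar) : ℂ) := fun _ => rfl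
  -- one coefficient
  have h1 : ∀ (x : κ) (j : J), ∑ j', ((Algebra.leftMulMatrix ω x j' j : ℚ) : ℂ) *
      ((ω j' : Qbar) : ℂ) = ((x : Qbar) : ℂ) * ((ω j : Qbar) : ℂ) := by
    intro x j
    have h2 := ω.sum_repr (x * ω j)
    have h3 := congrArg (algebraMap κ ℂ) h2
    have h3' : algebraMap κ ℂ (x * ω j) = ((x : Qbar) : ℂ) * ((ω j : Qbar) : ℂ) := by
      rw [map_mul, hcoe, hcoe]
    rw [map_sum, h3'] at h3
    rw [← h3]
    refine Finset.sum_congr rfl fun j' _ => ?_
    rw [Algebra.leftMulMatrix_eq_repr_mul, Algebra.smul_def,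
      RingHom.map_mul (algebraMap κ ℂ), hcoe (ω j')]
    have e : algebraMap κ ℂ (algebraMap ℚ κ ((ω.repr (x * ω j)) j')) =
        (((ω.repr (x * ω j)) j' : ℚ) : ℂ) :=
      eq_ratCast ((algebraMap κ ℂ).comp (algebraMap ℚ κ)) _
    rw [e]
  have h4 : ∀ (a : Polynomial κ) (j : J), ∑ j', aeval t (resP ω a j j') *
      ((ω j' : Qbar) : ℂ) = ((ω j : Qbar) : ℂ) * aeval t a := by
    intro a j
    have h5 : ∀ j', aeval t (resP ω a j j') =
        ∑ n ∈ a.support, ((Algebra.leftMulMatrix ω (a.coeff n) j' j : ℚ) : ℂ) * t ^ n := by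
      intro j'
      unfold resP
      rw [map_sum]
      refine Finset.sum_congr rfl fun n _ => ?_
      rw [aeval_monomial]
      rfl
    have h6 : aeval t a = ∑ n ∈ a.support, ((a.coeff n : Qbar) : ℂ) * t ^ n := by
      rw [aeval_def, eval₂_eq_sum, Polynomial.sum]
      rfl
    rw [h6, Finset.mul_sum]
    simp only [h5, Finset.sum_mul]
    rw [Finset.sum_comm]
    refine Finset.sum_congr rfl fun n _ => ?_
    have h7 := h1 (a.coeff n) j
    rw [← mul_assoc, mul_comm ((ω j : Qbar) : ℂ), ← h7, Finset.sum_mul]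
    exact Finset.sum_congr rfl fun j' _ => by ring
  rw [Fintype.sum_prod_type, Finset.sum_comm, Finset.mul_sum]
  refine Finset.sum_congr rfl fun b _ => ?_
  rw [← mul_assoc, ← h4, Finset.sum_mul]
  refine Finset.sum_congr rfl fun j' _ => ?_
  rw [resM_apply]
  ring

end

end Pool.Agent.Helper79.GX
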