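import Pool.Agent.Helper79.GX.Word
import Pool.Agent.Helper79.GX.ResK
import Pool.Agent.Helper79.GX.RelBadK
import Pool.Agent.Helper79.GX.NegK
import Pool.Agent.Helper79.GC.MainA3

/-!
# GX: the general theorem over number fields and curves
-/

open Polynomial Filter Topology

namespace Pool.Agent.Helper79.GX

open Pool.Agent.Helper37.GP Pool.Agent.Helper79.GC Pool.Agent.Helper64.Per

variable {ι : Type} [Fintype ι] [DecidableEq ι]

theorem sparse_count' {α : Type} [Fintype α] {z : ℝ → α → ℂ} (hs : Sparse z) {E : Set ℕ} (n₀ : ℕ)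
    (h : ∀ n, n₀ ≤ n → n ∈ E → Bad z n) :
    ∃ (B : ℕ) (θ C : ℝ), 0 < θ ∧ θ < 1 ∧
      (∀ n : ℕ, 1 ≤ n → Set.ncard {i : ℕ | n ≤ i ∧ (i : ℝ) ≤ n + (n : ℝ) ^ θ ∧ i ∈ E} ≤ B) ∧
      ∀ X : ℕ, 1 ≤ X → (Set.ncard {n : ℕ | n ≤ X ∧ n ∈ E} : ℝ) ≤ C * (X : ℝ) ^ (1 - θ) := by
  obtain ⟨C, M, hCM⟩ := hs
  refine sparse_count ⟨max C n₀, M, fun K s a hK h1 h2 h3 h4 => ?_⟩
  have h5 : (K + 1) ^ C ≤ s :=
    le_trans (Nat.pow_le_pow_right (by omega) (le_max_left _ _)) h4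
  obtain ⟨j, hj⟩ := hCM K s a hK (fun j => le_trans (le_max_left _ _) (h1 j)) h2
    (fun i j hij => by
      have := h3 i j hij
      have h6 : C ≤ max C n₀ := le_max_left _ _
      omega) h5
  refine ⟨j, fun hb => hj (h _ ?_ hb)⟩
  have h6 : n₀ ≤ max C n₀ := le_max_right _ _
  have h7 : max C n₀ < 2 ^ max C n₀ := Nat.lt_two_pow_self
  have h8 : 2 ^ max C n₀ ≤ (K + 1) ^ max C n₀ := Nat.pow_le_pow_left (by omega) _
  omega

theorem eval_ne_large {F : Type} [Field F] [CharZero F] {p : F[X]} (hp : p ≠ 0) :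
    ∃ n₀ : ℕ, ∀ n : ℕ, n₀ ≤ n → p.eval (n : F) ≠ 0 := by
  classical
  have hfin : {n : ℕ | p.eval (n : F) = 0}.Finite := by
    refine Set.Finite.of_finite_image (f := fun n : ℕ => (n : F)) ?_
      (Nat.cast_injective.injOn)
    refine (p.roots.toFinset.finite_toSet).subset ?_
    rintro _ ⟨n, hn, rfl⟩
    simpa [hp] using hn
  obtain ⟨n₀, hn₀⟩ := hfin.bddAbove
  refine ⟨n₀ + 1, fun n hn h => ?_⟩
  have := hn₀ (show n ∈ {n : ℕ | p.eval (n : F) = 0} from h)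
  omega

theorem aeval_ne_large {T : ℤ[X]} (hT : T ≠ 0) :
    ∃ t₁ : ℝ, ∀ t : ℝ, t₁ < t → aeval (t : ℂ) T ≠ 0 := by
  have := evM_det_ne (ι := Unit) (Z := Matrix.of fun _ _ => T) (by simpa using hT)
  obtain ⟨t₁, h⟩ := this
  refine ⟨t₁, fun t htt h0 => h t htt ?_⟩
  rw [Pool.Agent.Helper79.GC.evM, Matrix.det_unique]
  exact h0

theorem mainK1 [Nonempty ι] {κ : IntermediateField ℚ Qbar} [FiniteDimensional ℚ κ] {m : ℕ}
    {T : ℤ[X]} {A : Matrix (Fin m × ι) (Fin m × ι) (Polynomial κ)}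
    (hG : ∃ H : ℕ, GalF (T.map (Int.castRingHom κ)) A H)
    (hdeg : ∀ i j, (A i j).natDegree + 1 ≤ T.natDegree)
    {N : Matrix (Fin m × ι) (Fin m × ι) κ}
    (hN : ∀ i j, (A i j).coeff (T.natDegree - 1) = -((T.leadingCoeff : κ) * N i j))
    (hexp : ∀ z : ℂ, (N.charpoly.map (algebraMap κ ℂ)).IsRoot z → ∃ c : ℚ, z = c)
    {U : Set ℂ} (hU : IsOpen U) (hU' : IsPreconnected U) {t₀ : ℝ}
    (ht : ∀ t : ℝ, t₀ < t → (t : ℂ) ∈ U) {w : ℂ → ℂ} (hw : AnalyticOnNhd ℂ w U)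
    {f : Fin m → Polynomial κ}
    (hf : ∀ t ∈ U, w t ^ m = ∑ l : Fin m, aeval t (f l) * w t ^ (l : ℕ))
    {V : ℂ → Matrix (Fin m × ι) ι ℂ} (hV : ∀ b k, AnalyticOnNhd ℂ (fun t => V t b k) U)
    (hode : ∀ t ∈ U, ∀ b k, aeval t T * deriv (fun t => V t b k) t =
      ∑ c, aeval t (A b c) * V t c k)
    {Z : Matrix (Fin m × ι) (Fin m × ι) (Polynomial κ)} (hZ : Z.det ≠ 0)
    {P : ℂ → Matrix ι ι ℂ}
    (hP : ∀ t ∈ U, ∀ (l : Fin m) (a k : ι),
      w t ^ (l : ℕ) * P t a k = ∑ b, aeval t (Z (l, a) b) * V t b k)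
    (hdet : ∀ t ∈ U, IsUnit (P t).det) (δ : ℕ) :
    ∃ (B : ℕ) (θ C : ℝ), 0 < θ ∧ θ < 1 ∧
      (∀ n : ℕ, 1 ≤ n → Set.ncard {i : ℕ | n ≤ i ∧ (i : ℝ) ≤ n + (n : ℝ) ^ θ ∧
        ((i : ℂ) ∈ U ∧ HasRelationC U w P (i : ℂ) κ δ)} ≤ B) ∧
      ∀ X : ℕ, 1 ≤ X → (Set.ncard {i : ℕ | i ≤ X ∧
        ((i : ℂ) ∈ U ∧ HasRelationC U w P (i : ℂ) κ δ)} : ℝ) ≤ C * (X : ℝ) ^ (1 - θ) := by
  obtain ⟨H, hG⟩ := hG
  have htU : ((t₀ + 1 : ℝ) : ℂ) ∈ U := ht _ (lt_add_one _)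
  have hm : 0 < m := by
    rcases Nat.eq_zero_or_pos m with h | h
    · subst h
      have := hf _ htU
      simp at this
    · exact h
  have : Nonempty (Fin m × ι) := ⟨(⟨0, hm⟩, Classical.arbitrary ι)⟩
  have hT : T ≠ 0 := by
    rintro rfl
    have b : Fin m × ι := Classical.arbitrary _
    have := hdeg b b
    rw [natDegree_zero] at this
    omega
  obtain ⟨J, _, _, ω, hω⟩ := exists_basis κ
  have : Nonempty J := ω.index_nonempty
  have haev : ∀ t : ℂ, aeval t (T.map (Int.castRingHom ℚ)) = aeval t T := fun t => by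
    rw [aeval_def, aeval_def, eval₂_map]
    congr 1
  obtain ⟨t₁, ht₁⟩ := aeval_ne_large hT
  obtain ⟨s, hs⟩ := res_spec ω hexp
  have hsp : Sparse (wz (δ + 1) (Vt (fun j => ω j) V)) := by
    refine word_sparse (res_gal ω hω hG) (res_res ω hT hdeg hN) hs
      ⟨max t₀ t₁, fun t htt p q => ?_⟩ (δ + 1)
    have hU1 : (t : ℂ) ∈ U := ht t (lt_of_le_of_lt (le_max_left _ _) htt)
    have h1 : DifferentiableAt ℂ (fun t => V t p.2 q.2.2) (t : ℂ) :=
      (hV _ _ (t : ℂ) hU1).differentiableAt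
    have h2 := (h1.hasDerivAt.comp_ofReal).const_mul (((ω p.1 : Qbar) : ℂ))
    have h3 := hode (t : ℂ) hU1 p.2 q.2.2
    have h4 := ht₁ t (lt_of_le_of_lt (le_max_right _ _) htt)
    have h5 := res_eval ω A (fun b => V (t : ℂ) b q.2.2) (t : ℂ) p
    have h6 : ∑ r : J × (Fin m × ι), aeval (t : ℂ) (resM ω A p r) *
        Vt (fun j => ω j) V (t : ℂ) r q =
        ((ω p.1 : Qbar) : ℂ) * (aeval (t : ℂ) T * deriv (fun t => V t p.2 q.2.2) (t : ℂ)) := by
      rw [h3, ← h5]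
      rfl
    rw [haev, h6]
    have h7 : (aeval (t : ℂ) T)⁻¹ * (((ω p.1 : Qbar) : ℂ) *
        (aeval (t : ℂ) T * deriv (fun t => V t p.2 q.2.2) (t : ℂ))) =
        ((ω p.1 : Qbar) : ℂ) * deriv (fun t => V t p.2 q.2.2) (t : ℂ) := by
      field_simp
    rw [h7]
    exact h2
  obtain ⟨n₀, hn₀⟩ := eval_ne_large hZ
  refine sparse_count' hsp (E := {i : ℕ | (i : ℂ) ∈ U ∧ HasRelationC U w P (i : ℂ) κ δ}) n₀ ?_
  rintro n hn ⟨hnU, hrel⟩
  exact rel_badK ω hU hU' ht hw hf hV hP (hn₀ n hn) hnU (hdet _ hnU) hrel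

theorem aeval_comp_negK {κ : IntermediateField ℚ Qbar} (p : Polynomial κ) (t : ℂ) :
    aeval t (p.comp (-X)) = aeval (-t) p := by
  rw [aeval_comp, map_neg, aeval_X]

theorem mainK [Nonempty ι] {κ : IntermediateField ℚ Qbar} [FiniteDimensional ℚ κ] {m : ℕ}
    {T : ℤ[X]} {A : Matrix (Fin m × ι) (Fin m × ι) (Polynomial κ)}
    (hG : ∃ H : ℕ, GalF (T.map (Int.castRingHom κ)) A H)
    (hdeg : ∀ i j, (A i j).natDegree + 1 ≤ T.natDegree)
    {N : Matrix (Fin m × ι) (Fin m × ι) κ}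
    (hN : ∀ i j, (A i j).coeff (T.natDegree - 1) = -((T.leadingCoeff : κ) * N i j))
    (hexp : ∀ z : ℂ, (N.charpoly.map (algebraMap κ ℂ)).IsRoot z → ∃ c : ℚ, z = c)
    {U : Set ℂ} (hU : IsOpen U) (hU' : IsPreconnected U) {t₀ : ℝ}
    (ht : ∀ t : ℝ, t₀ < |t| → (t : ℂ) ∈ U) {w : ℂ → ℂ} (hw : AnalyticOnNhd ℂ w U)
    {f : Fin m → Polynomial κ}
    (hf : ∀ t ∈ U, w t ^ m = ∑ l : Fin m, aeval t (f l) * w t ^ (l : ℕ))
    {V : ℂ → Matrix (Fin m × ι) ι ℂ} (hV : ∀ b k, AnalyticOnNhd ℂ (fun t => V t b k) U)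
    (hode : ∀ t ∈ U, ∀ b k, aeval t T * deriv (fun t => V t b k) t =
      ∑ c, aeval t (A b c) * V t c k)
    {Z : Matrix (Fin m × ι) (Fin m × ι) (Polynomial κ)} (hZ : Z.det ≠ 0)
    {P : ℂ → Matrix ι ι ℂ}
    (hP : ∀ t ∈ U, ∀ (l : Fin m) (a k : ι),
      w t ^ (l : ℕ) * P t a k = ∑ b, aeval t (Z (l, a) b) * V t b k)
    (hdet : ∀ t ∈ U, IsUnit (P t).det) (δ : ℕ) :
    ∃ (B : ℕ) (θ C : ℝ), 0 < θ ∧ θ < 1 ∧
      (∀ n : ℕ, 1 ≤ n → Set.ncard {i : ℤ | (n : ℝ) ≤ |(i : ℝ)| ∧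
        |(i : ℝ)| ≤ n + (n : ℝ) ^ θ ∧ ((i : ℂ) ∈ U ∧ HasRelationC U w P (i : ℂ) κ δ)} ≤ B) ∧
      ∀ X : ℕ, 1 ≤ X → (Set.ncard {i : ℤ | |(i : ℝ)| ≤ X ∧
        ((i : ℂ) ∈ U ∧ HasRelationC U w P (i : ℂ) κ δ)} : ℝ) ≤ C * (X : ℝ) ^ (1 - θ) := by
  have htU : ((|t₀| + 1 : ℝ) : ℂ) ∈ U := ht _ (by
    rw [abs_of_nonneg (by positivity)]
    exact (le_abs_self t₀).trans_lt (lt_add_one _))
  have hm : 0 < m := by
    rcases Nat.eq_zero_or_pos m with h | h
    · subst h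
      have := hf _ htU
      simp at this
    · exact h
  have : Nonempty (Fin m × ι) := ⟨(⟨0, hm⟩, Classical.arbitrary ι)⟩
  have k₁ := mainK1 hG hdeg hN hexp hU hU' (t₀ := t₀)
    (fun t htt => ht t (lt_of_lt_of_le htt (le_abs_self t))) hw hf hV hode hZ hP hdet δ
  obtain ⟨H, hH⟩ := hG
  have k₂ := mainK1 (T := T.comp (-X)) (A := negF A) ⟨H, galF_neg hH⟩
    (by
      intro i j
      rw [negF, Matrix.map_apply, natDegree_neg, natDegree_comp, natDegree_neg, natDegree_X,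
        mul_one, natDegree_comp_neg]
      exact hdeg i j) (N := N)
    (by
      intro i j
      have h1 : 1 ≤ T.natDegree := by
        have := hdeg i j
        omega
      have hlc : (T.comp (-X)).leadingCoeff = (-1) ^ T.natDegree * T.leadingCoeff := by
        rw [leadingCoeff, natDegree_comp_neg, coeff_comp_neg]
        rfl
      rw [negF, Matrix.map_apply, coeff_neg, natDegree_comp_neg, coeff_comp_neg, hN i j, hlc]
      obtain ⟨m, hm⟩ : ∃ m, T.natDegree = m + 1 := ⟨T.natDegree - 1, by omega⟩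
      rw [hm, Nat.add_sub_cancel]
      push_cast
      rw [pow_succ]
      ring) hexp (isOpen_negSet hU) (isPreconnected_negSet hU') (t₀ := t₀)
    (fun t htt => by
      have h2 := ht (-t) (by
        rw [abs_neg]
        exact lt_of_lt_of_le htt (le_abs_self t))
      show -(t : ℂ) ∈ U
      rw [← Complex.ofReal_neg]
      exact h2)
    (w := fun t => w (-t))
    (by
      intro t htt
      have h6 : AnalyticAt ℂ w (-t) := hw (-t) htt
      exact h6.fun_comp (analyticAt_id.neg))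
    (f := fun l => (f l).comp (-X))
    (by
      intro t htt
      show w (-t) ^ m = _
      rw [hf (-t) htt]
      simp only [aeval_comp_negK])
    (V := fun t => V (-t))
    (by
      intro i k t htt
      have h6 : AnalyticAt ℂ (fun t => V t i k) (-t) := hV i k (-t) htt
      exact h6.fun_comp (analyticAt_id.neg))
    (by
      intro t htt i k
      have h7 : deriv (fun t => V (-t) i k) t = -deriv (fun t => V t i k) (-t) :=
        deriv_comp_neg (fun t => V t i k) t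
      have h8 := hode (-t) htt i k
      rw [aeval_comp_neg, h7, mul_neg, h8, ← Finset.sum_neg_distrib]
      refine Finset.sum_congr rfl fun j _ => ?_
      rw [negF, Matrix.map_apply, map_neg, aeval_comp_negK]
      ring)
    (Z := Z.map fun p => p.comp (-X))
    (by
      have h3 : (Z.map fun p => p.comp (-X)).det = Z.det.comp (-X) := by
        have := (RingHom.map_det (Polynomial.compRingHom (-X : Polynomial κ)) Z)
        rw [Polynomial.coe_compRingHom] at this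
        exact this.symm
      rw [h3]
      intro h4
      apply hZ
      have h5 := congrArg (fun p : Polynomial κ => p.comp (-X)) h4
      simpa [comp_assoc] using h5)
    (P := fun t => P (-t))
    (by
      intro t htt l a k
      show w (-t) ^ (l : ℕ) * P (-t) a k = _
      rw [hP (-t) htt]
      refine Finset.sum_congr rfl fun b _ => ?_
      rw [Matrix.map_apply, aeval_comp_negK])
    (fun t htt => hdet (-t) htt) δ
  refine two_sided (E := {i : ℤ | (i : ℂ) ∈ U ∧ HasRelationC U w P (i : ℂ) κ δ}) ?_ ?_ k₁ k₂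
  · intro i hi h0
    have e : ((i.toNat : ℕ) : ℂ) = (i : ℂ) := by
      have : ((i.toNat : ℕ) : ℤ) = i := Int.toNat_of_nonneg h0
      exact_mod_cast congrArg (fun z : ℤ => (z : ℂ)) this
    show ((i.toNat : ℕ) : ℂ) ∈ U ∧ HasRelationC U w P ((i.toNat : ℕ) : ℂ) κ δ
    rw [e]
    exact hi
  · intro i hi h0
    have e : (((-i).toNat : ℕ) : ℂ) = -(i : ℂ) := by
      have : (((-i).toNat : ℕ) : ℤ) = -i := Int.toNat_of_nonneg (by omega)
      have h1 := congrArg (fun z : ℤ => (z : ℂ)) this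
      push_cast at h1
      exact h1
    show -(((-i).toNat : ℕ) : ℂ) ∈ U ∧
      HasRelationC {t | -t ∈ U} (fun t => w (-t)) (fun t => P (-t)) (((-i).toNat : ℕ) : ℂ) κ δ
    refine ⟨?_, hasRelationC_neg ?_⟩
    · rw [e, neg_neg]
      exact hi.1
    · rw [e, neg_neg]
      exact hi.2

end Pool.Agent.Helper79.GX
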