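import Pool.Agent.Helper79.GX.Defs
import Pool.Agent.Helper79.GC.Slot
import Pool.Agent.Helper37.GP.Bounds
import Pool.Agent.Helper37.GP.GThm

/-!
# GC-10b: sizes of the coefficients of the tensor system

`bigT = X ∏_j T(X + a_j)`, `bigB` = sum of `d` terms `X ∏_{i≠j} T(X + a_i) L(X + a_j)` and `∏ T(X+a_i) νr`: all
coefficients are at most `(K+1)^c` for `a_j ≤ K` (`coeff_comp_le` with `k = 1`, `coeff_prod_le` in
`Pool.Agent.Helper37.GP.Bounds`; compare the structure `PB` in `Pool.Agent.Helper37.GP.GThmAux` / `GThm`).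
-/

open Polynomial

namespace Pool.Agent.Helper79.GX

open Pool.Agent.Helper37.GP Pool.Agent.Helper79.GC

namespace BigCoeffAux

theorem PB_X {K : ℕ} : PB 1 0 K (X : ℚ[X]) := by
  refine ⟨natDegree_X_le, fun i => ?_⟩
  rw [pow_zero, coeff_X]
  split_ifs <;> simp

theorem PB_zero {D c K : ℕ} : PB D c K (0 : ℚ[X]) := by
  refine ⟨by simp, fun i => ?_⟩
  rw [coeff_zero, abs_zero]
  positivity

theorem PB_comp (p : ℚ[X]) : ∃ c : ℕ, ∀ K a : ℕ, 1 ≤ K → a ≤ K →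
    PB p.natDegree c K (p.comp (X + C (a : ℚ))) := by
  obtain ⟨c, hc⟩ := coeff_comp_le p
  refine ⟨c, fun K a hK ha => ?_⟩
  have e : (X + C (a : ℚ)) = C (a : ℚ) + C ((1 : ℕ) : ℚ) * X := by
    rw [Nat.cast_one, C_1, one_mul, add_comm]
  refine ⟨?_, fun i => ?_⟩
  · rw [natDegree_comp, natDegree_X_add_C, mul_one]
  · rw [e]
    exact hc K a 1 hK ha hK i

theorem PB_C (x : ℚ) : ∃ c : ℕ, ∀ K : ℕ, 1 ≤ K → PB 0 c K (C x) := by
  obtain ⟨n, hn⟩ := exists_nat_ge |x|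
  refine ⟨n, fun K hK => ⟨by simp, fun i => ?_⟩⟩
  rw [coeff_C]
  split_ifs
  · exact le_trans hn (BoundsAux.const_le_K hK n)
  · rw [abs_zero]; positivity

theorem PB_T {R : ℕ} (b : BlockData R) : ∃ c : ℕ, ∀ K a : ℕ, 1 ≤ K → a ≤ K →
    PB b.T.natDegree c K ((b.T.comp (X + C (a : ℤ))).map (Int.castRingHom ℚ)) := by
  obtain ⟨c, hc⟩ := PB_comp (b.T.map (Int.castRingHom ℚ))
  refine ⟨c, fun K a hK ha => ?_⟩
  have := hc K a hK ha
  rw [Polynomial.map_comp, Polynomial.map_add, Polynomial.map_X, Polynomial.map_C]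
  simp only [eq_intCast, Int.cast_natCast]
  exact this.mono natDegree_map_le le_rfl

theorem PB_slotL {R d : ℕ} (b : BlockData R) : ∃ D c : ℕ, ∀ (K : ℕ) (a : ℕ), 1 ≤ K →
    a ≤ K → ∀ (j : Fin d) (α β : Fin d → Fin R), PB D c K (slot j (shM a b.L) α β) := by
  have h : ∀ p : Fin R × Fin R, ∃ c : ℕ, ∀ K a : ℕ, 1 ≤ K → a ≤ K →
      PB (b.L p.1 p.2).natDegree c K ((b.L p.1 p.2).comp (X + C (a : ℚ))) :=
    fun p => PB_comp _
  choose c hc using h
  refine ⟨∑ p : Fin R × Fin R, (b.L p.1 p.2).natDegree, ∑ p, c p, fun K a hK ha j α β => ?_⟩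
  rw [slot, Matrix.of_apply]
  split_ifs
  · rw [shM_apply]
    exact (hc (α j, β j) K a hK ha).mono
      (Finset.single_le_sum (f := fun p : Fin R × Fin R => (b.L p.1 p.2).natDegree)
        (fun _ _ => Nat.zero_le _) (Finset.mem_univ (α j, β j)))
      (Finset.single_le_sum (f := c) (fun _ _ => Nat.zero_le _) (Finset.mem_univ (α j, β j)))
  · exact PB_zero

theorem PB_slotν {R d : ℕ} (b : BlockData R) : ∃ c : ℕ, ∀ (K : ℕ), 1 ≤ K →
    ∀ (j : Fin d) (α β : Fin d → Fin R), PB 0 c K (slot j (cX b.νr) α β) := by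
  have h : ∀ p : Fin R × Fin R, ∃ c : ℕ, ∀ K : ℕ, 1 ≤ K → PB 0 c K (C (b.νr p.1 p.2)) :=
    fun p => PB_C _
  choose c hc using h
  refine ⟨∑ p, c p, fun K hK j α β => ?_⟩
  rw [slot, Matrix.of_apply]
  split_ifs
  · rw [cX_apply]
    exact (hc (α j, β j) K hK).mono le_rfl
      (Finset.single_le_sum (f := c) (fun _ _ => Nat.zero_le _) (Finset.mem_univ (α j, β j)))
  · exact PB_zero

theorem PB_prodT {R : ℕ} (b : BlockData R) (d : ℕ) : ∃ D c : ℕ, ∀ (K : ℕ) (a : Fin d → ℕ),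
    1 ≤ K → (∀ j, a j ≤ K) → ∀ s : Finset (Fin d),
      PB D c K (∏ j ∈ s, (b.T.comp (X + C (a j : ℤ))).map (Int.castRingHom ℚ)) := by
  obtain ⟨c, hc⟩ := PB_T b
  refine ⟨d * b.T.natDegree, d * (c + b.T.natDegree + 1), fun K a hK ha s => ?_⟩
  have hs : s.card ≤ d := by
    have := Finset.card_le_univ s
    rwa [Fintype.card_fin] at this
  exact (PB.prod hK s fun j _ => hc K (a j) hK (ha j)).mono (Nat.mul_le_mul_right _ hs)
    (Nat.mul_le_mul_right _ hs)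

end BigCoeffAux

open BigCoeffAux in
/-- Sizes of the coefficients of the tensor system. -/
theorem bigB_bounds {R : ℕ} (b : BlockData R) (d : ℕ) : ∃ c : ℕ, ∀ (K : ℕ) (a : Fin d → ℕ),
    1 ≤ K → (∀ j, a j ≤ K) → (∀ i, |(bigT b a).coeff i| ≤ (((K + 1) ^ c : ℕ) : ℤ)) ∧
      ∀ α β i, |(bigB b a α β).coeff i| ≤ (((K + 1) ^ c : ℕ) : ℚ) := by
  obtain ⟨D1, c1, h1⟩ := PB_prodT b d
  obtain ⟨D2, c2, h2⟩ := PB_slotL (d := d) b
  obtain ⟨c3, h3⟩ := PB_slotν (d := d) b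
  have hT : ∀ (K : ℕ) (a : Fin d → ℕ), 1 ≤ K → (∀ j, a j ≤ K) → ∀ s : Finset (Fin d),
      PB (1 + D1) (0 + c1 + 1 + 1) K
        (X * ∏ j ∈ s, (b.T.comp (X + C (a j : ℤ))).map (Int.castRingHom ℚ)) :=
    fun K a hK ha s => PB.mul hK PB_X (h1 K a hK ha s)
  have hB : ∃ D c : ℕ, ∀ (K : ℕ) (a : Fin d → ℕ), 1 ≤ K → (∀ j, a j ≤ K) → ∀ α β,
      PB D c K (bigB b a α β) := by
    refine ⟨(1 + D1 + D2) + D1 + 0, (((0 + c1 + 1 + 1) + c2 + (1 + D1) + 1) + d +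
      (c1 + (c3 + d) + D1 + 1)) + 1, fun K a hK ha α β => ?_⟩
    rw [bigB, Matrix.add_apply, Matrix.sum_apply, Matrix.smul_apply, Matrix.sum_apply]
    simp only [Matrix.smul_apply, smul_eq_mul]
    refine PB.add hK ?_ ?_
    · have e1 := PB.sum hK (Finset.univ : Finset (Fin d)) (fun j _ =>
        PB.mul hK (hT K a hK ha (Finset.univ.erase j)) (h2 K (a j) hK (ha j) j α β))
      rw [Finset.card_univ, Fintype.card_fin] at e1
      exact e1.mono (by omega) (by omega)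
    · have e1 := PB.sum hK (Finset.univ : Finset (Fin d)) (fun j _ => h3 K hK j α β)
      rw [Finset.card_univ, Fintype.card_fin] at e1
      exact (PB.mul hK (h1 K a hK ha Finset.univ) e1).mono (by omega) (by omega)
  obtain ⟨D4, c4, h4⟩ := hB
  refine ⟨(0 + c1 + 1 + 1) + c4, fun K a hK ha => ⟨fun i => ?_, fun α β i => ?_⟩⟩
  · have e1 := (hT K a hK ha Finset.univ).2 i
    have e2 : X * ∏ j, (b.T.comp (X + C (a j : ℤ))).map (Int.castRingHom ℚ) =
        (bigT b a).map (Int.castRingHom ℚ) := by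
      rw [bigT, Polynomial.map_mul, Polynomial.map_X, Polynomial.map_prod]
    rw [e2, coeff_map, eq_intCast] at e1
    have e3 := le_trans e1 (BoundsAux.pow_mono_K (K := K)
      (show 0 + c1 + 1 + 1 ≤ (0 + c1 + 1 + 1) + c4 by omega))
    have e4 : ((|(bigT b a).coeff i| : ℤ) : ℚ) ≤
        ((((K + 1) ^ ((0 + c1 + 1 + 1) + c4) : ℕ) : ℤ) : ℚ) := by
      push_cast
      exact e3
    exact_mod_cast e4
  · have e1 := (h4 K a hK ha α β).2 i
    have e3 := le_trans e1 (BoundsAux.pow_mono_K (K := K)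
      (show c4 ≤ (0 + c1 + 1 + 1) + c4 by omega))
    push_cast
    exact e3

end Pool.Agent.Helper79.GX
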