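import Pool.Agent.Helper79.GX.SpecSplit
import Pool.Agent.Helper79.GX.ChooseDen

/-!
# GX-04: binomial coefficients of a matrix with rational eigenvalues

* `binm_den_x`: `M = ∑ c π_c + N₀` (`spec_split`), `S = ∑ c π_c`; `binm S n = ∑_c Ring.choose c n • π_c`; `binm N₀` by `binm_den` (`N₀` nilpotent: `half_of_nilpotent`,
  `Half.half'`); Vandermonde `binm_vand`; `choose_den`; the `π_c` have a fixed common denominator.
* `gal_const_x`, `pw_gden_x`: as `gal_const`, `pw_gden` in `Pool.Agent.Helper79.GC.BinmDen`.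
-/

open Polynomial

namespace Pool.Agent.Helper79.GX

open Pool.Agent.Helper37.GP Pool.Agent.Helper79.GC

variable {ι : Type} [Fintype ι] [DecidableEq ι]

/-! ### Integral matrices -/

private def IntX (A : Matrix ι ι ℚ) : Prop := ∀ a b, ∃ z : ℤ, A a b = z

omit [Fintype ι] [DecidableEq ι] in
private lemma IntX.add {A B : Matrix ι ι ℚ} (hA : IntX A) (hB : IntX B) : IntX (A + B) := by
  intro a b
  obtain ⟨x, hx⟩ := hA a b
  obtain ⟨y, hy⟩ := hB a b
  exact ⟨x + y, by rw [Matrix.add_apply, hx, hy]; push_cast; ring⟩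

omit [Fintype ι] [DecidableEq ι] in
private lemma IntX.zero : IntX (0 : Matrix ι ι ℚ) := fun a b => ⟨0, by simp⟩

omit [Fintype ι] [DecidableEq ι] in
private lemma IntX.sum {α : Type} (s : Finset α) (F : α → Matrix ι ι ℚ) (h : ∀ i ∈ s, IntX (F i)) :
    IntX (∑ i ∈ s, F i) := by
  classical
  induction s using Finset.induction_on with
  | empty => simpa using IntX.zero
  | insert a s ha ih =>
    rw [Finset.sum_insert ha]
    exact (h _ (Finset.mem_insert_self _ _)).add (ih fun i hi => h i (Finset.mem_insert_of_mem hi))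

omit [DecidableEq ι] in
private lemma IntX.mul {A B : Matrix ι ι ℚ} (hA : IntX A) (hB : IntX B) : IntX (A * B) := by
  intro a b
  choose x hx using hA
  choose y hy using hB
  refine ⟨∑ c, x a c * y c b, ?_⟩
  rw [Matrix.mul_apply]
  push_cast
  exact Finset.sum_congr rfl fun c _ => by rw [hx, hy]

omit [Fintype ι] [DecidableEq ι] in
private lemma IntX.smul {A : Matrix ι ι ℚ} (hA : IntX A) (z : ℤ) : IntX ((z : ℚ) • A) := by
  intro a b
  obtain ⟨x, hx⟩ := hA a b
  exact ⟨z * x, by rw [Matrix.smul_apply, hx, smul_eq_mul]; push_cast; ring⟩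

omit [Fintype ι] [DecidableEq ι] in
private lemma IntX.nsmul {A : Matrix ι ι ℚ} (hA : IntX A) (z : ℕ) : IntX ((z : ℚ) • A) := by
  have := hA.smul (z : ℤ)
  push_cast at this
  exact this

omit [DecidableEq ι] in
private lemma xexists_den1 (A : Matrix ι ι ℚ) : ∃ d : ℕ, 0 < d ∧ IntX ((d : ℚ) • A) := by
  refine ⟨∏ p : ι × ι, (A p.1 p.2).den, Finset.prod_pos fun p _ => (A p.1 p.2).den_pos, ?_⟩
  intro a b
  obtain ⟨e, he⟩ : (A a b).den ∣ ∏ p : ι × ι, (A p.1 p.2).den :=
    Finset.dvd_prod_of_mem (fun p : ι × ι => (A p.1 p.2).den) (Finset.mem_univ (a, b))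
  refine ⟨e * (A a b).num, ?_⟩
  rw [Matrix.smul_apply, he, smul_eq_mul]
  push_cast
  have h1 : ((A a b).den : ℚ) * A a b = (A a b).num := by
    rw [mul_comm]
    exact Rat.mul_den_eq_num (A a b)
  calc ((A a b).den : ℚ) * e * A a b = e * (((A a b).den : ℚ) * A a b) := by ring
    _ = _ := by rw [h1]

omit [DecidableEq ι] in
private lemma xexists_denF (s : Finset ℚ) (A : ℚ → Matrix ι ι ℚ) :
    ∃ d : ℕ, 0 < d ∧ ∀ c ∈ s, IntX ((d : ℚ) • A c) := by
  classical
  induction s using Finset.induction_on with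
  | empty => exact ⟨1, one_pos, fun i hi => absurd hi (Finset.notMem_empty i)⟩
  | insert x s hx ih =>
    obtain ⟨d, hd, h⟩ := ih
    obtain ⟨e, he, h'⟩ := xexists_den1 (A x)
    refine ⟨d * e, Nat.mul_pos hd he, ?_⟩
    intro i hi
    push_cast
    rcases Finset.mem_insert.1 hi with rfl | h1
    · rw [← smul_smul]
      exact h'.nsmul d
    · rw [mul_comm, ← smul_smul]
      exact (h i h1).nsmul e

private lemma xchoose_denF (s : Finset ℚ) : ∃ Q : ℕ, 1 ≤ Q ∧ ∀ c ∈ s, ∀ n : ℕ, ∃ z : ℤ,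
    (Q : ℚ) ^ n * Ring.choose c n = z := by
  classical
  induction s using Finset.induction_on with
  | empty => exact ⟨1, le_rfl, fun i hi => absurd hi (Finset.notMem_empty i)⟩
  | insert x s hx ih =>
    obtain ⟨d, hd, h⟩ := ih
    obtain ⟨e, he, h'⟩ := choose_den x
    refine ⟨d * e, Nat.mul_pos hd he, ?_⟩
    intro c hc n
    push_cast
    rcases Finset.mem_insert.1 hc with rfl | h1
    · obtain ⟨z, hz⟩ := h' n
      refine ⟨(d : ℤ) ^ n * z, ?_⟩
      push_cast
      rw [← hz]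
      ring
    · obtain ⟨z, hz⟩ := h c h1 n
      refine ⟨(e : ℤ) ^ n * z, ?_⟩
      push_cast
      rw [← hz]
      ring

private lemma xchoose_succ (c : ℚ) (n : ℕ) :
    ((n : ℚ) + 1) * Ring.choose c (n + 1) = Ring.choose c n * (c - n) := by
  have h1 := Ring.descPochhammer_eq_factorial_smul_choose c n
  have h2 := Ring.descPochhammer_eq_factorial_smul_choose c (n + 1)
  rw [descPochhammer_succ_right, Polynomial.smeval_mul, h1, Polynomial.smeval_sub,
    Polynomial.smeval_X, Polynomial.smeval_natCast, pow_zero, pow_one, nsmul_eq_mul, nsmul_eq_mul,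
    nsmul_eq_mul, mul_one, Nat.factorial_succ] at h2
  push_cast at h2
  have h3 : ((n.factorial : ℕ) : ℚ) ≠ 0 := by
    exact_mod_cast Nat.factorial_ne_zero n
  apply mul_left_cancel₀ h3
  rw [← mul_assoc, ← mul_assoc, h2]
  ring

theorem binm_den_x {s : Finset ℚ} {M : Matrix ι ι ℚ} (hM : Spec s M) :
    ∃ H : ℕ, 1 ≤ H ∧ ∀ J, ∃ q : ℕ, 0 < q ∧
      q ≤ H ^ (J + 1) ∧ ∀ i ≤ J, ∀ a b, ∃ z : ℤ, (q : ℚ) * binm M i a b = z := by
  classical
  obtain ⟨π, N₀, hπ, hN₀, hnil, hsum, horth, hMeq⟩ := spec_split hM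
  set S : Matrix ι ι ℚ := ∑ c ∈ s, c • π c with hS
  have hcomm : S * N₀ = N₀ * S := by
    obtain ⟨p, hp⟩ := hN₀
    rw [hS, Finset.sum_mul, Finset.mul_sum]
    refine Finset.sum_congr rfl fun c _ => ?_
    obtain ⟨r, hr⟩ := hπ c
    rw [Matrix.smul_mul, Matrix.mul_smul, hp, hr, ← map_mul, ← map_mul, mul_comm]
  have hπS : ∀ c ∈ s, π c * S = c • π c := by
    intro c hc
    rw [hS, Finset.mul_sum]
    rw [Finset.sum_eq_single c]
    · rw [Matrix.mul_smul, horth c hc c hc, if_pos rfl]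
    · intro b hb hbc
      rw [Matrix.mul_smul, horth c hc b hb, if_neg (Ne.symm hbc), smul_zero]
    · intro h
      exact absurd hc h
  have key : ∀ n, binm S n = ∑ c ∈ s, Ring.choose c n • π c := by
    intro n
    induction n with
    | zero =>
      simp only [Ring.choose_zero_right, one_smul, hsum]
      rfl
    | succ n ih =>
      have hn : ((n : ℚ) + 1) ≠ 0 := by positivity
      rw [binm, ih, Finset.sum_mul, Finset.smul_sum]
      refine Finset.sum_congr rfl fun c hc => ?_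
      have h1 : π c * (S - (n : ℚ) • 1) = (c - n) • π c := by
        rw [mul_sub, hπS c hc, Matrix.mul_smul, mul_one, sub_smul]
      rw [Matrix.smul_mul, h1, smul_smul, smul_smul]
      congr 1
      rw [mul_assoc, ← xchoose_succ, ← mul_assoc, inv_mul_cancel₀ hn, one_mul]
  obtain ⟨dp, hdp, hdp'⟩ := xexists_denF s π
  obtain ⟨Q, hQ, hQ'⟩ := xchoose_denF s
  obtain ⟨H₀, hH₀, hden⟩ := binm_den (half_of_nilpotent hnil).half'
  have hSint : ∀ k, IntX (((dp * Q ^ k : ℕ) : ℚ) • binm S k) := by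
    intro k
    rw [key, Finset.smul_sum]
    refine IntX.sum _ _ fun c hc => ?_
    obtain ⟨z, hz⟩ := hQ' c hc k
    have e : ((dp * Q ^ k : ℕ) : ℚ) • Ring.choose c k • π c = (z : ℚ) • ((dp : ℚ) • π c) := by
      rw [← hz, smul_smul, smul_smul]
      congr 1
      push_cast
      ring
    rw [e]
    exact (hdp' c hc).smul z
  refine ⟨dp * Q * H₀, ?_, ?_⟩
  · exact Nat.one_le_iff_ne_zero.2 (by positivity)
  intro J
  obtain ⟨qN, hqN, hqNb, hqN'⟩ := hden J
  refine ⟨(dp * Q ^ J) * qN, by positivity, ?_, ?_⟩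
  · have h2 : dp ≤ dp ^ (J + 1) := Nat.le_self_pow (by omega) _
    have h4 : Q ^ J ≤ Q ^ (J + 1) := Nat.pow_le_pow_right hQ (by omega)
    calc (dp * Q ^ J) * qN ≤ (dp ^ (J + 1) * Q ^ (J + 1)) * H₀ ^ (J + 1) := by gcongr
      _ = _ := by rw [mul_pow, mul_pow]
  · intro n hn a b
    have hInt : IntX ((((dp * Q ^ J) * qN : ℕ) : ℚ) • binm M n) := by
      rw [hMeq, binm_vand hcomm, Finset.smul_sum]
      refine IntX.sum _ _ fun i hi => ?_
      have hi' : i ≤ n := Nat.lt_succ_iff.mp (Finset.mem_range.1 hi)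
      have hNi : IntX ((qN : ℚ) • binm N₀ (n - i)) := by
        intro a b
        rw [Matrix.smul_apply, smul_eq_mul]
        exact hqN' (n - i) (by omega) a b
      have e : (((dp * Q ^ J) * qN : ℕ) : ℚ) • (binm S i * binm N₀ (n - i)) =
          ((Q ^ (J - i) : ℕ) : ℚ) • ((((dp * Q ^ i : ℕ) : ℚ) • binm S i) *
            ((qN : ℚ) • binm N₀ (n - i))) := by
        rw [Matrix.smul_mul, Matrix.mul_smul, smul_smul, smul_smul]
        congr 1
        have h1 : Q ^ J = Q ^ (J - i) * Q ^ i := by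
          rw [← pow_add]
          congr 1
          omega
        rw [h1]
        push_cast
        ring
      rw [e]
      exact ((hSint i).mul hNi).nsmul _
    obtain ⟨z, hz⟩ := hInt a b
    exact ⟨z, by rw [← hz, Matrix.smul_apply, smul_eq_mul]⟩

theorem gal_const_x {s : Finset ℚ} {M : Matrix ι ι ℚ} (hM : Spec s M) : ∃ H : ℕ, 1 ≤ H ∧
    Galochkin ((X : ℤ[X]).map (Int.castRingHom ℚ)) (cX M) H := by
  obtain ⟨H, hH, h⟩ := binm_den_x hM
  refine ⟨H, hH, ?_⟩
  intro j
  obtain ⟨q, hq, hqH, h⟩ := h j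
  refine ⟨q, hq, hqH, ?_⟩
  intro i hi a b n
  rw [Polynomial.map_X, beta_const, cX_apply, coeff_C]
  split_ifs
  · exact h i hi a b
  · exact ⟨0, by simp⟩

theorem pw_gden_x {s : Finset ℚ} {ν : Matrix ι ι ℚ} (h : Spec s ν) : ∃ H : ℕ, 1 ≤ H ∧
    ∀ a : ℕ, GDen H (fun p : ι × ι => pw a ν p.1 p.2) := by
  obtain ⟨H, hH, h⟩ := binm_den_x (spec_neg h)
  refine ⟨H, hH, ?_⟩
  intro a n
  obtain ⟨q, hq, hqH, h⟩ := h n
  refine ⟨q, hq, hqH, ?_⟩
  intro m hm p
  obtain ⟨z, hz⟩ := h m hm p.1 p.2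
  refine ⟨(a : ℤ) ^ m * z, ?_⟩
  show (q : ℚ) * PowerSeries.coeff m (pw a ν p.1 p.2) = _
  unfold pw
  rw [Matrix.of_apply, PowerSeries.coeff_mk]
  push_cast
  rw [← hz]
  ring

end Pool.Agent.Helper79.GX
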