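import Pool.Agent.Helper79.GX.SpecSplit
import Pool.Agent.Helper79.GC.Strip

/-!
# GX-05: independence of logarithms and fractional powers over single valued functions

The proof of `strip_indep` in `Pool.Agent.Helper79.GC.Strip` can be copied, only `Strip.key` changes. `key_x`: `ψ(exp(-2πi n ν)) = 0` for all
`n ∈ ℕ` implies `ψ(ν^k) = 0`. `ν = ∑_{c∈s} c π_c + N₀` (`spec_split`, differences of elements of `s` are less than `1` in absolute value, so the numbers
`ζ_c = exp(-2πi c)`, `c ∈ s`, are distinct). Let `q ≥ 1` be a common denominator of `s`. For `n = q j + r`: `exp(-2πi n ν) = (∑_c ζ_c^r π_c) exp(-2πi (q j + r) N₀)`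
(`exp_idem` type computation: `exp(w ∑ c π_c) = ∑ exp(w c) π_c`). For fixed `r` and all `j`: `lin_nilp` for the functional `X ↦ ψ((∑_c ζ_c^r π_c) X)`:
`ψ((∑_c ζ_c^r π_c) N₀^i) = 0` for all `r`, `i`. The `ζ_c` are distinct, so by Vandermonde (Lagrange interpolation: a combination over `r < card s` of the functions
`c ↦ ζ_c^r` is the indicator of `c`) `ψ(π_c N₀^i) = 0` for all `c ∈ s`, `i`. `ν^k` is a combination of the `π_c N₀^i`.
-/

open Polynomial Filter Topology

namespace Pool.Agent.Helper79.GX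

open Pool.Agent.Helper37.GP Pool.Agent.Helper79.GC

private theorem sx_qC_smul {R : ℕ} (c : ℚ) (M : Matrix (Fin R) (Fin R) ℚ) :
    qC (c • M) = (c : ℂ) • qC M := by
  ext a b
  simp [qC]

private theorem sx_qC_zero {R : ℕ} : qC (0 : Matrix (Fin R) (Fin R) ℚ) = 0 := by
  ext a b
  simp [qC]

private theorem sx_qC_sum {R : ℕ} (s : Finset ℚ) (M : ℚ → Matrix (Fin R) (Fin R) ℚ) :
    qC (∑ c ∈ s, M c) = ∑ c ∈ s, qC (M c) := by
  classical
  induction s using Finset.induction_on with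
  | empty => rw [Finset.sum_empty, Finset.sum_empty, sx_qC_zero]
  | insert c s hc ih => rw [Finset.sum_insert hc, Finset.sum_insert hc, qC_add, ih]

/-- the powers of a combination of orthogonal idempotents -/
private theorem sx_pow {R : ℕ} {s : Finset ℚ} {P : ℚ → Matrix (Fin R) (Fin R) ℂ}
    (h1 : ∑ c ∈ s, P c = 1) (h2 : ∀ c ∈ s, ∀ c' ∈ s, P c * P c' = if c = c' then P c else 0)
    (x : ℚ → ℂ) (n : ℕ) : (∑ c ∈ s, x c • P c) ^ n = ∑ c ∈ s, x c ^ n • P c := by
  induction n with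
  | zero => simp [h1]
  | succ n ih =>
    rw [pow_succ, ih, Finset.sum_mul_sum]
    apply Finset.sum_congr rfl
    intro c hc
    rw [Finset.sum_eq_single c]
    · rw [smul_mul_smul_comm, h2 c hc c hc, if_pos rfl, pow_succ]
    · intro c' hc' hne
      rw [smul_mul_smul_comm, h2 c hc c' hc', if_neg (Ne.symm hne), smul_zero]
    · intro h
      exact absurd hc h

private theorem sx_exp {R : ℕ} {s : Finset ℚ} {P : ℚ → Matrix (Fin R) (Fin R) ℂ}
    (h1 : ∑ c ∈ s, P c = 1) (h2 : ∀ c ∈ s, ∀ c' ∈ s, P c * P c' = if c = c' then P c else 0)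
    (x : ℚ → ℂ) : NormedSpace.exp (∑ c ∈ s, x c • P c) = ∑ c ∈ s, Complex.exp (x c) • P c := by
  have e1 := congrFun (NormedSpace.exp_eq_tsum (𝔸 := Matrix (Fin R) (Fin R) ℂ) ℂ)
    (∑ c ∈ s, x c • P c)
  rw [e1]
  have e2 : ∀ c : ℚ, HasSum (fun n : ℕ => (((n.factorial : ℂ)⁻¹) • x c ^ n) • P c)
      (Complex.exp (x c) • P c) := by
    intro c
    have h3 : HasSum (fun n : ℕ => ((n.factorial : ℂ)⁻¹) • x c ^ n) (NormedSpace.exp (x c)) :=
      NormedSpace.exp_series_hasSum_exp' (𝕂 := ℂ) (x c)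
    rw [← Complex.exp_eq_exp_ℂ] at h3
    exact h3.smul_const (P c)
  have e3 := hasSum_sum (s := s) (fun c _ => e2 c)
  have e4 : (fun n : ℕ => ((n.factorial : ℂ)⁻¹) • (∑ c ∈ s, x c • P c) ^ n) =
      fun n : ℕ => ∑ c ∈ s, (((n.factorial : ℂ)⁻¹) • x c ^ n) • P c := by
    funext n
    rw [sx_pow h1 h2, Finset.smul_sum]
    apply Finset.sum_congr rfl
    intro c _
    rw [smul_assoc]
  rw [e4]
  exact e3.tsum_eq

/-- the values of a combination of powers of distinct numbers -/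
private theorem sx_vand {s : Finset ℚ} {ζ : ℚ → ℂ} (hζ : ∀ c ∈ s, ∀ c' ∈ s, ζ c = ζ c' → c = c')
    (y : ℚ → ℂ) (h : ∀ r : ℕ, ∑ c ∈ s, ζ c ^ r * y c = 0) : ∀ c ∈ s, y c = 0 := by
  classical
  intro c hc
  have hp : ∀ p : ℂ[X], ∑ c' ∈ s, p.eval (ζ c') * y c' = 0 := by
    intro p
    have h1 : ∀ c', p.eval (ζ c') * y c' =
        ∑ k ∈ Finset.range (p.natDegree + 1), p.coeff k * (ζ c' ^ k * y c') := by
      intro c'
      rw [Polynomial.eval_eq_sum_range, Finset.sum_mul]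
      apply Finset.sum_congr rfl
      intro k _
      ring
    rw [Finset.sum_congr rfl fun c' _ => h1 c', Finset.sum_comm]
    apply Finset.sum_eq_zero
    intro k _
    rw [← Finset.mul_sum, h k, mul_zero]
  have h2 := hp (∏ c' ∈ s.erase c, (X - C (ζ c')))
  rw [Finset.sum_eq_single c] at h2
  · refine (mul_eq_zero.1 h2).resolve_left ?_
    rw [eval_prod]
    refine Finset.prod_ne_zero_iff.2 ?_
    intro c' hc'
    rw [eval_sub, eval_X, eval_C, sub_ne_zero]
    intro h3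
    exact (Finset.mem_erase.1 hc').1 (hζ c hc c' (Finset.mem_of_mem_erase hc') h3).symm
  · intro c' hc' hne
    rw [eval_prod, Finset.prod_eq_zero (Finset.mem_erase.2 ⟨hne, hc'⟩), zero_mul]
    rw [eval_sub, eval_X, eval_C, sub_self]
  · intro h3
    exact absurd hc h3

theorem key_x {R : ℕ} {ν : Matrix (Fin R) (Fin R) ℚ} (hν : Tame ν)
    (ψ : Matrix (Fin R) (Fin R) ℂ →ₗ[ℂ] ℂ)
    (h : ∀ n : ℕ, ψ (cexpM (-(2 * Real.pi * Complex.I * n)) ν) = 0) (k : ℕ) :
    ψ ((qC ν) ^ k) = 0 := by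
  obtain ⟨s, hs, hspec⟩ := hν
  obtain ⟨π, N₀, hπp, ⟨pN, hpN⟩, ⟨m, hN⟩, hsum, hid, hsplit⟩ := spec_split hspec
  have hpi : (Real.pi : ℂ) ≠ 0 := by exact_mod_cast Real.pi_ne_zero
  have h2pi : (2 * Real.pi * Complex.I : ℂ) ≠ 0 := by
    simp [hpi, Complex.I_ne_zero]
  -- commutation
  have hcπN : ∀ c, π c * N₀ = N₀ * π c := by
    intro c
    obtain ⟨p, hp⟩ := hπp c
    rw [hp, hpN, ← map_mul, mul_comm, map_mul]
  have hcNν : N₀ * ν = ν * N₀ := by
    have e1 : ν = aeval ν (X : ℚ[X]) := (aeval_X ν).symm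
    rw [hpN]
    conv_lhs => rw [e1]
    conv_rhs => rw [e1]
    rw [aeval_X, ← aeval_X (R := ℚ) ν]
    simp only [aeval_X]
    have e2 : aeval ν pN * aeval ν (X : ℚ[X]) = aeval ν (X : ℚ[X]) * aeval ν pN := by
      rw [← map_mul, mul_comm, map_mul]
    rwa [aeval_X] at e2
  -- complex versions
  have hCsum : ∑ c ∈ s, qC (π c) = 1 := by rw [← sx_qC_sum, hsum, qC_one]
  have hCid : ∀ c ∈ s, ∀ c' ∈ s, qC (π c) * qC (π c') = if c = c' then qC (π c) else 0 := by
    intro c hc c' hc'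
    rw [← qC_mul, hid c hc c' hc']
    split_ifs
    · rfl
    · exact sx_qC_zero
  have hD : ∀ w : ℂ, cexpM w (∑ c ∈ s, c • π c) =
      ∑ c ∈ s, Complex.exp (w * (c : ℂ)) • qC (π c) := by
    intro w
    unfold cexpM
    rw [sx_qC_sum, Finset.smul_sum]
    have e1 : ∀ c ∈ s, w • qC (c • π c) = (w * (c : ℂ)) • qC (π c) := by
      intro c _
      rw [sx_qC_smul, smul_smul]
    rw [Finset.sum_congr rfl e1]
    exact sx_exp hCsum hCid (fun c => w * (c : ℂ))
  have hcD : (∑ c ∈ s, c • π c) * N₀ = N₀ * ∑ c ∈ s, c • π c := by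
    rw [Finset.sum_mul, Finset.mul_sum]
    apply Finset.sum_congr rfl
    intro c _
    rw [smul_mul_assoc, mul_smul_comm, hcπN]
  have hexp : ∀ w : ℂ, cexpM w ν =
      (∑ c ∈ s, Complex.exp (w * (c : ℂ)) • qC (π c)) * cexpM w N₀ := by
    intro w
    rw [← hD, ← cexpM_add_matrix w hcD, ← hsplit]
  -- a common denominator
  obtain ⟨q, hq0, hq⟩ : ∃ q : ℕ, 0 < q ∧ ∀ c ∈ s, ∃ z : ℤ, (q : ℚ) * c = z := by
    refine ⟨∏ c ∈ s, c.den, Finset.prod_pos fun c _ => c.den_pos, fun c hc => ?_⟩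
    obtain ⟨d, hd⟩ := Finset.dvd_prod_of_mem (fun c : ℚ => c.den) hc
    refine ⟨d * c.num, ?_⟩
    rw [hd]
    push_cast
    have e1 : (c.den : ℚ) * c = c.num := by
      rw [mul_comm]
      exact Rat.mul_den_eq_num c
    calc (c.den : ℚ) * d * c = d * ((c.den : ℚ) * c) := by ring
      _ = d * c.num := by rw [e1]
  set ζ : ℚ → ℂ := fun c => Complex.exp (-(2 * Real.pi * Complex.I) * (c : ℂ)) with hζdef
  have hζinj : ∀ c ∈ s, ∀ c' ∈ s, ζ c = ζ c' → c = c' := by
    intro c hc c' hc' he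
    obtain ⟨n, hn⟩ := Complex.exp_eq_exp_iff_exists_int.1 he
    have e1 : (2 * Real.pi * Complex.I : ℂ) * ((c' : ℂ) - c) = (2 * Real.pi * Complex.I) * n := by
      linear_combination hn
    have e2 := mul_left_cancel₀ h2pi e1
    have e3 : c' - c = (n : ℚ) := by exact_mod_cast e2
    have e4 := hs c' hc' c hc
    rw [e3] at e4
    have e5 : |n| < 1 := by exact_mod_cast e4
    have e6 : n = 0 := Int.abs_lt_one_iff.1 e5
    rw [e6] at e3
    push_cast at e3
    linarith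
  have hζper : ∀ c ∈ s, ∀ j r : ℕ,
      Complex.exp (-(2 * Real.pi * Complex.I * ((q * j + r : ℕ) : ℂ)) * (c : ℂ)) = ζ c ^ r := by
    intro c hc j r
    obtain ⟨z, hz⟩ := hq c hc
    have hz' : (q : ℂ) * (c : ℂ) = (z : ℂ) := by exact_mod_cast hz
    rw [hζdef]
    simp only
    rw [← Complex.exp_nat_mul, Complex.exp_eq_exp_iff_exists_int]
    refine ⟨-(j * z), ?_⟩
    push_cast
    linear_combination (-(2 * Real.pi * Complex.I * j : ℂ)) * hz'
  -- all `ψ (π_c N₀ ^ i)` vanish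
  have hz1 : ∀ i : ℕ, ∀ c ∈ s, ψ (qC (π c) * (qC N₀) ^ i) = 0 := by
    intro i
    apply sx_vand hζinj
    intro r
    let ψ' : Matrix (Fin R) (Fin R) ℂ →ₗ[ℂ] ℂ :=
      ψ.comp (LinearMap.mulLeft ℂ (∑ c ∈ s, ζ c ^ r • qC (π c)))
    have hψ' : ∀ Y, ψ' Y = ψ ((∑ c ∈ s, ζ c ^ r • qC (π c)) * Y) := fun Y => rfl
    have e1 : ψ' ((qC N₀) ^ i) = 0 := by
      apply Strip.lin_nilp N₀ hN ψ' (fun j => -(2 * Real.pi * Complex.I * ((q * j + r : ℕ) : ℂ)))
      · intro a b hab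
        have h4 := neg_injective hab
        have h5 := mul_left_cancel₀ h2pi h4
        have h6 : q * a + r = q * b + r := by exact_mod_cast h5
        exact Nat.eq_of_mul_eq_mul_left hq0 (by omega)
      · intro j
        have h3 := h (q * j + r)
        rw [hexp] at h3
        rw [hψ']
        have e2 : ∑ c ∈ s, ζ c ^ r • qC (π c) =
            ∑ c ∈ s, Complex.exp (-(2 * Real.pi * Complex.I * ((q * j + r : ℕ) : ℂ)) * (c : ℂ)) •
              qC (π c) := by
          apply Finset.sum_congr rfl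
          intro c hc
          rw [hζper c hc]
        rw [e2]
        exact h3
    rw [hψ', Finset.sum_mul, map_sum] at e1
    rw [← e1]
    apply Finset.sum_congr rfl
    intro c _
    rw [smul_mul_assoc, map_smul, smul_eq_mul]
  -- conclusion
  have hPν : ∀ c ∈ s, qC (π c) * qC ν = (c : ℂ) • qC (π c) + qC (π c) * qC N₀ := by
    intro c hc
    have e1 : π c * ν = c • π c + π c * N₀ := by
      conv_lhs => rw [hsplit]
      rw [mul_add, Finset.mul_sum]
      congr 1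
      rw [Finset.sum_eq_single c]
      · rw [mul_smul_comm, hid c hc c hc, if_pos rfl]
      · intro c' hc' hne
        rw [mul_smul_comm, hid c hc c' hc', if_neg (Ne.symm hne), smul_zero]
      · intro h
        exact absurd hc h
    rw [← qC_mul, e1, qC_add, sx_qC_smul, qC_mul]
  have hCNν : qC N₀ * qC ν = qC ν * qC N₀ := by rw [← qC_mul, ← qC_mul, hcNν]
  have hfin : ∀ k i : ℕ, ∀ c ∈ s, ψ (qC (π c) * (qC N₀) ^ i * (qC ν) ^ k) = 0 := by
    intro k
    induction k with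
    | zero =>
      intro i c hc
      rw [pow_zero, mul_one]
      exact hz1 i c hc
    | succ k ih =>
      intro i c hc
      have c1 : (qC N₀) ^ i * qC ν = qC ν * (qC N₀) ^ i :=
        ((Commute.pow_left (show Commute (qC N₀) (qC ν) from hCNν)) i).eq
      have e1 : qC (π c) * (qC N₀) ^ i * (qC ν) ^ (k + 1) =
          (c : ℂ) • (qC (π c) * (qC N₀) ^ i * (qC ν) ^ k) +
            qC (π c) * (qC N₀) ^ (i + 1) * (qC ν) ^ k := by
        rw [pow_succ' (qC ν) k, ← mul_assoc, mul_assoc (qC (π c)) _ (qC ν), c1, ← mul_assoc,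
          hPν c hc, add_mul, add_mul, smul_mul_assoc, smul_mul_assoc, pow_succ' (qC N₀) i,
          mul_assoc (qC (π c)) (qC N₀) _]
      rw [e1, map_add, map_smul, ih i c hc, ih (i + 1) c hc, smul_zero, add_zero]
  have e1 : (qC ν) ^ k = ∑ c ∈ s, qC (π c) * (qC N₀) ^ 0 * (qC ν) ^ k := by
    rw [← Finset.sum_mul]
    simp only [pow_zero, mul_one]
    rw [hCsum, one_mul]
  rw [e1, map_sum]
  exact Finset.sum_eq_zero fun c hc => hfin k 0 c hc

theorem strip_indep {R : ℕ} {ν : Matrix (Fin R) (Fin R) ℚ} (hν : Tame ν) {ρ₀ ρ' : ℝ}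
    (h0 : 0 < ρ₀) (h1 : ρ₀ < ρ') (φ : ℂ → Fin R → ℂ)
    (hφ : ∀ a, AnalyticOnNhd ℂ (fun u => φ u a) {u : ℂ | ρ₀ < ‖u‖ ∧ ‖u‖ < ρ'}) (e : Fin R → ℂ)
    (w₁ : ℂ) (hw : ρ₀ < ‖Complex.exp w₁‖) (hw' : ‖Complex.exp w₁‖ < ρ')
    (h : ∀ᶠ w in 𝓝 w₁, ∑ a, φ (Complex.exp w) a * (cexpM (-w) ν).mulVec e a = 0) :
    ∀ u : ℂ, ρ₀ < ‖u‖ → ‖u‖ < ρ' → ∀ k : ℕ, ∑ a, φ u a * (qC (ν ^ k)).mulVec e a = 0 := by
  have hρ' : 0 < ρ' := h0.trans h1
  set S : Set ℂ := {w : ℂ | Real.log ρ₀ < w.re ∧ w.re < Real.log ρ'} with hS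
  have hSmem : ∀ w : ℂ, w ∈ S ↔ (ρ₀ < ‖Complex.exp w‖ ∧ ‖Complex.exp w‖ < ρ') := by
    intro w
    rw [hS, Set.mem_ofPred_eq, Complex.norm_exp, Real.log_lt_iff_lt_exp h0,
      Real.lt_log_iff_exp_lt hρ']
  have hconv : Convex ℝ S := by
    have e1 : S = Complex.reLm ⁻¹' (Set.Ioo (Real.log ρ₀) (Real.log ρ')) := by
      ext w; simp [hS]
    rw [e1]
    exact (convex_Ioo _ _).linear_preimage _
  have hexp : AnalyticOnNhd ℂ Complex.exp S := fun w _ => analyticAt_cexp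
  have hneg : AnalyticOnNhd ℂ (fun w : ℂ => -w) S := fun w _ => analyticAt_id.neg
  have hF : AnalyticOnNhd ℂ (fun w => ∑ a, φ (Complex.exp w) a * (cexpM (-w) ν).mulVec e a) S := by
    apply Finset.analyticOnNhd_fun_sum
    intro a _
    apply AnalyticOnNhd.mul
    · exact (hφ a).comp hexp (fun w hw => (hSmem w).mp hw)
    · have e1 : (fun w : ℂ => (cexpM (-w) ν).mulVec e a) =
          fun w : ℂ => ∑ b, cexpM (-w) ν a b * e b := by
        funext w; rfl
      rw [e1]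
      apply Finset.analyticOnNhd_fun_sum
      intro b _
      apply AnalyticOnNhd.mul
      · exact (cexpM_analytic ν a b).comp hneg (fun w _ => Set.mem_univ _)
      · exact analyticOnNhd_const
  have hzero := hF.eqOn_zero_of_preconnected_of_eventuallyEq_zero hconv.isPreconnected
    ((hSmem w₁).mpr ⟨hw, hw'⟩) h
  intro u hu hu' k
  have hu0 : u ≠ 0 := by
    rintro rfl
    rw [norm_zero] at hu
    linarith
  set w := Complex.log u with hwdef
  have hexpw : Complex.exp w = u := Complex.exp_log hu0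
  set E := (cexpM (-w) ν).mulVec e with hE
  -- the functional
  have hmain : ∀ n : ℕ, Strip.func (φ u) E (cexpM (-(2 * Real.pi * Complex.I * n)) ν) = 0 := by
    intro n
    have e1 : Complex.exp (w + 2 * Real.pi * Complex.I * n) = u := by
      rw [Complex.exp_add, hexpw]
      have : (2 * Real.pi * Complex.I * n : ℂ) = ((n : ℤ) : ℂ) * (2 * Real.pi * Complex.I) := by
        push_cast; ring
      rw [this, Complex.exp_int_mul_two_pi_mul_I, mul_one]
    have e2 : (w + 2 * Real.pi * Complex.I * n) ∈ S := by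
      rw [hSmem, e1]
      exact ⟨hu, hu'⟩
    have e3 := hzero e2
    simp only [Pi.zero_apply] at e3
    rw [e1] at e3
    rw [Strip.func_apply, hE, ← e3]
    apply Finset.sum_congr rfl
    intro a _
    rw [Matrix.mulVec_mulVec, ← cexpM_add]
    congr 4
    ring
  have hk : ∀ k, Strip.func (φ u) E ((qC ν) ^ k) = 0 := fun k => key_x hν _ hmain k
  -- go back to `e`
  have hback : e = (cexpM w ν).mulVec E := by
    rw [hE, Matrix.mulVec_mulVec]
    have := cexpM_neg (-w) ν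
    rw [neg_neg] at this
    rw [this, Matrix.one_mulVec]
  obtain ⟨n, c, hc⟩ := cexpM_poly w ν
  have : ∑ a, φ u a * (qC (ν ^ k)).mulVec e a = Strip.func (φ u) E (qC ν ^ k * cexpM w ν) := by
    rw [← Strip.func_mulVec, ← hback, Strip.func_apply, qC_pow]
  rw [this, hc, Finset.mul_sum, map_sum]
  apply Finset.sum_eq_zero
  intro j _
  rw [mul_smul_comm, map_smul, qC_pow, ← pow_add, hk, smul_zero]

end Pool.Agent.Helper79.GX
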