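import Pool.Agent.Helper79.GX.Defs
import Pool.Agent.Helper79.GX.Strip
import Pool.Agent.Helper79.GC.OdeZero

/-!
# GC-23: the rank of the annihilator

Let `D : BkData R`, `𝔸` the annulus `ρ₀ < ‖u‖ < ρ'`, `K₁ = D.KK`. `K₁` is stable under `∇f = T f' + f L`:
`T (f · Φ ν^k e)' = ∇f · Φ ν^k e + (T/u) f · Φ ν^(k+1) e` (`hode`), where all terms `f · Φ ν^k e` vanish on `𝔸`.

`ann_rank`: Suppose some `f ∈ K₁` is not `0` on the disc; then it is nonzero at some point of `𝔸`. Let `l ≥ 1` be the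
maximal dimension of `span {f(u) : f ∈ K₁}` for `u ∈ 𝔸`, attained at a point; by continuity of a minor it is attained
near that point too, so we can choose `u₁ ∈ 𝔸` with `T(u₁) ≠ 0` and `F_1, …, F_l ∈ K₁` with `F_i(u₁)` independent.
Near `u₁` every `f ∈ K₁` is `f = ∑ a_i F_i` with `a_i` analytic at `u₁` (Cramer with a nonvanishing minor; by maximality
`f(u)` is in the span of the `F_i(u)`). In particular `∇F_i = ∑ M_ij F_j`, `M` analytic at `u₁`. Let
`V₁ = {v ∈ ℂ^R : F_i(u₁) · Φ(1/u₁) v = 0 ∀ i}`, of dimension `R - l =: h` (`Φ(1/u₁)` invertible). For `v ∈ V₁` put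
`y(w) = Φ(1/u) exp(-(w - w₁) ν) v`, `u = e^w`, `u₁ = e^(w₁)` (or use a branch of `log(u/u₁)` near `u₁`); then
`T y' = L y` and `g_i = F_i · y` satisfies `T g_i' = ∑ M_ij g_j`, `g(u₁) = 0`, so `g = 0` near `u₁` (`ode_zero`).
`strip_indep` (with `φ(u) = F_i(u) Φ(1/u)`, analytic on `𝔸`, and `e := exp(w₁ ν) v`) gives
`F_i(u) Φ(1/u) ν^k exp(w₁ ν) v = 0` on `𝔸`, all `k`; as `v = exp(-w₁ ν) exp(w₁ ν) v` is a combination of the
`ν^k exp(w₁ ν) v` (`cexpM_poly`) we get `F_i(u) · Φ(1/u) v = 0` on `𝔸`. Take `v_1, …, v_h` a basis of `V₁`.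
-/

open Polynomial Filter Topology

namespace Pool.Agent.Helper79.GX

open Pool.Agent.Helper37.GP Pool.Agent.Helper79.GC

theorem b1_det_analyticAt {n : ℕ} {M : ℂ → Matrix (Fin n) (Fin n) ℂ} {u : ℂ}
    (h : ∀ i j, AnalyticAt ℂ (fun u => M u i j) u) : AnalyticAt ℂ (fun u => (M u).det) u := by
  have : (fun u => (M u).det) = fun u => ∑ σ : Equiv.Perm (Fin n),
      ((Equiv.Perm.sign σ : ℤ) : ℂ) * ∏ i, M u (σ i) i := by
    funext u
    exact Matrix.det_apply' (M u)
  rw [this]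
  apply Finset.analyticAt_fun_sum
  intro σ _
  apply AnalyticAt.mul analyticAt_const
  apply Finset.analyticAt_fun_prod
  intro i _
  exact h _ _

theorem b1_adj_analyticAt {n : ℕ} {M : ℂ → Matrix (Fin n) (Fin n) ℂ} {u : ℂ}
    (h : ∀ i j, AnalyticAt ℂ (fun u => M u i j) u) (i j : Fin n) :
    AnalyticAt ℂ (fun u => (M u).adjugate i j) u := by
  have : (fun u => (M u).adjugate i j) = fun u => ((M u).updateRow j (Pi.single i 1)).det := by
    funext u
    exact Matrix.adjugate_apply (M u) i j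
  rw [this]
  apply b1_det_analyticAt
  intro a b
  by_cases haj : a = j
  · subst haj
    simp only [Matrix.updateRow_self]
    exact analyticAt_const
  · simp only [Matrix.updateRow_ne haj]
    exact h a b

theorem b1_phi_analyticAt {R : ℕ} (D : BkData R) {u : ℂ} (hu : D.ρ₀ < ‖u‖) (a b : Fin R) :
    AnalyticAt ℂ (fun u => D.Φ u⁻¹ a b) u := by
  have h0 := D.h0
  have hu0 : u ≠ 0 := norm_pos_iff.mp (lt_trans h0 hu)
  have h1 : u⁻¹ ∈ Metric.ball (0 : ℂ) (1 / D.ρ₀) := by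
    rw [mem_ball_zero_iff, norm_inv, one_div]
    exact inv_strictAnti₀ h0 hu
  have h2 := D.hΦ a b _ h1
  exact AnalyticAt.fun_comp h2 (analyticAt_id.inv hu0)

theorem b1_poly_analyticAt (p : ℂ[X]) (u : ℂ) : AnalyticAt ℂ (fun u => p.eval u) u :=
  AnalyticOnNhd.eval_polynomial p u (Set.mem_univ u)

theorem b1_isOpen_annulus (r s : ℝ) : IsOpen {u : ℂ | r < ‖u‖ ∧ ‖u‖ < s} :=
  (isOpen_lt continuous_const continuous_norm).inter (isOpen_lt continuous_norm continuous_const)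

/-- Stability of `KK` under the connection. -/
theorem KK_stable {R : ℕ} (D : BkData R) {f : ℂ → Fin R → ℂ} (hf : f ∈ D.KK) :
    (fun (u : ℂ) (a : Fin R) => D.T.eval u * deriv (fun u => f u a) u +
      ∑ c, f u c * (D.L c a).eval u) ∈ D.KK := by
  obtain ⟨hf1, hf2⟩ := hf
  refine ⟨?_, ?_⟩
  · intro a u hu
    have hp : ∀ p : ℂ[X], AnalyticAt ℂ (fun u => p.eval u) u := by
      intro p
      exact b1_poly_analyticAt p u
    apply AnalyticAt.add
    · exact (hp D.T).mul (hf1 a u hu).deriv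
    · apply Finset.analyticAt_fun_sum
      intro c _
      exact (hf1 c u hu).mul (hp _)
  · intro k u hu0 hu1
    have hmem : u ∈ Metric.ball (0 : ℂ) D.ρ' := by rwa [mem_ball_zero_iff]
    have hA : {u : ℂ | D.ρ₀ < ‖u‖ ∧ ‖u‖ < D.ρ'} ∈ 𝓝 u :=
      (b1_isOpen_annulus _ _).mem_nhds ⟨hu0, hu1⟩
    -- derivative of the relation
    set x : Fin R → ℂ := (qC (D.ν ^ k)).mulVec D.e with hx
    have hy : ∀ u a, (D.Φ u⁻¹ * qC (D.ν ^ k)).mulVec D.e a = ∑ b, D.Φ u⁻¹ a b * x b := by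
      intro u a
      rw [← Matrix.mulVec_mulVec]
      rfl
    have hfd : ∀ a, HasDerivAt (fun u => f u a) (deriv (fun u => f u a) u) u :=
      fun a => (hf1 a u hmem).differentiableAt.hasDerivAt
    have hPd : ∀ a b, HasDerivAt (fun u => D.Φ u⁻¹ a b) (deriv (fun u => D.Φ u⁻¹ a b) u) u :=
      fun a b => (b1_phi_analyticAt D hu0 a b).differentiableAt.hasDerivAt
    have hd : HasDerivAt (fun u => ∑ a, f u a * ∑ b, D.Φ u⁻¹ a b * x b)
        (∑ a, (deriv (fun u => f u a) u * (∑ b, D.Φ u⁻¹ a b * x b) +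
          f u a * ∑ b, deriv (fun u => D.Φ u⁻¹ a b) u * x b)) u := by
      apply HasDerivAt.fun_sum
      intro a _
      apply (hfd a).mul
      apply HasDerivAt.fun_sum
      intro b _
      exact (hPd a b).mul_const _
    have hz : (fun u => ∑ a, f u a * ∑ b, D.Φ u⁻¹ a b * x b) =ᶠ[𝓝 u] fun _ => 0 := by
      filter_upwards [hA] with z hz
      have := hf2 k z hz.1 hz.2
      simpa only [hy] using this
    have hd0 : (∑ a, (deriv (fun u => f u a) u * (∑ b, D.Φ u⁻¹ a b * x b) +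
          f u a * ∑ b, deriv (fun u => D.Φ u⁻¹ a b) u * x b)) = 0 := by
      rw [← hd.deriv, hz.deriv_eq]
      simp
    -- matrix form
    set F : Fin R → ℂ := f u with hF
    set F' : Fin R → ℂ := fun a => deriv (fun u => f u a) u with hF'
    set P : Matrix (Fin R) (Fin R) ℂ := D.Φ u⁻¹ with hP
    set P' : Matrix (Fin R) (Fin R) ℂ := Matrix.of fun a b => deriv (fun u => D.Φ u⁻¹ a b) u with hP'
    set Lm : Matrix (Fin R) (Fin R) ℂ := Matrix.of fun a c => (D.L a c).eval u with hLm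
    have hode : D.T.eval u • P' = Lm * P + (D.T.eval u / u) • (P * qC D.ν) := by
      ext a b
      have := D.hode u hu0 a b
      rw [Matrix.smul_apply, Matrix.add_apply, Matrix.smul_apply, Matrix.mul_apply,
        Matrix.mul_apply, smul_eq_mul, smul_eq_mul]
      simp only [hP', hLm, Matrix.of_apply, qC, Matrix.map_apply, eq_ratCast]
      exact this
    have hd1 : F' ⬝ᵥ (P.mulVec x) + F ⬝ᵥ (P'.mulVec x) = 0 := by
      rw [← hd0, Finset.sum_add_distrib]
      rfl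
    have hk1 : F ⬝ᵥ (P.mulVec ((qC D.ν).mulVec x)) = 0 := by
      have := hf2 (k + 1) u hu0 hu1
      rw [hx, Matrix.mulVec_mulVec, Matrix.mulVec_mulVec, mul_assoc, ← qC_mul, ← pow_succ']
      exact this
    have goal' : (D.T.eval u • F' + Matrix.vecMul F Lm) ⬝ᵥ (P.mulVec x) = 0 := by
      have h2 : D.T.eval u * (F' ⬝ᵥ (P.mulVec x) + F ⬝ᵥ (P'.mulVec x)) = 0 := by rw [hd1, mul_zero]
      have h3 : D.T.eval u * (F ⬝ᵥ (P'.mulVec x)) =
          Matrix.vecMul F Lm ⬝ᵥ (P.mulVec x) := by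
        have h4 : D.T.eval u * (F ⬝ᵥ (P'.mulVec x)) = F ⬝ᵥ ((D.T.eval u • P').mulVec x) := by
          rw [Matrix.smul_mulVec, dotProduct_smul, smul_eq_mul]
        rw [h4, hode, Matrix.add_mulVec, Matrix.smul_mulVec, dotProduct_add, dotProduct_smul,
          ← Matrix.mulVec_mulVec, ← Matrix.mulVec_mulVec, hk1, smul_zero, add_zero,
          Matrix.dotProduct_mulVec]
      rw [add_dotProduct, smul_dotProduct, smul_eq_mul, ← h3]
      linear_combination h2
    rw [← goal']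
    apply Finset.sum_congr rfl
    intro a _
    rw [← Matrix.mulVec_mulVec]
    rfl

/-- `KK` as a subspace. -/
def b1_sub {R : ℕ} (D : BkData R) : Submodule ℂ (ℂ → Fin R → ℂ) where
  carrier := D.KK
  add_mem' := by
    rintro f g ⟨hf1, hf2⟩ ⟨hg1, hg2⟩
    refine ⟨fun a => (hf1 a).add (hg1 a), fun k u h0 h1 => ?_⟩
    have e1 := hf2 k u h0 h1
    have e2 := hg2 k u h0 h1
    simp only [Pi.add_apply, add_mul, Finset.sum_add_distrib]
    rw [e1, e2, add_zero]
  zero_mem' := by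
    refine ⟨fun a => ?_, fun k u h0 h1 => ?_⟩
    · exact analyticOnNhd_const
    · simp
  smul_mem' := by
    rintro c f ⟨hf1, hf2⟩
    refine ⟨fun a => ?_, fun k u h0 h1 => ?_⟩
    · exact analyticOnNhd_const.mul (hf1 a)
    · have e1 := hf2 k u h0 h1
      simp only [Pi.smul_apply, smul_eq_mul, mul_assoc]
      rw [← Finset.mul_sum, e1, mul_zero]

/-- values at a point -/
def b1_val {R : ℕ} (D : BkData R) (u : ℂ) : Submodule ℂ (Fin R → ℂ) :=
  (b1_sub D).map (LinearMap.proj u)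

theorem b1_mem_val {R : ℕ} (D : BkData R) (u : ℂ) (x : Fin R → ℂ) :
    x ∈ b1_val D u ↔ ∃ f ∈ D.KK, f u = x := by
  unfold b1_val
  rw [Submodule.mem_map]
  rfl

/-- the annulus meets the nonvanishing set -/
theorem b1_exists_annulus {R : ℕ} (D : BkData R) {f : ℂ → Fin R → ℂ} (hf : f ∈ D.KK)
    (hne : ∃ u ∈ Metric.ball (0 : ℂ) D.ρ', f u ≠ 0) :
    ∃ u : ℂ, D.ρ₀ < ‖u‖ ∧ ‖u‖ < D.ρ' ∧ f u ≠ 0 := by
  by_contra hcon
  push Not at hcon
  obtain ⟨u0, hu0, hne0⟩ := hne
  apply hne0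
  funext a
  have h0 := D.h0
  have h1 := D.h1
  -- a point in the annulus
  have hz : ((D.ρ₀ + D.ρ') / 2 : ℝ) ∈ Set.Ioo D.ρ₀ D.ρ' := ⟨by linarith, by linarith⟩
  have hzn : ‖(((D.ρ₀ + D.ρ') / 2 : ℝ) : ℂ)‖ = (D.ρ₀ + D.ρ') / 2 := by
    rw [Complex.norm_real, Real.norm_of_nonneg (by linarith)]
  have hev : (fun u => f u a) =ᶠ[𝓝 (((D.ρ₀ + D.ρ') / 2 : ℝ) : ℂ)] 0 := by
    filter_upwards [(b1_isOpen_annulus D.ρ₀ D.ρ').mem_nhds (show
      ((((D.ρ₀ + D.ρ') / 2 : ℝ) : ℂ)) ∈ {u : ℂ | D.ρ₀ < ‖u‖ ∧ ‖u‖ < D.ρ'} by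
        rw [Set.mem_ofPred_eq, hzn]; exact hz)] with z hz
    rw [hcon z hz.1 hz.2]
    rfl
  have := (hf.1 a).eqOn_zero_of_preconnected_of_eventuallyEq_zero
    (convex_ball (0 : ℂ) D.ρ').isPreconnected (by
      rw [mem_ball_zero_iff, hzn]; exact hz.2) hev hu0
  exact this

theorem b1_proj_apply {R l : ℕ} (π : (Fin R → ℂ) →ₗ[ℂ] (Fin l → ℂ)) (x : Fin R → ℂ) (j : Fin l) :
    π x j = ∑ a, x a * π (Pi.single a 1) j := by
  have : x = ∑ a, x a • Pi.single a (1 : ℂ) := by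
    conv_lhs => rw [pi_eq_sum_univ x]
    apply Finset.sum_congr rfl
    intro a _
    congr 1
    funext b
    rw [Pi.single_apply]
    congr 1
    exact propext eq_comm
  conv_lhs => rw [this]
  rw [map_sum, Finset.sum_apply]
  apply Finset.sum_congr rfl
  intro a _
  rw [map_smul, Pi.smul_apply, smul_eq_mul]

theorem b1_li_of_det {R l : ℕ} (π : (Fin R → ℂ) →ₗ[ℂ] (Fin l → ℂ)) (x : Fin l → Fin R → ℂ)
    (h : (Matrix.of fun i j => π (x i) j).det ≠ 0) : LinearIndependent ℂ x := by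
  rw [Fintype.linearIndependent_iff]
  intro g hg
  have h1 : Matrix.vecMul g (Matrix.of fun i j => π (x i) j) = 0 := by
    funext j
    have h2 := congrArg (fun z => π z j) hg
    simp only [map_sum, map_smul, Finset.sum_apply, Pi.smul_apply, smul_eq_mul, map_zero,
      Pi.zero_apply] at h2
    rw [Pi.zero_apply, ← h2]
    rfl
  have h3 := Matrix.eq_zero_of_vecMul_eq_zero h h1
  intro i
  rw [h3, Pi.zero_apply]

theorem b1_select {R : ℕ} (D : BkData R) {f : ℂ → Fin R → ℂ} (hf : f ∈ D.KK)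
    (hne : ∃ u ∈ Metric.ball (0 : ℂ) D.ρ', f u ≠ 0) :
    ∃ (l : ℕ) (F : Fin l → ℂ → Fin R → ℂ) (π : (Fin R → ℂ) →ₗ[ℂ] (Fin l → ℂ)) (u₁ : ℂ),
      1 ≤ l ∧ (∀ i, F i ∈ D.KK) ∧ D.ρ₀ < ‖u₁‖ ∧ ‖u₁‖ < D.ρ' ∧ D.T.eval u₁ ≠ 0 ∧
      (Matrix.of fun i j => π (F i u₁) j).det ≠ 0 ∧
      ∀ u : ℂ, D.ρ₀ < ‖u‖ → ‖u‖ < D.ρ' → (Matrix.of fun i j => π (F i u) j).det ≠ 0 →
        ∀ f ∈ D.KK, ∃ c : Fin l → ℂ, f u = ∑ i, c i • F i u := by
  classical
  obtain ⟨u3, h30, h31, h3⟩ := b1_exists_annulus D hf hne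
  -- the maximal rank
  obtain ⟨u₂, hu₂, hmax⟩ := WellFounded.has_min
    (measure (fun u : ℂ => R - Module.finrank ℂ (b1_val D u))).wf
    {u : ℂ | D.ρ₀ < ‖u‖ ∧ ‖u‖ < D.ρ'} ⟨u3, h30, h31⟩
  have hR : ∀ u, Module.finrank ℂ (b1_val D u) ≤ R := by
    intro u
    have := Submodule.finrank_le (b1_val D u)
    rwa [Module.finrank_fin_fun] at this
  have hmax' : ∀ u : ℂ, D.ρ₀ < ‖u‖ → ‖u‖ < D.ρ' →
      Module.finrank ℂ (b1_val D u) ≤ Module.finrank ℂ (b1_val D u₂) := by
    intro u h0 h1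
    have h2 := hmax u ⟨h0, h1⟩
    have h3 := hR u
    have h4 := hR u₂
    change ¬ (R - Module.finrank ℂ (b1_val D u) < R - Module.finrank ℂ (b1_val D u₂)) at h2
    omega
  set l := Module.finrank ℂ (b1_val D u₂) with hl
  have hl1 : 1 ≤ l := by
    refine le_trans ?_ (hmax' u3 h30 h31)
    rw [Nat.one_le_iff_ne_zero]
    intro h0
    have h1 : b1_val D u3 = ⊥ := Submodule.finrank_eq_zero.mp h0
    have h2 : f u3 ∈ b1_val D u3 := (b1_mem_val D u3 _).mpr ⟨f, hf, rfl⟩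
    rw [h1, Submodule.mem_bot] at h2
    exact h3 h2
  let b : Module.Basis (Fin l) ℂ (b1_val D u₂) := Module.finBasis ℂ (b1_val D u₂)
  have hb : ∀ i, ∃ F ∈ D.KK, F u₂ = (b i : Fin R → ℂ) := fun i =>
    (b1_mem_val D u₂ _).mp (b i).2
  choose F hF hFb using hb
  have hli : LinearIndependent ℂ (fun i => F i u₂) := by
    have h1 := b.linearIndependent.map' (b1_val D u₂).subtype (Submodule.ker_subtype _)
    have h2 : (fun i => F i u₂) = ⇑(b1_val D u₂).subtype ∘ ⇑b := by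
      funext i
      rw [hFb i]
      rfl
    rw [h2]
    exact h1
  -- left inverse
  obtain ⟨π, hπ⟩ : ∃ π : (Fin R → ℂ) →ₗ[ℂ] (Fin l → ℂ), ∀ i, π (F i u₂) = Pi.single i 1 := by
    have hker : LinearMap.ker (Fintype.linearCombination ℂ (fun i => F i u₂)) = ⊥ := by
      rw [LinearMap.ker_eq_bot']
      intro m hm
      rw [Fintype.linearCombination_apply] at hm
      funext i
      exact Fintype.linearIndependent_iff.mp hli m hm i
    obtain ⟨π, hπ⟩ := LinearMap.exists_leftInverse_of_injective _ hker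
    refine ⟨π, fun i => ?_⟩
    have h1 := LinearMap.congr_fun hπ (Pi.single i (1 : ℂ))
    rw [LinearMap.comp_apply, Fintype.linearCombination_apply_single, one_smul,
      LinearMap.id_apply] at h1
    exact h1
  have hdet2 : (Matrix.of fun i j => π (F i u₂) j).det = 1 := by
    have : (Matrix.of fun i j => π (F i u₂) j) = (1 : Matrix (Fin l) (Fin l) ℂ) := by
      ext i j
      rw [Matrix.of_apply, hπ i, Matrix.one_apply, Pi.single_apply]
      simp only [eq_comm]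
    rw [this, Matrix.det_one]
  -- continuity of the determinant
  have hcont : ContinuousAt (fun u => (Matrix.of fun i j => π (F i u) j).det) u₂ := by
    apply AnalyticAt.continuousAt (𝕜 := ℂ)
    apply b1_det_analyticAt
    intro i j
    simp only [Matrix.of_apply]
    have : (fun u => π (F i u) j) = fun u => ∑ a, F i u a * π (Pi.single a 1) j := by
      funext u
      exact b1_proj_apply π _ _
    rw [this]
    apply Finset.analyticAt_fun_sum
    intro a _
    apply AnalyticAt.mul _ analyticAt_const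
    apply (hF i).1 a
    rw [mem_ball_zero_iff]
    exact hu₂.2
  have hev : ∀ᶠ u in 𝓝 u₂, (Matrix.of fun i j => π (F i u) j).det ≠ 0 :=
    hcont.eventually_ne (by rw [hdet2]; exact one_ne_zero)
  have hev2 : ∀ᶠ u in 𝓝 u₂, D.ρ₀ < ‖u‖ ∧ ‖u‖ < D.ρ' :=
    (b1_isOpen_annulus _ _).mem_nhds hu₂
  have hinf := infinite_of_mem_nhds u₂ (hev.and hev2)
  obtain ⟨u₁, hu₁, hu₁'⟩ := hinf.exists_notMem_finset D.T.roots.toFinset
  refine ⟨l, F, π, u₁, hl1, hF, hu₁.2.1, hu₁.2.2, ?_, hu₁.1, ?_⟩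
  · intro h0
    apply hu₁'
    rw [Multiset.mem_toFinset, Polynomial.mem_roots D.hT]
    exact h0
  · intro u h0 h1 hd f hf
    have hli' := b1_li_of_det π (fun i => F i u) hd
    have hsub : Submodule.span ℂ (Set.range fun i => F i u) ≤ b1_val D u := by
      rw [Submodule.span_le]
      rintro _ ⟨i, rfl⟩
      exact (b1_mem_val D u _).mpr ⟨F i, hF i, rfl⟩
    have heq : Submodule.span ℂ (Set.range fun i => F i u) = b1_val D u := by
      apply Submodule.eq_of_le_of_finrank_le hsub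
      rw [finrank_span_eq_card hli', Fintype.card_fin]
      exact hmax' u h0 h1
    have hfm : f u ∈ Submodule.span ℂ (Set.range fun i => F i u) := by
      rw [heq]
      exact (b1_mem_val D u _).mpr ⟨f, hf, rfl⟩
    obtain ⟨c, hc⟩ := (Submodule.mem_span_range_iff_exists_fun ℂ).mp hfm
    exact ⟨c, hc.symm⟩

/-- the coefficient matrix of the connection in the basis `F` -/
noncomputable def b1_M {R l : ℕ} (D : BkData R) (F : Fin l → ℂ → Fin R → ℂ)
    (π : (Fin R → ℂ) →ₗ[ℂ] (Fin l → ℂ)) (u : ℂ) : Matrix (Fin l) (Fin l) ℂ :=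
  Matrix.of fun i j => Matrix.vecMul (π (fun a => D.T.eval u * deriv (fun u => F i u a) u +
      ∑ c, F i u c * (D.L c a).eval u)) (Matrix.of fun i j => π (F i u) j).adjugate j /
        (Matrix.of fun i j => π (F i u) j).det

theorem b1_M_spec {R l : ℕ} (D : BkData R) (F : Fin l → ℂ → Fin R → ℂ)
    (π : (Fin R → ℂ) →ₗ[ℂ] (Fin l → ℂ)) (u : ℂ) (hF : ∀ i, F i ∈ D.KK)
    (hd : (Matrix.of fun i j => π (F i u) j).det ≠ 0)
    (hsp : ∀ f ∈ D.KK, ∃ c : Fin l → ℂ, f u = ∑ i, c i • F i u) (i : Fin l) :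
    (fun a => D.T.eval u * deriv (fun u => F i u a) u + ∑ c, F i u c * (D.L c a).eval u) =
      ∑ j, b1_M D F π u i j • F j u := by
  obtain ⟨c, hc⟩ := hsp _ (KK_stable D (hF i))
  rw [hc]
  apply Finset.sum_congr rfl
  intro j _
  congr 1
  have h2 : π (fun a => D.T.eval u * deriv (fun u => F i u a) u +
      ∑ c, F i u c * (D.L c a).eval u) =
      Matrix.vecMul c (Matrix.of fun i j => π (F i u) j) := by
    rw [hc, map_sum]
    funext k
    rw [Finset.sum_apply]
    simp only [map_smul, Pi.smul_apply, smul_eq_mul]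
    rfl
  unfold b1_M
  rw [Matrix.of_apply, h2, Matrix.vecMul_vecMul, Matrix.mul_adjugate, Matrix.vecMul_smul,
    Matrix.vecMul_one, Pi.smul_apply, smul_eq_mul, mul_div_cancel_left₀ _ hd]

theorem b1_M_analyticAt {R l : ℕ} (D : BkData R) (F : Fin l → ℂ → Fin R → ℂ)
    (π : (Fin R → ℂ) →ₗ[ℂ] (Fin l → ℂ)) (u : ℂ) (hF : ∀ i, F i ∈ D.KK)
    (h1 : ‖u‖ < D.ρ') (hd : (Matrix.of fun i j => π (F i u) j).det ≠ 0) (i j : Fin l) :
    AnalyticAt ℂ (fun u => b1_M D F π u i j) u := by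
  have hmem : u ∈ Metric.ball (0 : ℂ) D.ρ' := by rwa [mem_ball_zero_iff]
  have hπ : ∀ (g : ℂ → Fin R → ℂ), (∀ a, AnalyticAt ℂ (fun u => g u a) u) → ∀ j,
      AnalyticAt ℂ (fun u => π (g u) j) u := by
    intro g hg j
    have : (fun u => π (g u) j) = fun u => ∑ a, g u a * π (Pi.single a 1) j := by
      funext u
      exact b1_proj_apply π _ _
    rw [this]
    apply Finset.analyticAt_fun_sum
    intro a _
    exact AnalyticAt.mul (hg a) analyticAt_const
  have hFs : ∀ i j, AnalyticAt ℂ (fun u => (Matrix.of fun i j => π (F i u) j) i j) u := by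
    intro i j
    simp only [Matrix.of_apply]
    exact hπ _ (fun a => (hF i).1 a u hmem) j
  unfold b1_M
  simp only [Matrix.of_apply, Matrix.vecMul, dotProduct]
  apply AnalyticAt.div _ (b1_det_analyticAt hFs) hd
  apply Finset.analyticAt_fun_sum
  intro k _
  apply AnalyticAt.mul
  · exact hπ _ (fun a => (KK_stable D (hF i)).1 a u hmem) k
  · exact b1_adj_analyticAt hFs k j

theorem b1_key {R l : ℕ} (D : BkData R) (F : Fin l → ℂ → Fin R → ℂ)
    (π : (Fin R → ℂ) →ₗ[ℂ] (Fin l → ℂ)) (u₁ : ℂ) (hF : ∀ i, F i ∈ D.KK) (h0 : D.ρ₀ < ‖u₁‖)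
    (h1 : ‖u₁‖ < D.ρ') (hT : D.T.eval u₁ ≠ 0)
    (hd : (Matrix.of fun i j => π (F i u₁) j).det ≠ 0)
    (hsp : ∀ u : ℂ, D.ρ₀ < ‖u‖ → ‖u‖ < D.ρ' → (Matrix.of fun i j => π (F i u) j).det ≠ 0 →
        ∀ f ∈ D.KK, ∃ c : Fin l → ℂ, f u = ∑ i, c i • F i u)
    (v : Fin R → ℂ) (hv : ∀ i, F i u₁ ⬝ᵥ (D.Φ u₁⁻¹).mulVec v = 0) (i : Fin l) (u : ℂ)
    (hu0 : D.ρ₀ < ‖u‖) (hu1 : ‖u‖ < D.ρ') : ∑ a, F i u a * (D.Φ u⁻¹).mulVec v a = 0 := by
  have hρ := D.h0
  have hu₁0 : u₁ ≠ 0 := norm_pos_iff.mp (lt_trans hρ h0)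
  obtain ⟨w₁, hw₁⟩ : ∃ w₁ : ℂ, Complex.exp w₁ = u₁ := ⟨Complex.log u₁, Complex.exp_log hu₁0⟩
  -- the set of good points
  have hcd : ContinuousAt (fun u => (Matrix.of fun i j => π (F i u) j).det) u₁ := by
    apply AnalyticAt.continuousAt (𝕜 := ℂ)
    apply b1_det_analyticAt
    intro i j
    simp only [Matrix.of_apply]
    have : (fun u => π (F i u) j) = fun u => ∑ a, F i u a * π (Pi.single a 1) j := by
      funext u
      exact b1_proj_apply π _ _
    rw [this]
    apply Finset.analyticAt_fun_sum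
    intro a _
    apply AnalyticAt.mul _ analyticAt_const
    apply (hF i).1 a
    rw [mem_ball_zero_iff]
    exact h1
  have hev1 : ∀ᶠ u in 𝓝 u₁, (Matrix.of fun i j => π (F i u) j).det ≠ 0 := hcd.eventually_ne hd
  have hev2 : ∀ᶠ u in 𝓝 u₁, D.ρ₀ < ‖u‖ ∧ ‖u‖ < D.ρ' :=
    (b1_isOpen_annulus _ _).mem_nhds ⟨h0, h1⟩
  have hev3 : ∀ᶠ u in 𝓝 u₁, D.T.eval u ≠ 0 :=
    (b1_poly_analyticAt D.T u₁).continuousAt.eventually_ne hT
  have hexp : Tendsto Complex.exp (𝓝 w₁) (𝓝 u₁) := by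
    rw [← hw₁]
    exact Complex.continuous_exp.continuousAt
  have hevw := hexp.eventually (hev1.and (hev2.and hev3))
  -- the functions
  set E : ℂ → Matrix (Fin R) (Fin R) ℂ := fun w => cexpM (w₁ - w) D.ν with hE
  set G : ℂ → Fin l → ℂ := fun w i =>
    ∑ a, F i (Complex.exp w) a * ∑ c, (∑ b, D.Φ (Complex.exp w)⁻¹ a b * E w b c) * v c with hG
  have hGeq : ∀ w i, G w i = F i (Complex.exp w) ⬝ᵥ (D.Φ (Complex.exp w)⁻¹ * E w).mulVec v := by
    intro w i
    rfl
  have hEd : ∀ w b c, HasDerivAt (fun w => E w b c) (-(qC D.ν * E w) b c) w := by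
    intro w b c
    have h2 := cexpM_hasDerivAt (w₁ - w) D.ν b c
    have h3 : HasDerivAt (fun w : ℂ => w₁ - w) (-1) w := by
      simpa using (hasDerivAt_id w).const_sub w₁
    have h4 := h2.comp w h3
    rw [mul_neg_one] at h4
    exact h4
  have hGd : ∀ w, D.ρ₀ < ‖Complex.exp w‖ → ‖Complex.exp w‖ < D.ρ' → ∀ i,
      HasDerivAt (fun w => G w i)
        (∑ a, ((deriv (fun u => F i u a) (Complex.exp w) * Complex.exp w) *
            (∑ c, (∑ b, D.Φ (Complex.exp w)⁻¹ a b * E w b c) * v c) +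
          F i (Complex.exp w) a * ∑ c, (∑ b,
            ((deriv (fun u => D.Φ u⁻¹ a b) (Complex.exp w) * Complex.exp w) * E w b c +
              D.Φ (Complex.exp w)⁻¹ a b * -(qC D.ν * E w) b c)) * v c)) w := by
    intro w hw0 hw1 i
    have hmem : Complex.exp w ∈ Metric.ball (0 : ℂ) D.ρ' := by rwa [mem_ball_zero_iff]
    apply HasDerivAt.fun_sum
    intro a _
    apply HasDerivAt.mul
    · have h2 : HasDerivAt (fun u => F i u a) (deriv (fun u => F i u a) (Complex.exp w))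
          (Complex.exp w) := ((hF i).1 a _ hmem).differentiableAt.hasDerivAt
      exact h2.comp w (Complex.hasDerivAt_exp w)
    · apply HasDerivAt.fun_sum
      intro c _
      apply HasDerivAt.mul_const
      apply HasDerivAt.fun_sum
      intro b _
      apply HasDerivAt.mul
      · have h2 : HasDerivAt (fun u => D.Φ u⁻¹ a b) (deriv (fun u => D.Φ u⁻¹ a b) (Complex.exp w))
            (Complex.exp w) := (b1_phi_analyticAt D hw0 a b).differentiableAt.hasDerivAt
        exact h2.comp w (Complex.hasDerivAt_exp w)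
      · exact hEd w b c
  have hode : ∀ᶠ w in 𝓝 w₁, ∀ i, deriv (fun w => G w i) w =
      ∑ j, (Complex.exp w * b1_M D F π (Complex.exp w) i j / D.T.eval (Complex.exp w)) * G w j := by
    filter_upwards [hevw] with w hw i
    obtain ⟨hw1, hw2, hw3⟩ := hw
    rw [(hGd w hw2.1 hw2.2 i).deriv]
    have hune : Complex.exp w ≠ 0 := Complex.exp_ne_zero w
    set z := Complex.exp w with hz
    set P : Matrix (Fin R) (Fin R) ℂ := D.Φ z⁻¹ with hP
    set P' : Matrix (Fin R) (Fin R) ℂ := Matrix.of fun a b => deriv (fun u => D.Φ u⁻¹ a b) z with hP'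
    set Lm : Matrix (Fin R) (Fin R) ℂ := Matrix.of fun a c => (D.L a c).eval z with hLm
    set F' : Fin R → ℂ := fun a => deriv (fun u => F i u a) z with hF'
    have hodeP : D.T.eval z • P' = Lm * P + (D.T.eval z / z) • (P * qC D.ν) := by
      ext a b
      have := D.hode z hw2.1 a b
      rw [Matrix.smul_apply, Matrix.add_apply, Matrix.smul_apply, Matrix.mul_apply,
        Matrix.mul_apply, smul_eq_mul, smul_eq_mul]
      simp only [hP', hLm, Matrix.of_apply, qC, Matrix.map_apply, eq_ratCast]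
      exact this
    have e1 : (∑ a, ((deriv (fun u => F i u a) z * z) * (∑ c, (∑ b, P a b * E w b c) * v c) +
          F i z a * ∑ c, (∑ b, ((deriv (fun u => D.Φ u⁻¹ a b) z * z) * E w b c +
              P a b * -(qC D.ν * E w) b c)) * v c)) =
        z * (F' ⬝ᵥ (P * E w).mulVec v) +
          F i z ⬝ᵥ ((z • P') * E w - P * (qC D.ν * E w)).mulVec v := by
      rw [Finset.sum_add_distrib]
      congr 1
      · rw [dotProduct, Finset.mul_sum]
        apply Finset.sum_congr rfl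
        intro a _
        have : (∑ c, (∑ b, P a b * E w b c) * v c) = (P * E w).mulVec v a := rfl
        rw [this]
        simp only [hF']
        ring
      · rw [dotProduct]
        apply Finset.sum_congr rfl
        intro a _
        congr 1
        rw [Matrix.mulVec, dotProduct]
        apply Finset.sum_congr rfl
        intro c _
        congr 1
        rw [Matrix.sub_apply, Matrix.mul_apply, Matrix.mul_apply, ← Finset.sum_sub_distrib]
        apply Finset.sum_congr rfl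
        intro b _
        simp only [hP', Matrix.smul_apply, Matrix.of_apply, smul_eq_mul]
        ring
    rw [e1]
    have e2 : D.T.eval z * (z * (F' ⬝ᵥ (P * E w).mulVec v) +
          F i z ⬝ᵥ ((z • P') * E w - P * (qC D.ν * E w)).mulVec v) =
        z * ((D.T.eval z • F' + Matrix.vecMul (F i z) Lm) ⬝ᵥ (P * E w).mulVec v) := by
      have e3 : D.T.eval z * (F i z ⬝ᵥ ((z • P') * E w - P * (qC D.ν * E w)).mulVec v) =
          z * (Matrix.vecMul (F i z) Lm ⬝ᵥ (P * E w).mulVec v) := by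
        have e4 : D.T.eval z • ((z • P') * E w - P * (qC D.ν * E w)) =
            z • (Lm * (P * E w)) := by
          have e5 : D.T.eval z • ((z • P') * E w) = z • ((D.T.eval z • P') * E w) := by
            simp only [smul_mul_assoc]
            rw [smul_comm]
          rw [smul_sub, e5, hodeP, add_mul, smul_add, smul_mul_assoc, smul_smul,
            mul_div_cancel₀ _ hune, mul_assoc, mul_assoc, add_sub_cancel_right]
        calc D.T.eval z * (F i z ⬝ᵥ ((z • P') * E w - P * (qC D.ν * E w)).mulVec v)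
            = F i z ⬝ᵥ (D.T.eval z • ((z • P') * E w - P * (qC D.ν * E w))).mulVec v := by
              rw [Matrix.smul_mulVec, dotProduct_smul, smul_eq_mul]
          _ = z * (F i z ⬝ᵥ (Lm * (P * E w)).mulVec v) := by
              rw [e4, Matrix.smul_mulVec, dotProduct_smul, smul_eq_mul]
          _ = z * (Matrix.vecMul (F i z) Lm ⬝ᵥ (P * E w).mulVec v) := by
              rw [← Matrix.mulVec_mulVec, Matrix.dotProduct_mulVec]
      rw [mul_add, e3, add_dotProduct, smul_dotProduct, smul_eq_mul]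
      ring
    have e6 : D.T.eval z • F' + Matrix.vecMul (F i z) Lm = ∑ j, b1_M D F π z i j • F j z := by
      rw [← b1_M_spec D F π z hF hw1 (hsp z hw2.1 hw2.2 hw1) i]
      rfl
    have e7 : z * ((D.T.eval z • F' + Matrix.vecMul (F i z) Lm) ⬝ᵥ (P * E w).mulVec v) =
        D.T.eval z * ∑ j, (z * b1_M D F π z i j / D.T.eval z) * G w j := by
      rw [e6, sum_dotProduct, Finset.mul_sum, Finset.mul_sum]
      apply Finset.sum_congr rfl
      intro j _
      have e8 : G w j = F j z ⬝ᵥ (P * E w).mulVec v := hGeq w j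
      rw [smul_dotProduct, smul_eq_mul, e8]
      generalize F j z ⬝ᵥ (P * E w).mulVec v = q
      field_simp
    exact mul_left_cancel₀ hw3 (e2.trans e7)
  -- analyticity
  have hzA : AnalyticAt ℂ Complex.exp w₁ := analyticAt_cexp
  have hMan : ∀ i j, AnalyticAt ℂ (fun w => (Matrix.of fun i j =>
      Complex.exp w * b1_M D F π (Complex.exp w) i j / D.T.eval (Complex.exp w)) i j) w₁ := by
    intro i j
    simp only [Matrix.of_apply]
    apply AnalyticAt.div
    · apply hzA.mul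
      have := b1_M_analyticAt D F π u₁ hF h1 hd i j
      rw [← hw₁] at this
      exact AnalyticAt.fun_comp this hzA
    · exact AnalyticAt.fun_comp (b1_poly_analyticAt D.T _) hzA
    · rw [hw₁]; exact hT
  have hGan : ∀ i, AnalyticAt ℂ (fun w => G w i) w₁ := by
    intro i
    rw [Complex.analyticAt_iff_eventually_differentiableAt]
    filter_upwards [hevw] with w hw
    exact (hGd w hw.2.1.1 hw.2.1.2 i).differentiableAt
  have hG0 : ∀ i, G w₁ i = 0 := by
    intro i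
    rw [hGeq, hw₁]
    have : E w₁ = 1 := by
      simp only [hE, sub_self]
      exact cexpM_zero _
    rw [this, mul_one]
    exact hv i
  have hGz := ode_zero (fun w => Matrix.of fun i j =>
      Complex.exp w * b1_M D F π (Complex.exp w) i j / D.T.eval (Complex.exp w)) G w₁ hMan hGan hG0 hode
  -- the strip
  have hstrip := strip_indep D.hν D.h0 D.h1 (fun u => Matrix.vecMul (F i u) (D.Φ u⁻¹)) (by
    intro b u hu
    have hmem : u ∈ Metric.ball (0 : ℂ) D.ρ' := by rw [mem_ball_zero_iff]; exact hu.2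
    simp only [Matrix.vecMul, dotProduct]
    apply Finset.analyticAt_fun_sum
    intro a _
    exact ((hF i).1 a u hmem).mul (b1_phi_analyticAt D hu.1 a b)) ((cexpM w₁ D.ν).mulVec v) w₁
    (by rw [hw₁]; exact h0) (by rw [hw₁]; exact h1) (by
    filter_upwards [hGz] with w hw
    rw [← hw i, hGeq, Matrix.mulVec_mulVec, ← cexpM_add]
    have : -w + w₁ = w₁ - w := by ring
    rw [this, ← Matrix.mulVec_mulVec, Matrix.dotProduct_mulVec]
    rfl)
  have hfin := hstrip u hu0 hu1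
  -- back to `v`
  obtain ⟨n, c, hc⟩ := cexpM_poly (-w₁) D.ν
  have hv2 : v = ∑ k ∈ Finset.range n, c k • (qC (D.ν ^ k)).mulVec ((cexpM w₁ D.ν).mulVec v) := by
    have h2 : v = (cexpM (-w₁) D.ν).mulVec ((cexpM w₁ D.ν).mulVec v) := by
      rw [Matrix.mulVec_mulVec, cexpM_neg, Matrix.one_mulVec]
    conv_lhs => rw [h2, hc, Matrix.sum_mulVec]
    apply Finset.sum_congr rfl
    intro k _
    rw [Matrix.smul_mulVec]
  have h3 : ∑ a, F i u a * (D.Φ u⁻¹).mulVec v a = Matrix.vecMul (F i u) (D.Φ u⁻¹) ⬝ᵥ v := by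
    rw [← Matrix.dotProduct_mulVec]
    rfl
  rw [h3, hv2, dotProduct_sum]
  apply Finset.sum_eq_zero
  intro k _
  rw [dotProduct_smul]
  have := hfin k
  rw [show Matrix.vecMul (F i u) (D.Φ u⁻¹) ⬝ᵥ (qC (D.ν ^ k)).mulVec ((cexpM w₁ D.ν).mulVec v) = 0
    from this, smul_zero]

theorem ann_rank {R : ℕ} (D : BkData R) {f : ℂ → Fin R → ℂ} (hf : f ∈ D.KK)
    (hne : ∃ u ∈ Metric.ball (0 : ℂ) D.ρ', f u ≠ 0) :
    ∃ (l h : ℕ) (F : Fin l → ℂ → Fin R → ℂ) (v : Fin h → Fin R → ℂ) (u₁ : ℂ),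
      1 ≤ l ∧ l + h = R ∧ (∀ i, F i ∈ D.KK) ∧ D.ρ₀ < ‖u₁‖ ∧ ‖u₁‖ < D.ρ' ∧
      LinearIndependent ℂ (fun i => F i u₁) ∧ LinearIndependent ℂ v ∧
      ∀ i j (u : ℂ), D.ρ₀ < ‖u‖ → ‖u‖ < D.ρ' →
        ∑ a, F i u a * (D.Φ u⁻¹).mulVec (v j) a = 0 := by
  obtain ⟨l, F, π, u₁, hl, hF, h0, h1, hT, hd, hsp⟩ := b1_select D hf hne
  have hli := b1_li_of_det π (fun i => F i u₁) hd
  have hlR : l ≤ R := by
    have := hli.fintype_card_le_finrank
    rwa [Fintype.card_fin, Module.finrank_fin_fun] at this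
  set Λ : (Fin R → ℂ) →ₗ[ℂ] (Fin l → ℂ) :=
    Matrix.mulVecLin (Matrix.of (fun i a => F i u₁ a) * D.Φ u₁⁻¹) with hΛ
  have hΛapp : ∀ x, Λ x = (Matrix.of (fun i a => F i u₁ a)).mulVec ((D.Φ u₁⁻¹).mulVec x) := by
    intro x
    rw [hΛ, Matrix.mulVecLin_apply, Matrix.mulVec_mulVec]
  have hker : R - l ≤ Module.finrank ℂ (LinearMap.ker Λ) := by
    have h2 := LinearMap.finrank_range_add_finrank_ker Λ
    have h3 := Submodule.finrank_le (LinearMap.range Λ)
    rw [Module.finrank_fin_fun] at h2 h3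
    omega
  let b := Module.finBasis ℂ (LinearMap.ker Λ)
  refine ⟨l, R - l, F, fun j => (b (Fin.castLE hker j) : Fin R → ℂ), u₁, hl, by omega, hF, h0, h1,
    hli, ?_, ?_⟩
  · have h2 := b.linearIndependent.map' (LinearMap.ker Λ).subtype (Submodule.ker_subtype _)
    exact h2.comp (Fin.castLE hker) (Fin.castLE_injective hker)
  · intro i j u hu0 hu1
    apply b1_key D F π u₁ hF h0 h1 hT hd hsp _ _ i u hu0 hu1
    intro i'
    have h2 : Λ (b (Fin.castLE hker j) : Fin R → ℂ) = 0 := LinearMap.mem_ker.mp (b (Fin.castLE hker j)).2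
    rw [hΛapp] at h2
    exact congrFun h2 i'

end Pool.Agent.Helper79.GX
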