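import Pool.Agent.Helper79.GX.Defs
import Pool.Agent.Helper79.GX.Birk1
import Pool.Agent.Helper79.GC.RatioRat

/-!
# GC-24: no analytic relations (Birkhoff type lemma)

`birk`: suppose `f ∈ D.KK` is not identically `0` on the disc and take `F_i`, `v_j`, `u₁` from `ann_rank`
(`i < l`, `j < h`, `l + h = R`). Choose a set `J` of `l` columns with `δ(u) := det (F_i(u)_a)_{i, a∈J}`, `δ(u₁) ≠ 0`; let
`i₀ ∈ J`. `φ(u)_b := ∑_i adj(F_J(u))_{i₀ i} F_i(u)_b`: analytic on the disc, `φ_a = δ` for `a = i₀`, `φ_a = 0` for the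
other `a ∈ J`, `φ ∈ D.KK`. On the annulus, for each `j < h`:
`δ (Φ v_j)_{i₀} + ∑_{b∉J} φ_b (Φ v_j)_b = 0`. Let `Ω(x) = ((Φ(x) v_j)_b)_{j, b∉J}` (`h × h`), `ω = det Ω`, analytic for
`‖x‖ < 1/ρ₀`. `ω(1/u₁) ≠ 0`: otherwise some `c ≠ 0` has `y = Φ(1/u₁) ∑ c_j v_j` supported on `J`, `F_i(u₁) · y = 0`, so
`y_J = 0` (as `δ(u₁) ≠ 0`), `y = 0`, contradiction. Cramer: `φ_b(u) ω(1/u) = - δ(u) ω_b(1/u)` on the annulus, `ω_b` = det of
`Ω` with the column `b` replaced by `((Φ v_j)_{i₀})_j`. `ratio_rational`: polynomials `Q_b ≠ 0`, `P_b` with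
`Q_b φ_b = P_b δ` on the disc. Let `q = ∏_{b∉J} Q_b`, `V_{i₀} = q`, `V_a = 0` for `a ∈ J ∖ i₀`,
`V_b = P_b ∏_{b'≠b} Q_{b'}`: then `q φ = δ V` on the disc. So `δ V · Φ ν^k e = q φ · Φ ν^k e = 0` on the annulus, `δ ≢ 0`, so
`V(u) · Φ(1/u) ν^k e = 0` on the annulus off a discrete set, and for all `‖u‖ > ρ₀` by the identity theorem
(`{‖u‖ > ρ₀}` is connected; it may be easier to use `x = 1/u` on the punctured ball, or `x^m V(1/x)` on the ball).
`hind` gives `V = 0`, but `V_{i₀} = q ≠ 0`.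
-/

open Polynomial Filter Topology

namespace Pool.Agent.Helper79.GX

open Pool.Agent.Helper37.GP Pool.Agent.Helper79.GC

theorem b2_left_inverse {R l : ℕ} {x : Fin l → Fin R → ℂ} (hli : LinearIndependent ℂ x) :
    ∃ π : (Fin R → ℂ) →ₗ[ℂ] (Fin l → ℂ), ∀ i, π (x i) = Pi.single i 1 := by
  have hker : LinearMap.ker (Fintype.linearCombination ℂ x) = ⊥ := by
    rw [LinearMap.ker_eq_bot']
    intro m hm
    rw [Fintype.linearCombination_apply] at hm
    funext i
    exact Fintype.linearIndependent_iff.mp hli m hm i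
  obtain ⟨π, hπ⟩ := LinearMap.exists_leftInverse_of_injective _ hker
  refine ⟨π, fun i => ?_⟩
  have h1 := LinearMap.congr_fun hπ (Pi.single i (1 : ℂ))
  rw [LinearMap.comp_apply, Fintype.linearCombination_apply_single, one_smul,
    LinearMap.id_apply] at h1
  exact h1

theorem b2_outer_preconnected {r : ℝ} (hr : 0 < r) : IsPreconnected {u : ℂ | r < ‖u‖} := by
  have : {u : ℂ | r < ‖u‖} = Complex.exp '' {w : ℂ | Real.log r < w.re} := by
    ext u
    constructor
    · intro hu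
      have hu' : r < ‖u‖ := hu
      have hu0 : u ≠ 0 := norm_pos_iff.mp (lt_trans hr hu')
      refine ⟨Complex.log u, ?_, Complex.exp_log hu0⟩
      change Real.log r < (Complex.log u).re
      rw [Complex.log_re]
      exact Real.log_lt_log hr hu'
    · rintro ⟨w, hw, rfl⟩
      have hw' : Real.log r < w.re := hw
      change r < ‖Complex.exp w‖
      rw [Complex.norm_exp]
      calc r = Real.exp (Real.log r) := (Real.exp_log hr).symm
        _ < Real.exp w.re := Real.exp_lt_exp.mpr hw'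
  rw [this]
  exact ((convex_halfSpace_re_gt (Real.log r)).isPreconnected).image _
    Complex.continuous_exp.continuousOn

/-- the matrix with constant columns and the columns `Φ(x) v_j` -/
noncomputable def b2_B {R l h : ℕ} (D : BkData R) (π : (Fin R → ℂ) →ₗ[ℂ] (Fin l → ℂ))
    (v : Fin h → Fin R → ℂ) (e : Fin l ⊕ Fin h ≃ Fin R) (x : ℂ) : Matrix (Fin R) (Fin R) ℂ :=
  Matrix.of fun a k => Sum.elim (fun i => π (Pi.single a 1) i)
    (fun j => (D.Φ x).mulVec (v j) a) (e.symm k)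

theorem b2_B_analyticAt {R l h : ℕ} (D : BkData R) (π : (Fin R → ℂ) →ₗ[ℂ] (Fin l → ℂ))
    (v : Fin h → Fin R → ℂ) (e : Fin l ⊕ Fin h ≃ Fin R) {x : ℂ}
    (hx : x ∈ Metric.ball (0 : ℂ) (1 / D.ρ₀)) (a k : Fin R) :
    AnalyticAt ℂ (fun x => b2_B D π v e x a k) x := by
  unfold b2_B
  simp only [Matrix.of_apply]
  rcases e.symm k with i | j
  · simp only [Sum.elim_inl]
    exact analyticAt_const
  · simp only [Sum.elim_inr, Matrix.mulVec, dotProduct]
    apply Finset.analyticAt_fun_sum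
    intro b _
    exact (D.hΦ a b x hx).mul analyticAt_const

theorem b2_det_ne {R l h : ℕ} (D : BkData R) (π : (Fin R → ℂ) →ₗ[ℂ] (Fin l → ℂ))
    (v : Fin h → Fin R → ℂ) (e : Fin l ⊕ Fin h ≃ Fin R) (F : Fin l → Fin R → ℂ) {x : ℂ}
    (hx : x ∈ Metric.ball (0 : ℂ) (1 / D.ρ₀)) (hv : LinearIndependent ℂ v)
    (hπ : ∀ i, π (F i) = Pi.single i 1)
    (hF : ∀ i j, ∑ a, F i a * (D.Φ x).mulVec (v j) a = 0) : (b2_B D π v e x).det ≠ 0 := by
  intro hdet
  obtain ⟨c, hc0, hc⟩ := Matrix.exists_mulVec_eq_zero_iff.mpr hdet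
  apply hc0
  have hca : ∀ a, ∑ i, π (Pi.single a 1) i * c (e (Sum.inl i)) +
      ∑ j, (D.Φ x).mulVec (v j) a * c (e (Sum.inr j)) = 0 := by
    intro a
    have h1 := congrFun hc a
    rw [Matrix.mulVec, dotProduct, ← e.sum_comp, Fintype.sum_sum_type] at h1
    simpa [b2_B] using h1
  have hc1 : ∀ i, c (e (Sum.inl i)) = 0 := by
    intro i
    have h1 : ∑ a, F i a * (∑ i, π (Pi.single a 1) i * c (e (Sum.inl i)) +
      ∑ j, (D.Φ x).mulVec (v j) a * c (e (Sum.inr j))) = 0 := by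
      apply Finset.sum_eq_zero
      intro a _
      rw [hca a, mul_zero]
    have h2 : ∑ a, F i a * ∑ i, π (Pi.single a 1) i * c (e (Sum.inl i)) = c (e (Sum.inl i)) := by
      have h3 : ∑ a, F i a * ∑ i, π (Pi.single a 1) i * c (e (Sum.inl i)) =
          ∑ k, π (F i) k * c (e (Sum.inl k)) := by
        simp only [Finset.mul_sum]
        rw [Finset.sum_comm]
        apply Finset.sum_congr rfl
        intro k _
        rw [b1_proj_apply π (F i) k, Finset.sum_mul]
        apply Finset.sum_congr rfl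
        intro a _
        ring
      rw [h3, hπ i]
      rw [Finset.sum_eq_single i]
      · simp
      · intro k _ hk
        simp [hk]
      · simp
    have h4 : ∑ a, F i a * ∑ j, (D.Φ x).mulVec (v j) a * c (e (Sum.inr j)) = 0 := by
      simp only [Finset.mul_sum]
      rw [Finset.sum_comm]
      apply Finset.sum_eq_zero
      intro j _
      have : ∑ a, F i a * ((D.Φ x).mulVec (v j) a * c (e (Sum.inr j))) =
          (∑ a, F i a * (D.Φ x).mulVec (v j) a) * c (e (Sum.inr j)) := by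
        rw [Finset.sum_mul]
        apply Finset.sum_congr rfl
        intro a _
        ring
      rw [this, hF, zero_mul]
    simp only [mul_add, Finset.sum_add_distrib] at h1
    rw [h2, h4, add_zero] at h1
    exact h1
  have hc2 : ∀ j, c (e (Sum.inr j)) = 0 := by
    have h1 : (D.Φ x).mulVec (∑ j, c (e (Sum.inr j)) • v j) = 0 := by
      rw [Matrix.mulVec_sum]
      funext a
      rw [Finset.sum_apply, Pi.zero_apply, ← hca a]
      simp only [hc1, mul_zero, Finset.sum_const_zero, zero_add, Matrix.mulVec_smul, Pi.smul_apply,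
        smul_eq_mul]
      apply Finset.sum_congr rfl
      intro j _
      ring
    have h2 : ∑ j, c (e (Sum.inr j)) • v j = 0 :=
      Matrix.eq_zero_of_mulVec_eq_zero (D.hdet x hx).ne_zero h1
    exact fun j => Fintype.linearIndependent_iff.mp hv _ h2 j
  funext k
  obtain ⟨s, rfl⟩ := e.surjective k
  rcases s with i | j
  · exact hc1 i
  · exact hc2 j

/-- the distinguished row -/
noncomputable def b2_n {R l : ℕ} (F : Fin l → ℂ → Fin R → ℂ) (π : (Fin R → ℂ) →ₗ[ℂ] (Fin l → ℂ))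
    (i₀ : Fin l) (u : ℂ) (a : Fin R) : ℂ :=
  ∑ i, (Matrix.of fun i j => π (F i u) j).adjugate i₀ i * F i u a

theorem b2_n_C {R l : ℕ} (F : Fin l → ℂ → Fin R → ℂ) (π : (Fin R → ℂ) →ₗ[ℂ] (Fin l → ℂ))
    (i₀ : Fin l) (u : ℂ) (k : Fin l) :
    ∑ a, b2_n F π i₀ u a * π (Pi.single a 1) k =
      if k = i₀ then (Matrix.of fun i j => π (F i u) j).det else 0 := by
  have h1 : ∑ a, b2_n F π i₀ u a * π (Pi.single a 1) k =
      ((Matrix.of fun i j => π (F i u) j).adjugate * (Matrix.of fun i j => π (F i u) j)) i₀ k := by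
    rw [Matrix.mul_apply]
    unfold b2_n
    simp only [Finset.sum_mul]
    rw [Finset.sum_comm]
    apply Finset.sum_congr rfl
    intro i _
    rw [Matrix.of_apply, b1_proj_apply π (F i u) k, Finset.mul_sum]
    apply Finset.sum_congr rfl
    intro a _
    ring
  rw [h1, Matrix.adjugate_mul, Matrix.smul_apply, Matrix.one_apply, smul_eq_mul]
  by_cases hk : k = i₀
  · rw [if_pos hk, if_pos hk.symm, mul_one]
  · rw [if_neg hk, if_neg (fun h => hk h.symm), mul_zero]

theorem b2_Fs_analyticAt {R l : ℕ} (D : BkData R) (F : Fin l → ℂ → Fin R → ℂ)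
    (π : (Fin R → ℂ) →ₗ[ℂ] (Fin l → ℂ)) (hF : ∀ i, F i ∈ D.KK) {u : ℂ}
    (hu : u ∈ Metric.ball (0 : ℂ) D.ρ') (i j : Fin l) :
    AnalyticAt ℂ (fun u => (Matrix.of fun i j => π (F i u) j) i j) u := by
  simp only [Matrix.of_apply]
  have : (fun u => π (F i u) j) = fun u => ∑ a, F i u a * π (Pi.single a 1) j := by
    funext u
    exact b1_proj_apply π _ _
  rw [this]
  apply Finset.analyticAt_fun_sum
  intro a _
  exact AnalyticAt.mul ((hF i).1 a u hu) analyticAt_const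

theorem b2_n_analyticAt {R l : ℕ} (D : BkData R) (F : Fin l → ℂ → Fin R → ℂ)
    (π : (Fin R → ℂ) →ₗ[ℂ] (Fin l → ℂ)) (hF : ∀ i, F i ∈ D.KK) (i₀ : Fin l) {u : ℂ}
    (hu : u ∈ Metric.ball (0 : ℂ) D.ρ') (a : Fin R) :
    AnalyticAt ℂ (fun u => b2_n F π i₀ u a) u := by
  unfold b2_n
  apply Finset.analyticAt_fun_sum
  intro i _
  exact (b1_adj_analyticAt (b2_Fs_analyticAt D F π hF hu) i₀ i).mul ((hF i).1 a u hu)

/-- the row annihilates every vector annihilated by all `F_i` -/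
theorem b2_n_ann {R l : ℕ} (F : Fin l → ℂ → Fin R → ℂ) (π : (Fin R → ℂ) →ₗ[ℂ] (Fin l → ℂ))
    (i₀ : Fin l) (u : ℂ) (y : Fin R → ℂ) (h : ∀ i, ∑ a, F i u a * y a = 0) :
    ∑ a, b2_n F π i₀ u a * y a = 0 := by
  unfold b2_n
  simp only [Finset.sum_mul]
  rw [Finset.sum_comm]
  apply Finset.sum_eq_zero
  intro i _
  have : ∑ a, (Matrix.of fun i j => π (F i u) j).adjugate i₀ i * F i u a * y a =
      (Matrix.of fun i j => π (F i u) j).adjugate i₀ i * ∑ a, F i u a * y a := by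
    rw [Finset.mul_sum]
    apply Finset.sum_congr rfl
    intro a _
    ring
  rw [this, h i, mul_zero]

/-- Cramer's rule -/
theorem b2_cramer {R l h : ℕ} (D : BkData R) (π : (Fin R → ℂ) →ₗ[ℂ] (Fin l → ℂ))
    (v : Fin h → Fin R → ℂ) (e : Fin l ⊕ Fin h ≃ Fin R) (F : Fin l → ℂ → Fin R → ℂ)
    (i₀ : Fin l) (u : ℂ) (hF : ∀ i j, ∑ a, F i u a * (D.Φ u⁻¹).mulVec (v j) a = 0) (a : Fin R) :
    b2_n F π i₀ u a * (b2_B D π v e u⁻¹).det =
      (Matrix.of fun i j => π (F i u) j).det *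
        (b2_B D π v e u⁻¹).adjugate (e (Sum.inl i₀)) a := by
  have h1 : Matrix.vecMul (b2_n F π i₀ u) (b2_B D π v e u⁻¹) =
      (Matrix.of fun i j => π (F i u) j).det • Pi.single (e (Sum.inl i₀)) 1 := by
    funext k
    obtain ⟨s, rfl⟩ := e.surjective k
    rw [Matrix.vecMul, dotProduct, Pi.smul_apply, smul_eq_mul]
    rcases s with i | j
    · have h2 := b2_n_C F π i₀ u i
      have h3 : ∑ a, b2_n F π i₀ u a * b2_B D π v e u⁻¹ a (e (Sum.inl i)) =
          ∑ a, b2_n F π i₀ u a * π (Pi.single a 1) i := by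
        apply Finset.sum_congr rfl
        intro a _
        simp [b2_B]
      rw [h3, h2, Pi.single_apply]
      by_cases hi : i = i₀
      · simp [hi]
      · rw [if_neg hi, if_neg, mul_zero]
        intro hcon
        exact hi (Sum.inl_injective (e.injective hcon))
    · have h3 : ∑ a, b2_n F π i₀ u a * b2_B D π v e u⁻¹ a (e (Sum.inr j)) =
          ∑ a, b2_n F π i₀ u a * (D.Φ u⁻¹).mulVec (v j) a := by
        apply Finset.sum_congr rfl
        intro a _
        simp [b2_B]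
      rw [h3, b2_n_ann F π i₀ u _ (fun i => hF i j), Pi.single_apply, if_neg, mul_zero]
      intro hcon
      have := e.injective hcon
      simp at this
  have h2 := congrArg (fun z => Matrix.vecMul z (b2_B D π v e u⁻¹).adjugate) h1
  simp only [Matrix.vecMul_vecMul, Matrix.mul_adjugate, Matrix.vecMul_smul, Matrix.vecMul_one,
    Matrix.smul_vecMul] at h2
  have h3 := congrFun h2 a
  rw [Pi.smul_apply, Pi.smul_apply, smul_eq_mul, smul_eq_mul, Matrix.single_one_vecMul] at h3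
  rw [mul_comm]
  exact h3

theorem birk {R : ℕ} (D : BkData R) {f : ℂ → Fin R → ℂ} (hf : f ∈ D.KK) :
    ∀ u ∈ Metric.ball (0 : ℂ) D.ρ', f u = 0 := by
  classical
  by_contra hcon
  push Not at hcon
  obtain ⟨l, h, F, v, u₁, hl, hlh, hF, h0, h1, hli, hv, hFv⟩ := ann_rank D hf hcon
  have hρ := D.h0
  obtain ⟨π, hπ⟩ := b2_left_inverse hli
  let e : Fin l ⊕ Fin h ≃ Fin R := finSumFinEquiv.trans (finCongr hlh)
  let i₀ : Fin l := ⟨0, hl⟩
  set δ : ℂ → ℂ := fun u => (Matrix.of fun i j => π (F i u) j).det with hδ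
  have hδ1 : δ u₁ = 1 := by
    have : (Matrix.of fun i j => π (F i u₁) j) = (1 : Matrix (Fin l) (Fin l) ℂ) := by
      ext i j
      rw [Matrix.of_apply, hπ i, Matrix.one_apply, Pi.single_apply]
      simp only [eq_comm]
    simp only [hδ]
    rw [this, Matrix.det_one]
  have hu₁b : u₁ ∈ Metric.ball (0 : ℂ) D.ρ' := by rwa [mem_ball_zero_iff]
  have hu₁i : u₁⁻¹ ∈ Metric.ball (0 : ℂ) (1 / D.ρ₀) := by
    rw [mem_ball_zero_iff, norm_inv, one_div]
    exact inv_strictAnti₀ hρ h0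
  have hδan : ∀ u ∈ Metric.ball (0 : ℂ) D.ρ', AnalyticAt ℂ δ u := fun u hu =>
    b1_det_analyticAt (b2_Fs_analyticAt D F π hF hu)
  have hrat : ∀ a : Fin R, ∃ P Q : ℂ[X], Q ≠ 0 ∧ ∀ u ∈ Metric.ball (0 : ℂ) D.ρ',
      Q.eval u * b2_n F π i₀ u a = P.eval u * δ u := by
    intro a
    refine ratio_rational D.h0 D.h1 (fun u => b2_n F π i₀ u a) δ
      (fun x => (b2_B D π v e x).adjugate (e (Sum.inl i₀)) a) (fun x => (b2_B D π v e x).det)
      (fun u hu => b2_n_analyticAt D F π hF i₀ hu a) hδan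
      (fun x hx => b1_adj_analyticAt (b2_B_analyticAt D π v e hx) _ _)
      (fun x hx => b1_det_analyticAt (b2_B_analyticAt D π v e hx))
      ⟨u₁, hu₁b, by rw [hδ1]; exact one_ne_zero⟩ ⟨u₁⁻¹, hu₁i, ?_⟩ ?_
    · exact b2_det_ne D π v e (fun i => F i u₁) hu₁i hv hπ (fun i j => hFv i j u₁ h0 h1)
    · intro u hu0 hu1
      exact b2_cramer D π v e F i₀ u (fun i j => hFv i j u hu0 hu1) a
  choose P Q hQ hPQ using hrat
  set q : ℂ[X] := ∏ a, Q a with hq
  set V : Fin R → ℂ[X] := fun a => P a * ∏ a' ∈ Finset.univ.erase a, Q a' with hV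
  have hqn : ∀ u ∈ Metric.ball (0 : ℂ) D.ρ', ∀ a,
      q.eval u * b2_n F π i₀ u a = (V a).eval u * δ u := by
    intro u hu a
    have e1 : q = Q a * ∏ a' ∈ Finset.univ.erase a, Q a' :=
      (Finset.mul_prod_erase Finset.univ Q (Finset.mem_univ a)).symm
    rw [e1, hV, Polynomial.eval_mul, Polynomial.eval_mul]
    have e2 := hPQ a u hu
    linear_combination (Polynomial.eval u (∏ a' ∈ Finset.univ.erase a, Q a')) * e2
  -- neighbourhood of `u₁`
  have hevδ : ∀ᶠ u in 𝓝 u₁, δ u ≠ 0 :=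
    (hδan u₁ hu₁b).continuousAt.eventually_ne (by rw [hδ1]; exact one_ne_zero)
  have hevA : ∀ᶠ u in 𝓝 u₁, D.ρ₀ < ‖u‖ ∧ ‖u‖ < D.ρ' :=
    (b1_isOpen_annulus _ _).mem_nhds ⟨h0, h1⟩
  have hVz : V = 0 := by
    apply D.hind
    intro k u hu
    have hW : AnalyticOnNhd ℂ (fun u => ∑ a, (V a).eval u *
        (D.Φ u⁻¹ * qC (D.ν ^ k)).mulVec D.e a) {u : ℂ | D.ρ₀ < ‖u‖} := by
      intro z hz
      apply Finset.analyticAt_fun_sum
      intro a _
      apply (b1_poly_analyticAt (V a) z).mul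
      have hy : (fun u => (D.Φ u⁻¹ * qC (D.ν ^ k)).mulVec D.e a) =
          fun u => ∑ b, D.Φ u⁻¹ a b * (qC (D.ν ^ k)).mulVec D.e b := by
        funext u
        rw [← Matrix.mulVec_mulVec]
        rfl
      rw [hy]
      apply Finset.analyticAt_fun_sum
      intro b _
      exact (b1_phi_analyticAt D hz a b).mul analyticAt_const
    have hW0 : (fun u => ∑ a, (V a).eval u *
        (D.Φ u⁻¹ * qC (D.ν ^ k)).mulVec D.e a) =ᶠ[𝓝 u₁] 0 := by
      filter_upwards [hevδ, hevA] with z hz1 hz2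
      have hzb : z ∈ Metric.ball (0 : ℂ) D.ρ' := by rw [mem_ball_zero_iff]; exact hz2.2
      rw [Pi.zero_apply]
      apply mul_left_cancel₀ hz1
      rw [mul_zero, Finset.mul_sum]
      have e1 : ∑ a, δ z * ((V a).eval z * (D.Φ z⁻¹ * qC (D.ν ^ k)).mulVec D.e a) =
          q.eval z * ∑ a, b2_n F π i₀ z a * (D.Φ z⁻¹ * qC (D.ν ^ k)).mulVec D.e a := by
        rw [Finset.mul_sum]
        apply Finset.sum_congr rfl
        intro a _
        have e2 := hqn z hzb a
        linear_combination (-((D.Φ z⁻¹ * qC (D.ν ^ k)).mulVec D.e a)) * e2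
      rw [e1, b2_n_ann F π i₀ z _ (fun i => (hF i).2 k z hz2.1 hz2.2), mul_zero]
    exact hW.eqOn_zero_of_preconnected_of_eventuallyEq_zero (b2_outer_preconnected hρ)
      (show u₁ ∈ {u : ℂ | D.ρ₀ < ‖u‖} from h0) hW0 (show u ∈ {u : ℂ | D.ρ₀ < ‖u‖} from hu)
  -- contradiction
  have hqz : ∀ᶠ u in 𝓝 u₁, q.eval u = 0 := by
    filter_upwards [hevδ, hevA] with z hz1 hz2
    have hzb : z ∈ Metric.ball (0 : ℂ) D.ρ' := by rw [mem_ball_zero_iff]; exact hz2.2
    have e1 := b2_n_C F π i₀ z i₀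
    rw [if_pos rfl] at e1
    have e2 : q.eval z * δ z = 0 := by
      have e3 : δ z = ∑ a, b2_n F π i₀ z a * π (Pi.single a 1) i₀ := e1.symm
      rw [e3, Finset.mul_sum]
      apply Finset.sum_eq_zero
      intro a _
      have e4 := hqn z hzb a
      have e5 : (V a).eval z = 0 := by rw [hVz]; simp
      rw [e5, zero_mul] at e4
      rw [← mul_assoc, e4, zero_mul]
    exact (mul_eq_zero.mp e2).resolve_right hz1
  have hqq : q = 0 := by
    apply Polynomial.eq_zero_of_infinite_isRoot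
    exact infinite_of_mem_nhds u₁ hqz
  rw [hq, Finset.prod_eq_zero_iff] at hqq
  obtain ⟨a, _, ha⟩ := hqq
  exact hQ a ha

end Pool.Agent.Helper79.GX
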