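import Pool.Agent.Helper79.GX.Defs
import Pool.Agent.Helper79.GX.BinmX
import Pool.Agent.Helper79.GC.Slot
import Pool.Agent.Helper37.GP.Bounds

/-!
# GC-10: sizes, denominators and values of the block functions and their products

`b.Ψ a = (Φ.map (subst (gx 1 a))) * pw a νl`. Use `gbound_subst`, `gden_subst` (`Pool.Agent.Helper39.GP.Subst`),
`pw_gbound`, `pw_gden`, `gbound_mul`, sums of `R` terms (`R H^(n+1) ≤ (R H)^(n+1)`), products of denominators,
`gbound_prod`, `gden_prod`, `pev_prod` (`Pool.Agent.Helper37.GP.Bounds`; compare `ee_gbounds`, `ee_gdens`,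
`ee_pevs` in `Pool.Agent.Helper37.GP.GThms`) with exponents `m = 1`. Constants `n ≤ (K+1)^n` for `K ≥ 1`.
-/

open Polynomial

namespace Pool.Agent.Helper79.GX

open Pool.Agent.Helper37.GP Pool.Agent.Helper79.GC

namespace PsiAux

open Pool.Agent.Helper37.GP.BoundsAux

lemma le_powK {K : ℕ} (hK : 1 ≤ K) (n : ℕ) : n ≤ (K + 1) ^ n :=
  le_trans (Nat.lt_two_pow_self).le (Nat.pow_le_pow_left (by omega) n)

lemma gb_mono {H H' : ℕ} (h : H ≤ H') {f : PowerSeries ℚ} (hf : GBound H f) : GBound H' f :=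
  gbound_mono h hf

lemma gd_mono {ι : Type} {H H' : ℕ} (h : H ≤ H') {f : ι → PowerSeries ℚ} (hf : GDen H f) :
    GDen H' f := by
  intro n
  obtain ⟨d, h0, h1, h2⟩ := hf n
  exact ⟨d, h0, le_trans h1 (Nat.pow_le_pow_left h _), h2⟩

/-- Sums of `R` series. -/
lemma gb_sum {ι : Type} [Fintype ι] {H : ℕ} {f : ι → PowerSeries ℚ} (hf : ∀ i, GBound H (f i)) :
    GBound ((Fintype.card ι + 1) * H) (∑ i, f i) := by
  intro n
  rw [map_sum]
  refine le_trans (Finset.abs_sum_le_sum_abs _ _) ?_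
  refine le_trans (Finset.sum_le_sum fun i _ => hf i n) ?_
  rw [Finset.sum_const, Finset.card_univ, nsmul_eq_mul]
  push_cast
  rw [mul_pow]
  refine mul_le_mul_of_nonneg_right ?_ (by positivity)
  have h1 : (1 : ℚ) ≤ (Fintype.card ι : ℚ) + 1 := by
    have : (0 : ℚ) ≤ (Fintype.card ι : ℚ) := Nat.cast_nonneg _
    linarith
  calc (Fintype.card ι : ℚ) ≤ (Fintype.card ι : ℚ) + 1 := by linarith
    _ = ((Fintype.card ι : ℚ) + 1) ^ 1 := (pow_one _).symm
    _ ≤ _ := pow_le_pow_right₀ h1 (by omega)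

lemma iu_sum {ι : Type} (s : Finset ι) {n q : ℕ} {f : ι → PowerSeries ℚ}
    (hf : ∀ i ∈ s, IU n q (f i)) : IU n q (∑ i ∈ s, f i) := by
  classical
  intro m hm
  have h : ∀ i, ∃ z : ℤ, i ∈ s → (q : ℚ) * PowerSeries.coeff m (f i) = z := by
    intro i
    by_cases hi : i ∈ s
    · obtain ⟨z, hz⟩ := hf i hi m hm
      exact ⟨z, fun _ => hz⟩
    · exact ⟨0, fun h => absurd h hi⟩
  choose z hz using h
  refine ⟨∑ i ∈ s, z i, ?_⟩
  rw [map_sum, Finset.mul_sum]
  push_cast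
  exact Finset.sum_congr rfl fun i hi => hz i hi

lemma iu_prodS {ι : Type} [DecidableEq ι] (s : Finset ι) {n : ℕ} {q : ι → ℕ}
    {f : ι → PowerSeries ℚ} (hf : ∀ i ∈ s, IU n (q i) (f i)) :
    IU n (∏ i ∈ s, q i) (∏ i ∈ s, f i) := by
  induction s using Finset.induction_on with
  | empty =>
    rw [Finset.prod_empty, Finset.prod_empty]
    exact iu_one n
  | insert a s ha ih =>
    rw [Finset.prod_insert ha, Finset.prod_insert ha]
    exact iu_mul (hf a (Finset.mem_insert_self _ _))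
      (ih fun i hi => hf i (Finset.mem_insert_of_mem hi))

end PsiAux

open PsiAux in
theorem Ψ_bounds {R : ℕ} (b : BlockData R) : ∃ c : ℕ, ∀ K a : ℕ, 1 ≤ K → a ≤ K →
    (∀ α β, GBound ((K + 1) ^ c) (b.Ψ a α β)) ∧
      GDen ((K + 1) ^ c) (fun p : Fin R × Fin R => b.Ψ a p.1 p.2) := by
  obtain ⟨C, hC1, hC⟩ := pw_gbound b.νl
  obtain ⟨s, _, hs⟩ := b.tl
  obtain ⟨D, hD1, hD⟩ := pw_gden_x hs
  have hH := b.hH
  refine ⟨(R + 1) + (4 * b.H * C + 1) * 3 + b.H * D, ?_⟩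
  intro K a hK ha
  have hap : ∀ (α β : Fin R), b.Ψ a α β =
      ∑ γ, (b.Φ α γ).subst (gx 1 a) * pw a b.νl γ β := by
    intro α β
    rw [BlockData.Ψ, Matrix.mul_apply]
    rfl
  have hpos : ∀ n, 1 ≤ (K + 1) ^ n := fun n => Nat.one_le_pow _ _ (by omega)
  have hle : 4 * b.H * C * (a + 1) ≤ (K + 1) ^ (4 * b.H * C + 1) := by
    rw [pow_succ]
    exact Nat.mul_le_mul (le_powK hK _) (by omega)
  constructor
  · intro α β
    rw [hap]
    have h1 : ∀ γ, GBound (((K + 1) ^ (4 * b.H * C + 1)) ^ 3)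
        ((b.Φ α γ).subst (gx 1 a) * pw a b.νl γ β) := by
      intro γ
      refine gbound_mul ?_ (gb_mono ?_ (gbound_subst hH (b.bd α γ) le_rfl a))
        (gb_mono ?_ (hC a γ β))
      · calc 2 ≤ (K + 1) ^ 1 := by rw [pow_one]; omega
          _ ≤ _ := Nat.pow_le_pow_right (by omega) (by omega)
      · refine le_trans ?_ hle
        exact Nat.mul_le_mul_right _ (Nat.le_mul_of_pos_right _ (by omega))
      · refine le_trans ?_ hle
        refine Nat.mul_le_mul_right _ (Nat.le_mul_of_pos_left _ (by omega))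
    refine gb_mono ?_ (gb_sum h1)
    rw [Fintype.card_fin, ← pow_mul, pow_add, pow_add]
    calc (R + 1) * (K + 1) ^ ((4 * b.H * C + 1) * 3)
        ≤ (K + 1) ^ (R + 1) * (K + 1) ^ ((4 * b.H * C + 1) * 3) :=
          Nat.mul_le_mul_right _ (le_powK hK _)
      _ ≤ _ := Nat.le_mul_of_pos_right _ (hpos _)
  · have h2 : GDen (b.H * D) (fun p : Fin R × Fin R => b.Ψ a p.1 p.2) := by
      intro n
      obtain ⟨d1, d10, d1l, d1i⟩ := gden_subst hH b.den le_rfl a (k := 1) n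
      obtain ⟨d2, d20, d2l, d2i⟩ := hD a n
      refine ⟨d1 * d2, Nat.mul_pos d10 d20, ?_, ?_⟩
      · rw [mul_pow]
        refine Nat.mul_le_mul ?_ d2l
        rwa [mul_one] at d1l
      · intro m hm p
        have := iu_sum (Finset.univ : Finset (Fin R)) (n := n) (q := d1 * d2)
          (f := fun γ => (b.Φ p.1 γ).subst (gx 1 a) * pw a b.νl γ p.2) (fun γ _ =>
            BoundsAux.iu_mul (fun m hm => d1i m hm (p.1, γ)) (fun m hm => d2i m hm (γ, p.2)))
        rw [← hap] at this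
        exact this m hm
    refine gd_mono ?_ h2
    refine le_trans (le_powK hK _) (Nat.pow_le_pow_right (by omega) (by omega))

open PsiAux in
theorem bigE_bounds {R : ℕ} (b : BlockData R) (d : ℕ) : ∃ c : ℕ, ∀ (K : ℕ) (a : Fin d → ℕ),
    1 ≤ K → (∀ j, a j ≤ K) → (∀ α, GBound ((K + 1) ^ c) (bigE b a α)) ∧
      GDen ((K + 1) ^ c) (bigE b a) ∧
      ∀ s : ℝ, ((K : ℝ) + 1) ^ c < s → ∀ α, pev (bigE b a α) s = ∏ j, pev (b.fn (a j) (α j)) s := by
  obtain ⟨c0, hc0⟩ := Ψ_bounds b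
  obtain ⟨c1, hc1⟩ := gbound_prod (ι := Fin d) d
  obtain ⟨c2, hc2⟩ := pev_prod (ι := Fin d) d
  refine ⟨(c0 + 1) * c1 + (c0 + 1) * c2 + c0 * d, ?_⟩
  intro K a hK ha
  have hK1 : (1 : ℝ) ≤ (K : ℝ) + 1 := by
    have : (0 : ℝ) ≤ K := K.cast_nonneg
    linarith
  have h2 : 2 ≤ (K + 1) ^ (c0 + 1) := by
    calc 2 ≤ (K + 1) ^ 1 := by rw [pow_one]; omega
      _ ≤ _ := Nat.pow_le_pow_right (by omega) (by omega)
  have hb : ∀ (α : Fin d → Fin R) (j : Fin d), GBound ((K + 1) ^ (c0 + 1)) (b.fn (a j) (α j)) :=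
    fun α j => gb_mono (Nat.pow_le_pow_right (by omega) (by omega))
      ((hc0 K (a j) hK (ha j)).1 (α j) b.i₀)
  have hs : ∑ _j : Fin d, 1 ≤ d := by simp
  have he : ∀ α : Fin d → Fin R, bigE b a α = ∏ j, b.fn (a j) (α j) ^ 1 := by
    intro α
    simp only [pow_one]
    rfl
  refine ⟨?_, ?_, ?_⟩
  · intro α
    rw [he]
    refine gb_mono ?_ (hc1 _ h2 _ (hb α) (fun _ => 1) hs)
    rw [← pow_mul]
    exact Nat.pow_le_pow_right (by omega) (by omega)
  · intro n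
    have h3 : ∀ j : Fin d, ∃ q : ℕ, 0 < q ∧ q ≤ ((K + 1) ^ c0) ^ (n + 1) ∧
        ∀ m ≤ n, ∀ p : Fin R × Fin R, ∃ z : ℤ,
          (q : ℚ) * PowerSeries.coeff m (b.Ψ (a j) p.1 p.2) = z :=
      fun j => (hc0 K (a j) hK (ha j)).2 n
    choose q q0 ql qi using h3
    refine ⟨∏ j, q j, Finset.prod_pos fun j _ => q0 j, ?_, ?_⟩
    · calc ∏ j, q j ≤ ∏ _j : Fin d, ((K + 1) ^ c0) ^ (n + 1) :=
            Finset.prod_le_prod (fun _ _ => Nat.zero_le _) fun j _ => ql j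
        _ = ((K + 1) ^ (c0 * d)) ^ (n + 1) := by
            rw [Finset.prod_const, Finset.card_univ, Fintype.card_fin, ← pow_mul, ← pow_mul,
              ← pow_mul]
            congr 1
            ring
        _ ≤ _ := Nat.pow_le_pow_left (Nat.pow_le_pow_right (by omega) (by omega)) _
    · intro m hm α
      exact iu_prodS Finset.univ (n := n) (q := q) (f := fun j => b.fn (a j) (α j))
        (fun j _ m hm => qi j m hm (α j, b.i₀)) m hm
  · intro s hs' α
    have h5 : ((((K + 1) ^ (c0 + 1) : ℕ) : ℝ)) ^ c2 < s := by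
      refine lt_of_le_of_lt ?_ hs'
      push_cast
      rw [← pow_mul]
      exact pow_le_pow_right₀ hK1 (by omega)
    rw [he, hc2 _ h2 _ (hb α) (fun _ => 1) hs s h5]
    simp only [pow_one]

end Pool.Agent.Helper79.GX
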