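import Pool.Agent.Helper79.GX.SpecSplit
import Pool.Agent.Helper79.GC.ZeroEst2

/-!
# GX-06: the zero estimate at a regular singular point, arbitrary rational exponents

Modify the proof of `zero_estimate2` (`Pool.Agent.Helper79.GC.ZeroEst2`, whose lemmas may be imported). `K = LaurentSeries ℚ`, `e = Ψ e_{i₀}`, `row_j = row T B P j`.

`ν = ∑_{c∈s} c π_c + N₀` (`spec_split`), `|c| ≤ E`. `F = ∑ ⌊c⌋ π_c`, `x^F = ∑ x^⌊c⌋ π_c ∈ GL(K)` with inverse `∑ x^(-⌊c⌋) π_c`; it commutes with `ν`, and
`(x^F)' = -x F x^F`. `ν - F` has spectrum in `[0,1)` (`Spec (s.image fun c => c - ⌊c⌋) (ν - F)`), so `rs_span` applies to it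
(`χ = ∏ (X - c)^m`, `χ` and `χ(X + n)` coprime for `n ≥ 1`). `Ψ̃ = Ψ x^F`: `w̃_j = row_j Ψ̃` satisfies `(j+1) w̃_{j+1} = T (w̃_j' - x w̃_j (ν - F)) - j T' w̃_j`.
As before the `K`-span `V` of the `w̃_j` has basis `w̃_0, …, w̃_{l-1}` and is spanned by constant vectors `c_1, …, c_l ∈ ℚ^R`. Let `C` be the `l × R` matrix with the
rows `c_i` and `A = Ψ̃⁻¹ = x^(-F) Ψ⁻¹`, `G = C A` (entries of order `≥ -E`): the rows `row_j` (`j < l`) are `ρ G` with `ρ` invertible over `K`.

Suppose `l < R`. Choose a set `J` of `l` columns such that `det G_J` is nonzero of minimal order among the `l`-minors. Then `G_J⁻¹ G` has entries of order `≥ 0`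
(Cramer: quotients of minors), so `ê = G_J⁻¹ G e` has entries of order `≥ 0`. The `i₀`-column of `ν` is zero, so `x^F e_{i₀} = e_{i₀}` and `G e = C e_{i₀}`, a constant
vector; it is not zero, because otherwise `row_0 · e = 0`, `P = 0`. `G_J ê = C e_{i₀}` shows that some entry of `ê` has a nonzero coefficient of index `≤ E`.
`det (row_{j,J}) ê_k = ∑_{j<l} adj_{k j} (row_j · e)` has order `≤ E` and
`≥ -(l-1)(D + τ R) + ord(∑ P e) - τ R` with `l ≤ R - 1`: contradiction for `C₁ = τ R² + E + 1`.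
-/

open Polynomial

namespace Pool.Agent.Helper79.GX

open Pool.Agent.Helper37.GP Pool.Agent.Helper79.GC

/-- fundamental matrices with entries in the field of Laurent series -/
private def FundL {R : ℕ} (T : ℚ[X]) (B : Matrix (Fin R) (Fin R) ℚ[X])
    (G : Matrix (Fin R) (Fin R) (LaurentSeries ℚ)) (ν : Matrix (Fin R) (Fin R) ℚ) : Prop :=
  emb T • dM G = eM B * G + (emb T * xx) • (G * cM ν)

section ZE3

variable {R : ℕ} {T : ℚ[X]} {B : Matrix (Fin R) (Fin R) ℚ[X]}
  {G : Matrix (Fin R) (Fin R) (LaurentSeries ℚ)} {ν : Matrix (Fin R) (Fin R) ℚ} {P : Fin R → ℚ[X]}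

/-- the vectors `w_j = row_j G` -/
private noncomputable def zwL (T : ℚ[X]) (B : Matrix (Fin R) (Fin R) ℚ[X])
    (G : Matrix (Fin R) (Fin R) (LaurentSeries ℚ)) (P : Fin R → ℚ[X]) (j : ℕ) :
    Fin R → LaurentSeries ℚ :=
  fun a => ∑ b, emb (row T B P j b) * G b a

private lemma zwL_succ (hF : FundL T B G ν) (j : ℕ) (a : Fin R) :
    ((j : LaurentSeries ℚ) + 1) * zwL T B G P (j + 1) a =
      emb T * (dd (zwL T B G P j a) -
        xx * ∑ c, algebraMap ℚ (LaurentSeries ℚ) (ν c a) * zwL T B G P j c)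
        - (j : LaurentSeries ℚ) * emb (derivative T) * zwL T B G P j a := by
  have hF' : ∀ b c, emb T * dd (G b c) = ∑ k, emb (B b k) * G k c +
      emb T * xx * ∑ k, G b k * algebraMap ℚ (LaurentSeries ℚ) (ν k c) := by
    intro b c
    have h1 := congrFun (congrFun hF b) c
    rw [Matrix.smul_apply, Matrix.add_apply, Matrix.smul_apply, Matrix.mul_apply, Matrix.mul_apply]
      at h1
    exact h1
  have h1 : ∀ b, ((j : LaurentSeries ℚ) + 1) * (emb (row T B P (j + 1) b) * G b a) =
      (emb T * emb (derivative (row T B P j b)) - (j : LaurentSeries ℚ) * emb (derivative T) *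
        emb (row T B P j b) + ∑ c, emb (row T B P j c) * emb (B c b)) * G b a := by
    intro b
    have h2 := congrArg emb (RowsAux.row_succ T B P j b)
    simp only [map_mul, map_add, map_sub, map_sum, map_natCast, map_one] at h2
    rw [← mul_assoc, h2]
  have h3 : ((j : LaurentSeries ℚ) + 1) * zwL T B G P (j + 1) a =
      ∑ b, emb T * emb (derivative (row T B P j b)) * G b a -
        (j : LaurentSeries ℚ) * emb (derivative T) * zwL T B G P j a +
        ∑ b, (∑ c, emb (row T B P j c) * emb (B c b)) * G b a := by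
    unfold zwL
    rw [Finset.mul_sum, Finset.mul_sum, ← Finset.sum_sub_distrib, ← Finset.sum_add_distrib]
    refine Finset.sum_congr rfl fun b _ => ?_
    rw [h1 b]
    ring
  have h4 : emb T * dd (zwL T B G P j a) =
      ∑ b, emb T * emb (derivative (row T B P j b)) * G b a +
      (∑ b, (∑ c, emb (row T B P j c) * emb (B c b)) * G b a +
      emb T * xx * ∑ b, emb (row T B P j b) *
        ∑ k, G b k * algebraMap ℚ (LaurentSeries ℚ) (ν k a)) := by
    have h5 : ∑ b, (∑ c, emb (row T B P j c) * emb (B c b)) * G b a =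
        ∑ c, emb (row T B P j c) * ∑ b, emb (B c b) * G b a := by
      simp only [Finset.sum_mul, Finset.mul_sum]
      rw [Finset.sum_comm]
      exact Finset.sum_congr rfl fun c _ => Finset.sum_congr rfl fun b _ => by ring
    rw [h5, Finset.mul_sum (s := Finset.univ)
      (f := fun b => emb (row T B P j b) * ∑ k, G b k * algebraMap ℚ (LaurentSeries ℚ) (ν k a)),
      ← Finset.sum_add_distrib, ← Finset.sum_add_distrib]
    unfold zwL
    rw [dd_sum, Finset.mul_sum]
    refine Finset.sum_congr rfl fun b _ => ?_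
    rw [dd_mul, dd_emb]
    linear_combination emb (row T B P j b) * hF' b a
  have h6 : ∑ b, emb (row T B P j b) *
        ∑ k, G b k * algebraMap ℚ (LaurentSeries ℚ) (ν k a) =
      ∑ c, algebraMap ℚ (LaurentSeries ℚ) (ν c a) * zwL T B G P j c := by
    unfold zwL
    simp only [Finset.mul_sum]
    rw [Finset.sum_comm]
    exact Finset.sum_congr rfl fun c _ => Finset.sum_congr rfl fun b _ => by ring
  rw [h6] at h4
  rw [h3]
  linear_combination -h4

/-- the span of the first vectors -/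
private noncomputable def zL (T : ℚ[X]) (B : Matrix (Fin R) (Fin R) ℚ[X])
    (G : Matrix (Fin R) (Fin R) (LaurentSeries ℚ)) (P : Fin R → ℚ[X]) (m : ℕ) :
    Submodule (LaurentSeries ℚ) (Fin R → LaurentSeries ℚ) :=
  Submodule.span (LaurentSeries ℚ) (Set.range fun i : Fin m => zwL T B G P i)

private lemma mem_zL {m i : ℕ} (h : i < m) : zwL T B G P i ∈ zL T B G P m :=
  Submodule.subset_span ⟨⟨i, h⟩, rfl⟩

private lemma zL_stable (hT0 : emb T ≠ 0) (hF : FundL T B G ν) {m : ℕ}
    (hm : zwL T B G P m ∈ zL T B G P m) (y : Fin R → LaurentSeries ℚ) (hy : y ∈ zL T B G P m) :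
    (fun a => dd (y a) + xx * ∑ b, algebraMap ℚ (LaurentSeries ℚ) ((-ν.transpose) a b) * y b) ∈
      zL T B G P m := by
  have hall : ∀ i, i ≤ m → zwL T B G P i ∈ zL T B G P m := by
    intro i hi
    rcases hi.lt_or_eq with h | rfl
    · exact mem_zL h
    · exact hm
  have key : ∀ y : Fin R → LaurentSeries ℚ, (fun a => dd (y a) + xx * ∑ b, algebraMap ℚ
      (LaurentSeries ℚ) ((-ν.transpose) a b) * y b) =
      fun a => dd (y a) - xx * ∑ c, algebraMap ℚ (LaurentSeries ℚ) (ν c a) * y c := by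
    intro y
    funext a
    simp only [Matrix.neg_apply, Matrix.transpose_apply, map_neg, neg_mul, Finset.sum_neg_distrib,
      mul_neg]
    ring
  rw [key]
  unfold zL at hy
  induction hy using Submodule.span_induction with
  | mem y hy =>
    obtain ⟨⟨i, hi⟩, rfl⟩ := hy
    have h1 : (fun a => dd (zwL T B G P i a) - xx * ∑ c, algebraMap ℚ (LaurentSeries ℚ) (ν c a) *
        zwL T B G P i c) = (emb T)⁻¹ • (((i : LaurentSeries ℚ) + 1) • zwL T B G P (i + 1) +
          ((i : LaurentSeries ℚ) * emb (derivative T)) • zwL T B G P i) := by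
      funext a
      have h2 := zwL_succ (P := P) hF i a
      simp only [Pi.smul_apply, Pi.add_apply, smul_eq_mul]
      rw [eq_inv_mul_iff_mul_eq₀ hT0]
      linear_combination -h2
    show (fun a => dd (zwL T B G P i a) - xx * ∑ c, algebraMap ℚ (LaurentSeries ℚ) (ν c a) *
        zwL T B G P i c) ∈ _
    rw [h1]
    exact Submodule.smul_mem _ _ (Submodule.add_mem _ (Submodule.smul_mem _ _ (hall _ (by omega)))
      (Submodule.smul_mem _ _ (hall _ (by omega))))
  | zero =>
    have h1 : (fun a => dd ((0 : Fin R → LaurentSeries ℚ) a) - xx * ∑ c, algebraMap ℚ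
        (LaurentSeries ℚ) (ν c a) * (0 : Fin R → LaurentSeries ℚ) c) = 0 := by
      funext a
      simp [dd_zero]
    rw [h1]
    exact Submodule.zero_mem _
  | add x y _ _ hx hy =>
    have h1 := Submodule.add_mem _ hx hy
    convert h1 using 1
    funext a
    simp only [Pi.add_apply, dd_add, mul_add, Finset.sum_add_distrib]
    ring
  | smul f y hy' hy =>
    have h1 := Submodule.add_mem _ (Submodule.smul_mem _ (dd f) hy') (Submodule.smul_mem _ f hy)
    unfold zL
    convert h1 using 1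
    funext a
    simp only [Pi.add_apply, Pi.smul_apply, smul_eq_mul, dd_mul]
    have h2 : ∑ c, algebraMap ℚ (LaurentSeries ℚ) (ν c a) * (f * y c) =
        f * ∑ c, algebraMap ℚ (LaurentSeries ℚ) (ν c a) * y c := by
      rw [Finset.mul_sum]
      exact Finset.sum_congr rfl fun c _ => by ring
    rw [h2]
    ring

private lemma zLli (m : ℕ) (h : ∀ i < m, zwL T B G P i ∉ zL T B G P i) :
    LinearIndependent (LaurentSeries ℚ) (fun i : Fin m => zwL T B G P i) := by
  induction m with
  | zero => exact linearIndependent_empty_type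
  | succ m ih =>
    rw [linearIndependent_finSucc']
    exact ⟨ih fun i hi => h i (by omega), h m (by omega)⟩

/-- the first dependent vector -/
private lemma exists_zLl : ∃ l ≤ R, zwL T B G P l ∈ zL T B G P l ∧
    LinearIndependent (LaurentSeries ℚ) (fun i : Fin l => zwL T B G P i) := by
  classical
  by_cases hex : ∃ m, zwL T B G P m ∈ zL T B G P m
  · have h1 := zLli (T := T) (B := B) (G := G) (P := P) (Nat.find hex)
      (fun i hi => Nat.find_min hex hi)
    refine ⟨Nat.find hex, ?_, Nat.find_spec hex, h1⟩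
    have h2 := h1.fintype_card_le_finrank
    simpa using h2
  · exfalso
    push Not at hex
    have h1 := zLli (T := T) (B := B) (G := G) (P := P) (R + 1) (fun i _ => hex i)
    have h2 := h1.fintype_card_le_finrank
    simp at h2

end ZE3


section orders

private lemma le_of_ordGE_emb_mul3 {p : ℚ[X]} (hp : p ≠ 0) {f : LaurentSeries ℚ} {n E : ℤ}
    (hn : n ≤ E) (hf : f.coeff n ≠ 0) {N : ℤ} (h : OrdGE N (emb p * f)) : N ≤ E := by
  have hf0 : f ≠ 0 := by
    intro h0
    apply hf
    rw [h0, HahnSeries.coeff_zero]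
  have h1 : f.order ≤ n := HahnSeries.order_le_of_coeff_ne_zero hf
  have h2 : OrdGE f.order f := fun i hi => HahnSeries.coeff_eq_zero_of_lt_order hi
  have h3 : f.coeff f.order ≠ 0 := HahnSeries.coeff_order_eq_zero.not.2 hf0
  by_contra hlt
  push Not at hlt
  have h4 := h (f.order - (p.natDegree : ℤ)) (by omega)
  have h5 : f.order - (p.natDegree : ℤ) - f.order = -(p.natDegree : ℤ) := by ring
  rw [coeff_mul_Icc (ordGE_emb le_rfl) h2, h5, Finset.Icc_self, Finset.sum_singleton,
    emb_coeff_neg] at h4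
  have h6 : f.order - (p.natDegree : ℤ) - -(p.natDegree : ℤ) = f.order := by ring
  rw [h6] at h4
  rcases mul_eq_zero.mp h4 with h7 | h7
  · exact hp (leadingCoeff_eq_zero.mp h7)
  · exact h3 h7

private lemma ordGE_of_mul {u v f : LaurentSeries ℚ} (hv : v ≠ 0) (h : v * f = u)
    (hu : u = 0 ∨ v.order ≤ u.order) : OrdGE 0 f := by
  by_cases hf : f = 0
  · rw [hf]
    intro i _
    exact HahnSeries.coeff_zero
  · have hu0 : u ≠ 0 := by
      rw [← h]
      exact mul_ne_zero hv hf
    have h1 : v.order ≤ u.order := hu.resolve_left hu0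
    have h2 : u.order = v.order + f.order := by
      rw [← h, HahnSeries.order_mul hv hf]
    intro i hi
    exact HahnSeries.coeff_eq_zero_of_lt_order (by omega)

/-- a nonsingular square submatrix of a matrix with independent rows -/
private lemma exists_cols3 {K : Type} [Field K] {l R : ℕ} (c : Fin l → Fin R → K)
    (hc : LinearIndependent K c) :
    ∃ J : Fin l → Fin R, (Matrix.of fun i k => c i (J k)).det ≠ 0 := by
  classical
  set M : Matrix (Fin l) (Fin R) K := Matrix.of c with hM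
  have h1 : M.rank = l := by
    have := LinearIndependent.rank_matrix (M := M) hc
    simpa using this
  have h2 : Submodule.span K (Set.range M.col) = ⊤ := by
    apply Submodule.eq_top_of_finrank_eq
    rw [← Matrix.rank_eq_finrank_span_cols, h1]
    simp
  obtain ⟨κ, a, ha, hspan, hli⟩ := exists_linearIndependent' K M.col
  rw [h2] at hspan
  let b : Module.Basis κ K (Fin l → K) := Module.Basis.mk hli (by rw [hspan])
  let b0 : Module.Basis (Fin l) K (Fin l → K) := Pi.basisFun K (Fin l)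
  let e : Fin l ≃ κ := b0.indexEquiv b
  refine ⟨fun k => a (e k), ?_⟩
  have h3 : LinearIndependent K (fun k : Fin l => M.col (a (e k))) := hli.comp e e.injective
  have h4 : IsUnit (Matrix.of fun i k => c i (a (e k))) := by
    rw [← Matrix.linearIndependent_cols_iff_isUnit]
    exact h3
  rw [Matrix.isUnit_iff_isUnit_det] at h4
  exact h4.ne_zero

/-- a nonsingular square submatrix such that all columns are combinations of its columns with
coefficients of order at least `0` -/
private lemma exists_cols_min {l R : ℕ} (c : Fin l → Fin R → LaurentSeries ℚ)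
    (hc : LinearIndependent (LaurentSeries ℚ) c) :
    ∃ J : Fin l → Fin R, (Matrix.of fun i k => c i (J k)).det ≠ 0 ∧
      ∃ y : Fin R → Fin l → LaurentSeries ℚ, (∀ a k, OrdGE 0 (y a k)) ∧
        ∀ i a, ∑ k, c i (J k) * y a k = c i a := by
  classical
  let d : (Fin l → Fin R) → LaurentSeries ℚ := fun J => (Matrix.of fun i k => c i (J k)).det
  obtain ⟨J₀, hJ₀⟩ := exists_cols3 c hc
  obtain ⟨J, hJ, hmin⟩ := Finset.exists_min_image
    (Finset.univ.filter fun J : Fin l → Fin R => d J ≠ 0) (fun J => (d J).order)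
    ⟨J₀, Finset.mem_filter.2 ⟨Finset.mem_univ _, hJ₀⟩⟩
  have hJ' : d J ≠ 0 := (Finset.mem_filter.1 hJ).2
  refine ⟨J, hJ', ?_⟩
  set A : Matrix (Fin l) (Fin l) (LaurentSeries ℚ) := Matrix.of fun i k => c i (J k) with hA
  have hdet : A.det = d J := rfl
  let cr : Fin R → Fin l → LaurentSeries ℚ := fun a => Matrix.cramer A (fun i => c i a)
  have hcr : ∀ a k, cr a k = d (Function.update J k a) := by
    intro a k
    show Matrix.cramer A (fun i => c i a) k = _
    rw [Matrix.cramer_apply]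
    congr 1
    ext1 i k'
    rw [Matrix.updateCol_apply]
    show _ = c i (Function.update J k a k')
    by_cases hk : k' = k
    · rw [if_pos hk, hk, Function.update_self]
    · rw [if_neg hk, Function.update_of_ne hk]
      rfl
  refine ⟨fun a k => (d J)⁻¹ * cr a k, fun a k => ?_, fun i a => ?_⟩
  · refine ordGE_of_mul (u := cr a k) hJ' (mul_inv_cancel_left₀ hJ' _) ?_
    by_cases h0 : cr a k = 0
    · exact Or.inl h0
    · right
      rw [hcr] at h0 ⊢
      exact hmin _ (Finset.mem_filter.2 ⟨Finset.mem_univ _, h0⟩)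
  · have h1 : A.mulVec (cr a) = A.det • fun i => c i a := Matrix.mulVec_cramer A _
    have h2 := congrFun h1 i
    simp only [Matrix.mulVec, dotProduct, Pi.smul_apply, smul_eq_mul] at h2
    have h3 : ∑ k, c i (J k) * ((d J)⁻¹ * cr a k) = (d J)⁻¹ * ∑ k, A i k * cr a k := by
      rw [Finset.mul_sum]
      exact Finset.sum_congr rfl fun k _ => by rw [hA, Matrix.of_apply]; ring
    rw [h3, h2, hdet, inv_mul_cancel_left₀ hJ']

end orders

private lemma emb_det3 {l : ℕ} (r : Matrix (Fin l) (Fin l) ℚ[X]) :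
    emb r.det = (Matrix.of fun i k => emb (r i k)).det := by
  rw [RingHom.map_det]
  rfl

private lemma order_bound3 {R τ l : ℕ} {T : ℚ[X]} {B : Matrix (Fin R) (Fin R) ℚ[X]}
    {e : Fin R → LaurentSeries ℚ} (hTτ : T.natDegree ≤ τ)
    (hB : ∀ a b, (B a b).natDegree ≤ τ) (he : IsSol T B e) {D : ℕ} {P : Fin R → ℚ[X]}
    (hP : ∀ a, (P a).natDegree ≤ D) {N : ℤ} (hN : OrdGE N (∑ a, emb (P a) * e a))
    (J : Fin l → Fin R) (E : Fin l → LaurentSeries ℚ)
    (hE : ∀ j : Fin l, ∑ m, emb (row T B P j (J m)) * E m = ∑ a, emb (row T B P j a) * e a)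
    (hdet : Matrix.det (Matrix.of fun (j k : Fin l) => row T B P (j : ℕ) (J k)) ≠ 0)
    {i₁ : Fin l} {n E₀ : ℤ} (hn : n ≤ E₀) (hEc : (E i₁).coeff n ≠ 0) :
    N - τ * l - ((l - 1 : ℕ) : ℤ) * (D + τ * l) ≤ E₀ := by
  set r : Matrix (Fin l) (Fin l) ℚ[X] :=
    Matrix.of fun (j k : Fin l) => row T B P (j : ℕ) (J k) with hr
  -- orders of the linear forms
  have hL : ∀ j : Fin l, OrdGE (N - τ * l) (∑ m, emb (r j m) * E m) := by
    intro j
    have h1 : ∑ m, emb (r j m) * E m = ∑ a, emb (row T B P j a) * e a := hE j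
    have h2 := row_sol he P j
    have h3 : ∑ a, emb (row T B P j a) * e a =
        algebraMap ℚ (LaurentSeries ℚ) (((j : ℕ).factorial : ℚ)⁻¹) *
          (emb T ^ (j : ℕ) * dd^[(j : ℕ)] (∑ a, emb (P a) * e a)) := by
      rw [← h2, ← mul_assoc]
      have h4 : ((j : ℕ).factorial : LaurentSeries ℚ) =
          algebraMap ℚ (LaurentSeries ℚ) ((j : ℕ).factorial : ℚ) := by
        rw [map_natCast]
      rw [h4, ← map_mul, inv_mul_cancel₀ (by exact_mod_cast (Nat.factorial_ne_zero _)), map_one,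
        one_mul]
    rw [h1, h3]
    refine ZE.ordGE_const_mul _ ?_
    rw [← map_pow]
    have h5 : OrdGE (-((τ * j : ℕ) : ℤ)) (emb (T ^ (j : ℕ))) := by
      refine ordGE_emb ?_
      rw [natDegree_pow, mul_comm]
      exact Nat.mul_le_mul_right _ hTτ
    have h6 := ordGE_mul h5 (ZE.ordGE_dd_iter hN j)
    refine ordGE_mono ?_ h6
    have hj : (j : ℕ) ≤ l := j.2.le
    have hτj : τ * (j : ℕ) ≤ τ * l := Nat.mul_le_mul_left _ hj
    have hτj' : ((τ * (j : ℕ) : ℕ) : ℤ) ≤ τ * l := by exact_mod_cast hτj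
    omega
  -- Cramer
  have hC : emb r.det * E i₁ = ∑ j, emb (r.adjugate i₁ j) * ∑ m, emb (r j m) * E m := by
    have h1 : ∀ m, ∑ j, r.adjugate i₁ j * r j m = if i₁ = m then r.det else 0 := by
      intro m
      have h2 := congrFun (congrFun (Matrix.adjugate_mul r) i₁) m
      rw [Matrix.mul_apply] at h2
      rw [h2, Matrix.smul_apply, Matrix.one_apply, smul_eq_mul]
      split_ifs <;> simp
    simp only [Finset.mul_sum]
    rw [Finset.sum_comm]
    have h3 : ∀ m, ∑ j, emb (r.adjugate i₁ j) * (emb (r j m) * E m) =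
        emb (if i₁ = m then r.det else 0) * E m := by
      intro m
      rw [← h1 m, map_sum, Finset.sum_mul]
      exact Finset.sum_congr rfl fun j _ => by rw [map_mul, mul_assoc]
    rw [Finset.sum_congr rfl fun m _ => h3 m, Finset.sum_eq_single i₁]
    · rw [if_pos rfl]
    · intro m _ hm
      rw [if_neg (Ne.symm hm), map_zero, zero_mul]
    · intro h; exact absurd (Finset.mem_univ _) h
  have hdeg : ∀ j i : Fin l, (r j i).natDegree ≤ D + τ * l := by
    intro j i
    simp only [hr, Matrix.of_apply]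
    refine (natDegree_row hTτ hB hP j _).trans ?_
    have : τ * (j : ℕ) ≤ τ * l := Nat.mul_le_mul_left _ j.2.le
    omega
  have hord : OrdGE (N - τ * l - ((l - 1 : ℕ) : ℤ) * (D + τ * l)) (emb r.det * E i₁) := by
    rw [hC]
    refine ordGE_sum _ _ fun j _ => ?_
    have h1 := ordGE_mul (ordGE_emb (ZE.natDegree_adjugate_le r (D + τ * l) hdeg i₁ j)) (hL j)
    refine ordGE_mono (le_of_eq ?_) h1
    push_cast
    ring
  exact le_of_ordGE_emb_mul3 hdet hn hEc hord

section gauge

/-- the power `x^n` -/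
private noncomputable def xn (n : ℤ) : LaurentSeries ℚ := HahnSeries.single n (1 : ℚ)

private lemma xn_mul (m n : ℤ) : xn m * xn n = xn (m + n) := by
  unfold xn
  rw [HahnSeries.single_mul_single, one_mul]

private lemma xn_zero : xn 0 = 1 := rfl

private lemma xx_mul_xn (n : ℤ) : xx * xn n = xn (n + 1) := by
  unfold xx xn
  rw [HahnSeries.single_mul_single, one_mul, add_comm]

private lemma dd_xn (n : ℤ) :
    dd (xn n) = -(algebraMap ℚ (LaurentSeries ℚ) (n : ℚ) * xn (n + 1)) := by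
  ext k
  rw [dd_coeff, HahnSeries.coeff_neg, rs_algebraMap_mul_coeff]
  unfold xn
  rw [HahnSeries.coeff_single, HahnSeries.coeff_single]
  by_cases h : k = n + 1
  · subst h
    rw [if_pos (by ring), if_pos rfl]
    push_cast
    ring
  · rw [if_neg (by omega), if_neg h]
    ring

private lemma ordGE_xn {n N : ℤ} (h : N ≤ n) : OrdGE N (xn n) := by
  intro i hi
  unfold xn
  rw [HahnSeries.coeff_single, if_neg (by omega)]

variable {R : ℕ} {s : Finset ℚ} {π : ℚ → Matrix (Fin R) (Fin R) ℚ}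

private lemma cM_sum3 (t : Finset ℚ) (f : ℚ → Matrix (Fin R) (Fin R) ℚ) :
    cM (∑ c ∈ t, f c) = ∑ c ∈ t, cM (f c) := by
  classical
  induction t using Finset.induction_on with
  | empty => rw [Finset.sum_empty, Finset.sum_empty, cM_zero]
  | insert a t ha ih => rw [Finset.sum_insert ha, Finset.sum_insert ha, cM_add, ih]

/-- the matrix `x^F` -/
private noncomputable def xm (s : Finset ℚ) (π : ℚ → Matrix (Fin R) (Fin R) ℚ) (f : ℚ → ℤ) :
    Matrix (Fin R) (Fin R) (LaurentSeries ℚ) := ∑ c ∈ s, xn (f c) • cM (π c)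

private lemma xm_mul (horth : ∀ c ∈ s, ∀ c' ∈ s, π c * π c' = if c = c' then π c else 0)
    (f g : ℚ → ℤ) : xm s π f * xm s π g = xm s π fun c => f c + g c := by
  unfold xm
  rw [Finset.sum_mul]
  refine Finset.sum_congr rfl fun c hc => ?_
  rw [Finset.mul_sum, Finset.sum_eq_single c]
  · rw [smul_mul_smul_comm, xn_mul, ← cM_mul, horth c hc c hc, if_pos rfl]
  · intro c' hc' hne
    rw [smul_mul_smul_comm, ← cM_mul, horth c hc c' hc', if_neg (Ne.symm hne), cM_zero, smul_zero]
  · intro h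
    exact absurd hc h

private lemma xm_zero (hsum : ∑ c ∈ s, π c = 1) : xm s π (fun _ => 0) = 1 := by
  unfold xm
  simp only [xn_zero, one_smul]
  rw [← cM_sum3, hsum, cM_one]

private lemma xm_mul_neg (horth : ∀ c ∈ s, ∀ c' ∈ s, π c * π c' = if c = c' then π c else 0)
    (hsum : ∑ c ∈ s, π c = 1) (f : ℚ → ℤ) : xm s π f * xm s π (fun c => -f c) = 1 := by
  rw [xm_mul horth]
  simp only [add_neg_cancel]
  exact xm_zero hsum

private lemma xm_neg_mul (horth : ∀ c ∈ s, ∀ c' ∈ s, π c * π c' = if c = c' then π c else 0)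
    (hsum : ∑ c ∈ s, π c = 1) (f : ℚ → ℤ) : xm s π (fun c => -f c) * xm s π f = 1 := by
  rw [xm_mul horth]
  simp only [neg_add_cancel]
  exact xm_zero hsum

/-- the matrix `F` -/
private def fm (s : Finset ℚ) (π : ℚ → Matrix (Fin R) (Fin R) ℚ) (f : ℚ → ℤ) :
    Matrix (Fin R) (Fin R) ℚ := ∑ c ∈ s, (f c : ℚ) • π c

private lemma fm_mul (horth : ∀ c ∈ s, ∀ c' ∈ s, π c * π c' = if c = c' then π c else 0)
    (f : ℚ → ℤ) {c : ℚ} (hc : c ∈ s) : fm s π f * π c = (f c : ℚ) • π c := by
  unfold fm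
  rw [Finset.sum_mul, Finset.sum_eq_single c]
  · rw [smul_mul_assoc, horth c hc c hc, if_pos rfl]
  · intro c' hc' hne
    rw [smul_mul_assoc, horth c' hc' c hc, if_neg hne, smul_zero]
  · intro h
    exact absurd hc h

private lemma mul_fm (horth : ∀ c ∈ s, ∀ c' ∈ s, π c * π c' = if c = c' then π c else 0)
    (f : ℚ → ℤ) {c : ℚ} (hc : c ∈ s) : π c * fm s π f = (f c : ℚ) • π c := by
  unfold fm
  rw [Finset.mul_sum, Finset.sum_eq_single c]
  · rw [mul_smul_comm, horth c hc c hc, if_pos rfl]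
  · intro c' hc' hne
    rw [mul_smul_comm, horth c hc c' hc', if_neg (Ne.symm hne), smul_zero]
  · intro h
    exact absurd hc h

private lemma dM_xm (horth : ∀ c ∈ s, ∀ c' ∈ s, π c * π c' = if c = c' then π c else 0)
    (f : ℚ → ℤ) : dM (xm s π f) = -(xx • (xm s π f * cM (fm s π f))) := by
  have h1 : xm s π f * cM (fm s π f) =
      ∑ c ∈ s, (algebraMap ℚ (LaurentSeries ℚ) (f c : ℚ) * xn (f c)) • cM (π c) := by
    conv_lhs => rw [xm]
    rw [Finset.sum_mul]
    refine Finset.sum_congr rfl fun c hc => ?_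
    rw [smul_mul_assoc, ← cM_mul, mul_fm horth f hc]
    ext1 a b
    simp only [Matrix.smul_apply, cM_apply, smul_eq_mul, map_mul]
    ring
  rw [h1]
  unfold xm
  rw [dM_sum, Finset.smul_sum, ← Finset.sum_neg_distrib]
  refine Finset.sum_congr rfl fun c _ => ?_
  rw [dM_smul, dM_cM, smul_zero, add_zero, dd_xn, neg_smul, smul_smul]
  congr 2
  rw [← xx_mul_xn]
  ring

private lemma xm_comm {ν : Matrix (Fin R) (Fin R) ℚ} (hν : ∀ c, ν * π c = π c * ν) (f : ℚ → ℤ) :
    cM ν * xm s π f = xm s π f * cM ν := by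
  unfold xm
  rw [Finset.sum_mul, Finset.mul_sum]
  refine Finset.sum_congr rfl fun c _ => ?_
  rw [smul_mul_assoc, mul_smul_comm, ← cM_mul, ← cM_mul, hν]

private lemma xm_ordGE {f : ℚ → ℤ} {N : ℤ} (h : ∀ c ∈ s, N ≤ f c) (a b : Fin R) :
    OrdGE N (xm s π f a b) := by
  unfold xm
  rw [Matrix.sum_apply]
  refine ordGE_sum _ _ fun c hc => ?_
  rw [Matrix.smul_apply, smul_eq_mul, cM_apply]
  have h1 := ordGE_mul (ordGE_xn (h c hc)) (f := xn (f c))
    (g := algebraMap ℚ (LaurentSeries ℚ) (π c a b)) (N := 0) (by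
      intro i hi
      rw [algebraMap_eq_single, HahnSeries.coeff_single, if_neg (by omega)])
  rwa [add_zero] at h1

private lemma fundL_xm {T : ℚ[X]} {B : Matrix (Fin R) (Fin R) ℚ[X]}
    {Ψ : Matrix (Fin R) (Fin R) (PowerSeries ℚ)} {ν : Matrix (Fin R) (Fin R) ℚ}
    (hF : IsFund T B Ψ ν)
    (horth : ∀ c ∈ s, ∀ c' ∈ s, π c * π c' = if c = c' then π c else 0)
    (hν : ∀ c, ν * π c = π c * ν) (f : ℚ → ℤ) :
    FundL T B (pM Ψ * xm s π f) (ν - fm s π f) := by
  unfold FundL
  have h1 : emb T • dM (pM Ψ) = eM B * pM Ψ + (emb T * xx) • (pM Ψ * cM ν) := hF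
  rw [dM_mul, smul_add, ← smul_mul_assoc, h1, dM_xm horth, add_mul, smul_mul_assoc, cM_sub,
    Matrix.mul_sub, smul_sub, Matrix.mul_assoc (pM Ψ) (cM ν), xm_comm hν, Matrix.mul_assoc,
    Matrix.mul_neg, smul_neg, Matrix.mul_smul, smul_smul]
  simp only [Matrix.mul_assoc]
  abel

/-- all eigenvalues of `ν - ⌊ν⌋` are in `[0, 1)` -/
private lemma spec_fract {ν N₀ : Matrix (Fin R) (Fin R) ℚ}
    (hpol : ∀ c, ∃ p : ℚ[X], π c = aeval ν p) (hN₀ : ∃ p : ℚ[X], N₀ = aeval ν p)
    (hnil : IsNilpotent N₀) (hsum : ∑ c ∈ s, π c = 1)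
    (horth : ∀ c ∈ s, ∀ c' ∈ s, π c * π c' = if c = c' then π c else 0)
    (hν : ν = (∑ c ∈ s, c • π c) + N₀) :
    ∃ t : Finset ℚ, (∀ c ∈ t, 0 ≤ c ∧ c < 1) ∧ Spec t (ν - fm s π fun c => ⌊c⌋) := by
  classical
  choose p hp using hpol
  obtain ⟨p₀, hp₀⟩ := hN₀
  set F : Matrix (Fin R) (Fin R) ℚ := fm s π fun c => ⌊c⌋ with hF
  set g : ℚ[X] := X - ∑ c ∈ s, C ((⌊c⌋ : ℤ) : ℚ) * p c with hg
  have hFg : F = aeval ν (∑ c ∈ s, C ((⌊c⌋ : ℤ) : ℚ) * p c) := by
    rw [hF, fm, map_sum]
    refine Finset.sum_congr rfl fun c _ => ?_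
    rw [map_mul, aeval_C, ← hp, Algebra.smul_def]
  have hνg : ν - F = aeval ν g := by
    rw [hg, map_sub, aeval_X, ← hFg]
  set t : Finset ℚ := s.image Int.fract with ht
  refine ⟨t, ?_, ?_⟩
  · intro c hc
    obtain ⟨d, _, rfl⟩ := Finset.mem_image.1 hc
    exact ⟨Int.fract_nonneg d, Int.fract_lt_one d⟩
  set Q : ℚ[X] := ∏ c ∈ t, (X - C c) with hQ
  let q : ℚ → ℚ[X] := fun c => ∏ d ∈ t.erase (Int.fract c), (X - C d)
  have hQq : ∀ c ∈ s, Q = q c * (X - C (Int.fract c)) := by
    intro c hc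
    rw [hQ, mul_comm]
    exact (Finset.mul_prod_erase t (fun d => (X : ℚ[X]) - C d)
      (Finset.mem_image_of_mem Int.fract hc)).symm
  have hc1 : ∀ c ∈ s, (ν - F - algebraMap ℚ _ (Int.fract c)) * π c = N₀ * π c := by
    intro c hc
    have h1 : ν * π c = c • π c + N₀ * π c := by
      conv_lhs => rw [hν]
      rw [add_mul, Finset.sum_mul, Finset.sum_eq_single c]
      · rw [smul_mul_assoc, horth c hc c hc, if_pos rfl]
      · intro c' hc' hne
        rw [smul_mul_assoc, horth c' hc' c hc, if_neg hne, smul_zero]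
      · intro h
        exact absurd hc h
    have h2 : F * π c = ((⌊c⌋ : ℤ) : ℚ) • π c := fm_mul horth _ hc
    rw [sub_mul, sub_mul, h1, h2, ← Algebra.smul_def]
    have h3 : Int.fract c = c - ((⌊c⌋ : ℤ) : ℚ) := rfl
    rw [h3, sub_smul]
    abel
  set z : ℚ[X] := ∑ c ∈ s, (q c).comp g * p c with hz
  have hy : aeval (ν - F) Q = aeval ν z * N₀ := by
    have h1 : aeval (ν - F) Q = ∑ c ∈ s, aeval (ν - F) Q * π c := by
      rw [← Finset.mul_sum, hsum, mul_one]
    rw [h1, hz, map_sum, Finset.sum_mul]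
    refine Finset.sum_congr rfl fun c hc => ?_
    rw [hQq c hc, map_mul, map_sub, aeval_X, aeval_C, mul_assoc, hc1 c hc, map_mul, aeval_comp,
      ← hνg, ← hp, mul_assoc]
    congr 1
    rw [hp, hp₀, ← map_mul, ← map_mul, mul_comm]
  obtain ⟨m, hm⟩ := hnil
  refine ⟨m, ?_⟩
  have hcomm : Commute (aeval ν z) N₀ := by
    rw [hp₀]
    show _ * _ = _ * _
    rw [← map_mul, ← map_mul, mul_comm]
  rw [map_pow]
  show (aeval (ν - F) Q) ^ m = 0
  rw [hy, hcomm.mul_pow, hm, mul_zero]

private lemma coprime_shift3 (t : Finset ℚ) (ht : ∀ c ∈ t, ∀ c' ∈ t, c - c' < 1) (m n : ℕ)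
    (hn : 1 ≤ n) : IsCoprime ((∏ c ∈ t, ((X : ℚ[X]) - C c)) ^ m)
      (((∏ c ∈ t, ((X : ℚ[X]) - C c)) ^ m).comp (X + C (n : ℚ))) := by
  rw [pow_comp]
  apply IsCoprime.pow
  rw [prod_comp]
  refine IsCoprime.prod_left fun c hc => IsCoprime.prod_right fun c' hc' => ?_
  have h1 : ((X : ℚ[X]) - C c').comp (X + C (n : ℚ)) = X - C (c' - n) := by
    rw [sub_comp, X_comp, C_comp, C_sub]
    ring
  rw [h1]
  apply isCoprime_X_sub_C_of_isUnit_sub
  rw [isUnit_iff_ne_zero]
  intro h0
  have h2 := ht c' hc' c hc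
  have h3 : (1 : ℚ) ≤ n := by exact_mod_cast hn
  linarith

/-- the column `i₀` of the matrices -/
private def Ev (i₀ : Fin R) (M : Matrix (Fin R) (Fin R) ℚ) (l : ℚ) : Prop :=
  ∀ a, M a i₀ = l * (1 : Matrix (Fin R) (Fin R) ℚ) a i₀

private lemma mul_ev {i₀ : Fin R} {M N : Matrix (Fin R) (Fin R) ℚ} {l : ℚ} (h : Ev i₀ N l)
    (a : Fin R) : (M * N) a i₀ = l * M a i₀ := by
  rw [Matrix.mul_apply]
  have h1 : ∀ b, M a b * N b i₀ = l * (M a b * (1 : Matrix (Fin R) (Fin R) ℚ) b i₀) := by
    intro b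
    rw [h b]
    ring
  simp only [h1]
  rw [← Finset.mul_sum, ← Matrix.mul_apply, Matrix.mul_one]

private lemma ev_aeval {i₀ : Fin R} {ν : Matrix (Fin R) (Fin R) ℚ} (hν : ∀ a, ν a i₀ = 0)
    (p : ℚ[X]) : Ev i₀ (aeval ν p) (p.coeff 0) := by
  have hE : Ev i₀ ν 0 := fun a => by rw [hν, zero_mul]
  induction p using Polynomial.induction_on' with
  | add p q hp hq =>
    intro a
    rw [map_add, Matrix.add_apply, hp a, hq a, coeff_add, add_mul]
  | monomial n c =>
    intro a
    rw [aeval_monomial, ← Algebra.smul_def, Matrix.smul_apply, smul_eq_mul, coeff_monomial]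
    cases n with
    | zero => rw [pow_zero, if_pos rfl]
    | succ n => rw [pow_succ, mul_ev hE, zero_mul, mul_zero, if_neg (Nat.succ_ne_zero n), zero_mul]

private lemma xm_col {i₀ : Fin R} {ν N₀ : Matrix (Fin R) (Fin R) ℚ} (hν0 : ∀ a, ν a i₀ = 0)
    (hpol : ∀ c, ∃ p : ℚ[X], π c = aeval ν p) (hN₀ : ∃ p : ℚ[X], N₀ = aeval ν p)
    (hnil : IsNilpotent N₀) (hsum : ∑ c ∈ s, π c = 1)
    (horth : ∀ c ∈ s, ∀ c' ∈ s, π c * π c' = if c = c' then π c else 0)
    (hν : ν = (∑ c ∈ s, c • π c) + N₀) (a : Fin R) :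
    xm s π (fun c => ⌊c⌋) a i₀ = (1 : Matrix (Fin R) (Fin R) (LaurentSeries ℚ)) a i₀ := by
  classical
  choose p hp using hpol
  obtain ⟨p₀, hp₀⟩ := hN₀
  have hE : ∀ c, Ev i₀ (π c) ((p c).coeff 0) := fun c => by rw [hp]; exact ev_aeval hν0 _
  have hE₀ : Ev i₀ N₀ (p₀.coeff 0) := by rw [hp₀]; exact ev_aeval hν0 _
  have hone : (1 : Matrix (Fin R) (Fin R) ℚ) i₀ i₀ = 1 := Matrix.one_apply_eq _
  have hn₀ : p₀.coeff 0 = 0 := by
    obtain ⟨m, hm⟩ := hnil
    have h1 : ∀ k : ℕ, (N₀ ^ k) i₀ i₀ = (p₀.coeff 0) ^ k := by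
      intro k
      induction k with
      | zero => rw [pow_zero, pow_zero, hone]
      | succ k ih => rw [pow_succ, mul_ev hE₀, ih, pow_succ]; ring
    have h2 := h1 m
    rw [hm, Matrix.zero_apply] at h2
    by_contra h
    exact pow_ne_zero m h h2.symm
  have hc0 : ∀ c ∈ s, (p c).coeff 0 = 0 ∨ c = 0 := by
    intro c hc
    have h1 : ν * π c = c • π c + N₀ * π c := by
      conv_lhs => rw [hν]
      rw [add_mul, Finset.sum_mul, Finset.sum_eq_single c]
      · rw [smul_mul_assoc, horth c hc c hc, if_pos rfl]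
      · intro c' hc' hne
        rw [smul_mul_assoc, horth c' hc' c hc, if_neg hne, smul_zero]
      · intro h
        exact absurd hc h
    have h2 := congrFun (congrFun h1 i₀) i₀
    rw [Matrix.add_apply, Matrix.smul_apply, smul_eq_mul, mul_ev (hE c), mul_ev (hE c), hν0,
      hE c i₀, hE₀ i₀, hn₀, hone] at h2
    have h3 : c * (p c).coeff 0 = 0 := by linarith
    rcases mul_eq_zero.1 h3 with h | h
    · exact Or.inr h
    · exact Or.inl h
  have h1 : xm s π (fun c => ⌊c⌋) a i₀ = ∑ c ∈ s, algebraMap ℚ (LaurentSeries ℚ) (π c a i₀) := by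
    unfold xm
    rw [Matrix.sum_apply]
    refine Finset.sum_congr rfl fun c hc => ?_
    rw [Matrix.smul_apply, smul_eq_mul, cM_apply]
    rcases hc0 c hc with h | h
    · rw [hE c a, h, zero_mul, map_zero, mul_zero]
    · subst h
      have h3 : xn (⌊(0 : ℚ)⌋) = 1 := by rw [Int.floor_zero, xn_zero]
      simp only [h3, one_mul]
  rw [h1, ← map_sum, ← Matrix.sum_apply, hsum, Matrix.one_apply, Matrix.one_apply]
  split_ifs
  · exact map_one _
  · exact map_zero _

end gauge

theorem zero_estimate3 (R τ E : ℕ) : ∃ C₁ : ℕ, ∀ (T : ℚ[X]) (B : Matrix (Fin R) (Fin R) ℚ[X])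
    (Ψ : Matrix (Fin R) (Fin R) (PowerSeries ℚ)) (ν : Matrix (Fin R) (Fin R) ℚ) (i₀ : Fin R),
    T ≠ 0 → T.natDegree ≤ τ → (∀ a b, (B a b).natDegree ≤ τ) → IsFund T B Ψ ν → coP 0 Ψ = 1 →
    SpecBd E ν → (∀ a, ν a i₀ = 0) →
    (∀ P : Fin R → ℚ[X], ∑ a, emb (P a) * ps (Ψ a i₀) = 0 → P = 0) →
    ∀ (D : ℕ) (P : Fin R → ℚ[X]), P ≠ 0 → (∀ a, (P a).natDegree ≤ D) →
    OrdGE (((R : ℤ) - 2) * D + C₁) (∑ a, emb (P a) * ps (Ψ a i₀)) →
    Matrix.det (Matrix.of fun (j a : Fin R) => row T B P (j : ℕ) a) ≠ 0 := by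
  classical
  refine ⟨τ * R * R + E + 1, ?_⟩
  intro T B Ψ ν i₀ hT hTτ hB hF hΨ0 hSpec hν hlin D P hP0 hP hord
  obtain ⟨s, hsE, hs⟩ := hSpec
  obtain ⟨π, N₀, hpol, hN₀, hnil, hsum, horth, hνs⟩ := spec_split hs
  have hT0 : emb T ≠ 0 := by
    intro h
    exact hT (emb_injective (by rw [h, map_zero]))
  have hνπ : ∀ c, ν * π c = π c * ν := by
    intro c
    obtain ⟨p, hp⟩ := hpol c
    have h1 : aeval ν (X * p) = aeval ν (p * X) := by rw [mul_comm]
    rw [map_mul, map_mul, aeval_X, ← hp] at h1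
    exact h1
  -- the inverse of `Ψ`
  have hcoe : ∀ {l : ℕ} (M : Matrix (Fin l) (Fin l) (PowerSeries ℚ)),
      PowerSeries.constantCoeff M.det = (coP 0 M).det := by
    intro l M
    rw [RingHom.map_det]
    congr 1
    ext1 a b
    rw [coP_apply, PowerSeries.coeff_zero_eq_constantCoeff_apply]
    rfl
  have hΨu : IsUnit Ψ.det := by
    rw [PowerSeries.isUnit_iff_constantCoeff, hcoe, hΨ0]
    simp
  have hΨA : Ψ * Ψ⁻¹ = 1 := Matrix.mul_nonsing_inv _ hΨu
  have hAΨ : Ψ⁻¹ * Ψ = 1 := Matrix.nonsing_inv_mul _ hΨu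
  set G' : Matrix (Fin R) (Fin R) (LaurentSeries ℚ) := pM Ψ * xm s π (fun c => ⌊c⌋) with hG'
  set A : Matrix (Fin R) (Fin R) (LaurentSeries ℚ) :=
    xm s π (fun c => -⌊c⌋) * pM Ψ⁻¹ with hA
  have hGA : G' * A = 1 := by
    rw [hG', hA, Matrix.mul_assoc, ← Matrix.mul_assoc (xm s π fun c => ⌊c⌋),
      xm_mul_neg horth hsum, Matrix.one_mul, ← pM_mul, hΨA, pM_one]
  have hAG : A * G' = 1 := by
    rw [hG', hA, Matrix.mul_assoc, ← Matrix.mul_assoc (pM Ψ⁻¹), ← pM_mul, hAΨ, pM_one,
      Matrix.one_mul, xm_neg_mul horth hsum]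
  have hAord : ∀ a b, OrdGE (-(E : ℤ)) (A a b) := by
    intro a b
    rw [hA, Matrix.mul_apply]
    refine ordGE_sum _ _ fun k _ => ?_
    have h1 : OrdGE (-(E : ℤ)) (xm s π (fun c => -⌊c⌋) a k) := by
      refine xm_ordGE (fun c hc => ?_) a k
      have h2 := (abs_le.1 (hsE c hc)).2
      have h3 : (⌊c⌋ : ℚ) ≤ (E : ℚ) := (Int.floor_le c).trans h2
      have h4 : ⌊c⌋ ≤ (E : ℤ) := by exact_mod_cast h3
      show -(E : ℤ) ≤ -⌊c⌋
      omega
    have h2 := ordGE_mul h1 (ordGE_ps (Ψ⁻¹ k b))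
    rw [add_zero] at h2
    exact h2
  have hFL : FundL T B G' (ν - fm s π fun c => ⌊c⌋) := fundL_xm hF horth hνπ _
  have hG'col : ∀ a, G' a i₀ = ps (Ψ a i₀) := by
    intro a
    rw [hG', Matrix.mul_apply]
    have h1 : ∀ b, pM Ψ a b * xm s π (fun c => ⌊c⌋) b i₀ =
        pM Ψ a b * (1 : Matrix (Fin R) (Fin R) (LaurentSeries ℚ)) b i₀ := by
      intro b
      rw [xm_col hν hpol hN₀ hnil hsum horth hνs]
    simp only [h1]
    rw [← Matrix.mul_apply, Matrix.mul_one]
    rfl
  obtain ⟨l, hlR, hmem, hli⟩ := exists_zLl (T := T) (B := B) (G := G') (P := P)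
  -- constant basis
  obtain ⟨t, ht, hts⟩ := spec_fract hpol hN₀ hnil hsum horth hνs
  obtain ⟨m, hm⟩ := spec_neg (spec_transpose hts)
  obtain ⟨l', c, hcQ, hcK, hVc⟩ := rs_span (-(ν - fm s π fun c => ⌊c⌋).transpose)
    ((∏ c ∈ t.image fun c => -c, ((X : ℚ[X]) - C c)) ^ m) hm
    (fun n hn => coprime_shift3 _ (by
      intro c hc c' hc'
      obtain ⟨d, hd, rfl⟩ := Finset.mem_image.1 hc
      obtain ⟨d', hd', rfl⟩ := Finset.mem_image.1 hc'
      have h1 := ht d hd
      have h2 := ht d' hd'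
      linarith [h1.1, h1.2, h2.1, h2.2]) m n hn) (zL T B G' P l) (zL_stable hT0 hFL hmem)
  have hll : l' = l := by
    have h1 : Module.finrank (LaurentSeries ℚ) (zL T B G' P l) = l := by
      have := finrank_span_eq_card hli
      rw [Fintype.card_fin] at this
      exact this
    have h2 : Module.finrank (LaurentSeries ℚ) (zL T B G' P l) = l' := by
      rw [hVc]
      have := finrank_span_eq_card hcK
      simpa using this
    omega
  subst hll
  -- transition matrix
  have hρ : ∀ j : Fin l', ∃ ρ : Fin l' → LaurentSeries ℚ,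
      ∑ i, ρ i • (fun a => algebraMap ℚ (LaurentSeries ℚ) (c i a)) = zwL T B G' P j := by
    intro j
    have h1 : zwL T B G' P j ∈ zL T B G' P l' := mem_zL j.2
    rw [hVc] at h1
    exact (Submodule.mem_span_range_iff_exists_fun _).1 h1
  choose ρ hρ using hρ
  have hρdet : (Matrix.of ρ).det ≠ 0 := by
    intro h0
    obtain ⟨v, hv0, hv⟩ := Matrix.exists_vecMul_eq_zero_iff.2 h0
    apply hv0
    have h1 : ∑ j, v j • zwL T B G' P (j : Fin l') = 0 := by
      simp only [← hρ, Finset.smul_sum, smul_smul]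
      rw [Finset.sum_comm]
      refine Finset.sum_eq_zero fun i _ => ?_
      rw [← Finset.sum_smul]
      have h2 := congrFun hv i
      simp only [Matrix.vecMul, dotProduct, Matrix.of_apply, Pi.zero_apply] at h2
      rw [h2, zero_smul]
    exact funext (Fintype.linearIndependent_iff.1 hli v h1)
  -- the rows in terms of the constant basis
  set G : Matrix (Fin l') (Fin R) (LaurentSeries ℚ) := cM (Matrix.of c) * A with hG
  have hGap : ∀ i a, G i a = ∑ b, algebraMap ℚ (LaurentSeries ℚ) (c i b) * A b a := by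
    intro i a
    rw [hG, Matrix.mul_apply]
    rfl
  have hGord : ∀ i a, OrdGE (-(E : ℤ)) (G i a) := by
    intro i a
    rw [hGap]
    exact ordGE_sum _ _ fun b _ => ZE.ordGE_const_mul _ (hAord b a)
  have hrow : ∀ (j : Fin l') (a : Fin R), emb (row T B P j a) = ∑ i, ρ j i * G i a := by
    intro j a
    have h1 : emb (row T B P j a) = ∑ b, zwL T B G' P j b * A b a := by
      have h2 : ∑ b, zwL T B G' P j b * A b a =
          ∑ b', emb (row T B P j b') * (G' * A) b' a := by
        unfold zwL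
        simp only [Finset.sum_mul, Matrix.mul_apply, Finset.mul_sum]
        rw [Finset.sum_comm]
        exact Finset.sum_congr rfl fun b' _ => Finset.sum_congr rfl fun b _ => by ring
      rw [h2, hGA]
      simp [Matrix.one_apply]
    rw [h1, ← hρ j]
    simp only [hGap, Finset.sum_apply, Pi.smul_apply, smul_eq_mul, Finset.sum_mul, Finset.mul_sum]
    rw [Finset.sum_comm]
    exact Finset.sum_congr rfl fun b' _ => Finset.sum_congr rfl fun b _ => by ring
  rcases hlR.lt_or_eq with hlt | heq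
  · exfalso
    -- the rows of `G` are independent
    have hGli : LinearIndependent (LaurentSeries ℚ) (fun i => G i) := by
      rw [Fintype.linearIndependent_iff]
      intro v hv i
      have h1 : ∀ b, ∑ i, v i * algebraMap ℚ (LaurentSeries ℚ) (c i b) = 0 := by
        intro b
        have h2 : ∀ a, ∑ i, v i * G i a = 0 := by
          intro a
          have h3 := congrFun hv a
          rw [Finset.sum_apply] at h3
          exact h3
        have h4 : ∑ a, (∑ i, v i * G i a) * G' a b =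
            ∑ i, v i * algebraMap ℚ (LaurentSeries ℚ) (c i b) := by
          have h5 : ∀ i, ∑ a, G i a * G' a b = algebraMap ℚ (LaurentSeries ℚ) (c i b) := by
            intro i
            have h6 : (G * G') i b = algebraMap ℚ (LaurentSeries ℚ) (c i b) := by
              rw [hG, Matrix.mul_assoc, hAG, Matrix.mul_one]
              rfl
            rw [← h6, Matrix.mul_apply]
          simp only [← h5, Finset.sum_mul, Finset.mul_sum]
          rw [Finset.sum_comm]
          exact Finset.sum_congr rfl fun b' _ => Finset.sum_congr rfl fun b _ => by ring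
        rw [← h4]
        exact Finset.sum_eq_zero fun a _ => by rw [h2 a, zero_mul]
      refine Fintype.linearIndependent_iff.1 hcK v ?_ i
      funext b
      rw [Finset.sum_apply]
      exact h1 b
    obtain ⟨J, hJ, y, hy0, hy⟩ := exists_cols_min (fun i => G i) hGli
    -- the vector `ê`
    set ê : Fin l' → LaurentSeries ℚ := fun k => ∑ a, y a k * ps (Ψ a i₀) with hê
    have hêord : ∀ k, OrdGE 0 (ê k) := by
      intro k
      refine ordGE_sum _ _ fun a _ => ?_
      have h1 := ordGE_mul (hy0 a k) (ordGE_ps (Ψ a i₀))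
      rw [add_zero] at h1
      exact h1
    have hGe : ∀ i, ∑ a, G i a * ps (Ψ a i₀) = algebraMap ℚ (LaurentSeries ℚ) (c i i₀) := by
      intro i
      have h1 : (G * G') i i₀ = algebraMap ℚ (LaurentSeries ℚ) (c i i₀) := by
        rw [hG, Matrix.mul_assoc, hAG, Matrix.mul_one]
        rfl
      rw [← h1, Matrix.mul_apply]
      simp only [hG'col]
    have hGê : ∀ i, ∑ k, G i (J k) * ê k = algebraMap ℚ (LaurentSeries ℚ) (c i i₀) := by
      intro i
      rw [← hGe i]
      have h1 : ∀ a, G i a = ∑ k, G i (J k) * y a k := fun a => (hy i a).symm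
      have h2 : ∑ a, G i a * ps (Ψ a i₀) = ∑ a, (∑ k, G i (J k) * y a k) * ps (Ψ a i₀) :=
        Finset.sum_congr rfl fun a _ => by rw [← h1 a]
      rw [h2, hê]
      simp only [Finset.sum_mul, Finset.mul_sum]
      rw [Finset.sum_comm]
      exact Finset.sum_congr rfl fun b' _ => Finset.sum_congr rfl fun b _ => by ring
    have hsum1 : ∀ j : Fin l', ∑ a, emb (row T B P j a) * ps (Ψ a i₀) =
        ∑ i, ρ j i * algebraMap ℚ (LaurentSeries ℚ) (c i i₀) := by
      intro j
      simp only [hrow, ← hGe, Finset.sum_mul, Finset.mul_sum]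
      rw [Finset.sum_comm]
      exact Finset.sum_congr rfl fun b' _ => Finset.sum_congr rfl fun b _ => by ring
    have hsum2 : ∀ j : Fin l', ∑ k, emb (row T B P j (J k)) * ê k =
        ∑ i, ρ j i * algebraMap ℚ (LaurentSeries ℚ) (c i i₀) := by
      intro j
      simp only [hrow, ← hGê, Finset.sum_mul, Finset.mul_sum]
      rw [Finset.sum_comm]
      exact Finset.sum_congr rfl fun b' _ => Finset.sum_congr rfl fun b _ => by ring
    have hl0 : 0 < l' := by
      rcases Nat.eq_zero_or_pos l' with h | h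
      · exfalso
        subst h
        apply hP0
        apply hlin
        have h1 : zwL T B G' P 0 = 0 := by
          have h2 := hmem
          unfold zL at h2
          rw [Set.range_eq_empty, Submodule.span_empty, Submodule.mem_bot] at h2
          exact h2
        have h2 := congrFun h1 i₀
        unfold zwL at h2
        simp only [hG'col] at h2
        exact h2
      · exact h
    have hc0 : ∃ i, c i i₀ ≠ 0 := by
      by_contra h
      push Not at h
      apply hP0
      apply hlin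
      have h1 := hsum1 ⟨0, hl0⟩
      simp only [h, map_zero, mul_zero, Finset.sum_const_zero] at h1
      exact h1
    obtain ⟨i₁, n, hn, hi₁⟩ : ∃ (i : Fin l') (n : ℤ), n ≤ E ∧ (ê i).coeff n ≠ 0 := by
      by_contra h
      push Not at h
      obtain ⟨i, hi⟩ := hc0
      have h1 : OrdGE 1 (∑ k, G i (J k) * ê k) := by
        refine ordGE_sum _ _ fun k _ => ?_
        have h2 : OrdGE ((E : ℤ) + 1) (ê k) := fun n hn => h k n (by omega)
        have h3 := ordGE_mul (hGord i (J k)) h2
        refine ordGE_mono ?_ h3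
        omega
      rw [hGê] at h1
      have h2 := h1 0 (by omega)
      rw [algebraMap_eq_single, HahnSeries.coeff_single, if_pos rfl] at h2
      exact hi h2
    have hdetr : Matrix.det (Matrix.of fun (j k : Fin l') => row T B P (j : ℕ) (J k)) ≠ 0 := by
      intro h0
      have h1 := congrArg emb h0
      rw [emb_det3, map_zero] at h1
      have h2 : (Matrix.of fun (j k : Fin l') => emb ((Matrix.of fun (j k : Fin l') =>
          row T B P (j : ℕ) (J k)) j k)) = Matrix.of ρ * Matrix.of fun i k => G i (J k) := by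
        ext1 j k
        rw [Matrix.mul_apply]
        exact hrow j (J k)
      rw [h2, Matrix.det_mul] at h1
      rcases mul_eq_zero.1 h1 with h3 | h3
      · exact hρdet h3
      · exact hJ h3
    have h1 := order_bound3 hTτ hB (isSol_of_fund hF hν) hP hord J ê
      (fun j => (hsum2 j).trans (hsum1 j).symm) hdetr hn hi₁
    have h2 : (((l' - 1 : ℕ) : ℕ) : ℤ) = (l' : ℤ) - 1 := by omega
    rw [h2] at h1
    have h3 : (l' : ℤ) + 1 ≤ R := by exact_mod_cast hlt
    have h4 : (0 : ℤ) ≤ D := by positivity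
    have h5 : (0 : ℤ) ≤ τ := by positivity
    have h6 : (1 : ℤ) ≤ l' := by exact_mod_cast hl0
    push_cast at h1
    have h7 : (τ : ℤ) * (l' * l') ≤ τ * (R * R) :=
      mul_le_mul_of_nonneg_left (mul_self_le_mul_self (by omega) (by omega)) h5
    have h8 : (0 : ℤ) ≤ (R - 1 - l') * D := mul_nonneg (by omega) h4
    nlinarith
  · subst heq
    intro h0
    have h1 := congrArg emb h0
    rw [emb_det3, map_zero] at h1
    have h2 : (Matrix.of fun (j k : Fin l') => emb ((Matrix.of fun (j k : Fin l') =>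
        row T B P (j : ℕ) k) j k)) = Matrix.of ρ * G := by
      ext1 j k
      rw [Matrix.mul_apply]
      exact hrow j k
    rw [h2, Matrix.det_mul] at h1
    rcases mul_eq_zero.1 h1 with h3 | h3
    · exact hρdet h3
    · rw [hG, Matrix.det_mul] at h3
      rcases mul_eq_zero.1 h3 with h5 | h5
      · have h6 : (cM (Matrix.of c)).det = algebraMap ℚ (LaurentSeries ℚ) (Matrix.of c).det := by
          rw [RingHom.map_det]
          rfl
        rw [h6] at h5
        have h7 : (Matrix.of c).det = 0 :=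
          (algebraMap ℚ (LaurentSeries ℚ)).injective (by rw [h5, map_zero])
        have h8 : IsUnit (Matrix.of c) := by
          rw [← Matrix.linearIndependent_rows_iff_isUnit]
          exact hcQ
        rw [Matrix.isUnit_iff_isUnit_det, h7] at h8
        exact not_isUnit_zero h8
      · have h6 : A.det * G'.det = 1 := by
          rw [← Matrix.det_mul, hAG, Matrix.det_one]
        rw [h5, zero_mul] at h6
        exact zero_ne_one h6

end Pool.Agent.Helper79.GX
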