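import Pool.Agent.Helper79.GX.Defs
import Pool.Agent.Helper79.GX.ZeroEst
import Pool.Agent.Helper37.GP.Core

/-!
# GC-13: the core theorem at a regular singular point

Copy of `Pool.Agent.Helper37.GP.gcore` (file `GP/Core.lean`, all lemmas before it can be imported) with the zero estimate
replaced by `zero_estimate3` and `e a = Ψ a i₀`, `IsSol` from `isSol_of_fund`; only `deg B + 1 ≤ deg T` is needed
elsewhere (`1 ≤ natDegree T`, `T ≠ 0`). `gcore3`: transport along `Fintype.equivFin` (reindex `beta`, `row`-free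
statement: `Galochkin`, `IsFund`, `coP` are compatible with `Matrix.reindex`).
-/

open Polynomial

namespace Pool.Agent.Helper79.GX

open Pool.Agent.Helper37.GP Pool.Agent.Helper79.GC

private theorem const_one {R : ℕ} {Ψ : Matrix (Fin R) (Fin R) (PowerSeries ℚ)} (h : coP 0 Ψ = 1)
    (i : Fin R) : PowerSeries.constantCoeff (Ψ i i) = 1 := by
  have h1 := congrFun (congrFun h i) i
  rw [Matrix.one_apply_eq] at h1
  rw [← PowerSeries.coeff_zero_eq_constantCoeff_apply]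
  exact h1

theorem gcore2 (R τ E : ℕ) : ∃ C₂ : ℕ, ∀ (H : ℕ), 2 ≤ H → ∀ (T : ℤ[X])
    (B : Matrix (Fin R) (Fin R) ℚ[X]) (Ψ : Matrix (Fin R) (Fin R) (PowerSeries ℚ))
    (ν : Matrix (Fin R) (Fin R) ℚ) (i₀ : Fin R),
    T.natDegree ≤ τ → (∀ a b, (B a b).natDegree + 1 ≤ T.natDegree) →
    (∀ i, |T.coeff i| ≤ H) → (∀ a b i, |(B a b).coeff i| ≤ H) →
    Galochkin (T.map (Int.castRingHom ℚ)) B H →
    IsFund (T.map (Int.castRingHom ℚ)) B Ψ ν → coP 0 Ψ = 1 → SpecBd E ν → (∀ a, ν a i₀ = 0) →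
    (∀ a, GBound H (Ψ a i₀)) → GDen H (fun a => Ψ a i₀) →
    (∀ P : Fin R → ℚ[X], ∑ a, emb (P a) * ps (Ψ a i₀) = 0 → P = 0) →
    ∀ s : ℕ, H ^ C₂ ≤ s → ∀ A : Fin R → ℤ, ∑ a, (A a : ℝ) * pev (Ψ a i₀) s = 0 → A = 0 := by
  classical
  obtain ⟨C₁, hC₁⟩ := zero_estimate3 R τ E
  obtain ⟨C₀, hC₀1, hC₀⟩ := size_row R τ
  set m := (R - 1) * τ + τ + 4 with hm
  by_cases hR2 : 2 ≤ R
  swap
  · -- `R ≤ 1`
    refine ⟨4, fun H hH T B Ψ ν i₀ _ _ _ _ _ _ hΨ0 _ _ hb _ _ s hs A hA => ?_⟩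
    have hR : R = 1 := by have := i₀.2; omega
    subst hR
    have h1 : PowerSeries.constantCoeff (Ψ i₀ i₀) = 1 := const_one hΨ0 i₀
    have hs4 : (4 : ℝ) * H ^ 2 ≤ (s : ℝ) := by
      have : 4 * H ^ 2 ≤ H ^ 4 := by nlinarith [Nat.pow_le_pow_left hH 2]
      exact_mod_cast this.trans hs
    have h2 := pev_ge_half hH (hb i₀) h1 hs4
    have hi : ∀ a : Fin 1, a = i₀ := fun a => Subsingleton.elim _ _
    rw [Fintype.sum_eq_single i₀ (fun a ha => absurd (hi a) ha)] at hA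
    have h3 : (A i₀ : ℝ) = 0 := by
      rcases mul_eq_zero.mp hA with h | h
      · exact h
      · rw [h] at h2; norm_num at h2
    funext a
    rw [hi a]
    exact_mod_cast h3
  obtain ⟨C₂, hC₂⟩ := numeric_step (τ := τ) hR2 hm C₀
  refine ⟨C₂ + 4, fun H hH T B Ψ ν i₀ hT hB hTH hBH hG hfund hΨ0 hnil hν hb hd hind s hs A hA => ?_⟩
  by_contra hA0
  have hsol0 := isSol_of_fund hfund hν
  obtain ⟨e, he⟩ : ∃ e : Fin R → PowerSeries ℚ, e = fun a => Ψ a i₀ := ⟨_, rfl⟩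
  have he' : ∀ a, Ψ a i₀ = e a := fun a => by rw [he]
  have h1 : PowerSeries.constantCoeff (e i₀) = 1 := by rw [he]; exact const_one hΨ0 i₀
  have hind0 := hind
  simp only [he'] at hb hd hind hA hsol0
  have hsol : IsSol (T.map (Int.castRingHom ℚ)) B (fun a => ps (e a)) := hsol0
  have hH1 : 1 ≤ H := by omega
  have hsC : H ^ C₂ ≤ s := (Nat.pow_le_pow_right hH1 (by omega)).trans hs
  have hs4' : H ^ 4 ≤ s := (Nat.pow_le_pow_right hH1 (by omega)).trans hs
  have hs4 : (4 : ℝ) * H ^ 2 ≤ (s : ℝ) := by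
    have : 4 * H ^ 2 ≤ H ^ 4 := by nlinarith [Nat.pow_le_pow_left hH 2]
    exact_mod_cast this.trans hs4'
  have hH2 : (2 : ℝ) ≤ H := by exact_mod_cast hH
  have hs2 : (2 : ℝ) * H ≤ (s : ℝ) := by nlinarith
  have hs1 : (1 : ℝ) ≤ (s : ℝ) := by linarith
  have hT2 : 1 ≤ T.natDegree := by
    have := hB i₀ i₀; omega
  have hT0 : T ≠ 0 := by rintro rfl; simp at hT2
  set T' := T.map (Int.castRingHom ℚ) with hT'
  have hTdeg : T'.natDegree = T.natDegree :=
    natDegree_map_eq_of_injective (RingHom.injective_int _) _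
  have hT'τ : T'.natDegree ≤ τ := by rw [hTdeg]; exact hT
  have hB' : ∀ a b, (B a b).natDegree + 1 ≤ T'.natDegree := by rw [hTdeg]; exact hB
  have hBτ : ∀ a b, (B a b).natDegree ≤ τ := fun a b => by have := hB' a b; omega
  have hT's : T'.eval (s : ℚ) ≠ 0 := by
    refine eval_ne_zero hT0 hTH ?_
    have : H + 2 ≤ H ^ 4 := by nlinarith [Nat.pow_le_pow_left hH 2, Nat.pow_le_pow_left hH 3]
    omega
  -- the size of `A`
  set a0 : ℕ := ∑ a, (A a).natAbs with ha0
  have hAa : ∀ a, |(A a : ℝ)| ≤ a0 := by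
    intro a
    have h2 : (A a).natAbs ≤ a0 :=
      Finset.single_le_sum (f := fun a => (A a).natAbs) (fun _ _ => Nat.zero_le _)
        (Finset.mem_univ a)
    have h3 : |(A a : ℝ)| = ((A a).natAbs : ℝ) := by
      rw [Nat.cast_natAbs, Int.cast_abs]
    rw [h3]; exact_mod_cast h2
  -- choose `n`
  obtain ⟨n, hn, hnum⟩ := hC₂ H s a0 (C₁ + 1) hH hsC
  set D := m * n with hD
  have hDn : D = (R - 1) * τ * n + τ * n + 4 * n := by rw [hD, hm]; ring
  have hRD : n ≤ R * D := by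
    have : n ≤ D := by rw [hDn]; omega
    nlinarith
  have hE : R * D - n < R * (D + 1) := by
    have : R * (D + 1) = R * D + R := by ring
    omega
  have hκ : R * D - n ≤ (R * m) * (R * (D + 1) - (R * D - n)) := by
    have h2 : R * (D + 1) - (R * D - n) = R + n := by
      have : R * (D + 1) = R * D + R := by ring
      omega
    rw [h2]
    have : R * D = R * m * n := by rw [hD]; ring
    have : (R * m) * (R + n) = R * m * R + R * m * n := by ring
    omega
  obtain ⟨p, hp0, hpD, hpH, hpO⟩ := aux_forms hH hE hκ e hb hd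
  set P : Fin R → ℚ[X] := fun a => (p a).map (Int.castRingHom ℚ) with hP
  have hP0 : P ≠ 0 := by
    intro h0
    apply hp0
    funext a
    have := congrFun h0 a
    exact Polynomial.map_injective _ (RingHom.injective_int (Int.castRingHom ℚ)) (by simpa [hP] using this)
  have hPD : ∀ a, (P a).natDegree ≤ D := fun a => natDegree_map_le.trans (hpD a)
  have he0 : ∀ a, OrdGE 0 (ps (e a)) := fun a => ordGE_ps _
  have hcoe : ∀ a, (ps (e a)).coeff 0 = PowerSeries.constantCoeff (e a) := by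
    intro a
    have := HahnSeries.ofPowerSeries_apply_coeff (Γ := ℤ) (e a) 0
    simpa [ps] using this
  -- the zero estimate
  have hmn4 : 4 * n ≤ D := by rw [hDn]; omega
  have hT'0 : T' ≠ 0 := by
    intro h0
    rw [h0, eval_zero] at hT's
    exact hT's rfl
  have hΔ := hC₁ T' B Ψ ν i₀ hT'0 hT'τ hBτ hfund hΨ0 hnil hν hind0 D P hP0 hPD (by
    simp only [he']
    refine ordGE_mono ?_ hpO
    have h2 : ((R * D - n : ℕ) : ℤ) = (R : ℤ) * D - n := by
      push_cast [Nat.cast_sub hRD]; ring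
    rw [h2]
    have h3 : (C₁ : ℤ) + 1 ≤ n := by exact_mod_cast hn
    have h4 : (4 : ℤ) * n ≤ D := by exact_mod_cast hmn4
    linarith)
  set Δ := Matrix.det (Matrix.of fun (j a : Fin R) => row T' B P (j : ℕ) a) with hΔdef
  have hdegΔ : Δ.natDegree ≤ n + τ * R ^ 2 := by
    have h2 := natDegree_det_row hsol he0 (i₀ := i₀) (by rw [hcoe, h1]; exact one_ne_zero) hT'τ hBτ
      hPD hpO hΔ
    have h3 : ((R * D - n : ℕ) : ℤ) = (R : ℤ) * D - n := by
      push_cast [Nat.cast_sub hRD]; ring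
    have h4 : ((R - 1 : ℕ) : ℤ) = (R : ℤ) - 1 := by
      push_cast [Nat.cast_sub (by omega : 1 ≤ R)]; ring
    rw [h3, h4] at h2
    have h5 : (Δ.natDegree : ℤ) ≤ n + τ * R ^ 2 := by nlinarith
    exact_mod_cast h5
  -- the rows at `s` span
  set J := R + Δ.natDegree with hJ
  have hJle : J ≤ n + (R + τ * R ^ 2) := by omega
  obtain ⟨V, i₁, hV0, hVi, hVj⟩ := exists_completion
    (fun (j : Fin J) a => (row T' B P (j : ℕ) a).eval (s : ℚ)) (fun a => (A a : ℚ))
    (by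
      intro h0; apply hA0; funext a
      have h2 : ((A a : ℤ) : ℚ) = 0 := congrFun h0 a
      show A a = 0
      exact_mod_cast h2)
    (by
      intro c hc
      obtain ⟨j, hj, hj2⟩ := rows_span hΔ hT's c hc
      exact ⟨⟨j, hj⟩, hj2⟩)
  obtain ⟨q, hq0, hqH, hqr⟩ := den_row hG p J
  obtain ⟨N, hN, hfin⟩ := hnum J q hJle hqH
  -- sizes
  set DD := D + τ * J with hDD
  set Bd : ℕ := ((R * (D + 1) * H ^ (2 * (R * D - n) + 2)) ^ (R * m)) * (H ^ C₀) ^ (D + J + 1)
    with hBd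
  have hrowdeg : ∀ j ≤ J, ∀ a, (row T' B P j a).natDegree ≤ DD := by
    intro j hj a
    refine (natDegree_row hT'τ hBτ hPD j a).trans ?_
    have : τ * j ≤ τ * J := Nat.mul_le_mul_left _ hj
    omega
  have hrowsize : ∀ j ≤ J, ∀ a i, |(row T' B P j a).coeff i| ≤ (Bd : ℚ) := by
    intro j hj a i
    have h2 := hC₀ H hH T' B hT'τ hBτ (by
      intro i
      rw [hT', Polynomial.coeff_map]
      have := hTH i
      simpa using (by exact_mod_cast this : |((T.coeff i : ℤ) : ℚ)| ≤ H)) hBH D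
      (((R * (D + 1) * H ^ (2 * (R * D - n) + 2)) ^ (R * m) : ℕ) : ℚ) P hPD (by
      intro a i
      rw [hP]
      simp only [Polynomial.coeff_map]
      have := hpH a i
      have h5 : (|((p a).coeff i : ℤ)| : ℚ) ≤
          (((R * (D + 1) * H ^ (2 * (R * D - n) + 2)) ^ (R * m) : ℕ) : ℚ) := by
        exact_mod_cast this
      simpa using h5) j a i
    refine h2.trans ?_
    rw [hBd, Nat.cast_mul]
    refine mul_le_mul_of_nonneg_left ?_ (Nat.cast_nonneg _)
    rw [← Nat.cast_pow]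
    exact_mod_cast Nat.pow_le_pow_right (pow_pos (by omega : 0 < H) C₀) (by omega)
  -- entries of `V`
  have hVent : ∀ i ≠ i₁, ∀ a, |((V i a : ℚ) : ℝ)| ≤ (DD + 1) * Bd * (s : ℝ) ^ DD := by
    intro i hi a
    obtain ⟨j, hj⟩ := hVj i hi
    rw [hj]
    have h2 := abs_eval_le (hrowdeg j j.2.le a) (M := (Bd : ℝ)) (Nat.cast_nonneg _) (by
      intro k
      have := hrowsize j j.2.le a k
      exact_mod_cast this) hs1
    have h3 : ((((row T' B P (j : ℕ) a).eval (s : ℚ)) : ℚ) : ℝ) =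
        ((row T' B P (j : ℕ) a).map (algebraMap ℚ ℝ)).eval (s : ℝ) := by
      rw [Polynomial.eval_map, Polynomial.eval₂_at_natCast]
      simp
    rw [h3]
    exact h2
  -- small forms
  have hsmall : ∀ i ≠ i₁, |∑ a, ((V i a : ℚ) : ℝ) * pev (e a) s| ≤
      2 * R * (DD + 1) * Bd * (H : ℝ) ^ (DD + N + 1) / (s : ℝ) ^ N := by
    intro i hi
    obtain ⟨j, hj⟩ := hVj i hi
    have hO := ordGE_row hsol hT'τ P hpO (j : ℕ)
    have hO' : OrdGE (N : ℤ) (∑ a, emb (row T' B P (j : ℕ) a) * ps (e a)) := by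
      refine ordGE_mono ?_ hO
      have h2 : ((R * D - n : ℕ) : ℤ) = (R : ℤ) * D - n := by
        push_cast [Nat.cast_sub hRD]; ring
      rw [h2]
      have h3 : ((N + τ * J + n + D : ℕ) : ℤ) = ((R * D : ℕ) : ℤ) := by exact_mod_cast hN
      have h4 : ((τ * (j : ℕ) : ℕ) : ℤ) ≤ ((τ * J : ℕ) : ℤ) := by
        exact_mod_cast Nat.mul_le_mul_left _ j.2.le
      push_cast at h3 h4 ⊢
      linarith
    have h2 := form_small hH (fun a => row T' B P (j : ℕ) a) (hrowdeg j j.2.le)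
      (M := (Bd : ℚ)) (hrowsize j j.2.le) e hb hO' hs2
    have h3 : ∑ a, ((V i a : ℚ) : ℝ) * pev (e a) s =
        ∑ a, ((row T' B P (j : ℕ) a).map (algebraMap ℚ ℝ)).eval (s : ℝ) * pev (e a) s := by
      refine Finset.sum_congr rfl fun a _ => ?_
      rw [hj, Polynomial.eval_map, Polynomial.eval₂_at_natCast]
      simp
    rw [h3]
    refine h2.trans (le_of_eq ?_)
    push_cast
    ring
  -- integrality
  have hint : ∀ i a, ∃ z : ℤ, (q : ℚ) * V i a = z := by
    intro i a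
    by_cases hi : i = i₁
    · subst hi
      rw [hVi]
      exact ⟨q * A a, by push_cast; ring⟩
    · obtain ⟨j, hj⟩ := hVj i hi
      rw [hj]
      have h2 := hqr j j.2.le a
      choose z hz using h2
      refine ⟨∑ k ∈ Finset.range ((row T' B P (j : ℕ) a).natDegree + 1), z k * (s : ℤ) ^ k, ?_⟩
      show (q : ℚ) * (row T' B P (j : ℕ) a).eval (s : ℚ) = _
      rw [Polynomial.eval_eq_sum_range, Finset.mul_sum]
      push_cast
      refine Finset.sum_congr rfl fun k _ => ?_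
      rw [← mul_assoc, hz]
  have hone := one_le_det V hV0 hq0 hint
  -- Cramer
  have hcr := cramer_row (V.map (algebraMap ℚ ℝ)) (fun a => pev (e a) s) i₀
  have hdetmap : (V.map (algebraMap ℚ ℝ)).det = ((V.det : ℚ) : ℝ) := by
    rw [← RingHom.mapMatrix_apply, ← RingHom.map_det]; rfl
  rw [hdetmap] at hcr
  have hbound : |((V.det : ℚ) : ℝ) * pev (e i₀) s| ≤
      R * ((R.factorial * (a0 * ((DD + 1) * Bd * (s : ℝ) ^ DD) ^ (R - 2))) *
        (2 * R * (DD + 1) * Bd * (H : ℝ) ^ (DD + N + 1) / (s : ℝ) ^ N)) := by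
    rw [hcr]
    refine (Finset.abs_sum_le_sum_abs _ _).trans ?_
    have h2 : ∀ j ∈ (Finset.univ : Finset (Fin R)),
        |(V.map (algebraMap ℚ ℝ)).adjugate i₀ j *
          ∑ a, (V.map (algebraMap ℚ ℝ)) j a * pev (e a) s| ≤
        (R.factorial * (a0 * ((DD + 1) * Bd * (s : ℝ) ^ DD) ^ (R - 2))) *
        (2 * R * (DD + 1) * Bd * (H : ℝ) ^ (DD + N + 1) / (s : ℝ) ^ N) := by
      intro j _
      by_cases hj : j = i₁
      · subst hj
        have h3 : ∑ a, (V.map (algebraMap ℚ ℝ)) j a * pev (e a) s = 0 := by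
          rw [← hA]
          refine Finset.sum_congr rfl fun a _ => ?_
          rw [Matrix.map_apply, hVi]
          simp
        rw [h3, mul_zero, abs_zero]
        positivity
      · rw [abs_mul]
        refine mul_le_mul ?_ ?_ (abs_nonneg _) (by positivity)
        · refine det_updateRow_le _ hj (fun a => ?_) (fun i hi a => ?_)
          · rw [Matrix.map_apply, hVi]
            simpa using hAa a
          · rw [Matrix.map_apply]
            exact hVent i hi a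
        · exact hsmall j hj
    refine (Finset.sum_le_sum h2).trans (le_of_eq ?_)
    rw [Finset.sum_const, Finset.card_univ, Fintype.card_fin, nsmul_eq_mul]
  have hhalf := pev_ge_half hH (hb i₀) h1 hs4
  rw [abs_mul] at hbound
  have hsN : (0 : ℝ) < (s : ℝ) ^ N := by positivity
  have h5 : (s : ℝ) ^ N ≤ 4 * (R : ℝ) ^ 2 * R.factorial * a0 * (q : ℝ) ^ R * (DD + 1 : ℝ) ^ (R - 1) *
      (Bd : ℝ) ^ (R - 1) * (H : ℝ) ^ (DD + N + 1) * (s : ℝ) ^ ((R - 2) * DD) := by
    have hpe : |pev (e i₀) s| ≥ 1 / 2 := hhalf.trans (le_abs_self _)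
    have h6 : 1 / 2 ≤ (q : ℝ) ^ R * (|((V.det : ℚ) : ℝ)| * |pev (e i₀) s|) := by
      calc (1 : ℝ) / 2 = 1 * (1 / 2) := by ring
        _ ≤ ((q : ℝ) ^ R * |((V.det : ℚ) : ℝ)|) * |pev (e i₀) s| :=
            mul_le_mul hone hpe (by norm_num) (by positivity)
        _ = _ := by ring
    have h7 : 1 / 2 ≤ (q : ℝ) ^ R * (R * ((R.factorial * (a0 * ((DD + 1) * Bd * (s : ℝ) ^ DD) ^ (R - 2))) *
        (2 * R * (DD + 1) * Bd * (H : ℝ) ^ (DD + N + 1) / (s : ℝ) ^ N))) :=
      h6.trans (mul_le_mul_of_nonneg_left hbound (by positivity))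
    have h8 : (q : ℝ) ^ R * (R * ((R.factorial * (a0 * ((DD + 1) * Bd * (s : ℝ) ^ DD) ^ (R - 2))) *
        (2 * R * (DD + 1) * Bd * (H : ℝ) ^ (DD + N + 1) / (s : ℝ) ^ N))) =
        (2 * (R : ℝ) ^ 2 * R.factorial * a0 * (q : ℝ) ^ R * (DD + 1 : ℝ) ^ (R - 1) *
      (Bd : ℝ) ^ (R - 1) * (H : ℝ) ^ (DD + N + 1) * (s : ℝ) ^ ((R - 2) * DD)) / (s : ℝ) ^ N := by
      obtain ⟨r, hr⟩ : ∃ r, R = r + 2 := ⟨R - 2, by omega⟩
      have e1 : R - 1 = r + 1 := by omega
      have e2 : R - 2 = r := by omega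
      rw [e1, e2, mul_pow, mul_pow, ← pow_mul, mul_comm DD r]
      field_simp
      ring
    rw [h8, le_div_iff₀ hsN] at h7
    linarith
  have h9 : ((4 * R ^ 2 * R.factorial * a0 * q ^ R * (D + τ * J + 1) ^ (R - 1) *
        (((R * (D + 1) * H ^ (2 * (R * D - n) + 2)) ^ (R * m)) *
          (H ^ C₀) ^ (D + J + 1)) ^ (R - 1) * H ^ (D + τ * J + N + 1) *
        s ^ ((R - 2) * (D + τ * J)) : ℕ) : ℝ) < ((s ^ N : ℕ) : ℝ) := by
    exact_mod_cast hfin
  push_cast at h9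
  rw [hBd] at h5
  push_cast at h5
  rw [hDD] at h5
  push_cast at h5
  exact absurd h5 (not_le.mpr h9)

end Pool.Agent.Helper79.GX
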