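import Pool.Agent.Helper79.GX.Defs
import Pool.Agent.Helper79.GX.Core2

/-!
# GC-14: the core theorem for a general finite index type

Transport `gcore2` along `Fintype.equivFin ι` (`Matrix.reindex` / `submatrix`): `beta T (B.submatrix e e) j =
(beta T B j).submatrix e e`, the same for `IsFund`, `coP`, nilpotency. `C₂` depends on `Fintype.card ι` and `τ`.
-/

open Polynomial

namespace Pool.Agent.Helper79.GX

open Pool.Agent.Helper37.GP Pool.Agent.Helper79.GC

private theorem beta_submatrix_equiv {ι κ : Type} [Fintype ι] [DecidableEq ι] [Fintype κ]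
    [DecidableEq κ] (T : ℚ[X]) (B : Matrix ι ι ℚ[X]) (f : κ ≃ ι) (j : ℕ) :
    beta T (B.submatrix f f) j = (beta T B j).submatrix f f := by
  induction j with
  | zero =>
    show (1 : Matrix κ κ ℚ[X]) = (1 : Matrix ι ι ℚ[X]).submatrix f f
    rw [Matrix.submatrix_one_equiv]
  | succ j ih =>
    show (C (((j : ℚ) + 1)⁻¹) : ℚ[X]) • (T • (beta T (B.submatrix f f) j).map derivative
      - ((j : ℚ[X]) * derivative T) • beta T (B.submatrix f f) j +
        beta T (B.submatrix f f) j * B.submatrix f f) =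
      ((C (((j : ℚ) + 1)⁻¹) : ℚ[X]) • (T • (beta T B j).map derivative
      - ((j : ℚ[X]) * derivative T) • beta T B j + beta T B j * B)).submatrix f f
    rw [ih, Matrix.submatrix_mul_equiv (beta T B j) B f f f]
    rfl

private theorem isFund_submatrix_equiv {ι κ : Type} [Fintype ι] [Fintype κ] {T : ℚ[X]}
    {A : Matrix ι ι ℚ[X]} {Y : Matrix ι ι (PowerSeries ℚ)} {N : Matrix ι ι ℚ}
    (h : IsFund T A Y N) (f : κ ≃ ι) :
    IsFund T (A.submatrix f f) (Y.submatrix f f) (N.submatrix f f) := by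
  unfold IsFund at h ⊢
  have h1 := congrArg (fun M => M.submatrix f f) h
  have e1 : eM (A.submatrix f f) * pM (Y.submatrix f f) = (eM A * pM Y).submatrix f f := by
    exact Matrix.submatrix_mul_equiv (eM A) (pM Y) f f f
  have e2 : pM (Y.submatrix f f) * cM (N.submatrix f f) = (pM Y * cM N).submatrix f f := by
    exact Matrix.submatrix_mul_equiv (pM Y) (cM N) f f f
  rw [e1, e2]
  exact h1

private theorem spec_submatrix_equiv {ι κ : Type} [Fintype ι] [DecidableEq ι] [Fintype κ]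
    [DecidableEq κ] {E : ℕ} {N : Matrix ι ι ℚ} (h : SpecBd E N) (f : κ ≃ ι) :
    SpecBd E (N.submatrix f f) := by
  obtain ⟨s, hs, m, hm⟩ := h
  refine ⟨s, hs, m, ?_⟩
  have h1 := Polynomial.aeval_algHom_apply (Matrix.reindexAlgEquiv ℚ ℚ f.symm).toAlgHom N
    ((∏ c ∈ s, ((X : ℚ[X]) - C c)) ^ m)
  rw [hm, map_zero] at h1
  exact h1

theorem gcore3 (ι : Type) [Fintype ι] [DecidableEq ι] (τ E : ℕ) : ∃ C₂ : ℕ, ∀ (H : ℕ), 2 ≤ H →
    ∀ (T : ℤ[X]) (B : Matrix ι ι ℚ[X]) (Ψ : Matrix ι ι (PowerSeries ℚ))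
    (ν : Matrix ι ι ℚ) (i₀ : ι),
    T.natDegree ≤ τ → (∀ a b, (B a b).natDegree + 1 ≤ T.natDegree) →
    (∀ i, |T.coeff i| ≤ H) → (∀ a b i, |(B a b).coeff i| ≤ H) →
    Galochkin (T.map (Int.castRingHom ℚ)) B H →
    IsFund (T.map (Int.castRingHom ℚ)) B Ψ ν → coP 0 Ψ = 1 → SpecBd E ν → (∀ a, ν a i₀ = 0) →
    (∀ a, GBound H (Ψ a i₀)) → GDen H (fun a => Ψ a i₀) →
    (∀ P : ι → ℚ[X], ∑ a, emb (P a) * ps (Ψ a i₀) = 0 → P = 0) →
    ∀ s : ℕ, H ^ C₂ ≤ s → ∀ A : ι → ℤ, ∑ a, (A a : ℝ) * pev (Ψ a i₀) s = 0 → A = 0 := by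
  obtain ⟨C₂, hC⟩ := gcore2 (Fintype.card ι) τ E
  refine ⟨C₂, fun H hH T B Ψ ν i₀ h1 h2 h3 h4 h5 h6 h7 h8 h9 h10 h11 h12 s hs A hA => ?_⟩
  let e : ι ≃ Fin (Fintype.card ι) := Fintype.equivFin ι
  have key := hC H hH T (B.submatrix e.symm e.symm) (Ψ.submatrix e.symm e.symm)
    (ν.submatrix e.symm e.symm) (e i₀) h1 (fun a b => h2 _ _) h3 (fun a b i => h4 _ _ i)
    (by
      intro j
      obtain ⟨q, hq0, hq1, hq2⟩ := h5 j
      refine ⟨q, hq0, hq1, fun i hi a b => ?_⟩
      rw [beta_submatrix_equiv]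
      exact hq2 i hi _ _)
    (isFund_submatrix_equiv h6 e.symm)
    (by
      show (coP 0 Ψ).submatrix e.symm e.symm = 1
      rw [h7, Matrix.submatrix_one_equiv])
    (spec_submatrix_equiv h8 e.symm)
    (by
      intro a
      rw [Matrix.submatrix_apply, Equiv.symm_apply_apply]
      exact h9 _)
    (by
      intro a
      rw [Matrix.submatrix_apply, Equiv.symm_apply_apply]
      exact h10 _)
    (by
      intro n
      obtain ⟨d, hd0, hd1, hd2⟩ := h11 n
      refine ⟨d, hd0, hd1, fun m hm a => ?_⟩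
      show ∃ z : ℤ, (d : ℚ) * PowerSeries.coeff m (Ψ (e.symm a) (e.symm (e i₀))) = z
      rw [Equiv.symm_apply_apply]
      exact hd2 m hm _)
    (by
      intro P hP
      have h := h12 (fun a => P (e a)) (by
        rw [← hP]
        refine Fintype.sum_equiv e _ _ fun a => ?_
        rw [Matrix.submatrix_apply, Equiv.symm_apply_apply, Equiv.symm_apply_apply])
      funext a
      have := congrFun h (e.symm a)
      rwa [Equiv.apply_symm_apply] at this)
    s hs (fun a => A (e.symm a))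
    (by
      rw [← hA]
      refine (Fintype.sum_equiv e _ _ fun a => ?_).symm
      rw [Matrix.submatrix_apply, Equiv.symm_apply_apply, Equiv.symm_apply_apply])
  funext a
  have := congrFun key (e a)
  simpa using this

end Pool.Agent.Helper79.GX
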