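import Pool.Agent.Helper79.GC.Defs3

/-!
# GX: G-connections with arbitrary rational exponents: definitions

The definitions of `Pool.Agent.Helper79.GC` are used except that the exponent matrices (there with
eigenvalues `0`, `1/2`) are now `Tame`: rational eigenvalues at distance less than `1`.
-/

open Polynomial

namespace Pool.Agent.Helper79.GX

open Pool.Agent.Helper37.GP Pool.Agent.Helper79.GC

section Spec

variable {ι : Type} [Fintype ι] [DecidableEq ι]

/-- All eigenvalues belong to the finite set `s` of rational numbers (in polynomial form). -/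
def Spec (s : Finset ℚ) (M : Matrix ι ι ℚ) : Prop :=
  ∃ m : ℕ, aeval M ((∏ c ∈ s, ((X : ℚ[X]) - C c)) ^ m) = 0

/-- The eigenvalues are rational numbers at distance less than `1`. -/
def Tame (M : Matrix ι ι ℚ) : Prop :=
  ∃ s : Finset ℚ, (∀ c ∈ s, ∀ c' ∈ s, |c - c'| < 1) ∧ Spec s M

/-- The eigenvalues are rational numbers in `[lo, lo + n)`. -/
def RatIn (lo : ℤ) (n : ℕ) (M : Matrix ι ι ℚ) : Prop :=
  ∃ s : Finset ℚ, (∀ c ∈ s, (lo : ℚ) ≤ c ∧ c < lo + n) ∧ Spec s M

/-- The eigenvalues are rational numbers of absolute value at most `E`. -/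
def SpecBd (E : ℕ) (M : Matrix ι ι ℚ) : Prop :=
  ∃ s : Finset ℚ, (∀ c ∈ s, |c| ≤ E) ∧ Spec s M

end Spec

/-! ### Blocks -/

/-- The data of one block: a system `T F' = L F` with fundamental matrix `Φ s^(-νl)`, and a
constant matrix `νr` commuting with everything. The block functions are the entries of the column
`i₀` of `Φ`. -/
structure BlockData (R : ℕ) where
  /-- the denominator of the system -/
  T : ℤ[X]
  /-- the matrix of the system -/
  L : Matrix (Fin R) (Fin R) ℚ[X]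
  /-- the holomorphic part of the fundamental matrix -/
  Φ : Matrix (Fin R) (Fin R) (PowerSeries ℚ)
  /-- the exponent matrix -/
  νl : Matrix (Fin R) (Fin R) ℚ
  /-- the second exponent matrix -/
  νr : Matrix (Fin R) (Fin R) ℚ
  /-- the index of the column -/
  i₀ : Fin R
  /-- a bound for all heights -/
  H : ℕ
  hH : 2 ≤ H
  hdeg : ∀ a b, (L a b).natDegree + 1 ≤ T.natDegree
  gal : Galochkin (T.map (Int.castRingHom ℚ)) L H
  Φ0 : coP 0 Φ = 1
  fund : IsFund (T.map (Int.castRingHom ℚ)) L Φ νl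
  cL : L * cX νr = cX νr * L
  cΦ : Φ * cP νr = cP νr * Φ
  cν : νl * νr = νr * νl
  e0 : ∀ a, νl a i₀ = νr a i₀
  tl : Tame νl
  tr : Tame νr
  bd : ∀ a b, GBound H (Φ a b)
  den : GDen H (fun p : Fin R × Fin R => Φ p.1 p.2)
  ind : ∀ v : Fin R → ℚ[X],
    (∀ k : ℕ, ∑ a, emb (v a) * ps ((Φ * cP (νl ^ k)) a i₀) = 0) → v = 0

namespace BlockData

variable {R : ℕ} (b : BlockData R)

/-- The fundamental matrix for the shifted system `s ↦ s + a`: `Φ(1/(s+a)) (s/(s+a))^νl`. -/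
noncomputable def Ψ (a : ℕ) : Matrix (Fin R) (Fin R) (PowerSeries ℚ) :=
  (b.Φ.map fun f => f.subst (gx 1 a)) * pw a b.νl

/-- The block functions at the shift `a`. -/
noncomputable def fn (a : ℕ) (α : Fin R) : PowerSeries ℚ := b.Ψ a α b.i₀

end BlockData

/-! ### The tensor system -/

section Big

variable {R d : ℕ} (b : BlockData R) (a : Fin d → ℕ)

/-- The denominator of the tensor system. -/
noncomputable def bigT : ℤ[X] := X * ∏ j, b.T.comp (X + C (a j : ℤ))

/-- The matrix of the tensor system. -/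
noncomputable def bigB : Matrix (Fin d → Fin R) (Fin d → Fin R) ℚ[X] :=
  (∑ j, (X * ∏ i ∈ Finset.univ.erase j, (b.T.comp (X + C (a i : ℤ))).map (Int.castRingHom ℚ)) •
    slot j (shM (a j) b.L)) +
  (∏ i, (b.T.comp (X + C (a i : ℤ))).map (Int.castRingHom ℚ)) • ∑ j, slot j (cX b.νr)

/-- The fundamental matrix of the tensor system (holomorphic part). -/
noncomputable def bigΨ : Matrix (Fin d → Fin R) (Fin d → Fin R) (PowerSeries ℚ) :=
  Matrix.of fun α β => ∏ j, b.Ψ (a j) (α j) (β j)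

/-- The exponent matrix of the tensor system. -/
noncomputable def bigN (d : ℕ) : Matrix (Fin d → Fin R) (Fin d → Fin R) ℚ :=
  ∑ j, slot j (b.νl - b.νr)

/-- The functions of the tensor system. -/
noncomputable def bigE (α : Fin d → Fin R) : PowerSeries ℚ := ∏ j, b.fn (a j) (α j)

end Big

/-! ### Analytic functions -/

/-- A system `T F' = L F` on `‖u‖ > ρ₀` with fundamental matrix `Φ(1/u) exp(-(log u) ν)`, and a vector
`e` such that no nonzero polynomial row vector annihilates all `Φ(1/u) ν^k e`. -/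
structure BkData (R : ℕ) where
  /-- the denominator -/
  T : ℂ[X]
  /-- the matrix -/
  L : Matrix (Fin R) (Fin R) ℂ[X]
  /-- the exponent matrix -/
  ν : Matrix (Fin R) (Fin R) ℚ
  /-- the holomorphic part, as a function of `x = 1/u` -/
  Φ : ℂ → Matrix (Fin R) (Fin R) ℂ
  /-- the vector -/
  e : Fin R → ℂ
  /-- the inner radius -/
  ρ₀ : ℝ
  /-- the outer radius -/
  ρ' : ℝ
  h0 : 0 < ρ₀
  h1 : ρ₀ < ρ'
  hT : T ≠ 0
  hν : Tame ν
  hΦ : ∀ a b, AnalyticOnNhd ℂ (fun x => Φ x a b) (Metric.ball 0 (1 / ρ₀))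
  hdet : ∀ x ∈ Metric.ball (0 : ℂ) (1 / ρ₀), IsUnit (Φ x).det
  hode : ∀ u : ℂ, ρ₀ < ‖u‖ → ∀ a b, T.eval u * deriv (fun u => Φ u⁻¹ a b) u =
    ∑ c, (L a c).eval u * Φ u⁻¹ c b + T.eval u / u * ∑ c, Φ u⁻¹ a c * (ν c b : ℂ)
  hind : ∀ v : Fin R → ℂ[X],
    (∀ (k : ℕ) (u : ℂ), ρ₀ < ‖u‖ → ∑ a, (v a).eval u * (Φ u⁻¹ * qC (ν ^ k)).mulVec e a = 0) →
    v = 0

/-- The analytic row vectors on the disc `‖u‖ < ρ'` annihilating all `Φ(1/u) ν^k e` on the annulus. -/
def BkData.KK {R : ℕ} (D : BkData R) : Set (ℂ → Fin R → ℂ) :=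
  {f | (∀ a, AnalyticOnNhd ℂ (fun u => f u a) (Metric.ball 0 D.ρ')) ∧
    ∀ (k : ℕ) (u : ℂ), D.ρ₀ < ‖u‖ → ‖u‖ < D.ρ' →
      ∑ a, f u a * (D.Φ u⁻¹ * qC (D.ν ^ k)).mulVec D.e a = 0}

end Pool.Agent.Helper79.GX
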