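import Pool.Agent.Helper79.GX.Defs
import Pool.Agent.Helper79.GC.CevIndep
import Pool.Agent.Helper79.GC.OdeCev
import Pool.Agent.Helper79.GC.CexpM

/-!
# GC-26a: the analytic data of a block

* `exists_bk`: `T = b.T.map`, `L = b.L.map`, `ν = b.νl`, `Φ x = cevM b.Φ x`, `e` = the unit vector at `b.i₀`. `Φ 0 = 1`, so by
  continuity there is `ρ₀ ≥ b.H` with `det Φ(x) ≠ 0` for `‖x‖ < 1/ρ₀`. `hode` is `ode_cev`, `hind` is `cev_indep` for the family
  `f k a = (b.Φ * cP (νl^k)) a i₀` (bounded by a constant depending on `k`; apply `cev_indep` after noting that it is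
  enough to have the bound for `k < R`, or use `cev_indep`-type argument with `H` depending on `k`: since `νl^k` is a
  combination of `νl^i`, `i < R` (Cayley-Hamilton), `hind` needs only `k < R`, a finite family with a common bound).
-/

open Polynomial Filter Topology

namespace Pool.Agent.Helper79.GX

open Pool.Agent.Helper37.GP Pool.Agent.Helper79.GC

namespace BkAux

theorem cev_summable {H : ℕ} (hH : 1 ≤ H) {f : PowerSeries ℚ} (hf : GBound H f) {x : ℂ}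
    (hx : ‖x‖ < 1 / (H : ℝ)) :
    Summable fun n : ℕ => ((PowerSeries.coeff n f : ℚ) : ℂ) * x ^ n := by
  have hH0 : (0 : ℝ) < H := by exact_mod_cast hH
  have h1 : (H : ℝ) * ‖x‖ < 1 := by
    rw [lt_div_iff₀ hH0] at hx
    linarith
  refine Summable.of_norm_bounded (g := fun n : ℕ => (H : ℝ) * ((H : ℝ) * ‖x‖) ^ n)
    ((summable_geometric_of_lt_one (by positivity) h1).mul_left _) fun n => ?_
  rw [norm_mul, norm_pow]
  have h2 : ‖((PowerSeries.coeff n f : ℚ) : ℂ)‖ ≤ (H : ℝ) ^ (n + 1) := by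
    have h3 : ((|PowerSeries.coeff n f| : ℚ) : ℝ) ≤ (((H : ℚ) ^ (n + 1) : ℚ) : ℝ) := by
      exact_mod_cast hf n
    have h4 : ‖((PowerSeries.coeff n f : ℚ) : ℂ)‖ = ((|PowerSeries.coeff n f| : ℚ) : ℝ) := by
      rw [← Complex.ofReal_ratCast, Complex.norm_real, Real.norm_eq_abs]
      push_cast
      rfl
    rw [h4]
    refine h3.trans ?_
    push_cast
    exact le_rfl
  calc ‖((PowerSeries.coeff n f : ℚ) : ℂ)‖ * ‖x‖ ^ n ≤ (H : ℝ) ^ (n + 1) * ‖x‖ ^ n :=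
        mul_le_mul_of_nonneg_right h2 (by positivity)
    _ = (H : ℝ) * ((H : ℝ) * ‖x‖) ^ n := by rw [mul_pow]; ring

theorem coeff_mul_cP {ι : Type} [Fintype ι] (F : Matrix ι ι (PowerSeries ℚ)) (N : Matrix ι ι ℚ)
    (a i : ι) (n : ℕ) : PowerSeries.coeff n ((F * cP N) a i) =
      ∑ c, PowerSeries.coeff n (F a c) * N c i := by
  rw [Matrix.mul_apply, map_sum]
  refine Finset.sum_congr rfl fun c _ => ?_
  rw [cP_apply, PowerSeries.coeff_mul_C]

theorem cev_mul_cP {ι : Type} [Fintype ι] {H : ℕ} (hH : 1 ≤ H) (F : Matrix ι ι (PowerSeries ℚ))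
    (hF : ∀ a b, GBound H (F a b)) (N : Matrix ι ι ℚ) (a i : ι) {x : ℂ}
    (hx : ‖x‖ < 1 / (H : ℝ)) :
    cev ((F * cP N) a i) x = (cevM F x * qC N) a i := by
  unfold cev
  have h1 : ∀ n : ℕ, ((PowerSeries.coeff n ((F * cP N) a i) : ℚ) : ℂ) * x ^ n =
      ∑ c, ((PowerSeries.coeff n (F a c) : ℚ) : ℂ) * x ^ n * ((N c i : ℚ) : ℂ) := by
    intro n
    rw [coeff_mul_cP]
    push_cast
    rw [Finset.sum_mul]
    exact Finset.sum_congr rfl fun c _ => by ring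
  rw [tsum_congr h1, Summable.tsum_finsetSum (fun c _ => (cev_summable hH (hF a c) hx).mul_right _),
    Matrix.mul_apply]
  refine Finset.sum_congr rfl fun c _ => ?_
  rw [tsum_mul_right]
  rfl

theorem gbound_mul_cP {ι : Type} [Fintype ι] {H : ℕ} (F : Matrix ι ι (PowerSeries ℚ))
    (hF : ∀ a b, GBound H (F a b)) (N : Matrix ι ι ℚ) : ∃ M : ℕ, 1 ≤ M ∧ ∀ a i,
    GBound (H * M) ((F * cP N) a i) := by
  obtain ⟨M, hM⟩ := exists_nat_ge (∑ p : ι × ι, |N p.1 p.2|)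
  refine ⟨M + 1, by omega, fun a i n => ?_⟩
  rw [coeff_mul_cP]
  have h0 : (0 : ℚ) ≤ (H : ℚ) ^ (n + 1) := by positivity
  have hM1 : (1 : ℚ) ≤ (M : ℚ) + 1 := by
    have : (0 : ℚ) ≤ (M : ℚ) := Nat.cast_nonneg _
    linarith
  have h2 : ∑ c, |N c i| ≤ (M : ℚ) := by
    refine le_trans ?_ hM
    rw [Fintype.sum_prod_type]
    refine Finset.sum_le_sum fun c _ => ?_
    exact Finset.single_le_sum (f := fun i => |N c i|) (fun _ _ => abs_nonneg _)
      (Finset.mem_univ i)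
  calc |∑ c, PowerSeries.coeff n (F a c) * N c i|
      ≤ ∑ c, |PowerSeries.coeff n (F a c) * N c i| := Finset.abs_sum_le_sum_abs _ _
    _ ≤ ∑ c, (H : ℚ) ^ (n + 1) * |N c i| := Finset.sum_le_sum fun c _ => by
        rw [abs_mul]
        exact mul_le_mul_of_nonneg_right (hF a c n) (abs_nonneg _)
    _ = (H : ℚ) ^ (n + 1) * ∑ c, |N c i| := by rw [Finset.mul_sum]
    _ ≤ (H : ℚ) ^ (n + 1) * ((M : ℚ) + 1) ^ (n + 1) := by
        refine mul_le_mul_of_nonneg_left ?_ h0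
        calc ∑ c, |N c i| ≤ (M : ℚ) + 1 := by linarith
          _ = ((M : ℚ) + 1) ^ 1 := (pow_one _).symm
          _ ≤ _ := pow_le_pow_right₀ hM1 (by omega)
    _ = (((H * (M + 1) : ℕ)) : ℚ) ^ (n + 1) := by push_cast; rw [mul_pow]

theorem pow_comb {R : ℕ} (hR : 0 < R) (N : Matrix (Fin R) (Fin R) ℚ) (k : ℕ) : ∃ c : ℕ → ℚ,
    N ^ k = ∑ i ∈ Finset.range R, c i • N ^ i := by
  refine ⟨fun i => (X ^ k %ₘ N.charpoly).coeff i, ?_⟩
  rw [Matrix.pow_eq_aeval_mod_charpoly]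
  refine aeval_eq_sum_range' ?_ N
  have h1 : N.charpoly.natDegree = R := by
    rw [Matrix.charpoly_natDegree_eq_dim, Fintype.card_fin]
  have h2 := natDegree_modByMonic_lt (X ^ k : ℚ[X]) N.charpoly_monic (by
    intro h
    rw [h, natDegree_one] at h1
    omega)
  omega

/-- Common bound. -/
theorem bound_pow {R : ℕ} (b : BlockData R) : ∃ H : ℕ, b.H ≤ H ∧ ∀ k : Fin R, ∀ a,
    GBound H ((b.Φ * cP (b.νl ^ (k : ℕ))) a b.i₀) := by
  have h : ∀ k : Fin R, ∃ M : ℕ, 1 ≤ M ∧ ∀ a i,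
      GBound (b.H * M) ((b.Φ * cP (b.νl ^ (k : ℕ))) a i) := fun k => gbound_mul_cP b.Φ b.bd _
  choose M hM1 hM using h
  refine ⟨b.H * (∑ k, M k + 1), Nat.le_mul_of_pos_right _ (by omega), fun k a => ?_⟩
  refine BoundsAux.gbound_mono (Nat.mul_le_mul_left _ ?_) (hM k a b.i₀)
  have := Finset.single_le_sum (f := M) (fun _ _ => Nat.zero_le _) (Finset.mem_univ k)
  omega

theorem ps_mul_cP {ι : Type} [Fintype ι] [DecidableEq ι] (F : Matrix ι ι (PowerSeries ℚ))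
    (N : Matrix ι ι ℚ) (a i : ι) : ps ((F * cP N) a i) = (pM F * cM N) a i := by
  rw [← pM_cP, ← pM_mul]
  rfl

theorem ind_lt {R : ℕ} (b : BlockData R) (v : Fin R → ℚ[X])
    (h : ∀ k : Fin R, ∑ a, emb (v a) * ps ((b.Φ * cP (b.νl ^ (k : ℕ))) a b.i₀) = 0) : v = 0 := by
  have hR : 0 < R := lt_of_le_of_lt (Nat.zero_le _) b.i₀.isLt
  refine b.ind v fun k => ?_
  obtain ⟨c, hc⟩ := pow_comb hR b.νl k
  have h1 : ∀ a, ps ((b.Φ * cP (b.νl ^ k)) a b.i₀) =
      ∑ i ∈ Finset.range R, algebraMap ℚ (LaurentSeries ℚ) (c i) *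
        ps ((b.Φ * cP (b.νl ^ i)) a b.i₀) := by
    intro a
    rw [ps_mul_cP, hc]
    have h2 : cM (∑ i ∈ Finset.range R, c i • b.νl ^ i) =
        ∑ i ∈ Finset.range R, algebraMap ℚ (LaurentSeries ℚ) (c i) • cM (b.νl ^ i) := by
      ext1 x y
      rw [cM_apply, Matrix.sum_apply, Matrix.sum_apply, map_sum]
      refine Finset.sum_congr rfl fun i _ => ?_
      rw [Matrix.smul_apply, Matrix.smul_apply, smul_eq_mul, smul_eq_mul, map_mul, cM_apply]
    rw [h2, Matrix.mul_sum, Matrix.sum_apply]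
    refine Finset.sum_congr rfl fun i _ => ?_
    rw [Matrix.mul_smul, Matrix.smul_apply, smul_eq_mul, ps_mul_cP]
  simp only [h1, Finset.mul_sum]
  rw [Finset.sum_comm]
  refine Finset.sum_eq_zero fun i hi => ?_
  have h3 := h ⟨i, Finset.mem_range.1 hi⟩
  have h4 : ∀ a, emb (v a) * (algebraMap ℚ (LaurentSeries ℚ) (c i) *
      ps ((b.Φ * cP (b.νl ^ i)) a b.i₀)) = algebraMap ℚ (LaurentSeries ℚ) (c i) *
      (emb (v a) * ps ((b.Φ * cP (b.νl ^ i)) a b.i₀)) := fun a => by ring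
  simp only [h4]
  rw [← Finset.mul_sum]
  simp only at h3
  rw [h3, mul_zero]

theorem det_near {R : ℕ} (b : BlockData R) : ∃ r : ℝ, 0 < r ∧ ∀ x : ℂ, ‖x‖ < r →
    (cevM b.Φ x).det ≠ 0 := by
  have hH := b.hH
  have hH1 : 1 ≤ b.H := by omega
  have hH0 : (0 : ℝ) < b.H := by exact_mod_cast hH1
  have h0 : cevM b.Φ 0 = 1 := by
    ext1 i j
    have h1 := congrFun (congrFun b.Φ0 i) j
    rw [coP_apply, PowerSeries.coeff_zero_eq_constantCoeff_apply] at h1
    have h2 : cevM b.Φ 0 i j = cev (b.Φ i j) 0 := rfl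
    rw [h2, cev_zero, h1, Matrix.one_apply, Matrix.one_apply]
    split_ifs <;> simp
  have hc : ContinuousAt (fun x : ℂ => cevM b.Φ x) 0 := by
    refine continuousAt_pi.2 fun i => continuousAt_pi.2 fun j => ?_
    exact (cev_analytic hH1 (b.bd i j) 0 (Metric.mem_ball_self (by positivity))).continuousAt
  have hd : ContinuousAt (fun x : ℂ => (cevM b.Φ x).det) 0 :=
    (Continuous.matrix_det continuous_id).continuousAt.comp hc
  have hne : (cevM b.Φ 0).det ≠ 0 := by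
    rw [h0, Matrix.det_one]
    exact one_ne_zero
  have he := hd.eventually_ne hne
  obtain ⟨r, hr, hr'⟩ := Metric.eventually_nhds_iff.1 he
  exact ⟨r, hr, fun x hx => hr' (by rwa [dist_zero_right])⟩

end BkAux

open BkAux in
theorem exists_bk {R : ℕ} (b : BlockData R) : ∃ ρ₀ : ℝ, (b.H : ℝ) ≤ ρ₀ ∧ ∀ ρ' : ℝ, ρ₀ < ρ' →
    ∃ D : BkData R, D.ν = b.νl ∧ D.ρ₀ = ρ₀ ∧ D.ρ' = ρ' ∧ D.e = Pi.single b.i₀ 1 ∧
      ∀ x, D.Φ x = cevM b.Φ x := by
  obtain ⟨r, hr, hdet⟩ := det_near b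
  have hH := b.hH
  have hH1 : 1 ≤ b.H := by omega
  have hH0 : (0 : ℝ) < b.H := by exact_mod_cast hH1
  refine ⟨max (b.H : ℝ) (1 / r), le_max_left _ _, fun ρ' hρ => ?_⟩
  have hρ0 : 0 < max (b.H : ℝ) (1 / r) := lt_of_lt_of_le hH0 (le_max_left _ _)
  have hball : ∀ x ∈ Metric.ball (0 : ℂ) (1 / max (b.H : ℝ) (1 / r)),
      ‖x‖ < 1 / (b.H : ℝ) ∧ ‖x‖ < r := by
    intro x hx
    rw [mem_ball_zero_iff] at hx
    refine ⟨lt_of_lt_of_le hx (one_div_le_one_div_of_le hH0 (le_max_left _ _)), ?_⟩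
    refine lt_of_lt_of_le hx ?_
    rw [one_div_le hρ0 hr]
    exact le_max_right _ _
  have hTdeg : 1 ≤ b.T.natDegree := by
    have := b.hdeg b.i₀ b.i₀
    omega
  have hT0 : b.T ≠ 0 := by
    intro h
    rw [h, natDegree_zero] at hTdeg
    omega
  have hinv : ∀ u : ℂ, max (b.H : ℝ) (1 / r) < ‖u‖ → ‖u⁻¹‖ < 1 / (b.H : ℝ) := by
    intro u hu
    rw [norm_inv, ← one_div]
    exact one_div_lt_one_div_of_lt hH0 (lt_of_le_of_lt (le_max_left _ _) hu)
  refine ⟨{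
    T := b.T.map (Int.castRingHom ℂ)
    L := b.L.map (Polynomial.map (algebraMap ℚ ℂ))
    ν := b.νl
    Φ := fun x => cevM b.Φ x
    e := Pi.single b.i₀ 1
    ρ₀ := max (b.H : ℝ) (1 / r)
    ρ' := ρ'
    h0 := hρ0
    h1 := hρ
    hT := ?_
    hν := b.tl
    hΦ := ?_
    hdet := ?_
    hode := ?_
    hind := ?_ }, rfl, rfl, rfl, rfl, fun x => rfl⟩
  · rw [Ne, Polynomial.map_eq_zero_iff (RingHom.injective_int _)]
    exact hT0
  · intro i j x hx
    exact cev_analytic hH1 (b.bd i j) x (by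
      rw [mem_ball_zero_iff]
      exact (hball x hx).1)
  · intro x hx
    exact isUnit_iff_ne_zero.2 (hdet x (hball x hx).2)
  · intro u hu i j
    have h1 := ode_cev hH1 b.bd b.fund u (lt_of_le_of_lt (le_max_left _ _) hu) i j
    have h2 : ∀ p : ℚ[X], aeval u p = (p.map (algebraMap ℚ ℂ)).eval u := fun p => by
      rw [aeval_def, eval_map]
    have h3 : (b.T.map (Int.castRingHom ℚ)).map (algebraMap ℚ ℂ) =
        b.T.map (Int.castRingHom ℂ) := by
      rw [Polynomial.map_map]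
      congr 1
    simp only [h2, h3] at h1
    exact h1
  · intro v hv
    obtain ⟨H, hHH, hHb⟩ := bound_pow b
    refine cev_indep (κ := Fin R) (H := H) (by omega)
      (fun k a => (b.Φ * cP (b.νl ^ (k : ℕ))) a b.i₀) hHb (ind_lt b)
      (max (b.H : ℝ) (1 / r)) v fun k u hu => ?_
    rw [← hv (k : ℕ) u hu]
    refine Finset.sum_congr rfl fun a _ => ?_
    rw [cev_mul_cP hH1 b.Φ b.bd _ _ _ (hinv u hu), Matrix.mulVec_single_one]
    rfl

end Pool.Agent.Helper79.GX
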