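import Pool.Agent.Helper79.GX.RelSpan
import Pool.Agent.Helper79.GC.GaugeBounds
import Pool.Agent.Helper79.GC.SubBasis
import Pool.Agent.Helper79.GC.BlockInd
import Pool.Agent.Helper79.GC.Binm

/-!
# GX: existence of a block for a system with tame exponents

As `exists_block` in `Pool.Agent.Helper79.GC.ExistsBlock`; the exponents of the block are tame by `spec_lm`, `spec_rm`.
-/

open Polynomial

namespace Pool.Agent.Helper79.GX

open Pool.Agent.Helper37.GP Pool.Agent.Helper79.GC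

variable {ι : Type} [Fintype ι] [DecidableEq ι]

theorem exists_block [Nonempty ι] {T : ℤ[X]} {A : Matrix ι ι ℚ[X]} {H : ℕ}
    (hG : Galochkin (T.map (Int.castRingHom ℚ)) A H) {N : Matrix ι ι ℚ}
    (hR : IsRes (T.map (Int.castRingHom ℚ)) A N) (hN : Tame N)
    {Y : Matrix ι ι (PowerSeries ℚ)} (hY : IsFund (T.map (Int.castRingHom ℚ)) A Y N)
    (hY0 : coP 0 Y = 1) {H₁ : ℕ} (hb : ∀ a b, GBound H₁ (Y a b))
    (hd : GDen H₁ (fun p : ι × ι => Y p.1 p.2)) :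
    ∃ (R : ℕ) (b : BlockData R) (g : Fin R → Matrix ι ι ℚ) (D κ : ℕ) (Z : Matrix ι ι ℤ[X])
      (W : Matrix ι ι (PowerSeries ℚ)), 1 ≤ κ ∧ Z.det ≠ 0 ∧
      (κ : ℚ) • pM Y = (xx ^ D • eM (zM Z)) * pM W ∧ (∀ a c, GBound b.H (W a c)) ∧
      g b.i₀ = 1 ∧ (∀ β, W * cP (g β) = ∑ α, b.Φ α β • cP (g α)) ∧
      ∀ β, N * g β = ∑ α, b.νl α β • g α := by
  classical
  have hTm : T.map (Int.castRingHom ℚ) ≠ 0 := hR.1
  have hT : T ≠ 0 := by
    rintro rfl
    exact hTm (Polynomial.map_zero _)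
  have hdegA : ∀ a b, (A a b).natDegree + 1 ≤ T.natDegree := by
    intro a b
    have h := hR.2.1 a b
    rwa [Polynomial.natDegree_map_eq_of_injective (Int.castRingHom ℚ).injective_int] at h
  obtain ⟨s, hs, hsN⟩ := hN
  obtain ⟨D, κ, Z, hκ, hZdeg, hZco, hrel⟩ := exists_gauge (N := N) hY0
  obtain ⟨hZ, -⟩ := gauge_det hκ hZdeg hZco
  obtain ⟨W, hW0, hW, hWG⟩ := exists_W_x hTm hY hY0 ⟨s, hs, hsN⟩ hκ hZdeg hZco hrel
  obtain ⟨R, B, hB⟩ := exists_algBasis (GG Y N) gg_one (fun x hx y hy => gg_add hx hy)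
    (fun c x hx => gg_smul c hx) (fun x hx y hy => gg_mul hTm hY hx hy)
  have hNG : N ∈ GG Y N := by
    have := gg_pow hTm hY 1
    rwa [pow_one] at this
  have hNm : B.Mem (RingHom.id ℚ) N := (mem_id B).2 ((hB N).1 hNG)
  have hWm : B.Mem (PowerSeries.C : ℚ →+* PowerSeries ℚ) W :=
    mem_of_coP B fun n => (hB _).1 (hWG n)
  have hAm : B.Mem (C : ℚ →+* ℚ[X]) (gA T A Z D) :=
    mem_of_coM B fun n => (hB _).1 (gauge_mem hT hY hκ hZ hW hW0 hWG n)
  obtain ⟨H2, hH2, hg2⟩ := gal_lm B (gal_gauge hT hG Z hZ D) hAm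
  obtain ⟨H3, hH3, hb3, hd3⟩ := W_bounds hb hd hκ hZdeg hZco hW
  obtain ⟨H4, hH4, hb4, hd4⟩ := lm_bounds B hb3 hd3
  have hNmX : B.Mem (C : ℚ →+* ℚ[X]) (N.map C) := by
    have := mem_map B (RingHom.id ℚ) (C : ℚ →+* ℚ[X]) hNm
    rwa [RingHom.comp_id] at this
  have hNmP : B.Mem (PowerSeries.C : ℚ →+* PowerSeries ℚ) (N.map PowerSeries.C) := by
    have := mem_map B (RingHom.id ℚ) (PowerSeries.C : ℚ →+* PowerSeries ℚ) hNm
    rwa [RingHom.comp_id] at this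
  have hrX : cX (B.rm (RingHom.id ℚ) N) = B.rm C (N.map C) := by
    have := rm_map B (RingHom.id ℚ) (C : ℚ →+* ℚ[X]) N
    rw [RingHom.comp_id] at this
    rw [this]
    rfl
  have hrP : cP (B.rm (RingHom.id ℚ) N) = B.rm PowerSeries.C (N.map PowerSeries.C) := by
    have := rm_map B (RingHom.id ℚ) (PowerSeries.C : ℚ →+* PowerSeries ℚ) N
    rw [RingHom.comp_id] at this
    rw [this]
    rfl
  have hgb : ∀ {H H' : ℕ} {f : PowerSeries ℚ}, H ≤ H' → GBound H f → GBound H' f := by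
    intro H H' f h hf n
    refine (hf n).trans ?_
    exact pow_le_pow_left₀ (Nat.cast_nonneg H) (by exact_mod_cast h) _
  have hgd : ∀ {ι' : Type} {H H' : ℕ} {f : ι' → PowerSeries ℚ}, H ≤ H' → GDen H f →
      GDen H' f := by
    intro ι' H H' f h hf n
    obtain ⟨d, h0, h1, h2⟩ := hf n
    exact ⟨d, h0, h1.trans (Nat.pow_le_pow_left h _), h2⟩
  have hgdeg := gauge_deg hT hdegA hκ hZdeg hZco
  have hone : 1 ≤ (gT T Z D).natDegree := by
    obtain ⟨a⟩ := (inferInstance : Nonempty ι)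
    exact le_trans (Nat.le_add_left 1 _) (hgdeg a a)
  refine ⟨R, {
    T := gT T Z D
    L := B.lm C (gA T A Z D)
    Φ := B.lm PowerSeries.C W
    νl := B.lm (RingHom.id ℚ) N
    νr := B.rm (RingHom.id ℚ) N
    i₀ := B.i₀
    H := H2 + H3 + H4
    hH := by omega
    hdeg := lm_deg B hgdeg hone
    gal := fun j => by
      obtain ⟨q, h0, h1, h2⟩ := hg2 j
      exact ⟨q, h0, h1.trans (Nat.pow_le_pow_left (by omega) _), h2⟩
    Φ0 := by rw [coP_lm, hW0, lm_one]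
    fund := fund_lm B (gauge_fund hT hY hκ hZ hW) hAm hWm hNm
    cL := by rw [hrX]; exact lm_rm_comm B C hAm hNmX
    cΦ := by rw [hrP]; exact lm_rm_comm B PowerSeries.C hWm hNmP
    cν := lm_rm_comm B (RingHom.id ℚ) hNm hNm
    e0 := fun a => by rw [lm_col, rm_col]
    tl := ⟨s, hs, spec_lm B hNm hsN⟩
    tr := ⟨s, hs, spec_rm B hNm hsN⟩
    bd := fun a b => hgb (by omega) (hb4 a b)
    den := hgd (by omega) hd4
    ind := fun v hv => block_ind hT hY B hB hκ hZ hrel hW hWG v hv }, B.g, D, κ, Z, W, hκ, hZ,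
    hW, ?_, B.one, ?_, ?_⟩
  · intro a c
    exact hgb (show H3 ≤ H2 + H3 + H4 by omega) (hb3 a c)
  · intro β
    exact lm_expand B PowerSeries.C hWm β
  · intro β
    have h := lm_expand B (RingHom.id ℚ) hNm β
    have e : ∀ α, (B.g α).map (RingHom.id ℚ) = B.g α := fun α => by
      ext a b
      simp
    simp only [e] at h
    exact h

end Pool.Agent.Helper79.GX
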