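import Pool.Agent.Helper79.GX.Defs
import Pool.Agent.Helper79.GX.ExistsBk
import Pool.Agent.Helper79.GX.RelReal
import Pool.Agent.Helper79.GX.Birk2

/-!
# GC-27: functional independence of the products of block functions

Let `ρ₀` from `exists_bk`, `ρ' = ρ₀ + 1`, `C₄ > 2ρ₀ + 4` an integer. Let `LU(z) = Complex.log (-I z) + I π/2`: analytic off the
closed negative imaginary half axis, `exp (LU z) = z`, `= log z` (real) for `z > 0`. Put
`𝓕_j(s) = Φ(1/(s+a_j)) exp(-LU(s+a_j) νl) e` (`e` = unit vector `i₀`) and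
`P̃_β(s) = ∑_α P_α(s) ∏_j exp(LU(s) νr)_{α_j β_j}`. For real large `s`:
`exp(-log((s+a)/s) νl) e = exp(log s νr) exp(-log(s+a) νl) e`: `exp(log s νl)` and `exp(-log(s+a) νl)` commute,
`exp(w νl) e = exp(w νr) e` (`cexpM_mulVec_eq`), `νr` commutes with `νl` and `Φ`. So `rel_real` reads
`∑_β P̃_β(s) ∏_j 𝓕_j(s)_{β_j} = 0` for real `s > s₁`.

`Ω = {Im s > ρ₀} ∪ {Re s > ρ₀}` is open and preconnected (two convex sets that meet), all functions above are analytic on `Ω`
(there `‖s + a_j‖ > ρ₀`, and `s`, `s + a_j` are not on the negative imaginary axis: for `Re s > ρ₀ > 0` the real part is positive).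
Claim, by induction on `i ≤ d`: for all `β_0, …, β_{i-1}` and `s ∈ Ω`:
`∑_{β_i, …, β_{d-1}} P̃_β(s) ∏_{j ≥ i} 𝓕_j(s)_{β_j} = 0`. `i = 0`: identity theorem on `Ω` (the relation holds on a real ray).
Step `i → i+1`: fix `β_0..β_{i-1}`, `f(u)_β := ∑_{β_{i+1}..} P̃_{(.., β, ..)}(s) ∏_{j>i} 𝓕_j(s)_{β_j}` with `s = u - a_i`.
For `‖u‖ < ρ'` this is analytic: `Re s < 0` there since `a_i ≥ C₄ > ρ'` so `s` is off the cut of `LU(s)`; `‖s + a_j‖ ≥ |a_j - a_i| - ρ' > ρ₀`
and `Re (s + a_j) = a_j - a_i + Re u ≠ 0` so `s + a_j` is off the cut. The claim for `i` says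
`∑_β f(u)_β (Φ(1/u) exp(-LU(u) νl) e)_β = 0` for `s ∈ Ω`, in particular near `u₁ = I (ρ₀ + 1/2)`, where
`LU(e^w) = w` for `w` near `w₁ = log(ρ₀+1/2) + I π/2`. `strip_indep` with `φ(u) = f(u) Φ(1/u)` gives `f ∈ D.KK` and `birk` gives
`f = 0` on `‖u‖ < ρ'`; each `f(u)_β` is analytic in `s` on `Ω` (connected), vanishes near `s = u₁ - a_i ∈ Ω`, so it is `0` on `Ω`:
this is the claim for `i + 1`.
`i = d`: `P̃_β(s) = 0` on `Ω` for all `β`; `exp(LU(s) νr)` is invertible (`kron_mul`), so `P_α(s) = 0` on `Ω`, `P = 0`.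
-/

open Polynomial Filter Topology

namespace Pool.Agent.Helper79.GX

open Pool.Agent.Helper37.GP Pool.Agent.Helper79.GC

namespace FIm

/-- The branch of the logarithm off the closed negative imaginary half axis. -/
noncomputable def LU (z : ℂ) : ℂ :=
  Complex.log (-Complex.I * z) + ((Real.pi / 2 : ℝ) : ℂ) * Complex.I

/-- The plane without the closed negative imaginary half axis. -/
def Sl : Set ℂ := {z | 0 < z.im ∨ z.re ≠ 0}

/-- The union of two half planes. -/
def Om (ρ : ℝ) : Set ℂ := {s : ℂ | ρ < s.im} ∪ {s : ℂ | ρ < s.re}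

theorem LU_analyticAt {z : ℂ} (hz : z ∈ Sl) : AnalyticAt ℂ LU z := by
  unfold LU
  refine AnalyticAt.add (AnalyticAt.clog (analyticAt_const.mul analyticAt_id) ?_) analyticAt_const
  rw [Complex.mem_slitPlane_iff]
  rcases hz with h | h
  · left
    simpa using h
  · right
    simpa using h

theorem LU_ofReal {x : ℝ} (hx : 0 < x) : LU (x : ℂ) = ((Real.log x : ℝ) : ℂ) := by
  unfold LU
  rw [mul_comm, Complex.log_ofReal_mul hx (by simp), Complex.log_neg_I]
  push_cast
  ring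

theorem LU_exp {w : ℂ} (h1 : -(Real.pi / 2) < w.im) (h2 : w.im < 3 * (Real.pi / 2)) :
    LU (Complex.exp w) = w := by
  unfold LU
  have h : -Complex.I * Complex.exp w = Complex.exp (w - ((Real.pi / 2 : ℝ) : ℂ) * Complex.I) := by
    rw [Complex.exp_sub]
    push_cast
    rw [Complex.exp_pi_div_two_mul_I]
    rw [eq_div_iff Complex.I_ne_zero]
    linear_combination (-(Complex.exp w)) * Complex.I_mul_I
  rw [h, Complex.log_exp]
  · ring
  · simp
    linarith
  · simp
    linarith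

theorem Om_open (ρ : ℝ) : IsOpen (Om ρ) := by
  apply IsOpen.union
  · exact isOpen_lt continuous_const Complex.continuous_im
  · exact isOpen_lt continuous_const Complex.continuous_re

theorem Om_preconnected (ρ : ℝ) : IsPreconnected (Om ρ) := by
  refine IsPreconnected.union (⟨ρ + 1, ρ + 1⟩ : ℂ) ?_ ?_ ?_ ?_
  · simp
  · simp
  · exact (convex_halfSpace_im_gt ρ).isPreconnected
  · exact (convex_halfSpace_re_gt ρ).isPreconnected

theorem Om_add {ρ : ℝ} (h0 : 0 < ρ) {s : ℂ} (hs : s ∈ Om ρ) (t : ℕ) :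
    s + (t : ℂ) ∈ Sl ∧ ρ < ‖s + (t : ℂ)‖ := by
  have ht : (0 : ℝ) ≤ t := Nat.cast_nonneg t
  rcases hs with hs | hs
  · have hs : ρ < s.im := hs
    have him : (s + (t : ℂ)).im = s.im := by simp
    constructor
    · left
      rw [him]
      linarith
    · have := (le_abs_self _).trans (Complex.abs_im_le_norm (s + (t : ℂ)))
      rw [him] at this
      linarith
  · have hs : ρ < s.re := hs
    have hre : (s + (t : ℂ)).re = s.re + t := by simp
    constructor
    · right
      rw [hre]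
      linarith
    · have := (le_abs_self _).trans (Complex.abs_re_le_norm (s + (t : ℂ)))
      rw [hre] at this
      linarith

theorem Om_sub_Sl {ρ : ℝ} (h0 : 0 < ρ) : Om ρ ⊆ Sl := by
  intro s hs
  have := (Om_add h0 hs 0).1
  simpa using this

/-- The vector `Φ(1/u) exp(-(log u) ν) e`. -/
noncomputable def FF {R : ℕ} (D : BkData R) (u : ℂ) (c : Fin R) : ℂ :=
  (D.Φ u⁻¹ * cexpM (-LU u) D.ν).mulVec D.e c

theorem inv_mem_ball {ρ : ℝ} (h0 : 0 < ρ) {u : ℂ} (hu : ρ < ‖u‖) :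
    u⁻¹ ∈ Metric.ball (0 : ℂ) (1 / ρ) := by
  rw [mem_ball_zero_iff, norm_inv, one_div]
  exact inv_strictAnti₀ h0 hu

theorem Phi_inv_analyticAt {R : ℕ} (D : BkData R) {u : ℂ} (hu : D.ρ₀ < ‖u‖) (a b : Fin R) :
    AnalyticAt ℂ (fun u => D.Φ u⁻¹ a b) u := by
  have hu0 : u ≠ 0 := by
    intro h
    rw [h, norm_zero] at hu
    have := D.h0
    linarith
  have h1 : AnalyticAt ℂ (fun u : ℂ => u⁻¹) u := analyticAt_inv hu0
  have h2 : AnalyticAt ℂ (fun x => D.Φ x a b) u⁻¹ := D.hΦ a b _ (inv_mem_ball D.h0 hu)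
  exact AnalyticAt.comp_of_eq (g := fun x => D.Φ x a b) (f := fun u : ℂ => u⁻¹) h2 h1 rfl

theorem FF_analyticAt {R : ℕ} (D : BkData R) {u : ℂ} (hu : D.ρ₀ < ‖u‖) (hs : u ∈ Sl)
    (c : Fin R) : AnalyticAt ℂ (fun u => FF D u c) u := by
  unfold FF
  simp only [Matrix.mulVec, dotProduct, Matrix.mul_apply]
  refine Finset.analyticAt_fun_sum _ fun b _ => AnalyticAt.mul ?_ analyticAt_const
  refine Finset.analyticAt_fun_sum _ fun k _ => AnalyticAt.mul ?_ ?_
  · exact Phi_inv_analyticAt D hu c k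
  · have h1 : AnalyticAt ℂ (fun u : ℂ => -LU u) u := (LU_analyticAt hs).neg
    have h2 : AnalyticAt ℂ (fun w => cexpM w D.ν k b) (-LU u) :=
      cexpM_analytic D.ν k b _ (Set.mem_univ _)
    exact AnalyticAt.comp_of_eq (g := fun w => cexpM w D.ν k b) (f := fun u : ℂ => -LU u) h2 h1 rfl

/-- The elements `u` with small norm: `u - a` and `u - a + a'` are off the cut. -/
theorem small_aux {ρ₀ : ℝ} (h0 : 0 < ρ₀) {C₄ : ℕ} (hC : 2 * ρ₀ + 4 < C₄) {x y : ℕ}
    (hxy : x + C₄ ≤ y ∨ y + C₄ ≤ x) {u : ℂ} (hu : ‖u‖ < ρ₀ + 1) :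
    (u - (x : ℂ) + (y : ℂ)) ∈ Sl ∧ ρ₀ < ‖u - (x : ℂ) + (y : ℂ)‖ := by
  have hre : (u - (x : ℂ) + (y : ℂ)).re = u.re - x + y := by simp
  have hu1 : |u.re| < ρ₀ + 1 := lt_of_le_of_lt (Complex.abs_re_le_norm u) hu
  rw [abs_lt] at hu1
  have hn := Complex.abs_re_le_norm (u - (x : ℂ) + (y : ℂ))
  rw [hre] at hn
  rcases hxy with h | h
  · have h' : (x : ℝ) + C₄ ≤ y := by exact_mod_cast h
    have h2 := le_abs_self (u.re - x + y)
    constructor
    · right
      rw [hre]
      linarith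
    · linarith
  · have h' : (y : ℝ) + C₄ ≤ x := by exact_mod_cast h
    have h2 := neg_le_abs (u.re - x + y)
    constructor
    · right
      rw [hre]
      intro h3
      linarith
    · linarith

theorem small_aux' {ρ₀ : ℝ} (h0 : 0 < ρ₀) {C₄ : ℕ} (hC : 2 * ρ₀ + 4 < C₄) {x : ℕ}
    (hx : C₄ ≤ x) {u : ℂ} (hu : ‖u‖ < ρ₀ + 1) : (u - (x : ℂ)) ∈ Sl := by
  have hre : (u - (x : ℂ)).re = u.re - x := by simp
  have hu1 : |u.re| < ρ₀ + 1 := lt_of_le_of_lt (Complex.abs_re_le_norm u) hu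
  rw [abs_lt] at hu1
  have h' : (C₄ : ℝ) ≤ x := by exact_mod_cast hx
  right
  rw [hre]
  intro h3
  linarith

theorem sum_mulVec_aux {R : ℕ} (f : Fin R → ℂ) (M : Matrix (Fin R) (Fin R) ℂ) (v : Fin R → ℂ) :
    ∑ b, (∑ c, f c * M c b) * v b = ∑ c, f c * M.mulVec v c := by
  simp only [Matrix.mulVec, dotProduct, Finset.sum_mul, Finset.mul_sum]
  rw [Finset.sum_comm]
  refine Finset.sum_congr rfl fun c _ => Finset.sum_congr rfl fun b _ => ?_
  ring

/-- One elimination step for one block. -/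
theorem elim_step {R : ℕ} (D : BkData R) (hρ : D.ρ' = D.ρ₀ + 1) (x : ℕ) (f : ℂ → Fin R → ℂ)
    (hf : ∀ c, AnalyticOnNhd ℂ (fun u => f (u - x) c) (Metric.ball 0 D.ρ'))
    (hf' : ∀ c, AnalyticOnNhd ℂ (fun s => f s c) (Om D.ρ₀))
    (h : ∀ s ∈ Om D.ρ₀, ∑ c, f s c * FF D (s + x) c = 0) :
    ∀ s ∈ Om D.ρ₀, ∀ c, f s c = 0 := by
  have h0 := D.h0
  set w₁ : ℂ := ((Real.log (D.ρ₀ + 1 / 2) : ℝ) : ℂ) + ((Real.pi / 2 : ℝ) : ℂ) * Complex.I with hw₁
  have hexp : Complex.exp w₁ = ((D.ρ₀ + 1 / 2 : ℝ) : ℂ) * Complex.I := by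
    rw [hw₁, Complex.exp_add, ← Complex.ofReal_exp, Real.exp_log (by linarith)]
    push_cast
    rw [Complex.exp_pi_div_two_mul_I]
  have hnorm : ‖Complex.exp w₁‖ = D.ρ₀ + 1 / 2 := by
    rw [hexp, norm_mul, Complex.norm_I, mul_one, Complex.norm_real, Real.norm_eq_abs,
      abs_of_pos (by linarith)]
  have him : w₁.im = Real.pi / 2 := by
    rw [hw₁]
    simp
  -- the relation in the variable `w`
  have hev : ∀ᶠ w in 𝓝 w₁, ∑ b, (∑ c, f (Complex.exp w - x) c * D.Φ (Complex.exp w)⁻¹ c b) *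
      (cexpM (-w) D.ν).mulVec D.e b = 0 := by
    have h1 : ∀ᶠ w in 𝓝 w₁, -(Real.pi / 2) < w.im ∧ w.im < 3 * (Real.pi / 2) := by
      apply Filter.Eventually.and
      · apply Complex.continuous_im.continuousAt.eventually_const_lt
        rw [him]
        linarith [Real.pi_pos]
      · apply Complex.continuous_im.continuousAt.eventually_lt_const
        rw [him]
        linarith [Real.pi_pos]
    have h2 : ∀ᶠ w in 𝓝 w₁, D.ρ₀ < (Complex.exp w).im := by
      have hc : ContinuousAt (fun w => (Complex.exp w).im) w₁ :=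
        (Complex.continuous_im.comp Complex.continuous_exp).continuousAt
      apply hc.eventually_const_lt
      show D.ρ₀ < (Complex.exp w₁).im
      rw [hexp]
      simp
    filter_upwards [h1, h2] with w hw hw2
    have h3 := h (Complex.exp w - x) (Or.inl (by simpa using hw2))
    rw [sub_add_cancel] at h3
    rw [← h3, sum_mulVec_aux (fun c => f (Complex.exp w - x) c) (D.Φ (Complex.exp w)⁻¹)]
    simp only [FF]
    rw [LU_exp hw.1 hw.2, Matrix.mulVec_mulVec]
  have hstrip := strip_indep D.hν D.h0 D.h1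
    (fun u b => ∑ c, f (u - x) c * D.Φ u⁻¹ c b) (by
      intro b u hu
      refine Finset.analyticAt_fun_sum _ fun c _ => AnalyticAt.mul ?_ ?_
      · exact hf c u (by rw [mem_ball_zero_iff]; exact hu.2)
      · exact Phi_inv_analyticAt D hu.1 c b) D.e w₁ (by rw [hnorm]; linarith)
      (by rw [hnorm, hρ]; linarith) hev
  have hKK : (fun u => f (u - x)) ∈ D.KK := by
    refine ⟨hf, fun k u hu1 hu2 => ?_⟩
    rw [← hstrip u hu1 hu2 k, sum_mulVec_aux (fun c => f (u - x) c) (D.Φ u⁻¹),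
      Matrix.mulVec_mulVec]
  have hz := birk D hKK
  intro s hs c
  set z₀ : ℂ := ((D.ρ₀ + 1 / 2 : ℝ) : ℂ) * Complex.I - x with hz₀
  have hmem : z₀ ∈ Om D.ρ₀ := by
    left
    rw [hz₀]
    simp
  have hvan : (fun s => f s c) =ᶠ[𝓝 z₀] 0 := by
    have h3 : ∀ᶠ s in 𝓝 z₀, ‖s + (x : ℂ)‖ < D.ρ' := by
      have hc : ContinuousAt (fun s : ℂ => ‖s + (x : ℂ)‖) z₀ := by fun_prop
      apply hc.eventually_lt_const
      show ‖z₀ + (x : ℂ)‖ < D.ρ'
      rw [hz₀, sub_add_cancel, ← hexp, hnorm, hρ]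
      linarith
    filter_upwards [h3] with s hs
    have := congrFun (hz (s + x) (by rw [mem_ball_zero_iff]; exact hs)) c
    simpa using this
  exact (hf' c).eqOn_zero_of_preconnected_of_eventuallyEq_zero (Om_preconnected _) hmem hvan hs

theorem elim {R : ℕ} (D : BkData R) (hρ : D.ρ' = D.ρ₀ + 1) {d : ℕ} (a : Fin d → ℕ) {C₄ : ℕ}
    (hC : 2 * D.ρ₀ + 4 < C₄) (ha : ∀ j, C₄ ≤ a j)
    (hab : ∀ i j, i ≠ j → a i + C₄ ≤ a j ∨ a j + C₄ ≤ a i)
    (Q : (Fin d → Fin R) → ℂ → ℂ) (hQ : ∀ β, AnalyticOnNhd ℂ (Q β) Sl)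
    (h : ∀ s ∈ Om D.ρ₀, ∑ β, Q β s * ∏ j, FF D (s + a j) (β j) = 0) :
    ∀ β, ∀ s ∈ Om D.ρ₀, Q β s = 0 := by
  have h0 := D.h0
  have key : ∀ S : Finset (Fin d), ∀ γ : Fin d → Fin R, ∀ s ∈ Om D.ρ₀,
      ∑ β, (if ∀ j ∈ S, β j = γ j then Q β s * ∏ j ∈ Sᶜ, FF D (s + a j) (β j) else 0) = 0 := by
    intro S
    induction S using Finset.induction_on with
    | empty =>
      intro γ s hs
      rw [← h s hs]
      simp
    | insert i S hi ih =>
      intro γ s hs
      set f : ℂ → Fin R → ℂ := fun s c => ∑ β, (if (∀ j ∈ S, β j = γ j) ∧ β i = c then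
        Q β s * ∏ j ∈ (insert i S)ᶜ, FF D (s + a j) (β j) else 0) with hfdef
      have hcompl : Sᶜ = insert i (insert i S)ᶜ := by
        ext j
        simp only [Finset.mem_compl, Finset.mem_insert]
        constructor
        · intro h1
          by_cases h2 : j = i
          · left
            exact h2
          · right
            tauto
        · rintro (h1 | h1)
          · rw [h1]
            exact hi
          · tauto
      have hni : i ∉ (insert i S)ᶜ := by simp
      have hstep := elim_step D hρ (a i) f (by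
        intro c u hu
        rw [mem_ball_zero_iff, hρ] at hu
        simp only [hfdef]
        refine Finset.analyticAt_fun_sum _ fun β _ => ?_
        split_ifs
        · refine AnalyticAt.mul ?_ (Finset.analyticAt_fun_prod _ fun j hj => ?_)
          · have h1 : AnalyticAt ℂ (Q β) (u - a i) := hQ β _ (small_aux' h0 hC (ha i) hu)
            have h2 : AnalyticAt ℂ (fun u : ℂ => u - (a i : ℂ)) u :=
              analyticAt_id.sub analyticAt_const
            exact AnalyticAt.comp_of_eq (g := Q β) (f := fun u : ℂ => u - (a i : ℂ)) h1 h2 rfl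
          · have hji : i ≠ j := by
              rintro rfl
              exact hni hj
            have h3 := small_aux h0 hC (hab i j hji) hu
            have h1 : AnalyticAt ℂ (fun u => FF D u (β j)) (u - a i + a j) :=
              FF_analyticAt D h3.2 h3.1 _
            have h2 : AnalyticAt ℂ (fun u : ℂ => u - (a i : ℂ) + (a j : ℂ)) u :=
              (analyticAt_id.sub analyticAt_const).add analyticAt_const
            exact AnalyticAt.comp_of_eq (g := fun u => FF D u (β j))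
              (f := fun u : ℂ => u - (a i : ℂ) + (a j : ℂ)) h1 h2 rfl
        · exact analyticAt_const) (by
        intro c s hs
        simp only [hfdef]
        refine Finset.analyticAt_fun_sum _ fun β _ => ?_
        split_ifs
        · refine AnalyticAt.mul ?_ (Finset.analyticAt_fun_prod _ fun j hj => ?_)
          · exact hQ β _ (Om_sub_Sl h0 hs)
          · have h3 := Om_add h0 hs (a j)
            have h1 : AnalyticAt ℂ (fun u => FF D u (β j)) (s + a j) :=
              FF_analyticAt D h3.2 h3.1 _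
            have h2 : AnalyticAt ℂ (fun s : ℂ => s + (a j : ℂ)) s :=
              analyticAt_id.add analyticAt_const
            exact AnalyticAt.comp_of_eq (g := fun u => FF D u (β j))
              (f := fun s : ℂ => s + (a j : ℂ)) h1 h2 rfl
        · exact analyticAt_const) (by
        intro s hs
        rw [← ih γ s hs]
        simp only [hfdef, Finset.sum_mul]
        rw [Finset.sum_comm]
        refine Finset.sum_congr rfl fun β _ => ?_
        rw [Finset.sum_eq_single (β i)]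
        · by_cases h1 : ∀ j ∈ S, β j = γ j
          · rw [if_pos ⟨h1, rfl⟩, if_pos h1, hcompl, Finset.prod_insert (by simp)]
            ring
          · rw [if_neg (fun h2 => h1 h2.1), if_neg h1, zero_mul]
        · intro c _ hc
          rw [if_neg (fun h2 => hc h2.2.symm), zero_mul]
        · intro h1
          exact absurd (Finset.mem_univ _) h1)
      have h4 := hstep s hs (γ i)
      refine Eq.trans ?_ h4
      simp only [hfdef]
      refine Finset.sum_congr rfl fun β _ => ?_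
      have hiff : (∀ j ∈ insert i S, β j = γ j) ↔ ((∀ j ∈ S, β j = γ j) ∧ β i = γ i) := by
        constructor
        · intro h5
          exact ⟨fun j hj => h5 j (Finset.mem_insert_of_mem hj), h5 i (Finset.mem_insert_self _ _)⟩
        · rintro ⟨h5, h6⟩ j hj
          rcases Finset.mem_insert.1 hj with h7 | h7
          · rw [h7, h6]
          · exact h5 j h7
      by_cases h5 : ∀ j ∈ insert i S, β j = γ j
      · rw [if_pos h5, if_pos (hiff.1 h5)]
      · rw [if_neg h5, if_neg (fun h6 => h5 (hiff.2 h6))]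
  intro β s hs
  have h1 := key Finset.univ β s hs
  rw [Finset.sum_eq_single β] at h1
  · simpa using h1
  · intro γ _ hγ
    rw [if_neg]
    intro h2
    exact hγ (funext fun j => h2 j (Finset.mem_univ _))
  · intro h2
    exact absurd (Finset.mem_univ _) h2

theorem cev_summable {H : ℕ} (hH : 1 ≤ H) {f : PowerSeries ℚ} (hf : GBound H f) {x : ℂ}
    (hx : ‖x‖ < 1 / (H : ℝ)) :
    Summable fun n : ℕ => ((PowerSeries.coeff n f : ℚ) : ℂ) * x ^ n := by
  have hH0 : (0 : ℝ) < H := by exact_mod_cast hH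
  have h1 : (H : ℝ) * ‖x‖ < 1 := by
    rw [lt_div_iff₀ hH0] at hx
    linarith
  have hs : Summable fun n : ℕ => (H : ℝ) * ((H : ℝ) * ‖x‖) ^ n :=
    (summable_geometric_of_lt_one (by positivity) h1).mul_left _
  refine Summable.of_norm_bounded hs fun n => ?_
  rw [norm_mul, norm_pow]
  have h2 : ‖((PowerSeries.coeff n f : ℚ) : ℂ)‖ ≤ (H : ℝ) ^ (n + 1) := by
    have h3 : ((PowerSeries.coeff n f : ℚ) : ℂ) = (((PowerSeries.coeff n f : ℚ) : ℝ) : ℂ) := by
      push_cast
      rfl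
    rw [h3, Complex.norm_real, Real.norm_eq_abs]
    have h4 := hf n
    have h5 : ((|PowerSeries.coeff n f| : ℚ) : ℝ) ≤ (((H : ℚ) ^ (n + 1) : ℚ) : ℝ) := by
      exact_mod_cast h4
    push_cast at h5
    exact h5
  calc ‖((PowerSeries.coeff n f : ℚ) : ℂ)‖ * ‖x‖ ^ n ≤ (H : ℝ) ^ (n + 1) * ‖x‖ ^ n := by
        gcongr
    _ = (H : ℝ) * ((H : ℝ) * ‖x‖) ^ n := by
        rw [mul_pow, pow_succ]
        ring

theorem cev_lin {R H : ℕ} (hH : 1 ≤ H) {f : Fin R → PowerSeries ℚ} (hf : ∀ k, GBound H (f k))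
    (r : Fin R → ℚ) {x : ℂ} (hx : ‖x‖ < 1 / (H : ℝ)) :
    cev (∑ k, f k * PowerSeries.C (r k)) x = ∑ k, cev (f k) x * (r k : ℂ) := by
  unfold cev
  simp only [← tsum_mul_right]
  rw [← Summable.tsum_finsetSum fun k _ => (cev_summable hH (hf k) hx).mul_right _]
  refine tsum_congr fun n => ?_
  rw [map_sum]
  push_cast
  rw [Finset.sum_mul]
  refine Finset.sum_congr rfl fun k _ => ?_
  rw [PowerSeries.coeff_mul_C]
  push_cast
  ring

theorem cevM_comm {R : ℕ} (b : BlockData R) {x : ℂ} (hx : ‖x‖ < 1 / (b.H : ℝ)) :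
    qC b.νr * cevM b.Φ x = cevM b.Φ x * qC b.νr := by
  have hH : 1 ≤ b.H := le_trans (by norm_num) b.hH
  ext a c
  have h1 : (cevM b.Φ x * qC b.νr) a c = cev ((b.Φ * cP b.νr) a c) x := by
    rw [Matrix.mul_apply, Matrix.mul_apply]
    simp only [cP_apply]
    rw [cev_lin hH (fun k => b.bd a k) _ hx]
    rfl
  have h2 : (qC b.νr * cevM b.Φ x) a c = cev ((cP b.νr * b.Φ) a c) x := by
    rw [Matrix.mul_apply, Matrix.mul_apply]
    simp only [cP_apply]
    have h3 : ∑ j, PowerSeries.C (b.νr a j) * b.Φ j c = ∑ j, b.Φ j c * PowerSeries.C (b.νr a j) :=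
      Finset.sum_congr rfl fun j _ => mul_comm _ _
    rw [h3, cev_lin hH (fun k => b.bd k c) _ hx]
    refine Finset.sum_congr rfl fun j _ => ?_
    rw [mul_comm]
    rfl
  rw [h1, h2, b.cΦ]

theorem entry_aux {R : ℕ} (b : BlockData R) (D : BkData R) (hH : (b.H : ℝ) ≤ D.ρ₀)
    (hν : D.ν = b.νl) (he : D.e = Pi.single b.i₀ 1) (hΦ : ∀ x, D.Φ x = cevM b.Φ x)
    (x : ℕ) {s : ℝ} (hs : D.ρ₀ < s) (c : Fin R) :
    (cevM b.Φ ((1 / (s + x) : ℝ) : ℂ) *
        cexpM (-((Real.log ((s + x) / s) : ℝ) : ℂ)) b.νl) c b.i₀ =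
      ∑ k, cexpM (LU (s : ℂ)) b.νr c k * FF D ((s : ℂ) + (x : ℂ)) k := by
  have h0 := D.h0
  have hs0 : 0 < s := by linarith
  have hx0 : (0 : ℝ) ≤ x := Nat.cast_nonneg x
  have hsx : 0 < s + x := by linarith
  have hcast : (s : ℂ) + (x : ℂ) = ((s + x : ℝ) : ℂ) := by push_cast; rfl
  have hinv : ((1 / (s + x) : ℝ) : ℂ) = ((s : ℂ) + (x : ℂ))⁻¹ := by
    rw [hcast]
    push_cast
    rw [one_div]
  have hlog : -((Real.log ((s + x) / s) : ℝ) : ℂ) = -LU ((s : ℂ) + (x : ℂ)) + LU (s : ℂ) := by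
    rw [hcast, LU_ofReal hs0, LU_ofReal hsx, Real.log_div hsx.ne' hs0.ne']
    push_cast
    ring
  set t : ℂ := (s : ℂ) + (x : ℂ) with ht
  have hFF : ∀ k, FF D t k = (cevM b.Φ t⁻¹ * cexpM (-LU t) b.νl) k b.i₀ := by
    intro k
    unfold FF
    rw [hν, he, hΦ, Matrix.mulVec_single_one]
    rfl
  have hnorm : ‖t⁻¹‖ < 1 / (b.H : ℝ) := by
    have h1 : D.ρ₀ < ‖t‖ := by
      rw [hcast, Complex.norm_real, Real.norm_eq_abs, abs_of_pos hsx]
      linarith
    have hbH : (0 : ℝ) < b.H := by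
      have := b.hH
      exact_mod_cast (by omega : 0 < b.H)
    rw [norm_inv, one_div]
    exact inv_strictAnti₀ hbH (by linarith)
  have hcomm1 : qC b.νr * cexpM (-LU t) b.νl = cexpM (-LU t) b.νl * qC b.νr := by
    symm
    apply cexpM_comm
    rw [← qC_mul, ← qC_mul, b.cν]
  have hcomm : qC b.νr * (cevM b.Φ t⁻¹ * cexpM (-LU t) b.νl) =
      (cevM b.Φ t⁻¹ * cexpM (-LU t) b.νl) * qC b.νr := by
    rw [← Matrix.mul_assoc, cevM_comm b hnorm, Matrix.mul_assoc, hcomm1, ← Matrix.mul_assoc]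
  have hcomm2 := cexpM_comm (LU (s : ℂ)) hcomm
  rw [hinv, hlog, cexpM_add, ← Matrix.mul_assoc]
  have h5 : ((cevM b.Φ t⁻¹ * cexpM (-LU t) b.νl) * cexpM (LU (s : ℂ)) b.νl) c b.i₀ =
      ((cevM b.Φ t⁻¹ * cexpM (-LU t) b.νl) * cexpM (LU (s : ℂ)) b.νr) c b.i₀ := by
    rw [Matrix.mul_apply, Matrix.mul_apply]
    refine Finset.sum_congr rfl fun k _ => ?_
    rw [cexpM_mulVec_eq _ b.cν b.e0]
  rw [h5, ← hcomm2, Matrix.mul_apply]
  refine Finset.sum_congr rfl fun k _ => ?_
  rw [hFF]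

theorem block_indep_aux {R : ℕ} (b : BlockData R) : ∃ C₄ : ℕ, ∀ (d : ℕ) (a : Fin d → ℕ),
    (∀ j, C₄ ≤ a j) → (∀ i j, i ≠ j → a i + C₄ ≤ a j ∨ a j + C₄ ≤ a i) →
    ∀ P : (Fin d → Fin R) → ℚ[X], ∑ α, emb (P α) * ps (bigE b a α) = 0 → P = 0 := by
  obtain ⟨ρ₀, hH, hD⟩ := exists_bk b
  obtain ⟨D, hν, hρ₀, hρ', he, hΦ⟩ := hD (ρ₀ + 1) (by linarith)
  obtain ⟨C₄, hC⟩ := exists_nat_gt (2 * ρ₀ + 4)
  refine ⟨C₄, fun d a ha hab P hP => ?_⟩
  obtain ⟨s₁, hs₁⟩ := rel_real b a P hP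
  subst hρ₀
  have h0 := D.h0
  set Q : (Fin d → Fin R) → ℂ → ℂ := fun β s =>
    ∑ α, aeval s (P α) * ∏ j, cexpM (LU s) b.νr (α j) (β j) with hQdef
  have hQ : ∀ β, AnalyticOnNhd ℂ (Q β) Sl := by
    intro β s hs
    simp only [hQdef]
    refine Finset.analyticAt_fun_sum _ fun α _ => AnalyticAt.mul ?_
      (Finset.analyticAt_fun_prod _ fun j _ => ?_)
    · have h1 : (fun s : ℂ => aeval s (P α)) =
          fun s => aeval s ((P α).map (algebraMap ℚ ℂ)) := by
        funext z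
        rw [aeval_map_algebraMap]
      rw [h1]
      exact AnalyticOnNhd.aeval_polynomial (A := ℂ) analyticOnNhd_id
        ((P α).map (algebraMap ℚ ℂ)) s (Set.mem_univ _)
    · have h2 : AnalyticAt ℂ (fun w => cexpM w b.νr (α j) (β j)) (LU s) :=
        cexpM_analytic b.νr _ _ _ (Set.mem_univ _)
      exact AnalyticAt.comp_of_eq (g := fun w => cexpM w b.νr (α j) (β j)) (f := LU) h2
        (LU_analyticAt hs) rfl
  -- the relation for real arguments
  have hreal : ∀ s : ℝ, s₁ < s → D.ρ₀ < s →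
      ∑ β, Q β (s : ℂ) * ∏ j, FF D ((s : ℂ) + a j) (β j) = 0 := by
    intro s h1 h2
    rw [← hs₁ s h1]
    have h3 : ∀ α : Fin d → Fin R, ∏ j, (cevM b.Φ ((1 / (s + a j) : ℝ) : ℂ) *
        cexpM (-((Real.log ((s + a j) / s) : ℝ) : ℂ)) b.νl) (α j) b.i₀ =
        ∑ β : Fin d → Fin R, ∏ j, (cexpM (LU (s : ℂ)) b.νr (α j) (β j) *
          FF D ((s : ℂ) + a j) (β j)) := by
      intro α
      rw [Finset.prod_congr rfl fun j _ => entry_aux b D hH hν he hΦ (a j) h2 (α j),
        Finset.prod_univ_sum, Fintype.piFinset_univ]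
    simp only [h3, Finset.mul_sum, hQdef, Finset.sum_mul]
    rw [Finset.sum_comm]
    refine Finset.sum_congr rfl fun α _ => Finset.sum_congr rfl fun β _ => ?_
    rw [Finset.prod_mul_distrib, mul_assoc]
  have hrel : ∀ s ∈ Om D.ρ₀, ∑ β, Q β s * ∏ j, FF D (s + a j) (β j) = 0 := by
    have hana : AnalyticOnNhd ℂ (fun s => ∑ β, Q β s * ∏ j, FF D (s + a j) (β j)) (Om D.ρ₀) := by
      intro s hs
      refine Finset.analyticAt_fun_sum _ fun β _ => AnalyticAt.mul ?_
        (Finset.analyticAt_fun_prod _ fun j _ => ?_)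
      · exact hQ β _ (Om_sub_Sl h0 hs)
      · have h3 := Om_add h0 hs (a j)
        have h1 : AnalyticAt ℂ (fun u => FF D u (β j)) (s + a j) :=
          FF_analyticAt D h3.2 h3.1 _
        have h2 : AnalyticAt ℂ (fun s : ℂ => s + (a j : ℂ)) s :=
          analyticAt_id.add analyticAt_const
        exact AnalyticAt.comp_of_eq (g := fun u => FF D u (β j))
          (f := fun s : ℂ => s + (a j : ℂ)) h1 h2 rfl
    set t₀ : ℝ := max s₁ D.ρ₀ + 1 with ht₀
    have h1 : s₁ < t₀ := by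
      have := le_max_left s₁ D.ρ₀
      linarith
    have h2 : D.ρ₀ < t₀ := by
      have := le_max_right s₁ D.ρ₀
      linarith
    have hmem : ((t₀ : ℝ) : ℂ) ∈ Om D.ρ₀ := by
      right
      simpa using h2
    have hfreq : ∃ᶠ z in 𝓝[≠] ((t₀ : ℝ) : ℂ),
        (fun s => ∑ β, Q β s * ∏ j, FF D (s + a j) (β j)) z = 0 := by
      have htend : Tendsto (fun x : ℝ => (x : ℂ)) (𝓝[≠] t₀) (𝓝[≠] ((t₀ : ℝ) : ℂ)) := by
        apply tendsto_nhdsWithin_of_tendsto_nhds_of_eventually_within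
        · exact Complex.continuous_ofReal.continuousAt.tendsto.mono_left nhdsWithin_le_nhds
        · filter_upwards [self_mem_nhdsWithin] with x hx
          intro h3
          exact hx (Complex.ofReal_injective h3)
      apply htend.frequently
      apply Filter.Eventually.frequently
      have h3 : ∀ᶠ x in 𝓝 t₀, s₁ < x ∧ D.ρ₀ < x := by
        apply Filter.Eventually.and
        · exact continuousAt_id.eventually_const_lt h1
        · exact continuousAt_id.eventually_const_lt h2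
      filter_upwards [h3.filter_mono nhdsWithin_le_nhds] with x hx
      exact hreal x hx.1 hx.2
    intro s hs
    exact hana.eqOn_zero_of_preconnected_of_frequently_eq_zero (Om_preconnected _) hmem hfreq hs
  have hfin := elim D hρ' a hC ha hab Q hQ hrel
  have hPz : ∀ γ, ∀ s ∈ Om D.ρ₀, aeval s (P γ) = 0 := by
    intro γ s hs
    have h1 : ∑ β, Q β s * ∏ j, cexpM (-LU s) b.νr (β j) (γ j) = 0 :=
      Finset.sum_eq_zero fun β _ => by rw [hfin β s hs, zero_mul]
    have h2 : ∀ α : Fin d → Fin R, ∑ β : Fin d → Fin R, ∏ j, (cexpM (LU s) b.νr (α j) (β j) *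
        cexpM (-LU s) b.νr (β j) (γ j)) = if α = γ then 1 else 0 := by
      intro α
      have h3 : ∀ j : Fin d, ∑ k, cexpM (LU s) b.νr (α j) k * cexpM (-LU s) b.νr k (γ j) =
          if α j = γ j then 1 else 0 := by
        intro j
        have h4 := cexpM_neg (-LU s) b.νr
        rw [neg_neg] at h4
        rw [← Matrix.mul_apply, h4, Matrix.one_apply]
      have h5 := Finset.prod_univ_sum (fun _ : Fin d => (Finset.univ : Finset (Fin R)))
        (fun j k => cexpM (LU s) b.νr (α j) k * cexpM (-LU s) b.νr k (γ j))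
      rw [Fintype.piFinset_univ] at h5
      rw [← h5, Finset.prod_congr rfl fun j _ => h3 j]
      by_cases h6 : α = γ
      · subst h6
        simp
      · rw [if_neg h6]
        have h7 : ∃ j, α j ≠ γ j := by
          by_contra h8
          push Not at h8
          exact h6 (funext h8)
        obtain ⟨j, hj⟩ := h7
        exact Finset.prod_eq_zero (Finset.mem_univ j) (if_neg hj)
    have h3 : ∑ β, Q β s * ∏ j, cexpM (-LU s) b.νr (β j) (γ j) = aeval s (P γ) := by
      simp only [hQdef, Finset.sum_mul]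
      rw [Finset.sum_comm]
      calc ∑ α, ∑ β : Fin d → Fin R, aeval s (P α) * (∏ j, cexpM (LU s) b.νr (α j) (β j)) *
            ∏ j, cexpM (-LU s) b.νr (β j) (γ j)
          = ∑ α, aeval s (P α) * (if α = γ then 1 else 0) := by
            refine Finset.sum_congr rfl fun α _ => ?_
            rw [← h2 α, Finset.mul_sum]
            refine Finset.sum_congr rfl fun β _ => ?_
            rw [Finset.prod_mul_distrib, mul_assoc]
        _ = aeval s (P γ) := by simp
    rw [← h3, h1]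
  funext γ
  show P γ = 0
  obtain ⟨N, hN⟩ := exists_nat_gt D.ρ₀
  have hmap : (P γ).map (algebraMap ℚ ℂ) = 0 := by
    apply Polynomial.eq_zero_of_infinite_isRoot
    apply Set.infinite_of_injective_forall_mem (f := fun n : ℕ => ((n + N : ℕ) : ℂ))
    · intro m n hmn
      have : m + N = n + N := Nat.cast_injective (R := ℂ) hmn
      omega
    · intro n
      show IsRoot _ _
      rw [IsRoot.def, eval_map_algebraMap]
      apply hPz
      right
      show D.ρ₀ < (((n + N : ℕ) : ℂ)).re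
      rw [Complex.natCast_re]
      push_cast
      have : (0 : ℝ) ≤ n := Nat.cast_nonneg n
      linarith
  rwa [Polynomial.map_eq_zero] at hmap

end FIm

theorem block_indep {R : ℕ} (b : BlockData R) : ∃ C₄ : ℕ, ∀ (d : ℕ) (a : Fin d → ℕ),
    (∀ j, C₄ ≤ a j) → (∀ i j, i ≠ j → a i + C₄ ≤ a j ∨ a j + C₄ ≤ a i) →
    ∀ P : (Fin d → Fin R) → ℚ[X], ∑ α, emb (P α) * ps (bigE b a α) = 0 → P = 0 :=
  FIm.block_indep_aux b

end Pool.Agent.Helper79.GX
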