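import Pool.Agent.Helper79.GX.SpecSplit
import Pool.Agent.Helper79.GC.ExistsFund

/-!
# GX-07: existence, growth and uniqueness of the fundamental matrix, tame exponents

As in `Pool.Agent.Helper79.GC.ExistsFund` (lemmas may be imported) with `N` tame instead of nilpotent. The recursion is `(k - ad N) Y_k = - ∑_{i=1}^k a_i Y_{k-i}`,
`ad N (Y) = N Y - Y N`. With `N = ∑_c c π_c + N₀` (`spec_split`) the space of matrices is the direct sum of the `π_c Y π_{c'}`, on which `ad N` is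
`(c - c') + (nilpotent)`, `|c - c'| < 1`; so for `k ≥ 1` the operator `k - ad N` is invertible, and the inverse on this summand is
`∑_{l<2r} (ad N₀)^l / (k - c + c')^(l+1)`, `k - c + c' ≥ 1 - |c - c'| ≥ ε > 0` for `k ≥ 1`: bounded by a constant independent of `k`.
-/

open Polynomial

namespace Pool.Agent.Helper79.GX

open Pool.Agent.Helper37.GP Pool.Agent.Helper79.GC

variable {ι : Type} [Fintype ι] [DecidableEq ι]

open Pool.Agent.Helper79.GC.EF31

private noncomputable def fx_pl (l : List ℚ) : ℚ[X] := (l.map fun c => (X : ℚ[X]) - C c).prod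

private theorem fx_step (N : Matrix ι ι ℚ) (s : Finset ℚ) {ε ν : ℚ} (hε : 0 < ε) (hν0 : 0 ≤ ν)
    (hν : ∀ c ∈ s, SB ν (aeval N ((X : ℚ[X]) - C c))) : ∀ n : ℕ, ∃ K : ℚ, 0 ≤ K ∧
      ∀ l r : List ℚ, (∀ c ∈ l, c ∈ s) → (∀ c ∈ r, c ∈ s) → l.length + r.length ≤ n →
      ∀ k : ℚ, (∀ c ∈ s, ∀ c' ∈ s, ε ≤ k - c + c') → ∀ Z : Matrix ι ι ℚ,
      aeval N (fx_pl l) * Z = 0 → Z * aeval N (fx_pl r) = 0 →
      ∃ Y : Matrix ι ι ℚ, k • Y - N * Y + Y * N = Z ∧ ∀ z, SB z Z → SB (K * z) Y := by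
  have base : ∀ (K k : ℚ) (Z : Matrix ι ι ℚ), 0 ≤ K → Z = 0 →
      ∃ Y : Matrix ι ι ℚ, k • Y - N * Y + Y * N = Z ∧ ∀ z, SB z Z → SB (K * z) Y := by
    intro K k Z hK hZ
    refine ⟨0, ?_, fun z hz a b => ?_⟩
    · rw [hZ, smul_zero, Matrix.mul_zero, Matrix.zero_mul, sub_zero, add_zero]
    · rw [Matrix.zero_apply, abs_zero]
      exact mul_nonneg hK ((abs_nonneg _).trans (hz a b))
  intro n
  induction n with
  | zero =>
    refine ⟨0, le_rfl, fun l r _ _ hn k _ Z hl _ => ?_⟩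
    have hl0 : l = [] := List.length_eq_zero_iff.mp (by omega)
    refine base 0 k Z le_rfl ?_
    rw [hl0, fx_pl, List.map_nil, List.prod_nil, map_one, Matrix.one_mul] at hl
    exact hl
  | succ n ih =>
    obtain ⟨K, hK0, hK⟩ := ih
    set D : ℚ := Fintype.card ι * ν * ε⁻¹ with hD
    have hD0 : 0 ≤ D := by positivity
    have hK1 : 0 ≤ ε⁻¹ + 2 * D * K := by positivity
    refine ⟨ε⁻¹ + 2 * D * K, hK1, fun l r hls hrs hn k hk Z hl hr => ?_⟩
    rcases l with _ | ⟨a, l⟩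
    · refine base _ k Z hK1 ?_
      rw [fx_pl, List.map_nil, List.prod_nil, map_one, Matrix.one_mul] at hl
      exact hl
    rcases r with _ | ⟨b, r⟩
    · refine base _ k Z hK1 ?_
      rw [fx_pl, List.map_nil, List.prod_nil, map_one, Matrix.mul_one] at hr
      exact hr
    have has : a ∈ s := hls a (List.mem_cons_self)
    have hbs : b ∈ s := hrs b (List.mem_cons_self)
    have hδ := hk a has b hbs
    set δ : ℚ := k - a + b with hδd
    have hδ0 : 0 < δ := lt_of_lt_of_le hε hδ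
    have hδi : δ⁻¹ ≤ ε⁻¹ := inv_anti₀ hε hδ
    have hδi0 : 0 ≤ δ⁻¹ := by positivity
    have hεi0 : 0 ≤ ε⁻¹ := by positivity
    have hpa : fx_pl (a :: l) = fx_pl l * (X - C a) := by
      rw [fx_pl, List.map_cons, List.prod_cons, mul_comm]
      rfl
    have hpb : fx_pl (b :: r) = (X - C b) * fx_pl r := by
      rw [fx_pl, List.map_cons, List.prod_cons]
      rfl
    set A : Matrix ι ι ℚ := aeval N ((X : ℚ[X]) - C a) with hA
    set B : Matrix ι ι ℚ := aeval N ((X : ℚ[X]) - C b) with hB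
    have hA' : A = N - a • (1 : Matrix ι ι ℚ) := by
      rw [hA, map_sub, aeval_X, aeval_C, Algebra.algebraMap_eq_smul_one]
    have hB' : B = N - b • (1 : Matrix ι ι ℚ) := by
      rw [hB, map_sub, aeval_X, aeval_C, Algebra.algebraMap_eq_smul_one]
    have hcomm : ∀ p : ℚ[X], aeval N p * A = A * aeval N p := by
      intro p
      rw [hA, ← map_mul, ← map_mul, mul_comm]
    obtain ⟨Y₁, hY₁, hb₁⟩ := hK l (b :: r) (fun c hc => hls c (List.mem_cons_of_mem _ hc)) hrs
      (by simp only [List.length_cons] at hn ⊢; omega) k hk (δ⁻¹ • (A * Z))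
      (by rw [Matrix.mul_smul, ← Matrix.mul_assoc, hA, ← map_mul, ← hpa, hl, smul_zero])
      (by rw [Matrix.smul_mul, Matrix.mul_assoc, hr, Matrix.mul_zero, smul_zero])
    obtain ⟨Y₂, hY₂, hb₂⟩ := hK (a :: l) r hls (fun c hc => hrs c (List.mem_cons_of_mem _ hc))
      (by simp only [List.length_cons] at hn ⊢; omega) k hk (δ⁻¹ • (Z * B))
      (by rw [Matrix.mul_smul, ← Matrix.mul_assoc, hl, Matrix.zero_mul, smul_zero])
      (by rw [Matrix.smul_mul, Matrix.mul_assoc, hB, ← map_mul, ← hpb, hr, smul_zero])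
    refine ⟨δ⁻¹ • Z + Y₁ - Y₂, ?_, fun z hz => ?_⟩
    · have e1 : k • (δ⁻¹ • Z + Y₁ - Y₂) - N * (δ⁻¹ • Z + Y₁ - Y₂) + (δ⁻¹ • Z + Y₁ - Y₂) * N =
          δ⁻¹ • (k • Z - N * Z + Z * N) + (k • Y₁ - N * Y₁ + Y₁ * N) -
            (k • Y₂ - N * Y₂ + Y₂ * N) := by
        simp only [Matrix.mul_add, Matrix.mul_sub, Matrix.add_mul, Matrix.sub_mul, smul_add,
          smul_sub, Matrix.mul_smul, Matrix.smul_mul]
        rw [smul_comm k δ⁻¹ Z]
        abel
      rw [e1, hY₁, hY₂]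
      have e2 : k • Z - N * Z + Z * N = δ • Z - A * Z + Z * B := by
        rw [hA', hB', Matrix.sub_mul, Matrix.mul_sub, Matrix.smul_mul, Matrix.mul_smul,
          Matrix.one_mul, Matrix.mul_one, hδd, add_smul, sub_smul]
        abel
      rw [e2, smul_add, smul_sub, smul_smul, inv_mul_cancel₀ hδ0.ne', one_smul]
      abel
    · intro i j
      have hz0 : 0 ≤ z := (abs_nonneg _).trans (hz i j)
      have g1 : SB (D * z) (δ⁻¹ • (A * Z)) := by
        intro i j
        rw [Matrix.smul_apply, smul_eq_mul, abs_mul, abs_of_nonneg hδi0]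
        have h := SB_mul hν0 (hν a has) hz i j
        have h' : δ⁻¹ * |(A * Z) i j| ≤ ε⁻¹ * (Fintype.card ι * (ν * z)) :=
          mul_le_mul hδi h (abs_nonneg _) hεi0
        refine h'.trans (le_of_eq ?_)
        rw [hD]
        ring
      have g2 : SB (D * z) (δ⁻¹ • (Z * B)) := by
        intro i j
        rw [Matrix.smul_apply, smul_eq_mul, abs_mul, abs_of_nonneg hδi0]
        have h := SB_mul hz0 hz (hν b hbs) i j
        have h' : δ⁻¹ * |(Z * B) i j| ≤ ε⁻¹ * (Fintype.card ι * (z * ν)) :=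
          mul_le_mul hδi h (abs_nonneg _) hεi0
        refine h'.trans (le_of_eq ?_)
        rw [hD]
        ring
      have h1 := hb₁ _ g1 i j
      have h2 := hb₂ _ g2 i j
      have h3 : |δ⁻¹ * Z i j| ≤ ε⁻¹ * z := by
        rw [abs_mul, abs_of_nonneg hδi0]
        exact mul_le_mul hδi (hz i j) (abs_nonneg _) hεi0
      rw [Matrix.sub_apply, Matrix.add_apply, Matrix.smul_apply, smul_eq_mul]
      have h4 := abs_sub (δ⁻¹ * Z i j + Y₁ i j) (Y₂ i j)
      have h5 := abs_add_le (δ⁻¹ * Z i j) (Y₁ i j)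
      have h6 : (ε⁻¹ + 2 * D * K) * z = ε⁻¹ * z + K * (D * z) + K * (D * z) := by ring
      rw [h6]
      linarith

private theorem fx_inv {N : Matrix ι ι ℚ} (hN : Tame N) :
    ∃ (R : ℕ → Matrix ι ι ℚ → Matrix ι ι ℚ) (c' : ℚ), 0 ≤ c' ∧ ∀ k : ℕ, 1 ≤ k →
      (∀ Z, (k : ℚ) • R k Z - N * R k Z + R k Z * N = Z) ∧
      ∀ Z z, SB z Z → SB (c' * z) (R k Z) := by
  obtain ⟨s, hs, m, hm⟩ := hN
  obtain ⟨ε, hε, hεs⟩ : ∃ ε : ℚ, 0 < ε ∧ ∀ c ∈ s, ∀ c' ∈ s, ε ≤ 1 - |c - c'| := by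
    rcases s.eq_empty_or_nonempty with h | h
    · refine ⟨1, one_pos, fun c hc => ?_⟩
      rw [h] at hc
      exact absurd hc (Finset.notMem_empty c)
    · obtain ⟨p, hp, hmin⟩ := (s ×ˢ s).exists_min_image (fun p => 1 - |p.1 - p.2|)
        (h.product h)
      rw [Finset.mem_product] at hp
      refine ⟨1 - |p.1 - p.2|, sub_pos.mpr (hs _ hp.1 _ hp.2), fun c hc c' hc' => ?_⟩
      exact hmin (c, c') (Finset.mem_product.mpr ⟨hc, hc'⟩)
  obtain ⟨ν, hν0, hν⟩ : ∃ ν : ℚ, 0 ≤ ν ∧ ∀ c ∈ s, SB ν (aeval N ((X : ℚ[X]) - C c)) := by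
    choose f hf0 hf using fun c : ℚ => SB_exists (aeval N ((X : ℚ[X]) - C c))
    refine ⟨∑ c ∈ s, f c, Finset.sum_nonneg fun c _ => hf0 c, fun c hc a b => ?_⟩
    exact (hf c a b).trans (Finset.single_le_sum (f := f) (fun c _ => hf0 c) hc)
  set l : List ℚ := (m • s.val).toList with hl
  have hls : ∀ c ∈ l, c ∈ s := by
    intro c hc
    rw [hl, Multiset.mem_toList] at hc
    exact Multiset.mem_of_mem_nsmul hc
  have hpl : aeval N (fx_pl l) = 0 := by
    have e : fx_pl l = (∏ c ∈ s, ((X : ℚ[X]) - C c)) ^ m := by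
      have e1 : fx_pl l = ((l : Multiset ℚ).map fun c => (X : ℚ[X]) - C c).prod := by
        rw [Multiset.map_coe, Multiset.prod_coe]
        rfl
      rw [e1, hl, Multiset.coe_toList, Multiset.map_nsmul, Multiset.prod_nsmul]
      rfl
    rw [e, hm]
  obtain ⟨K, hK0, hK⟩ := fx_step N s hε hν0 hν (l.length + l.length)
  have hex : ∀ (k : ℕ) (Z : Matrix ι ι ℚ), ∃ Y : Matrix ι ι ℚ, 1 ≤ k →
      (k : ℚ) • Y - N * Y + Y * N = Z ∧ ∀ z, SB z Z → SB (K * z) Y := by
    intro k Z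
    by_cases hk : 1 ≤ k
    · have hk1 : (1 : ℚ) ≤ k := by exact_mod_cast hk
      obtain ⟨Y, hY⟩ := hK l l hls hls le_rfl k (fun c hc c' hc' => by
        have h1 := hεs c hc c' hc'
        have h2 := le_abs_self (c - c')
        linarith) Z (by rw [hpl, Matrix.zero_mul]) (by rw [hpl, Matrix.mul_zero])
      exact ⟨Y, fun _ => hY⟩
    · exact ⟨0, fun h => absurd h hk⟩
  choose R hR using hex
  exact ⟨R, K, hK0, fun k hk => ⟨fun Z => (hR k Z hk).1, fun Z => (hR k Z hk).2⟩⟩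

theorem exists_fund_x {T : ℚ[X]} {A : Matrix ι ι ℚ[X]} {N : Matrix ι ι ℚ} (h : IsRes T A N)
    (hN : Tame N) : ∃ Y : Matrix ι ι (PowerSeries ℚ), coP 0 Y = 1 ∧ IsFund T A Y N ∧
      ∃ H : ℕ, 2 ≤ H ∧ ∀ a b, GBound H (Y a b) := by
  rcases isEmpty_or_nonempty ι with hι | hι
  · exact ⟨0, Subsingleton.elim _ _, Subsingleton.elim _ _, 2, le_rfl, fun a => (hι.false a).elim⟩
  obtain ⟨W, ⟨c, hc⟩, hW⟩ := fund_iff h
  obtain ⟨R, c', hc', hR⟩ := fx_inv hN
  set w : ℕ → Matrix ι ι ℚ := fun k => coP k W with hw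
  set y : ℕ → Matrix ι ι ℚ := Yr R w with hy
  have hy0 : y 0 = 1 := Yr_zero R w
  have hyk : ∀ k, 1 ≤ k → y k = R k (-∑ j ∈ Finset.range k, w (k - j) * y j) :=
    fun k hk => Yr_pos R w hk
  let Y : Matrix ι ι (PowerSeries ℚ) := Matrix.of fun a b => PowerSeries.mk fun k => y k a b
  have hY : ∀ k, coP k Y = y k := by
    intro k
    ext1 a b
    rw [coP_apply]
    exact PowerSeries.coeff_mk k fun k => y k a b
  have hc0 : (0 : ℚ) ≤ c := Nat.cast_nonneg c
  set K : ℚ := c' * Fintype.card ι with hK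
  have hK0 : 0 ≤ K := by positivity
  have hwb : ∀ i, SB ((c : ℚ) ^ (i + 1)) (w i) := fun i a b => hc a b i
  have hyb : ∀ n, SB (1 * (c * (1 + K * c)) ^ n) (y n) := by
    intro n
    induction n using Nat.strong_induction_on with
    | _ n ih =>
    rcases Nat.eq_zero_or_pos n with hn | hn
    · subst hn
      intro a b
      rw [hy0, pow_zero, mul_one, Matrix.one_apply]
      split_ifs <;> simp
    · have h1 : SB (Fintype.card ι * ∑ j ∈ Finset.range n, (c : ℚ) ^ (n - j + 1) *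
          (1 * (c * (1 + K * c)) ^ j)) (-∑ j ∈ Finset.range n, w (n - j) * y j) := by
        apply SB_neg
        intro a b
        rw [Matrix.sum_apply]
        refine (Finset.abs_sum_le_sum_abs _ _).trans ?_
        rw [Finset.mul_sum]
        exact Finset.sum_le_sum fun j hj => SB_mul (pow_nonneg hc0 _) (hwb (n - j))
          (ih j (Finset.mem_range.mp hj)) a b
      intro a b
      rw [hyk n hn]
      refine ((hR n hn).2 _ _ h1 a b).trans ?_
      have h2 := geo (K := K) (c := c) (B := 1) hc0 zero_le_one n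
      rw [hK] at h2 ⊢
      rw [← mul_assoc]
      exact h2
  refine ⟨Y, ?_, ?_, ?_⟩
  · rw [hY, hy0]
  · rw [hW]
    intro k
    simp only [hY]
    rcases Nat.eq_zero_or_pos k with hk | hk
    · subst hk
      rw [hy0, Nat.cast_zero, zero_smul, Matrix.mul_one, Matrix.one_mul, Finset.range_zero,
        Finset.sum_empty, neg_zero, zero_sub, neg_add_cancel]
    · rw [hyk k hk]
      exact (hR k hk).1 _
  · obtain ⟨H, hH⟩ := exists_nat_ge (2 + c * (1 + K * c) : ℚ)
    have h3 : 0 ≤ c * (1 + K * c) := by positivity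
    have hH2 : 2 ≤ H := by
      have : (2 : ℚ) ≤ H := by linarith
      exact_mod_cast this
    refine ⟨H, hH2, fun a b => gbound_of_geo (B := 1) h3 (fun n => ?_) (by linarith) (by linarith)⟩
    have h4 := hyb n a b
    rwa [← hY n, coP_apply] at h4

end Pool.Agent.Helper79.GX
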