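import Pool.Agent.Helper79.GX.Defs
import Pool.Agent.Helper79.GX.SpecSplit
import Pool.Agent.Helper79.GC.FundShift
import Pool.Agent.Helper79.GC.Slot

/-!
# GC-09: the fundamental matrix of the tensor system

`bigΨ b a = kron fun j => b.Ψ (a j)`. With `g_j = (L/T)(s + a_j)`: `dM (pM (Ψ_j)) = g_j Ψ_j + x Ψ_j νl`
(`fund_shift`, `isFund_iff`), so by `dM_kron`, `slot_mul_kron`, `kron_mul_slot`:
`dM (pM bigΨ) = (∑_j slot j g_j) bigΨ + x bigΨ (∑_j slot j νl)`. On the other hand
`(emb bigT)⁻¹ • eM bigB = ∑_j slot j g_j + x ∑_j slot j νr` and `slot j νr` commutes with `bigΨ`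
(`Ψ_a * cP νr = cP νr * Ψ_a` by `subst_comm`, `pw_comm`, `cΦ`, `cν`), so
`dM (pM bigΨ) = (B/T) bigΨ + x bigΨ ∑_j slot j (νl - νr)`.
Degrees: `deg bigT = 1 + d deg T`; `deg (slot j L) ≤ deg T - 1`.
-/

open Polynomial

namespace Pool.Agent.Helper79.GX

open Pool.Agent.Helper37.GP Pool.Agent.Helper79.GC

variable {R d : ℕ} (b : BlockData R) (a : Fin d → ℕ)

theorem bigΨ_eq : bigΨ b a = kron fun j => b.Ψ (a j) := rfl

private theorem fb_T_ne (b : BlockData R) : b.T ≠ 0 := by
  intro h
  have h1 := b.hdeg b.i₀ b.i₀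
  rw [h, natDegree_zero] at h1
  omega

private theorem fb_Tn_ne (b : BlockData R) (n : ℕ) : b.T.comp (X + C (n : ℤ)) ≠ 0 := by
  intro h
  rw [comp_eq_zero_iff] at h
  rcases h with h | ⟨_, h⟩
  · exact fb_T_ne b h
  · have h2 := congrArg natDegree h
    rw [natDegree_X_add_C, natDegree_C] at h2
    exact one_ne_zero h2

private theorem fb_map_ne {p : ℤ[X]} (h : p ≠ 0) : p.map (Int.castRingHom ℚ) ≠ 0 := by
  intro h0
  exact h ((Polynomial.map_injective _ (RingHom.injective_int (Int.castRingHom ℚ)))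
    (by rw [h0, Polynomial.map_zero]))

private theorem fb_emb_ne {p : ℚ[X]} (h : p ≠ 0) : emb p ≠ 0 := by
  intro h0
  exact h (emb_injective (by rw [h0, map_zero]))

theorem fund_Ψ (n : ℕ) : IsFund ((b.T.comp (X + C (n : ℤ))).map (Int.castRingHom ℚ)) (shM n b.L)
    (b.Ψ n) b.νl := by
  have h := fund_shift (fb_map_ne (fb_T_ne b)) b.fund n
  have e : (b.T.comp (X + C (n : ℤ))).map (Int.castRingHom ℚ) =
      (b.T.map (Int.castRingHom ℚ)).comp (X + C (n : ℚ)) := by
    rw [Polynomial.map_comp]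
    simp
  rw [e]
  exact h

theorem Ψ_comm (n : ℕ) : b.Ψ n * cP b.νr = cP b.νr * b.Ψ n := by
  unfold BlockData.Ψ
  rw [Matrix.mul_assoc, pw_comm n b.cν, ← Matrix.mul_assoc, subst_comm b.cΦ n, Matrix.mul_assoc]

private theorem fb_kron_update_add {S : Type} [CommRing S] {κ : Type} [DecidableEq κ]
    (F : Fin d → Matrix κ κ S) (j : Fin d) (A B : Matrix κ κ S) :
    kron (Function.update F j (A + B)) =
      kron (Function.update F j A) + kron (Function.update F j B) := by
  have key : ∀ (M : Matrix κ κ S) (α β : Fin d → κ), kron (Function.update F j M) α β =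
      M (α j) (β j) * ∏ i ∈ Finset.univ.erase j, F i (α i) (β i) := by
    intro M α β
    unfold kron
    rw [Matrix.of_apply, ← Finset.mul_prod_erase Finset.univ _ (Finset.mem_univ j)]
    congr 1
    · simp
    · refine Finset.prod_congr rfl fun i hi => ?_
      rw [Function.update_of_ne (Finset.ne_of_mem_erase hi)]
  ext1 α β
  rw [Matrix.add_apply, key, key, key, Matrix.add_apply, add_mul]

private theorem fb_kron_update_smul {S : Type} [CommRing S] {κ : Type} [DecidableEq κ]
    (F : Fin d → Matrix κ κ S) (j : Fin d) (c : S) (A : Matrix κ κ S) :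
    kron (Function.update F j (c • A)) = c • kron (Function.update F j A) := by
  have key : ∀ (M : Matrix κ κ S) (α β : Fin d → κ), kron (Function.update F j M) α β =
      M (α j) (β j) * ∏ i ∈ Finset.univ.erase j, F i (α i) (β i) := by
    intro M α β
    unfold kron
    rw [Matrix.of_apply, ← Finset.mul_prod_erase Finset.univ _ (Finset.mem_univ j)]
    congr 1
    · simp
    · refine Finset.prod_congr rfl fun i hi => ?_
      rw [Function.update_of_ne (Finset.ne_of_mem_erase hi)]
  ext1 α β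
  rw [Matrix.smul_apply, key, key, Matrix.smul_apply, smul_eq_mul, smul_eq_mul, mul_assoc]

theorem bigT_ne : bigT b a ≠ 0 := by
  unfold bigT
  refine mul_ne_zero X_ne_zero ?_
  exact Finset.prod_ne_zero_iff.2 fun j _ => fb_Tn_ne b (a j)

private theorem fb_eM_sum {ι κ α : Type} (s : Finset α) (F : α → Matrix ι κ ℚ[X]) :
    eM (∑ i ∈ s, F i) = ∑ i ∈ s, eM (F i) := by
  classical
  induction s using Finset.induction_on with
  | empty =>
    ext1 i j
    simp [eM_apply]
  | insert a s ha ih => rw [Finset.sum_insert ha, Finset.sum_insert ha, eM_add, ih]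

private theorem fb_cM_sum {ι κ α : Type} (s : Finset α) (F : α → Matrix ι κ ℚ) :
    cM (∑ i ∈ s, F i) = ∑ i ∈ s, cM (F i) := by
  classical
  induction s using Finset.induction_on with
  | empty => simp [cM_zero]
  | insert a s ha ih => rw [Finset.sum_insert ha, Finset.sum_insert ha, cM_add, ih]

private theorem fb_eM_slot (j : Fin d) (M : Matrix (Fin R) (Fin R) ℚ[X]) :
    eM (slot j M) = slot j (eM M) := slot_map (fun p => emb p) (map_zero emb) j M

private theorem fb_cM_slot (j : Fin d) (M : Matrix (Fin R) (Fin R) ℚ) :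
    cM (slot j M) = slot j (cM M) :=
  slot_map (fun p => algebraMap ℚ (LaurentSeries ℚ) p) (map_zero _) j M

theorem fund_big : IsFund ((bigT b a).map (Int.castRingHom ℚ)) (bigB b a) (bigΨ b a)
    (bigN b d) := by
  rw [isFund_iff (fb_map_ne (bigT_ne b a))]
  set t : Fin d → ℚ[X] := fun j => (b.T.comp (X + C (a j : ℤ))).map (Int.castRingHom ℚ) with ht
  set F : Fin d → Matrix (Fin R) (Fin R) (LaurentSeries ℚ) := fun j => pM (b.Ψ (a j)) with hF
  have htne : ∀ j, emb (t j) ≠ 0 := fun j => fb_emb_ne (fb_map_ne (fb_Tn_ne b (a j)))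
  have hK : pM (bigΨ b a) = kron F := by rw [bigΨ_eq, pM_kron]
  have hΨ : ∀ j, dM (F j) = ((emb (t j))⁻¹ • eM (shM (a j) b.L)) * F j + xx • (F j * cM b.νl) :=
    fun j => (isFund_iff (fb_map_ne (fb_Tn_ne b (a j)))).1 (fund_Ψ b (a j))
  have hcomm : ∀ j, F j * cM b.νr = cM b.νr * F j := by
    intro j
    have h := congrArg pM (Ψ_comm b (a j))
    rw [pM_mul, pM_mul, pM_cP] at h
    exact h
  have hTb : emb ((bigT b a).map (Int.castRingHom ℚ)) = emb X * ∏ j, emb (t j) := by
    unfold bigT
    rw [Polynomial.map_mul, Polynomial.map_X, Polynomial.map_prod, map_mul, map_prod]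
  have hXne : emb (X : ℚ[X]) ≠ 0 := fb_emb_ne X_ne_zero
  have hPne : (∏ j, emb (t j)) ≠ 0 := Finset.prod_ne_zero_iff.2 fun j _ => htne j
  have hB : (emb ((bigT b a).map (Int.castRingHom ℚ)))⁻¹ • eM (bigB b a) =
      (∑ j, slot j ((emb (t j))⁻¹ • eM (shM (a j) b.L))) + xx • ∑ j, slot j (cM b.νr) := by
    rw [hTb]
    unfold bigB
    rw [eM_add, fb_eM_sum, eM_smul, fb_eM_sum, smul_add, Finset.smul_sum]
    congr 1
    · refine Finset.sum_congr rfl fun j _ => ?_
      rw [eM_smul, fb_eM_slot, slot_smul, smul_smul]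
      congr 1
      rw [map_mul, map_prod, ← Finset.mul_prod_erase Finset.univ _ (Finset.mem_univ j)]
      have h1 : (∏ i ∈ Finset.univ.erase j, emb (t i)) ≠ 0 :=
        Finset.prod_ne_zero_iff.2 fun j _ => htne j
      have h2 := htne j
      change (emb X * (emb (t j) * ∏ i ∈ Finset.univ.erase j, emb (t i)))⁻¹ *
        (emb X * ∏ i ∈ Finset.univ.erase j, emb (t i)) = (emb (t j))⁻¹
      rw [mul_inv, mul_inv]
      calc (emb X)⁻¹ * ((emb (t j))⁻¹ * (∏ i ∈ Finset.univ.erase j, emb (t i))⁻¹) *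
            (emb X * ∏ i ∈ Finset.univ.erase j, emb (t i)) = (emb (t j))⁻¹ *
            ((emb X)⁻¹ * emb X) * ((∏ i ∈ Finset.univ.erase j, emb (t i))⁻¹ *
              ∏ i ∈ Finset.univ.erase j, emb (t i)) := by ring
        _ = (emb (t j))⁻¹ := by
          rw [inv_mul_cancel₀ hXne, inv_mul_cancel₀ h1, mul_one, mul_one]
    · rw [smul_smul, map_prod]
      congr 1
      · have h1 : xx = (emb X)⁻¹ := by
          exact eq_inv_of_mul_eq_one_left xx_mul_emb_X
        rw [h1, mul_inv, mul_assoc, inv_mul_cancel₀ hPne, mul_one]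
      · refine Finset.sum_congr rfl fun j _ => ?_
        rw [fb_eM_slot, eM_cX]
  rw [hB, hK, dM_kron]
  have hstep : ∀ j, kron (Function.update F j (dM (F j))) =
      slot j ((emb (t j))⁻¹ • eM (shM (a j) b.L)) * kron F + xx • (kron F * slot j (cM b.νl)) := by
    intro j
    rw [hΨ j, fb_kron_update_add, fb_kron_update_smul, slot_mul_kron, kron_mul_slot]
  have hcm : ∀ j, kron F * slot j (cM b.νr) = slot j (cM b.νr) * kron F := by
    intro j
    rw [slot_mul_kron, kron_mul_slot, hcomm j]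
  have hN : kron F * cM (bigN b d) = ∑ j, (kron F * slot j (cM b.νl) - slot j (cM b.νr) * kron F) := by
    unfold bigN
    rw [fb_cM_sum, Finset.mul_sum]
    refine Finset.sum_congr rfl fun j _ => ?_
    rw [fb_cM_slot, cM_sub, slot_sub, Matrix.mul_sub, hcm j]
  rw [hN, Finset.sum_congr rfl fun j _ => hstep j, Finset.sum_add_distrib, Finset.sum_sub_distrib,
    Matrix.add_mul, Finset.sum_mul, Matrix.smul_mul, Finset.sum_mul, smul_sub, ← Finset.smul_sum]
  abel

theorem coP_big : coP 0 (bigΨ b a) = 1 := by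
  have h : ∀ j, coP 0 (b.Ψ (a j)) = 1 := fun j => coP_zero_shift b.Φ0 (a j)
  have h1 : (kron fun _ : Fin d => (1 : Matrix (Fin R) (Fin R) ℚ)) = 1 := kron_one
  rw [← h1]
  ext1 α β
  rw [coP_apply, bigΨ_eq]
  unfold kron
  rw [Matrix.of_apply, Matrix.of_apply, PowerSeries.coeff_zero_eq_constantCoeff_apply, map_prod]
  refine Finset.prod_congr rfl fun j _ => ?_
  have h2 := congrFun (congrFun (h j) (α j)) (β j)
  rw [coP_apply, PowerSeries.coeff_zero_eq_constantCoeff_apply] at h2
  exact h2

theorem bigN_spec (b : BlockData R) (d : ℕ) : ∃ E : ℕ, SpecBd E (bigN b d) := by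
  obtain ⟨s, _, hs⟩ := b.tl
  obtain ⟨s', _, hs'⟩ := b.tr
  have h1 : Spec ((s ×ˢ s'.image fun c => -c).image fun p => p.1 + p.2) (b.νl - b.νr) := by
    rw [sub_eq_add_neg]
    refine spec_add hs (spec_neg hs') ?_
    rw [Matrix.mul_neg, Matrix.neg_mul, b.cν]
  obtain ⟨s'', h2⟩ := spec_sum_slot (δ := Fin d) h1
  obtain ⟨E, hE⟩ := exists_nat_ge (∑ c ∈ s'', |c|)
  refine ⟨E, s'', fun c hc => ?_, h2⟩
  exact (Finset.single_le_sum (f := fun c : ℚ => |c|) (fun i _ => abs_nonneg i) hc).trans hE

theorem bigN_col (α : Fin d → Fin R) : bigN b d α (fun _ => b.i₀) = 0 := by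
  unfold bigN
  rw [Matrix.sum_apply]
  refine Finset.sum_eq_zero fun j _ => ?_
  exact slot_col (fun c => by rw [Matrix.sub_apply, b.e0 c, sub_self]) j α

theorem bigΨ_col (α : Fin d → Fin R) : bigΨ b a α (fun _ => b.i₀) = bigE b a α := rfl

private theorem fb_deg_Tn (b : BlockData R) (n : ℕ) :
    (b.T.comp (X + C (n : ℤ))).natDegree = b.T.natDegree := by
  rw [natDegree_comp, natDegree_X_add_C, mul_one]

private theorem fb_deg_tn (b : BlockData R) (n : ℕ) :
    ((b.T.comp (X + C (n : ℤ))).map (Int.castRingHom ℚ)).natDegree = b.T.natDegree := by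
  rw [natDegree_map_eq_of_injective (RingHom.injective_int (Int.castRingHom ℚ)), fb_deg_Tn]

theorem bigT_deg : (bigT b a).natDegree = d * b.T.natDegree + 1 := by
  unfold bigT
  have h1 : (∏ j, b.T.comp (X + C (a j : ℤ))) ≠ 0 :=
    Finset.prod_ne_zero_iff.2 fun j _ => fb_Tn_ne b (a j)
  rw [natDegree_mul X_ne_zero h1, natDegree_X, natDegree_prod _ _ fun j _ => fb_Tn_ne b (a j),
    Finset.sum_congr rfl fun j _ => fb_deg_Tn b (a j)]
  simp [add_comm]

theorem bigB_deg (α β : Fin d → Fin R) :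
    (bigB b a α β).natDegree + 1 ≤ (bigT b a).natDegree := by
  rw [bigT_deg]
  have h : (bigB b a α β).natDegree ≤ d * b.T.natDegree := by
    unfold bigB
    rw [Matrix.add_apply, Matrix.sum_apply, Matrix.smul_apply, Matrix.sum_apply, smul_eq_mul]
    refine (natDegree_add_le _ _).trans (max_le ?_ ?_)
    · refine natDegree_sum_le_of_forall_le _ _ fun j _ => ?_
      rw [Matrix.smul_apply, smul_eq_mul]
      have h1 : (slot j (shM (a j) b.L) α β).natDegree + 1 ≤ b.T.natDegree := by
        unfold slot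
        rw [Matrix.of_apply]
        split_ifs
        · rw [shM_apply, natDegree_comp, natDegree_X_add_C, mul_one]
          exact b.hdeg _ _
        · rw [natDegree_zero]
          have := b.hdeg b.i₀ b.i₀
          omega
      have h2 : (∏ i ∈ Finset.univ.erase j,
          (b.T.comp (X + C (a i : ℤ))).map (Int.castRingHom ℚ)).natDegree ≤
          (d - 1) * b.T.natDegree := by
        refine (natDegree_prod_le _ _).trans ?_
        rw [Finset.sum_congr rfl fun i _ => fb_deg_tn b (a i)]
        simp [Finset.card_erase_of_mem]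
      have hd : 1 ≤ d := j.pos
      refine natDegree_mul_le.trans ?_
      have h3 : (X * ∏ i ∈ Finset.univ.erase j,
          (b.T.comp (X + C (a i : ℤ))).map (Int.castRingHom ℚ)).natDegree ≤
          1 + (d - 1) * b.T.natDegree :=
        natDegree_mul_le.trans (add_le_add natDegree_X_le h2)
      have h4 : d * b.T.natDegree = (d - 1) * b.T.natDegree + b.T.natDegree := by
        obtain ⟨e, rfl⟩ : ∃ e, d = e + 1 := ⟨d - 1, by omega⟩
        simp [add_mul]
      omega
    · refine natDegree_mul_le.trans ?_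
      have h1 : (∏ i, (b.T.comp (X + C (a i : ℤ))).map (Int.castRingHom ℚ)).natDegree ≤
          d * b.T.natDegree := by
        refine (natDegree_prod_le _ _).trans ?_
        rw [Finset.sum_congr rfl fun i _ => fb_deg_tn b (a i)]
        simp
      have h2 : (∑ j, slot j (cX b.νr) α β).natDegree ≤ 0 := by
        refine natDegree_sum_le_of_forall_le _ _ fun j _ => ?_
        unfold slot
        rw [Matrix.of_apply]
        split_ifs
        · rw [cX_apply, natDegree_C]
        · rw [natDegree_zero]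
      omega
  omega

end Pool.Agent.Helper79.GX
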