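import Pool.Agent.Helper79.GX.MainK

/-!
# GX: definitions for the statement of the general theorem
-/

open Polynomial Filter Topology

namespace Pool.Agent.Helper79.GX

open Pool.Agent.Helper37.GP Pool.Agent.Helper79.GC Pool.Agent.Helper64.Per

/-- The system `T V' = A V` over `F[t]` satisfies Galochkin's condition and has (at most) a simple
pole at infinity, with residue matrix `-N`, that is `t A / T` tends to `-N`. -/
structure GSystem {F β : Type} [Field F] [Fintype β] [DecidableEq β] (T : ℤ[X])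
    (A : Matrix β β F[X]) (N : Matrix β β F) : Prop where
  gal : ∃ H : ℕ, GalF (T.map (Int.castRingHom F)) A H
  deg : ∀ i j, (A i j).natDegree + 1 ≤ T.natDegree
  res : ∀ i j, (A i j).coeff (T.natDegree - 1) = -((T.leadingCoeff : F) * N i j)

/-- All complex eigenvalues of `N` are rational numbers. -/
def RatExp {κ : IntermediateField ℚ Qbar} {β : Type} [Fintype β] [DecidableEq β]
    (N : Matrix β β κ) : Prop :=
  ∀ z : ℂ, (N.charpoly.map (algebraMap κ ℂ)).IsRoot z → ∃ c : ℚ, z = c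

/-- `V` is analytic on `U` and `T V' = A V` there. -/
structure IsSolOn {κ : IntermediateField ℚ Qbar} {β γ : Type} [Fintype β] (U : Set ℂ) (T : ℤ[X])
    (A : Matrix β β (Polynomial κ)) (V : ℂ → Matrix β γ ℂ) : Prop where
  analytic : ∀ b k, AnalyticOnNhd ℂ (fun t => V t b k) U
  ode : ∀ t ∈ U, ∀ b k, aeval t T * deriv (fun t => V t b k) t =
    ∑ c, aeval t (A b c) * V t c k

/-- `t ↦ (t, w t)`, `t ∈ U`, is a branch of a plane curve `y^m = ∑_{l<m} f_l(t) y^l` over `κ`. -/
structure IsBranch (κ : IntermediateField ℚ Qbar) (U : Set ℂ) (m : ℕ) (w : ℂ → ℂ) : Prop where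
  analytic : AnalyticOnNhd ℂ w U
  eqn : ∃ f : Fin m → Polynomial κ,
    ∀ t ∈ U, w t ^ m = ∑ l : Fin m, aeval t (f l) * w t ^ (l : ℕ)

/-- The matrix with the entries `w^l P_{ak}` (rows `(l, a)`, `l < m`) is `Z V` on `U`, for a matrix `Z`
over `κ[t]` with nonzero determinant. -/
def IsPush {ι : Type} [Fintype ι] [DecidableEq ι] (κ : IntermediateField ℚ Qbar) (U : Set ℂ)
    (m : ℕ) (w : ℂ → ℂ) (P : ℂ → Matrix ι ι ℂ) (V : ℂ → Matrix (Fin m × ι) ι ℂ) : Prop :=
  ∃ Z : Matrix (Fin m × ι) (Fin m × ι) (Polynomial κ), Z.det ≠ 0 ∧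
    ∀ t ∈ U, ∀ (l : Fin m) (a k : ι),
      w t ^ (l : ℕ) * P t a k = ∑ b, aeval t (Z (l, a) b) * V t b k

end Pool.Agent.Helper79.GX
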