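import Pool.Agent.Helper79.GX.Values
import Pool.Agent.Helper79.GX.CevFn
import Pool.Agent.Helper79.GX.BlockVal
import Pool.Agent.Helper79.GX.ExistsBlock
import Pool.Agent.Helper79.GX.Fund
import Pool.Agent.Helper79.GX.Den
import Pool.Agent.Helper79.GC.Lin1

/-!
# GX: sparsity of the bad integers for a system with tame exponents

As `Pool.Agent.Helper79.GC.Lin1`.
-/

open Polynomial Filter Topology

namespace Pool.Agent.Helper79.GX

open Pool.Agent.Helper37.GP Pool.Agent.Helper79.GC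

variable {ι : Type} [Fintype ι] [DecidableEq ι]

/-- The values of a block at large real points. -/
theorem lin_core {R : ℕ} (b : BlockData R) (g : Fin R → Matrix ι ι ℚ)
    {W : Matrix ι ι (PowerSeries ℚ)} {N : Matrix ι ι ℚ} (hb : ∀ a c, GBound b.H (W a c))
    (h1 : g b.i₀ = 1) (h2 : ∀ β, W * cP (g β) = ∑ α, b.Φ α β • cP (g α))
    (h3 : ∀ β, N * g β = ∑ α, b.νl α β • g α) {z : ℝ → ι → ℂ} {z₀ : ι → ℂ} {t₁ : ℝ}
    (hz : ∀ t : ℝ, t₁ < t →
      z t = (cevM W ((1 / t : ℝ) : ℂ) * cexpM (-((Real.log t : ℝ) : ℂ)) N).mulVec z₀) :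
    Sparse z := by
  classical
  obtain ⟨c, hc1, hc⟩ := cev_fn b
  choose C₃ hC₃ using fun d : ℕ => values b d
  obtain ⟨t₂, ht₂⟩ := exists_nat_gt t₁
  set M := Fintype.card ι with hM
  set C₀ := ∑ d ∈ Finset.range (M + 1), C₃ d with hC₀
  have hC₀' : ∀ d, d ≤ M → C₃ d ≤ C₀ := fun d hd =>
    Finset.single_le_sum (f := C₃) (fun i _ => Nat.zero_le _)
      (Finset.mem_range.mpr (Nat.lt_succ_of_le hd))
  refine ⟨C₀ + c + t₂ + b.H + 3, M, ?_⟩
  intro K s a hK haC haK hsep hs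
  have hpow : ∀ {m n : ℕ}, m ≤ n → (K + 1) ^ m ≤ (K + 1) ^ n := fun h =>
    Nat.pow_le_pow_right (by omega) h
  have hK1 : ∀ n, n < (K + 1) ^ n := fun n => Nat.lt_pow_self (by omega)
  have hsbig : C₀ + c + t₂ + b.H + 3 < s :=
    lt_of_lt_of_le (hK1 _) hs
  have hs0 : (0 : ℝ) < s := by
    have : 0 < s := by omega
    exact_mod_cast this
  by_contra hcon
  push Not at hcon
  choose l hl hl' using hcon
  set z' : ι → ℂ := (cexpM (-((Real.log (s : ℝ) : ℝ) : ℂ)) N).mulVec z₀ with hz'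
  have key : ∀ t : ℝ, t₁ < t → (b.H : ℝ) < t → 0 < t → ∀ (w : ℝ), w = Real.log t - Real.log s →
      z t = (∑ α, ((cevM b.Φ ((1 / t : ℝ) : ℂ) * cexpM (-((w : ℝ) : ℂ)) b.νl) α b.i₀) •
        qC (g α)).mulVec z' := by
    intro t h1t hHt h0t w hw
    have hx : ‖((1 / t : ℝ) : ℂ)‖ < 1 / (b.H : ℝ) := by
      rw [Complex.norm_real, Real.norm_of_nonneg (by positivity)]
      have : (0 : ℝ) < b.H := by
        have := b.hH
        exact_mod_cast (by omega : 0 < b.H)
      exact one_div_lt_one_div_of_lt this hHt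
    rw [← block_val b g hb h1 h2 h3 hx (-((w : ℝ) : ℂ)), hz', Matrix.mulVec_mulVec, hz t h1t,
      Matrix.mul_assoc, ← cexpM_add, hw]
    congr 3
    push_cast
    ring_nf
  obtain ⟨j, hj⟩ := elim (le_of_eq hM.symm) (fun j α => Matrix.vecMul (l j) (g α))
    (fun j α => ((pev (b.fn (a j) α) s : ℝ) : ℂ)) (by
      intro k hk e he F hF
      refine hC₃ k K (fun i => a (e i)) hK (fun i => haK _)
        (fun i => (hC₀' k hk).trans (le_trans (by omega) (haC (e i))))
        (fun i i' hii => ?_) s ((hpow (by have := hC₀' k hk; omega)).trans hs) F ?_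
      · have := hC₀' k hk
        rcases hsep (e i) (e i') (fun h => hii (he h)) with h | h
        · left; omega
        · right; omega
      · have : ((∑ α, (F α : ℝ) * ∏ i, pev (b.fn (a (e i)) (α i)) s : ℝ) : ℂ) = 0 := by
          push_cast
          exact hF
        exact_mod_cast this) z' (by
      intro j
      have hsa : ((s + a j : ℕ) : ℝ) = (s : ℝ) + a j := by push_cast; ring
      have hbig : (t₂ + b.H : ℝ) < (s + a j : ℕ) := by
        have : t₂ + b.H < s + a j := by omega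
        exact_mod_cast this
      have hpos : (0 : ℝ) < (s + a j : ℕ) := by
        have : 0 < s + a j := by omega
        exact_mod_cast this
      have ht2 : (0 : ℝ) ≤ t₂ := Nat.cast_nonneg _
      have hH0 : (0 : ℝ) ≤ b.H := Nat.cast_nonneg _
      have hk := key ((s + a j : ℕ) : ℝ) (by linarith) (by linarith) hpos _ rfl
      have hcf := hc (a j) s (by
        have e1 : c * (a j + 1) ^ 2 < s := by
          calc c * (a j + 1) ^ 2 ≤ c * (K + 1) ^ 2 :=
                Nat.mul_le_mul_left _ (Nat.pow_le_pow_left (by have := haK j; omega) 2)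
            _ < (K + 1) ^ c * (K + 1) ^ 2 :=
                Nat.mul_lt_mul_of_pos_right (hK1 c) (by positivity)
            _ = (K + 1) ^ (c + 2) := (pow_add _ _ _).symm
            _ ≤ (K + 1) ^ (C₀ + c + t₂ + b.H + 3) := hpow (by omega)
            _ ≤ s := hs
        exact_mod_cast e1)
      have e2 : Real.log (((s : ℝ) + a j) / s) =
          Real.log ((s + a j : ℕ) : ℝ) - Real.log s := by
        rw [Real.log_div (by positivity) (ne_of_gt hs0), hsa]
      rw [← bilin_block g _ (l j) z']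
      have hlj := hl j
      rw [show ((s + a j : ℕ) : ℝ) = ((s + a j : ℕ) : ℝ) from rfl] at hlj
      rw [hk] at hlj
      rw [← hlj]
      have e3 : (∑ α, ((pev (b.fn (a j) α) s : ℝ) : ℂ) • qC (g α)) =
          ∑ α, ((cevM b.Φ ((1 / ((s + a j : ℕ) : ℝ) : ℝ) : ℂ) *
            cexpM (-((Real.log ((s + a j : ℕ) : ℝ) - Real.log s : ℝ) : ℂ)) b.νl) α b.i₀) •
              qC (g α) := by
        refine Finset.sum_congr rfl fun α _ => ?_
        rw [hcf α, e2, hsa]
      rw [e3])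
  refine hl' j ⟨fun x => C (l j x), fun x => eval_C, ?_⟩
  filter_upwards [Filter.eventually_gt_atTop t₁, Filter.eventually_gt_atTop (b.H : ℝ),
    Filter.eventually_gt_atTop 0] with t ht1 htH ht0
  simp only [aeval_C, eq_ratCast]
  rw [key t ht1 htH ht0 _ rfl, bilin_block]
  exact Finset.sum_eq_zero fun α _ => by rw [hj α, mul_zero]

/-- Sparsity of the bad integers: tame exponents. -/
theorem lin1 {T : ℤ[X]} {A : Matrix ι ι ℚ[X]} {H : ℕ}
    (hG : Galochkin (T.map (Int.castRingHom ℚ)) A H) {N : Matrix ι ι ℚ}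
    (hR : IsRes (T.map (Int.castRingHom ℚ)) A N) (hN : Tame N) {z : ℝ → ι → ℂ}
    (hz : IsSolR (T.map (Int.castRingHom ℚ)) A z) : Sparse z := by
  rcases isEmpty_or_nonempty ι with hι | hι
  · exact sparse_of_isEmpty z
  have hT0 : T.map (Int.castRingHom ℚ) ≠ 0 := hR.1
  obtain ⟨Y, hY0, hY, H₂, hH₂, hYb⟩ := exists_fund_x hR hN
  obtain ⟨H₃, hH₃, hYd⟩ := den_fund_x hG hR hN hY hY0
  set H₄ := H₂ + H₃ with hH₄
  obtain ⟨R, b, g, D, κ, Z, W, hκ, hZ, hW, hWb, h1, h2, h3⟩ := exists_block hG hR hN hY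
    hY0 (H₁ := H₄) (fun a b => gbound_mono' (by omega) (hYb a b))
    (gden_mono' (by omega) hYd)
  obtain ⟨z₀, t₁, hz₀⟩ := sol_form hT0 (by omega : 1 ≤ H₂) hYb hY0 hY hz
  -- gauge
  refine sparse_gauge hZ D ?_
  obtain ⟨t₂, ht₂⟩ := evM_det_ne hZ
  refine lin_core b g hWb h1 h2 h3 (z₀ := ((κ : ℂ)⁻¹) • z₀)
    (t₁ := max (max t₁ t₂) ((H₂ + b.H : ℕ) : ℝ)) ?_
  intro t ht
  have ht1 : t₁ < t := lt_of_le_of_lt ((le_max_left _ _).trans (le_max_left _ _)) ht
  have ht2 : t₂ < t := lt_of_le_of_lt ((le_max_right _ _).trans (le_max_left _ _)) ht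
  have ht3 : ((H₂ + b.H : ℕ) : ℝ) < t := lt_of_le_of_lt (le_max_right _ _) ht
  have hκ' : (κ : ℂ) ≠ 0 := by
    exact_mod_cast (by omega : κ ≠ 0)
  have hdet : IsUnit (evM Z (t : ℂ)).det := isUnit_iff_ne_zero.mpr (ht₂ t ht2)
  have hgv := gauge_val (H := H₂ + b.H) (by omega)
    (fun a c => gbound_mono' (by omega) (hYb a c)) (fun a c => gbound_mono' (by omega) (hWb a c))
    hW ht3
  have e4 : ((t : ℂ) ^ D) • ((evM Z (t : ℂ))⁻¹ * cevM Y ((1 / t : ℝ) : ℂ)) =
      ((κ : ℂ)⁻¹) • cevM W ((1 / t : ℝ) : ℂ) := by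
    have e5 : cevM W ((1 / t : ℝ) : ℂ) =
        (evM Z (t : ℂ))⁻¹ * (((κ : ℂ) * (t : ℂ) ^ D) • cevM Y ((1 / t : ℝ) : ℂ)) := by
      rw [hgv, ← Matrix.mul_assoc, Matrix.nonsing_inv_mul _ hdet, Matrix.one_mul]
    rw [e5, Matrix.mul_smul, smul_smul, ← mul_assoc, inv_mul_cancel₀ hκ', one_mul]
  rw [gz, hz₀ t ht1, Matrix.mulVec_mulVec, ← Matrix.mul_assoc, ← Matrix.smul_mulVec,
    ← Matrix.smul_mul, e4, Matrix.smul_mul, Matrix.smul_mulVec, Matrix.mulVec_smul]

end Pool.Agent.Helper79.GX
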