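import Pool.Agent.Helper79.GX.SpecSplit
import Pool.Agent.Helper79.GC.Shear

/-!
# GX-10: shearing, rational exponents

As `shear_step` in `Pool.Agent.Helper79.GC.Shear` (lemmas may be imported), without the matrix `π`. `s` a spectrum of `N` in `[lo, lo + n + 2)`, `s₁ = {c ∈ s | c ≥ lo + n + 1}`,
`F₁ = ∏_{c∈s₁} (X - c)^m`, `F₂ = ∏_{c∈s∖s₁} (X - c)^m` coprime; `p = (v F₂)(N)`, `u F₁ + v F₂ = 1`. `Z = κ ((1-p) X + p)`, `D = 1`, `N' = N - p - p g₂ (1-p)`. Block triangular: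
`N' p = (N - 1) p`, `(1-p) N' = (1-p) N`. With `f = F₁(X + 1) F₂` (spectrum `{c - 1 : c ∈ s₁} ∪ (s∖s₁) ⊂ [lo, lo + n + 1)`): `f(N') p = f(N-1) p = 0`, `(1-p) f(N') = (1-p) f(N) = 0`,
so `f(N')² = 0`. (`f` divides a power of the product over the set `{c - 1} ∪ (s∖s₁)`.)
-/

open Polynomial

namespace Pool.Agent.Helper79.GX

open Pool.Agent.Helper37.GP Pool.Agent.Helper79.GC

variable {ι : Type} [Fintype ι] [DecidableEq ι]

theorem shear_step_x {T : ℤ[X]} {A : Matrix ι ι ℚ[X]} {N : Matrix ι ι ℚ}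
    (hR : IsRes (T.map (Int.castRingHom ℚ)) A N) {lo : ℤ} {n : ℕ} (h : RatIn lo (n + 2) N) :
    ∃ (Z : Matrix ι ι ℤ[X]) (N' : Matrix ι ι ℚ), Z.det ≠ 0 ∧
      IsRes ((gT T Z 1).map (Int.castRingHom ℚ)) (gA T A Z 1) N' ∧ RatIn lo (n + 1) N' := by
  obtain ⟨s, hs, m, hm⟩ := h
  obtain ⟨hord, hres⟩ := hR.ord
  have hT0 := hR.1
  set g := (emb (T.map (Int.castRingHom ℚ)))⁻¹ • eM A with hg
  set s₁ : Finset ℚ := s.filter (fun c => (lo : ℚ) + n + 1 ≤ c) with hs₁
  set s₂ : Finset ℚ := s.filter (fun c => ¬ (lo : ℚ) + n + 1 ≤ c) with hs₂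
  have hcop : IsCoprime ((∏ c ∈ s₁, ((X : ℚ[X]) - C c)) ^ m) ((∏ c ∈ s₂, ((X : ℚ[X]) - C c)) ^ m) := by
    apply IsCoprime.pow
    apply IsCoprime.prod_left
    intro c hc
    apply IsCoprime.prod_right
    intro c' hc'
    apply Polynomial.isCoprime_X_sub_C_of_isUnit_sub
    rw [isUnit_iff_ne_zero]
    rw [hs₁, Finset.mem_filter] at hc
    rw [hs₂, Finset.mem_filter] at hc'
    intro h0
    apply hc'.2
    rw [sub_eq_zero] at h0
    rw [← h0]
    exact hc.2
  obtain ⟨u, v, huv⟩ := hcop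
  set F₁ : ℚ[X] := (∏ c ∈ s₁, ((X : ℚ[X]) - C c)) ^ m with hF₁
  set F₂ : ℚ[X] := (∏ c ∈ s₂, ((X : ℚ[X]) - C c)) ^ m with hF₂
  have hF : F₁ * F₂ = (∏ c ∈ s, ((X : ℚ[X]) - C c)) ^ m := by
    rw [hF₁, hF₂, ← mul_pow, hs₁, hs₂, Finset.prod_filter_mul_prod_filter_not]
  have hF0 : aeval N (F₁ * F₂) = 0 := by rw [hF]; exact hm
  set p : Matrix ι ι ℚ := aeval N (v * F₂) with hp
  have hq : 1 - p = aeval N (u * F₁) := by
    rw [sub_eq_iff_eq_add, hp, ← map_add, huv, map_one]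
  have hpp0 : (1 - p) * p = 0 := by
    rw [hq, hp, ← map_mul, show u * F₁ * (v * F₂) = u * v * (F₁ * F₂) by ring, map_mul, hF0,
      mul_zero]
  have hpp0' : p * (1 - p) = 0 := by
    rw [hq, hp, ← map_mul, show v * F₂ * (u * F₁) = u * v * (F₁ * F₂) by ring, map_mul, hF0,
      mul_zero]
  have hpp : p * p = p := by
    have h1 := hpp0
    rw [sub_mul, one_mul, sub_eq_zero] at h1
    exact h1.symm
  have hqq : (1 - p) * (1 - p) = 1 - p := by
    rw [mul_sub, mul_one, hpp0, sub_zero]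
  have hF1p : aeval N F₁ * p = 0 := by
    rw [hp, ← map_mul, show F₁ * (v * F₂) = v * (F₁ * F₂) by ring, map_mul, hF0, mul_zero]
  have hF2q : (1 - p) * aeval N F₂ = 0 := by
    rw [hq, ← map_mul, show u * F₁ * F₂ = u * (F₁ * F₂) by ring, map_mul, hF0, mul_zero]
  have hpN' : N * p = p * N := by
    have h2 : aeval N (X * (v * F₂)) = N * p := by rw [map_mul, aeval_X]
    have h3 : aeval N ((v * F₂) * X) = p * N := by rw [map_mul, aeval_X]
    rw [← h2, ← h3, mul_comm]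
  have hpN : p * N = N * p := hpN'.symm
  -- the gauge transformation
  obtain ⟨κ, P, hκ, hP⟩ := exists_clear p
  set Z : Matrix ι ι ℤ[X] := Matrix.of fun a b =>
    C ((if a = b then (κ : ℤ) else 0) - P a b) * X + C (P a b) with hZ
  have hκ0 : ((κ : ℚ)) ≠ 0 := by exact_mod_cast hκ.ne'
  set k : LaurentSeries ℚ := algebraMap ℚ (LaurentSeries ℚ) (κ : ℚ) with hk
  have hk0 : k ≠ 0 := by
    rw [hk]
    exact (_root_.map_ne_zero _).mpr hκ0
  set V : Matrix ι ι (LaurentSeries ℚ) := k • (cM (1 - p) + xx • cM p) with hV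
  set V' : Matrix ι ι (LaurentSeries ℚ) := k⁻¹ • (cM (1 - p) + emb X • cM p) with hV'
  have hVZ : V = xx ^ 1 • eM (Z.map (Polynomial.map (Int.castRingHom ℚ))) := by
    ext1 a b
    rw [hV, pow_one, Matrix.smul_apply, Matrix.smul_apply, Matrix.add_apply, Matrix.smul_apply,
      cM_apply, cM_apply, eM_apply, Matrix.map_apply, hZ, Matrix.of_apply, Polynomial.map_add,
      Polynomial.map_mul, Polynomial.map_C, Polynomial.map_C, Polynomial.map_X, map_add, map_mul,
      emb_C, emb_C]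
    have e1 : (Int.castRingHom ℚ) ((if a = b then (κ : ℤ) else 0) - P a b) =
        (κ : ℚ) * (1 - p) a b := by
      rw [Matrix.sub_apply, Matrix.one_apply, mul_sub, ← hP a b]
      split_ifs <;> simp
    have e2 : (Int.castRingHom ℚ) (P a b) = (κ : ℚ) * p a b := by
      rw [← hP a b]
      simp
    rw [e1, e2, map_mul, map_mul, ← hk]
    simp only [smul_eq_mul]
    linear_combination (-(k * algebraMap ℚ (LaurentSeries ℚ) ((1 - p) a b))) * xx_mul_emb_X
  have hcc : ∀ A B : Matrix ι ι ℚ, cM A * cM B = cM (A * B) := fun A B => (cM_mul A B).symm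
  have hVV' : V * V' = 1 := by
    rw [hV, hV', Matrix.smul_mul, Matrix.mul_smul, smul_smul, mul_inv_cancel₀ hk0, one_smul,
      add_mul, mul_add, mul_add]
    simp only [Matrix.smul_mul, Matrix.mul_smul, hcc, hpp, hqq, hpp0, hpp0', cM_zero, smul_zero,
      smul_smul, xx_mul_emb_X, emb_X_mul_xx, one_smul, add_zero, zero_add]
    rw [← cM_add, sub_add_cancel, cM_one]
  have hV'V : V' * V = 1 := by
    rw [hV, hV', Matrix.smul_mul, Matrix.mul_smul, smul_smul, inv_mul_cancel₀ hk0, one_smul,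
      add_mul, mul_add, mul_add]
    simp only [Matrix.smul_mul, Matrix.mul_smul, hcc, hpp, hqq, hpp0, hpp0', cM_zero, smul_zero,
      smul_smul, emb_X_mul_xx, xx_mul_emb_X, one_smul, add_zero, zero_add]
    rw [← cM_add, sub_add_cancel, cM_one]
  have hdV : dM V = (-(k * (xx * xx))) • cM p := by
    rw [hV, dM_smul, hk, dd_algebraMap, zero_smul, zero_add, dM_add, dM_cM, zero_add, dM_smul,
      dM_cM, smul_zero, add_zero, dd_xx, smul_smul, mul_neg]
  have hV'dV : V' * dM V = -(xx • cM p) := by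
    rw [hdV, hV', Matrix.smul_mul, Matrix.mul_smul, add_mul, smul_smul]
    simp only [Matrix.smul_mul, hcc, hpp, hpp0, cM_zero, zero_add, smul_smul]
    rw [← neg_smul]
    congr 1
    have e1 : k⁻¹ * k = 1 := inv_mul_cancel₀ hk0
    linear_combination (-(xx * xx * emb X)) * e1 - xx * xx_mul_emb_X
  have hnew : V' * g * V - V' * dM V =
      (cM (1 - p) + emb X • cM p) * g * (cM (1 - p) + xx • cM p) + xx • cM p := by
    rw [hV'dV, sub_neg_eq_add, hV, hV', Matrix.smul_mul, Matrix.smul_mul, Matrix.mul_smul,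
      smul_smul, inv_mul_cancel₀ hk0, one_smul]
  set g₂ := coL 2 g with hg₂
  set N' : Matrix ι ι ℚ := N - p - p * g₂ * (1 - p) with hN'
  have hgn : ∀ n : ℤ, n < 1 → coL n g = 0 := by
    intro n hn
    ext a b
    exact hord a b n hn
  have hpNq : p * N * (1 - p) = 0 := by
    rw [hpN, mul_assoc, hpp0', mul_zero]
  have h1 : ∀ n : ℤ, n < 1 → coL n (V' * g * V - V' * dM V) = 0 := by
    intro n hn
    rw [hnew, shear_coL, hgn n hn, hgn (n - 1) (by omega), coL_cM, if_neg (by omega)]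
    simp only [mul_zero, zero_mul, add_zero, zero_add]
    rcases lt_or_ge (n + 1) 1 with h2 | h2
    · rw [hgn _ h2, mul_zero, zero_mul]
    · have h3 : n + 1 = 1 := by omega
      rw [h3, hres, mul_neg, neg_mul, hpNq, neg_zero]
  have h2 : coL 1 (V' * g * V - V' * dM V) = -N' := by
    rw [hnew, shear_coL, hres, hgn (1 - 1) (by omega), coL_cM, if_pos (by omega),
      show (1 : ℤ) + 1 = 2 by norm_num, ← hg₂]
    have e1 : (1 - p) * -N * (1 - p) + p * -N * p = -N := by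
      have e2 : p * N * p = N * p := by rw [hpN, mul_assoc, hpp]
      have e3 : (1 - p) * -N * (1 - p) + p * -N * p =
        -N + p * N + N * p - p * N * p - p * N * p := by
        noncomm_ring
      rw [e3, e2, hpN]
      abel
    have e4 : (1 - p) * -N * (1 - p) + (1 - p) * 0 * p + p * g₂ * (1 - p) + p * -N * p + p =
        ((1 - p) * -N * (1 - p) + p * -N * p) + p * g₂ * (1 - p) + p := by
      rw [mul_zero, zero_mul]
      abel
    rw [e4, e1, hN']
    abel
  have h3 : cM (0 : Matrix ι ι ℚ) * (V' * g * V - V' * dM V) =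
      (V' * g * V - V' * dM V) * cM (0 : Matrix ι ι ℚ) := by
    rw [cM_zero, zero_mul, mul_zero]
  obtain ⟨r1, r2, -⟩ := gauge_res (N' := N') (π := 0) hT0 hVZ hVV' hV'V h3 h1 h2
  refine ⟨Z, N', r1, r2, s₁.image (fun c => c - 1) ∪ s₂, ?_, m * 2 * 2, ?_⟩
  · intro c hc
    rw [Finset.mem_union, Finset.mem_image] at hc
    rcases hc with ⟨c₁, hc₁, rfl⟩ | hc
    · rw [hs₁, Finset.mem_filter] at hc₁
      obtain ⟨h4, h5⟩ := hs c₁ hc₁.1
      have h6 := hc₁.2
      push_cast at h5 ⊢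
      have hn : (0 : ℚ) ≤ n := Nat.cast_nonneg n
      constructor <;> linarith
    · rw [hs₂, Finset.mem_filter] at hc
      obtain ⟨h4, h5⟩ := hs c hc.1
      have h6 := hc.2
      push_cast at h5 ⊢
      rw [not_le] at h6
      exact ⟨h4, by linarith⟩
  -- the eigenvalues
  have t1 : N' * p = (N - 1) * p := by
    have e : ∀ a b c : Matrix ι ι ℚ, (a - b - c) * p = a * p - b * p - c * p := fun a b c => by
      rw [sub_mul, sub_mul]
    rw [hN', e N p (p * g₂ * (1 - p)), hpp, mul_assoc (p * g₂), hpp0, mul_zero,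
      sub_zero, sub_mul N 1 p, one_mul]
  have t2 : (1 - p) * N' = (1 - p) * N := by
    have e : ∀ a b c : Matrix ι ι ℚ, (1 - p) * (a - b - c) =
        (1 - p) * a - (1 - p) * b - (1 - p) * c := fun a b c => by
      rw [mul_sub (1 - p) (a - b), mul_sub (1 - p) a]
    rw [hN', e N p (p * g₂ * (1 - p)), hpp0, sub_zero, ← mul_assoc, ← mul_assoc, hpp0, zero_mul,
      zero_mul, sub_zero]
  have t3 : (N - 1) * p = p * (N - 1) := by
    rw [sub_mul N 1, mul_sub p N, hpN, one_mul, mul_one]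
  have t4 : N * (1 - p) = (1 - p) * N := by
    rw [mul_sub N 1 p, sub_mul 1 p N, hpN, one_mul, mul_one]
  set F₃ : ℚ[X] := (∏ c ∈ s₁, ((X : ℚ[X]) - C (c - 1))) ^ m with hF₃
  have hsh : aeval (N - 1) F₃ = aeval N F₁ := by
    have e1 : F₁ = F₃.comp (X - 1) := by
      rw [hF₁, hF₃, Polynomial.pow_comp, Polynomial.prod_comp]
      congr 1
      refine Finset.prod_congr rfl fun c _ => ?_
      rw [Polynomial.sub_comp, Polynomial.X_comp, Polynomial.C_comp, map_sub, map_one]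
      ring
    rw [e1, aeval_comp]
    simp
  set f : ℚ[X] := F₃ * F₂ with hf
  have t5 : aeval N' f * p = 0 := by
    rw [aeval_mul_right t1 t3, hf, mul_comm, map_mul, mul_assoc, hsh, hF1p, mul_zero]
  have t6 : (1 - p) * aeval N' f = 0 := by
    rw [aeval_mul_left t2 t4, hf, mul_comm F₃ F₂, map_mul, ← mul_assoc, hF2q, zero_mul]
  have t7 : aeval N' f = p * aeval N' f := by
    rw [sub_mul, one_mul, sub_eq_zero] at t6
    exact t6
  have t8 : aeval N' f * aeval N' f = 0 := by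
    calc aeval N' f * aeval N' f = aeval N' f * (p * aeval N' f) := by rw [← t7]
      _ = (aeval N' f * p) * aeval N' f := (mul_assoc _ _ _).symm
      _ = 0 := by rw [t5, zero_mul]
  set P : ℚ[X] := ∏ c ∈ s₁.image (fun c => c - 1) ∪ s₂, ((X : ℚ[X]) - C c) with hPdef
  have d1 : F₃ ∣ P ^ m := by
    apply pow_dvd_pow_of_dvd
    have e1 : ∏ c ∈ s₁, ((X : ℚ[X]) - C (c - 1)) =
        ∏ c ∈ s₁.image (fun c => c - 1), ((X : ℚ[X]) - C c) := by
      rw [Finset.prod_image]
      intro a _ b _ hab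
      have hab' : a - 1 = b - 1 := hab
      linarith
    rw [e1]
    exact Finset.prod_dvd_prod_of_subset _ _ _ Finset.subset_union_left
  have d2 : F₂ ∣ P ^ m := by
    apply pow_dvd_pow_of_dvd
    exact Finset.prod_dvd_prod_of_subset _ _ _ Finset.subset_union_right
  have d3 : f * f ∣ P ^ (m * 2 * 2) := by
    have e1 : P ^ (m * 2 * 2) = (P ^ m * P ^ m) * (P ^ m * P ^ m) := by ring
    rw [e1]
    exact mul_dvd_mul (mul_dvd_mul d1 d2) (mul_dvd_mul d1 d2)
  obtain ⟨w, hw⟩ := d3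
  rw [hw, map_mul, map_mul, t8, zero_mul]

end Pool.Agent.Helper79.GX
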