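import Pool.Agent.Helper79.GX.Lin1
import Pool.Agent.Helper79.GX.Shear
import Pool.Agent.Helper79.GC.Lin2

/-!
# GX: sparsity of the bad integers for a regular singular system with rational exponents at infinity
-/

open Polynomial Filter Topology

namespace Pool.Agent.Helper79.GX

open Pool.Agent.Helper37.GP Pool.Agent.Helper79.GC

variable {ι : Type} [Fintype ι] [DecidableEq ι]

theorem lin2_aux (n : ℕ) : ∀ (T : ℤ[X]) (A : Matrix ι ι ℚ[X]) (H : ℕ),
    Galochkin (T.map (Int.castRingHom ℚ)) A H → ∀ (N : Matrix ι ι ℚ),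
    IsRes (T.map (Int.castRingHom ℚ)) A N → ∀ (lo : ℤ), RatIn lo (n + 1) N → ∀ z : ℝ → ι → ℂ,
    IsSolR (T.map (Int.castRingHom ℚ)) A z → Sparse z := by
  induction n with
  | zero =>
    intro T A H hG N hR lo h z hz
    exact lin1 hG hR (tame_of_ratIn h) hz
  | succ n ih =>
    intro T A H hG N hR lo h z hz
    have hT : T ≠ 0 := by
      rintro rfl
      exact hR.1 (by rw [Polynomial.map_zero])
    obtain ⟨Z, N', hZ, hR', h'⟩ := shear_step_x hR h
    exact sparse_gauge hZ 1 (ih _ _ _ (gal_gauge hT hG Z hZ 1) N' hR' lo h' _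
      (sol_gauge hT hZ 1 hz))

/-- Sparsity of the bad integers. -/
theorem lin2 {T : ℤ[X]} {A : Matrix ι ι ℚ[X]} {H : ℕ}
    (hG : Galochkin (T.map (Int.castRingHom ℚ)) A H) {N : Matrix ι ι ℚ}
    (hR : IsRes (T.map (Int.castRingHom ℚ)) A N) {s : Finset ℚ} (hs : Spec s N) {z : ℝ → ι → ℂ}
    (hz : IsSolR (T.map (Int.castRingHom ℚ)) A z) : Sparse z := by
  obtain ⟨lo, n, h⟩ := ratIn_of_spec hs
  exact lin2_aux n T A H hG N hR lo h z hz

end Pool.Agent.Helper79.GX
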