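import Pool.Agent.Helper79.GX.BinmX
import Pool.Agent.Helper79.GC.PmPoly

/-!
# GX-08: the interpolating polynomials for several rational nodes

`s` finite, `|c - c'| < 1` for `c, c' ∈ s`. Wanted: `P ≡ 1 mod (X + c)^r` and `P ≡ 0 mod (X + c + k)^r` for `c ∈ s`, `1 ≤ k ≤ m`.

`B(X) = ∏_{c∈s} ∏_{k=1}^m (X + c + k)/k`. For `c' ∈ s`: `B(-c') = ∏_c ∏_{k=1}^m (c - c' + k)/k ≠ 0`. Let `ℓ_{c'}` be the Lagrange polynomials of the nodes `-c'`
(`ℓ_{c'}(-c'') = δ`), `B̃ = ∑_{c'} B(-c')⁻¹ ℓ_{c'} B`: `B̃(-c') = 1` and all `(X + c + k)`, `1 ≤ k ≤ m`, divide `B̃` (if `c + k = c' + k'` for different pairs there is only one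
factor; but multiplicities do not matter: each single `(X + c + k)` divides `B`). `P = 1 - (1 - B̃^r)^r` (as in `Pool.Agent.Helper79.GC.PmPoly`): `X + c' ∣ 1 - B̃^r`, so
`(X + c')^r ∣ P - 1`; `(X + c + k)^r ∣ B̃^r ∣ 1 - (1 - B̃^r)`, hence `P = 1 - (1 - B̃^r)^r` is divisible by `B̃^r`.
Denominators: (1) `∏_{k=1}^m (x + c + k)/k = Ring.choose (x + c + m) m` for `x ∈ ℕ`, with geometric denominators (`choose_den`, Vandermonde `Ring.choose (c + (x + m)) m`), so
`q₁^m B` is integer valued on `ℕ`. (2) for `μ = c - c' = a/q`, `|μ| < 1`: `m!/∏_{k=1}^m (μ + k) = m ∑_{k<m} (-1)^k binom(m-1,k)/(μ + 1 + k)` (partial fractions of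
`(m-1)!/∏_{k<m} (y + k)`), and `1/(μ+1+k) = q/(a + q(k+1))`, `0 < a + q (k+1) ≤ q (m+1)`: so `lcm(1, …, q(m+1))` (geometric, `Pool.Agent.Helper37.GP.Lcm`) is a denominator of `B(-c')⁻¹`'s factors.
(3) the `ℓ_{c'}` have a fixed denominator. So `q P` is integer valued on `ℕ` with `q ≤ H^(m+1)`, and its coefficients in the basis `binX j` are integers (forward differences, see
`PmPoly.lean`); degree `≤ H (m+1)`.
-/

open Polynomial

namespace Pool.Agent.Helper79.GX

open Pool.Agent.Helper37.GP Pool.Agent.Helper79.GC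

private lemma binX_eval (j i : ℕ) : (binX i).eval (j : ℚ) = (j.choose i : ℚ) := by
  induction i with
  | zero => simp [binX]
  | succ i ih =>
    rw [binX, eval_mul, eval_C, eval_mul, ih, eval_sub, eval_X, eval_C]
    have h1 := Nat.choose_succ_right_eq j i
    have h3 : ((i : ℚ) + 1) ≠ 0 := by positivity
    have h2 : (j.choose (i + 1) : ℚ) * ((i : ℚ) + 1) = (j.choose i : ℚ) * ((j : ℚ) - i) := by
      by_cases hij : i ≤ j
      · have : ((j.choose (i + 1) * (i + 1) : ℕ) : ℚ) = ((j.choose i * (j - i) : ℕ) : ℚ) := by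
          rw [h1]
        push_cast [Nat.cast_sub hij] at this
        exact this
      · have e1 : j.choose i = 0 := Nat.choose_eq_zero_of_lt (by omega)
        have e2 : j.choose (i + 1) = 0 := Nat.choose_eq_zero_of_lt (by omega)
        rw [e1, e2]
        simp
    rw [← h2]
    field_simp

private lemma binX_natDegree (i : ℕ) : (binX i).natDegree ≤ i := by
  induction i with
  | zero => simp [binX]
  | succ i ih =>
    rw [binX]
    refine (natDegree_C_mul_le _ _).trans ?_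
    refine natDegree_mul_le.trans ?_
    rw [natDegree_X_sub_C]
    omega

/-- an integer valued polynomial in the binomial basis -/
private lemma int_valued {f : ℚ[X]} {n : ℕ} (hn : f.natDegree < n)
    (hf : ∀ j : ℕ, ∃ z : ℤ, f.eval (j : ℚ) = z) :
    ∃ c : ℕ → ℤ, f = ∑ j ∈ Finset.range n, C (c j : ℚ) * binX j := by
  have h1 : ∀ n : ℕ, ∃ c : ℕ → ℤ, ∀ j < n,
      f.eval (j : ℚ) = ∑ i ∈ Finset.range n, (c i : ℚ) * (j.choose i : ℚ) := by
    intro n
    induction n with
    | zero => exact ⟨fun _ => 0, fun j hj => absurd hj (by omega)⟩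
    | succ n ih =>
      obtain ⟨c, hc⟩ := ih
      obtain ⟨z, hz⟩ := hf n
      refine ⟨Function.update c n (z - ∑ i ∈ Finset.range n, c i * (n.choose i : ℤ)), ?_⟩
      have hsum : ∀ j : ℕ, ∑ i ∈ Finset.range n, ((Function.update c n
          (z - ∑ i ∈ Finset.range n, c i * (n.choose i : ℤ)) i : ℤ) : ℚ) * (j.choose i : ℚ) =
          ∑ i ∈ Finset.range n, (c i : ℚ) * (j.choose i : ℚ) := by
        intro j
        refine Finset.sum_congr rfl fun i hi => ?_
        rw [Function.update_of_ne (Finset.mem_range.1 hi).ne]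
      intro j hj
      rw [Finset.sum_range_succ, hsum, Function.update_self]
      rcases Nat.lt_succ_iff_lt_or_eq.1 hj with h | rfl
      · rw [Nat.choose_eq_zero_of_lt h, hc j h]
        simp
      · rw [Nat.choose_self, hz]
        push_cast
        ring
  obtain ⟨c, hc⟩ := h1 n
  refine ⟨c, ?_⟩
  refine Polynomial.eq_of_degree_sub_lt_of_eval_finset_eq
    ((Finset.range n).image (fun i : ℕ => (i : ℚ))) ?_ ?_
  · rw [Finset.card_image_of_injective _ Nat.cast_injective, Finset.card_range]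
    refine lt_of_le_of_lt (degree_sub_le _ _) (max_lt ?_ ?_)
    · exact lt_of_le_of_lt degree_le_natDegree (by exact_mod_cast hn)
    · rw [← mem_degreeLT]
      refine Submodule.sum_mem _ fun j hj => ?_
      rw [mem_degreeLT]
      refine lt_of_le_of_lt degree_le_natDegree ?_
      have h2 := (natDegree_C_mul_le (c j : ℚ) (binX j)).trans (binX_natDegree j)
      have h3 := Finset.mem_range.1 hj
      exact_mod_cast lt_of_le_of_lt h2 h3
  · intro x hx
    obtain ⟨j, hj, rfl⟩ := Finset.mem_image.1 hx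
    rw [hc j (Finset.mem_range.1 hj), eval_finsetSum]
    refine Finset.sum_congr rfl fun i _ => ?_
    rw [eval_mul, eval_C, binX_eval]

/-! ### families with geometric denominators -/

private def GD (f : ℕ → ℕ → ℚ) : Prop :=
  ∃ H : ℕ, 1 ≤ H ∧ ∀ m : ℕ, ∃ q : ℕ, 0 < q ∧ q ≤ H ^ (m + 1) ∧
    ∀ j, ∃ z : ℤ, (q : ℚ) * f m j = z

private lemma GD_int {f : ℕ → ℕ → ℚ} (h : ∀ m j, ∃ z : ℤ, f m j = z) : GD f := by
  refine ⟨1, le_rfl, fun m => ⟨1, one_pos, by simp, fun j => ?_⟩⟩
  obtain ⟨z, hz⟩ := h m j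
  exact ⟨z, by simp [hz]⟩

private lemma GD_const (a : ℚ) : GD (fun _ _ => a) := by
  refine ⟨a.den, a.den_pos, fun m => ⟨a.den, a.den_pos, ?_, fun _ => ⟨a.num, ?_⟩⟩⟩
  · rw [pow_succ]
    exact Nat.le_mul_of_pos_left _ (pow_pos a.den_pos _)
  · rw [Rat.den_mul_eq_num]

private lemma GD_mul {f g : ℕ → ℕ → ℚ} (hf : GD f) (hg : GD g) :
    GD (fun m j => f m j * g m j) := by
  obtain ⟨H, hH, h⟩ := hf
  obtain ⟨K, hK, k⟩ := hg
  refine ⟨H * K, Nat.mul_pos hH hK, fun m => ?_⟩
  obtain ⟨q, q0, q1, q2⟩ := h m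
  obtain ⟨p, p0, p1, p2⟩ := k m
  refine ⟨q * p, Nat.mul_pos q0 p0, ?_, fun j => ?_⟩
  · rw [mul_pow]
    exact Nat.mul_le_mul q1 p1
  · obtain ⟨z, hz⟩ := q2 j
    obtain ⟨w, hw⟩ := p2 j
    refine ⟨z * w, ?_⟩
    push_cast
    rw [← hz, ← hw]
    ring

private lemma GD_add {f g : ℕ → ℕ → ℚ} (hf : GD f) (hg : GD g) :
    GD (fun m j => f m j + g m j) := by
  obtain ⟨H, hH, h⟩ := hf
  obtain ⟨K, hK, k⟩ := hg
  refine ⟨H * K, Nat.mul_pos hH hK, fun m => ?_⟩
  obtain ⟨q, q0, q1, q2⟩ := h m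
  obtain ⟨p, p0, p1, p2⟩ := k m
  refine ⟨q * p, Nat.mul_pos q0 p0, ?_, fun j => ?_⟩
  · rw [mul_pow]
    exact Nat.mul_le_mul q1 p1
  · obtain ⟨z, hz⟩ := q2 j
    obtain ⟨w, hw⟩ := p2 j
    refine ⟨p * z + q * w, ?_⟩
    push_cast
    rw [← hz, ← hw]
    ring

private lemma GD_sum {ι : Type} (s : Finset ι) {f : ι → ℕ → ℕ → ℚ} (hf : ∀ i ∈ s, GD (f i)) :
    GD (fun m j => ∑ i ∈ s, f i m j) := by
  classical
  induction s using Finset.induction_on with
  | empty => simpa using GD_const 0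
  | insert a s ha ih =>
    simp only [Finset.sum_insert ha]
    exact GD_add (hf a (Finset.mem_insert_self a s))
      (ih fun i hi => hf i (Finset.mem_insert_of_mem hi))

private lemma GD_prod {ι : Type} (s : Finset ι) {f : ι → ℕ → ℕ → ℚ} (hf : ∀ i ∈ s, GD (f i)) :
    GD (fun m j => ∏ i ∈ s, f i m j) := by
  classical
  induction s using Finset.induction_on with
  | empty => simpa using GD_const 1
  | insert a s ha ih =>
    simp only [Finset.prod_insert ha]
    exact GD_mul (hf a (Finset.mem_insert_self a s))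
      (ih fun i hi => hf i (Finset.mem_insert_of_mem hi))

private lemma GD_pow {f : ℕ → ℕ → ℚ} (hf : GD f) (r : ℕ) : GD (fun m j => f m j ^ r) := by
  induction r with
  | zero => simpa using GD_const 1
  | succ r ih =>
    simp only [pow_succ]
    exact GD_mul ih hf

private lemma GD_one_sub {f : ℕ → ℕ → ℚ} (hf : GD f) : GD (fun m j => 1 - f m j) := by
  have h := GD_add (GD_const 1) (GD_mul (GD_const (-1)) hf)
  have e : (fun m j => (1 : ℚ) - f m j) = fun m j => 1 + -1 * f m j := by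
    funext m j
    ring
  rw [e]
  exact h

private lemma GD_poly (p : ℚ[X]) : GD (fun _ j => p.eval (j : ℚ)) := by
  induction p using Polynomial.induction_on' with
  | add p q hp hq =>
    simp only [eval_add]
    exact GD_add hp hq
  | monomial n a =>
    simp only [eval_monomial]
    exact GD_mul (GD_const a) (GD_int fun m j => ⟨(j : ℤ) ^ n, by push_cast; rfl⟩)

/-! ### the polynomials `∏ (X + c + k)/k` -/

private noncomputable def bc (c : ℚ) (m : ℕ) : ℚ[X] :=
  ∏ k ∈ Finset.range m, (C (((k : ℚ) + 1)⁻¹) * (X + C (c + ((k : ℚ) + 1))))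

private lemma bc_eval (c : ℚ) (m : ℕ) (x : ℚ) :
    (bc c m).eval x = ∏ k ∈ Finset.range m, (((k : ℚ) + 1)⁻¹ * (x + (c + ((k : ℚ) + 1)))) := by
  rw [bc, eval_prod]
  simp

private lemma desc_smeval (a : ℚ) (n : ℕ) :
    (descPochhammer ℤ n).smeval a = ∏ k ∈ Finset.range n, (a - k) := by
  induction n with
  | zero => simp
  | succ n ih =>
    rw [descPochhammer_succ_right, smeval_mul, ih, Finset.prod_range_succ]
    simp [smeval_sub, smeval_X, smeval_natCast]

private lemma bc_eval_choose (c : ℚ) (m : ℕ) (x : ℚ) :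
    (bc c m).eval x = Ring.choose (c + (x + m)) m := by
  rw [bc_eval, Ring.choose_eq_smul, desc_smeval, Finset.prod_mul_distrib, smul_eq_mul]
  congr 1
  · rw [← Finset.prod_range_add_one_eq_factorial]
    push_cast
    rw [Finset.prod_inv_distrib]
  · rw [← Finset.prod_range_reflect]
    refine Finset.prod_congr rfl fun k hk => ?_
    have hk' := Finset.mem_range.1 hk
    have h1 : ((m - 1 - k : ℕ) : ℚ) = (m : ℚ) - 1 - k := by
      rw [Nat.cast_sub (by omega), Nat.cast_sub (by omega)]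
      simp
    rw [h1]
    ring

private lemma GD_bc (c : ℚ) : GD (fun m j => (bc c m).eval (j : ℚ)) := by
  obtain ⟨q, hq, h⟩ := choose_den c
  refine ⟨q, hq, fun m => ⟨q ^ m, pow_pos hq m, ?_, fun j => ?_⟩⟩
  · exact Nat.pow_le_pow_right hq (by omega)
  · have hterm : ∀ ij ∈ Finset.HasAntidiagonal.antidiagonal m, ∃ z : ℤ,
        ((q ^ m : ℕ) : ℚ) * (Ring.choose c ij.1 * Ring.choose ((j : ℚ) + m) ij.2) = z := by
      intro ij hij
      have hm : ij.1 + ij.2 = m := Finset.HasAntidiagonal.mem_antidiagonal.1 hij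
      obtain ⟨z, hz⟩ := h ij.1
      have h2 : Ring.choose ((j : ℚ) + m) ij.2 = ((j + m).choose ij.2 : ℚ) := by
        have := Ring.choose_natCast (R := ℚ) (j + m) ij.2
        rw [← this]
        push_cast
        rfl
      refine ⟨z * q ^ ij.2 * ((j + m).choose ij.2 : ℤ), ?_⟩
      rw [h2]
      push_cast
      rw [← hz, ← hm, pow_add]
      ring
    choose! z hz using hterm
    refine ⟨∑ ij ∈ Finset.HasAntidiagonal.antidiagonal m, z ij, ?_⟩
    beta_reduce
    rw [bc_eval_choose, Ring.add_choose_eq m (Commute.all _ _), Finset.mul_sum]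
    push_cast
    refine Finset.sum_congr rfl fun ij hij => ?_
    have := hz ij hij
    push_cast at this
    exact this

/-- partial fractions -/
private lemma pf (D : ℚ) (m : ℕ) : ∀ y : ℚ, (∀ k : ℕ, k ≤ m → y + k ≠ 0) →
    (∀ k : ℕ, k ≤ m → ∃ z : ℤ, D * (y + k)⁻¹ = z) →
    ∃ z : ℤ, D * (m.factorial * (∏ k ∈ Finset.range (m + 1), (y + k))⁻¹) = z := by
  induction m with
  | zero =>
    intro y h0 h
    obtain ⟨z, hz⟩ := h 0 le_rfl
    refine ⟨z, ?_⟩
    simpa using hz
  | succ m ih =>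
    intro y h0 h
    obtain ⟨z, hz⟩ := ih y (fun k hk => h0 k (by omega)) (fun k hk => h k (by omega))
    obtain ⟨w, hw⟩ := ih (y + 1)
      (fun k hk => by
        have := h0 (k + 1) (by omega)
        push_cast at this
        intro e
        apply this
        linarith)
      (fun k hk => by
        obtain ⟨z, hz⟩ := h (k + 1) (by omega)
        refine ⟨z, ?_⟩
        rw [← hz]
        push_cast
        congr 2
        ring)
    refine ⟨z - w, ?_⟩
    push_cast
    rw [← hz, ← hw, ← mul_sub]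
    congr 1
    have hA : ∏ k ∈ Finset.range (m + 1), (y + 1 + k) =
        ∏ k ∈ Finset.range (m + 1), (y + ((k + 1 : ℕ) : ℚ)) := by
      refine Finset.prod_congr rfl fun k _ => ?_
      push_cast
      ring
    have h1 : ∏ k ∈ Finset.range (m + 1 + 1), (y + (k : ℚ)) =
        (∏ k ∈ Finset.range (m + 1), (y + k)) * (y + ((m + 1 : ℕ) : ℚ)) :=
      Finset.prod_range_succ _ _
    have h2 : ∏ k ∈ Finset.range (m + 1 + 1), (y + (k : ℚ)) =
        (∏ k ∈ Finset.range (m + 1), (y + ((k + 1 : ℕ) : ℚ))) * (y + ((0 : ℕ) : ℚ)) :=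
      Finset.prod_range_succ' _ _
    have h3 : ∏ k ∈ Finset.range (m + 1 + 1), (y + (k : ℚ)) ≠ 0 :=
      Finset.prod_ne_zero_iff.2 fun k hk => h0 k (by
        have := Finset.mem_range.1 hk
        omega)
    rw [hA]
    set P := ∏ k ∈ Finset.range (m + 1 + 1), (y + (k : ℚ)) with hP
    have h4 : (∏ k ∈ Finset.range (m + 1), (y + (k : ℚ)))⁻¹ = (y + ((m + 1 : ℕ) : ℚ)) * P⁻¹ := by
      have hne := h0 (m + 1) le_rfl
      rw [h1, mul_inv]
      rw [mul_comm (∏ k ∈ Finset.range (m + 1), (y + (k : ℚ)))⁻¹, ← mul_assoc, mul_inv_cancel₀ hne,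
        one_mul]
    have h5 : (∏ k ∈ Finset.range (m + 1), (y + ((k + 1 : ℕ) : ℚ)))⁻¹ =
        (y + ((0 : ℕ) : ℚ)) * P⁻¹ := by
      have hne := h0 0 (Nat.zero_le _)
      rw [h2, mul_inv]
      rw [mul_comm (∏ k ∈ Finset.range (m + 1), (y + ((k + 1 : ℕ) : ℚ)))⁻¹, ← mul_assoc,
        mul_inv_cancel₀ hne, one_mul]
    rw [h4, h5, Nat.factorial_succ]
    push_cast
    ring

private lemma GD_bc_inv (c c' : ℚ) (h : |c - c'| < 1) :
    GD (fun m _ => ((bc c m).eval (-c'))⁻¹) := by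
  set μ : ℚ := c - c' with hμ
  have hμ1 := abs_lt.1 h
  have hb : 0 < μ.den := μ.den_pos
  have hmain : GD (fun m _ => (m : ℚ) * ((m - 1).factorial *
      (∏ k ∈ Finset.range ((m - 1) + 1), (μ + 1 + k))⁻¹)) := by
    refine ⟨4 ^ (4 * (μ.den * 2)), Nat.one_le_pow _ _ (by norm_num), fun m => ?_⟩
    obtain ⟨q, q0, q1, q2⟩ := exists_den (μ.den * (m + 2))
    refine ⟨q, q0, ?_, fun _ => ?_⟩
    · refine q1.trans ?_
      rw [← pow_mul]
      refine Nat.pow_le_pow_right (by norm_num) ?_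
      nlinarith [hb]
    · obtain ⟨z, hz⟩ := pf (q : ℚ) (m - 1) (μ + 1)
        (fun k _ => by
          have : (0 : ℚ) ≤ k := Nat.cast_nonneg k
          linarith)
        (fun k hk => by
          have hk0 : (0 : ℚ) ≤ k := Nat.cast_nonneg k
          have hpos : 0 < μ + 1 + k := by linarith
          have hden : (μ.den : ℚ) ≠ 0 := by exact_mod_cast hb.ne'
          -- the integer `num + den (k+1)`
          have hN : ((μ.num + μ.den * (k + 1) : ℤ) : ℚ) = μ.den * (μ + 1 + k) := by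
            push_cast
            have : (μ.num : ℚ) = μ.den * μ := by rw [Rat.den_mul_eq_num]
            rw [this]
            ring
          have hNpos : 0 < μ.num + μ.den * (k + 1 : ℤ) := by
            have : (0 : ℚ) < ((μ.num + μ.den * (k + 1) : ℤ) : ℚ) := by
              rw [hN]
              have : (0 : ℚ) < μ.den := by exact_mod_cast hb
              positivity
            exact_mod_cast this
          obtain ⟨N, hNN⟩ := Int.eq_ofNat_of_zero_le hNpos.le
          have hNle : N ≤ μ.den * (m + 2) := by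
            have h6 : ((N : ℤ) : ℚ) ≤ (μ.den * (m + 2) : ℕ) := by
              rw [← hNN, hN]
              push_cast
              have h7 : (k : ℚ) ≤ m := by
                have : k ≤ m := by omega
                exact_mod_cast this
              have h8 : (0 : ℚ) ≤ μ.den := by positivity
              refine mul_le_mul_of_nonneg_left ?_ h8
              linarith
            exact_mod_cast h6
          have hN0 : 1 ≤ N := by
            have : (0 : ℤ) < N := by rw [← hNN]; exact hNpos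
            exact_mod_cast this
          obtain ⟨t, ht⟩ := q2 N hN0 hNle
          refine ⟨t * μ.den, ?_⟩
          have h9 : (N : ℚ) = μ.den * (μ + 1 + k) := by
            rw [← hN, hNN]
            rfl
          rw [ht]
          push_cast
          rw [h9]
          field_simp)
      refine ⟨m * z, ?_⟩
      push_cast
      rw [← hz]
      ring
  obtain ⟨H, hH, hh⟩ := hmain
  refine ⟨H, hH, fun m => ?_⟩
  rcases Nat.eq_zero_or_pos m with rfl | hm
  · refine ⟨1, one_pos, Nat.one_le_pow _ _ hH, fun _ => ⟨1, ?_⟩⟩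
    simp [bc]
  · obtain ⟨q, q0, q1, q2⟩ := hh m
    refine ⟨q, q0, q1, fun j => ?_⟩
    obtain ⟨z, hz⟩ := q2 j
    refine ⟨z, ?_⟩
    rw [← hz]
    congr 1
    obtain ⟨p, rfl⟩ : ∃ p, m = p + 1 := ⟨m - 1, by omega⟩
    simp only [Nat.add_sub_cancel]
    rw [bc_eval, Finset.prod_mul_distrib, mul_inv, Finset.prod_inv_distrib, inv_inv, ← mul_assoc]
    congr 1
    · have := Finset.prod_range_add_one_eq_factorial (p + 1)
      have h2 : (∏ k ∈ Finset.range (p + 1), ((k : ℚ) + 1)) = ((p + 1).factorial : ℚ) := by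
        rw [← this]
        push_cast
        rfl
      rw [h2, Nat.factorial_succ]
      push_cast
      ring
    · congr 1
      refine Finset.prod_congr rfl fun k _ => ?_
      rw [hμ]
      ring

private lemma bc_natDegree (c : ℚ) (m : ℕ) : (bc c m).natDegree ≤ m := by
  rw [bc]
  refine (natDegree_prod_le _ _).trans ?_
  calc ∑ k ∈ Finset.range m, (C (((k : ℚ) + 1)⁻¹) * (X + C (c + ((k : ℚ) + 1)))).natDegree
      ≤ ∑ k ∈ Finset.range m, 1 := by
        refine Finset.sum_le_sum fun k _ => ?_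
        refine (natDegree_C_mul_le _ _).trans ?_
        rw [natDegree_X_add_C]
    _ = m := by simp

private lemma dvd_bc (c : ℚ) (m k : ℕ) (h1 : 1 ≤ k) (h2 : k ≤ m) :
    (X + C (c + (k : ℚ))) ∣ bc c m := by
  rw [bc]
  refine Dvd.dvd.trans ?_ (Finset.dvd_prod_of_mem _ (Finset.mem_range.2 (show k - 1 < m by omega)))
  refine Dvd.dvd.mul_left ?_ _
  have : (((k - 1 : ℕ) : ℚ) + 1) = k := by
    rw [Nat.cast_sub h1]
    push_cast
    ring
  rw [this]

private lemma bc_ne (c c' : ℚ) (h : |c - c'| < 1) (m : ℕ) : (bc c m).eval (-c') ≠ 0 := by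
  rw [bc_eval]
  refine Finset.prod_ne_zero_iff.2 fun k _ => ?_
  have hμ1 := abs_lt.1 h
  have hk0 : (0 : ℚ) ≤ k := Nat.cast_nonneg k
  have h1 : ((k : ℚ) + 1)⁻¹ ≠ 0 := by positivity
  have h2 : (-c' + (c + ((k : ℚ) + 1))) ≠ 0 := by
    have : 0 < (-c' + (c + ((k : ℚ) + 1))) := by linarith
    exact this.ne'
  exact mul_ne_zero h1 h2

/-! ### the normalised product -/

private noncomputable def bt (s : Finset ℚ) (m : ℕ) : ℚ[X] :=
  ∑ l ∈ s, C (∏ c ∈ s, ((bc c m).eval (-l))⁻¹) * Lagrange.basis s (fun c => -c) l *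
    ∏ c ∈ s, bc c m

private lemma GD_bt (s : Finset ℚ) (hs : ∀ c ∈ s, ∀ c' ∈ s, |c - c'| < 1) :
    GD (fun m j => (bt s m).eval (j : ℚ)) := by
  simp only [bt, eval_finsetSum, eval_mul, eval_C, eval_prod]
  refine GD_sum s fun l hl => ?_
  refine GD_mul (GD_mul (GD_prod s fun c hc => ?_) (GD_poly _)) (GD_prod s fun c _ => GD_bc c)
  exact GD_bc_inv c l (hs c hc l hl)

private lemma bt_eval (s : Finset ℚ) (hs : ∀ c ∈ s, ∀ c' ∈ s, |c - c'| < 1) (m : ℕ) (l : ℚ)
    (hl : l ∈ s) : (bt s m).eval (-l) = 1 := by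
  have hinj : Set.InjOn (fun c : ℚ => -c) s := fun a _ b _ h => neg_injective h
  rw [bt, eval_finsetSum, Finset.sum_eq_single l]
  · have h1 := Lagrange.eval_basis_self hinj hl
    rw [eval_mul, eval_mul, eval_C, h1, mul_one, eval_prod, ← Finset.prod_mul_distrib]
    refine Finset.prod_eq_one fun c hc => ?_
    exact inv_mul_cancel₀ (bc_ne c l (hs c hc l hl) m)
  · intro b hb hbl
    have h1 := Lagrange.eval_basis_of_ne (v := fun c : ℚ => -c) hbl hl
    rw [eval_mul, eval_mul, h1, mul_zero, zero_mul]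
  · intro h
    exact absurd hl h

private lemma bt_natDegree (s : Finset ℚ) (m : ℕ) :
    (bt s m).natDegree ≤ s.card * (m + 1) := by
  have hinj : Set.InjOn (fun c : ℚ => -c) s := fun a _ b _ h => neg_injective h
  refine natDegree_sum_le_of_forall_le _ _ fun l hl => ?_
  refine natDegree_mul_le.trans ?_
  have h1 : (C (∏ c ∈ s, ((bc c m).eval (-l))⁻¹) *
      Lagrange.basis s (fun c => -c) l).natDegree ≤ s.card := by
    refine (natDegree_C_mul_le _ _).trans ?_
    rw [Lagrange.natDegree_basis hinj hl]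
    omega
  have h2 : (∏ c ∈ s, bc c m).natDegree ≤ s.card * m := by
    refine (natDegree_prod_le _ _).trans ?_
    refine (Finset.sum_le_sum fun c _ => bc_natDegree c m).trans ?_
    simp
  calc _ ≤ s.card + s.card * m := Nat.add_le_add h1 h2
    _ = s.card * (m + 1) := by ring

private lemma dvd_bt (s : Finset ℚ) (m : ℕ) (l : ℚ) (hl : l ∈ s) (k : ℕ) (h1 : 1 ≤ k)
    (h2 : k ≤ m) : (X + C (l + (k : ℚ))) ∣ bt s m := by
  rw [bt]
  refine Finset.dvd_sum fun c _ => ?_
  exact Dvd.dvd.mul_left ((dvd_bc l m k h1 h2).trans (Finset.dvd_prod_of_mem (fun c => bc c m) hl)) _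

theorem exists_Pm_x (s : Finset ℚ) (hs : ∀ c ∈ s, ∀ c' ∈ s, |c - c'| < 1) (r : ℕ) :
    ∃ H : ℕ, 1 ≤ H ∧ ∀ m : ℕ, ∃ (n : ℕ) (c : ℕ → ℚ) (P : ℚ[X]),
    n ≤ H * (m + 1) ∧ P = ∑ j ∈ Finset.range n, C (c j) * binX j ∧
      (∀ l ∈ s, (X + C l) ^ r ∣ P - 1) ∧
      (∀ l ∈ s, ∀ k : ℕ, 1 ≤ k → k ≤ m → (X + C (l + k)) ^ r ∣ P) ∧
      ∃ q : ℕ, 0 < q ∧ q ≤ H ^ (m + 1) ∧ ∀ j, ∃ z : ℤ, (q : ℚ) * c j = z := by
  obtain ⟨H, hH, hh⟩ := GD_one_sub (GD_pow (GD_one_sub (GD_pow (GD_bt s hs) r)) r)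
  refine ⟨H + (r * r * s.card + 1), by omega, ?_⟩
  intro m
  obtain ⟨q, q0, q1, q2⟩ := hh m
  set P : ℚ[X] := 1 - (1 - bt s m ^ r) ^ r with hP
  have hdeg : P.natDegree < r * r * s.card * (m + 1) + 1 := by
    have h1 : (bt s m ^ r).natDegree ≤ r * (s.card * (m + 1)) := by
      refine natDegree_pow_le.trans ?_
      exact Nat.mul_le_mul_left _ (bt_natDegree s m)
    have h2 : (1 - bt s m ^ r).natDegree ≤ r * (s.card * (m + 1)) := by
      refine (natDegree_sub_le _ _).trans (max_le ?_ h1)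
      simp
    have h3 : ((1 - bt s m ^ r) ^ r).natDegree ≤ r * (r * (s.card * (m + 1))) := by
      refine natDegree_pow_le.trans ?_
      exact Nat.mul_le_mul_left _ h2
    have h4 : P.natDegree ≤ r * (r * (s.card * (m + 1))) := by
      refine (natDegree_sub_le _ _).trans (max_le ?_ h3)
      simp
    have h5 : r * (r * (s.card * (m + 1))) = r * r * s.card * (m + 1) := by ring
    omega
  have hqP : (C (q : ℚ) * P).natDegree < r * r * s.card * (m + 1) + 1 :=
    lt_of_le_of_lt (natDegree_C_mul_le _ _) hdeg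
  obtain ⟨c, hc⟩ := int_valued hqP (fun j => by
    obtain ⟨z, hz⟩ := q2 j
    refine ⟨z, ?_⟩
    rw [← hz, eval_mul, eval_C, hP]
    simp only [eval_sub, eval_one, eval_pow])
  have hq : (q : ℚ) ≠ 0 := by exact_mod_cast q0.ne'
  refine ⟨r * r * s.card * (m + 1) + 1, fun j => (q : ℚ)⁻¹ * (c j : ℚ), P, ?_, ?_, ?_, ?_, q, q0,
    ?_, ?_⟩
  · nlinarith
  · calc P = C (q : ℚ)⁻¹ * (C (q : ℚ) * P) := by
          rw [← mul_assoc, ← C_mul, inv_mul_cancel₀ hq, C_1, one_mul]
      _ = _ := by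
          rw [hc, Finset.mul_sum]
          refine Finset.sum_congr rfl fun j _ => ?_
          rw [C_mul, mul_assoc]
  · intro l hl
    have h1 : (X + C l : ℚ[X]) ∣ 1 - bt s m ^ r := by
      have h3 : (X + C l : ℚ[X]) = X - C (-l) := by rw [C_neg, sub_neg_eq_add]
      rw [h3, dvd_iff_isRoot, IsRoot.def, eval_sub, eval_one, eval_pow, bt_eval s hs m l hl,
        one_pow, sub_self]
    have h2 : P - 1 = -(1 - bt s m ^ r) ^ r := by rw [hP]; ring
    rw [h2]
    exact (pow_dvd_pow_of_dvd h1 r).neg_right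
  · intro l hl k h1 h2
    have h3 : bt s m ^ r ∣ P := by
      have h4 := sub_dvd_pow_sub_pow (1 : ℚ[X]) (1 - bt s m ^ r) r
      have h5 : (1 : ℚ[X]) - (1 - bt s m ^ r) = bt s m ^ r := by ring
      rw [h5, one_pow] at h4
      exact h4
    exact (pow_dvd_pow_of_dvd (dvd_bt s m l hl k h1 h2) r).trans h3
  · exact q1.trans (Nat.pow_le_pow_left (by omega) _)
  · intro j
    refine ⟨c j, ?_⟩
    rw [← mul_assoc, mul_inv_cancel₀ hq, one_mul]

end Pool.Agent.Helper79.GX
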