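import Pool.Agent.Helper79.GX.SpecSplit
import Pool.Agent.Helper79.GC.RelSpan
import Pool.Agent.Helper79.GC.Gauge

/-!
# GX-11: relations, tame exponents

* `rel_span_x`: copy `rel_span` (`Pool.Agent.Helper79.GC.RelSpan`) with `χ = (∏_{c∈s} (X - c))^m`; `χ` and `χ(X + n)` are coprime for `n ≥ 1` because
  `c - c' ≠ n` for `c, c' ∈ s`.
* `exists_W_x`: copy `exists_W` (`Pool.Agent.Helper79.GC.Gauge`), using `rel_span_x`.
-/

open Polynomial

namespace Pool.Agent.Helper79.GX

open Pool.Agent.Helper37.GP Pool.Agent.Helper79.GC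

variable {ι : Type} [Fintype ι] [DecidableEq ι]

theorem coprime_shift_tame (s : Finset ℚ) (hs : ∀ c ∈ s, ∀ c' ∈ s, |c - c'| < 1) (m n : ℕ)
    (hn : 1 ≤ n) : IsCoprime ((∏ c ∈ s, ((X : ℚ[X]) - C c)) ^ m)
      (((∏ c ∈ s, ((X : ℚ[X]) - C c)) ^ m).comp (X + C (n : ℚ))) := by
  rw [pow_comp]
  apply IsCoprime.pow
  rw [Polynomial.prod_comp]
  apply IsCoprime.prod_left
  intro c hc
  apply IsCoprime.prod_right
  intro c' hc'
  have h1 : ((X : ℚ[X]) - C c').comp (X + C (n : ℚ)) = X - C (c' - n) := by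
    rw [sub_comp, X_comp, C_comp, C_sub]
    ring
  rw [h1]
  apply Polynomial.isCoprime_X_sub_C_of_isUnit_sub
  apply IsUnit.mk0
  intro h
  have h2 := hs c hc c' hc'
  have hn' : (1 : ℚ) ≤ n := by exact_mod_cast hn
  have h3 : c - c' = -(n : ℚ) := by linarith
  rw [h3, abs_neg, abs_of_nonneg (by linarith)] at h2
  linarith

private theorem gx_add (M M' : Matrix ι ι ℚ) : rsNu (M + M') = rsNu M + rsNu M' := by
  ext ⟨a, b⟩ ⟨c, d⟩
  simp only [rsNu, Matrix.add_apply, Matrix.kroneckerMap_apply]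
  ring

private theorem gx_smul (q : ℚ) (M : Matrix ι ι ℚ) : rsNu (q • M) = q • rsNu M := by
  ext ⟨a, b⟩ ⟨c, d⟩
  simp only [rsNu, Matrix.smul_apply, Matrix.kroneckerMap_apply, smul_eq_mul]
  ring

private theorem gx_aeval (N : Matrix ι ι ℚ) (p : ℚ[X]) :
    aeval (rsNu N) p = rsNu (aeval N p) := by
  induction p using Polynomial.induction_on' with
  | add p q hp hq => rw [map_add, map_add, hp, hq, gx_add]
  | monomial n a =>
    rw [aeval_monomial, aeval_monomial, Algebra.algebraMap_eq_smul_one,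
      Algebra.algebraMap_eq_smul_one, smul_mul_assoc, smul_mul_assoc, one_mul, one_mul,
      rsNu_pow, gx_smul]

theorem rel_span_x {T : ℚ[X]} {A : Matrix ι ι ℚ[X]} {Y : Matrix ι ι (PowerSeries ℚ)}
    {N : Matrix ι ι ℚ} (hT : T ≠ 0) (h : IsFund T A Y N) (h0 : coP 0 Y = 1) (hN : Tame N)
    {G : Matrix ι ι (LaurentSeries ℚ)} (hG : ∀ w ∈ Rel Y N, pairE w G = 0) :
    ∃ G' : Matrix ι ι (LaurentSeries ℚ), G = pM Y * G' ∧ ∀ n : ℤ, coL n G' ∈ GG Y N := by
  have hu : IsUnit Y.det := pM_isUnit h0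
  have hG' : G = pM Y * (pM Y⁻¹ * G) := by
    rw [← Matrix.mul_assoc, ← pM_mul, Matrix.mul_nonsing_inv _ hu, pM_one, Matrix.one_mul]
  refine ⟨pM Y⁻¹ * G, hG', ?_⟩
  obtain ⟨s, hs, m, hm⟩ := hN
  have hm' : aeval (rsNu N) ((∏ c ∈ s, ((X : ℚ[X]) - C c)) ^ m) = 0 := by
    rw [gx_aeval, hm]
    ext ⟨a, b⟩ ⟨c, d⟩
    simp [rsNu]
  intro n w hw
  have hy : (fun p : ι × ι => (pM Y⁻¹ * G) p.1 p.2) ∈ rsV Y N := by
    rw [mem_rsV]
    intro w hw
    have e : rsMm (fun p : ι × ι => (pM Y⁻¹ * G) p.1 p.2) = pM Y⁻¹ * G := rfl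
    rw [e, ← hG']
    exact hG w hw
  have h1 := rs_coeff (rsNu N) _ hm' (fun n hn => coprime_shift_tame s hs m n hn) (rsV Y N)
    (fun y hy => rsV_stable hT h hy) _ hy n
  exact h1 w hw

theorem exists_W_x {T : ℚ[X]} {A : Matrix ι ι ℚ[X]} {Y : Matrix ι ι (PowerSeries ℚ)}
    {N : Matrix ι ι ℚ} (hT : T ≠ 0) (h : IsFund T A Y N) (h0 : coP 0 Y = 1) (hN : Tame N)
    {D κ : ℕ} {Z : Matrix ι ι ℤ[X]} (hκ : 1 ≤ κ) (hdeg : ∀ a b, (Z a b).natDegree ≤ D)
    (hco : ∀ a b, (Z a b).coeff D = if a = b then (κ : ℤ) else 0)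
    (hrel : ∀ w ∈ Rel Y N, pairE w (eM (zM Z)) = 0) :
    ∃ W : Matrix ι ι (PowerSeries ℚ), coP 0 W = 1 ∧
      (κ : ℚ) • pM Y = (xx ^ D • eM (zM Z)) * pM W ∧ ∀ n, coP n W ∈ GG Y N := by
  have hκ0 : (κ : ℚ) ≠ 0 := by
    have : 0 < κ := hκ
    exact_mod_cast this.ne'
  -- the power series matrix `V'`
  set V' : Matrix ι ι (PowerSeries ℚ) := Matrix.of fun a b =>
    PowerSeries.mk fun n => if n ≤ D then (((Z a b).coeff (D - n) : ℤ) : ℚ) else 0 with hV'
  have hzco : ∀ a b n, (zM Z a b).coeff n = (((Z a b).coeff n : ℤ) : ℚ) := by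
    intro a b n
    change ((Z a b).map (Int.castRingHom ℚ)).coeff n = _
    rw [Polynomial.coeff_map]
    rfl
  have hVeq : xx ^ D • eM (zM Z) = pM V' := by
    ext1 a b
    rw [Matrix.smul_apply, smul_eq_mul, eM_apply, pM_apply]
    ext i
    rw [gauge_coeff_xx, ps_coeff, emb_coeff]
    by_cases hi : i < 0
    · rw [if_pos hi, if_pos (by omega), hzco]
      rw [Polynomial.coeff_eq_zero_of_natDegree_lt]
      · simp
      · have := hdeg a b
        omega
    · rw [if_neg hi]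
      simp only [hV', Matrix.of_apply, PowerSeries.coeff_mk]
      by_cases hiD : i ≤ D
      · rw [if_pos (by omega), if_pos (by omega), hzco]
        congr 2
        omega
      · rw [if_neg (by omega), if_neg (by omega)]
  have hV0 : coP 0 V' = (κ : ℚ) • (1 : Matrix ι ι ℚ) := by
    ext a b
    rw [coP_apply, Matrix.smul_apply, smul_eq_mul]
    simp only [hV', Matrix.of_apply, PowerSeries.coeff_mk]
    rw [if_pos (Nat.zero_le _), Nat.sub_zero, hco, Matrix.one_apply]
    by_cases hab : a = b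
    · simp [hab]
    · simp [hab]
  have hVrel : ∀ w ∈ Rel Y N, pairE w (pM V') = 0 := by
    intro w hw
    rw [← hVeq, pairE_smul_right, hrel w hw, mul_zero]
  obtain ⟨G', hG', hGG⟩ := rel_span_x hT h h0 hN hVrel
  have hu : IsUnit Y.det := pM_isUnit h0
  -- `G' = pM G''`
  set G'' : Matrix ι ι (PowerSeries ℚ) := Y⁻¹ * V' with hG''
  have hG'eq : G' = pM G'' := by
    have h1 : pM Y⁻¹ * pM V' = pM Y⁻¹ * (pM Y * G') := by rw [hG']
    rw [← Matrix.mul_assoc, ← pM_mul, ← pM_mul, Matrix.nonsing_inv_mul _ hu, pM_one,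
      Matrix.one_mul] at h1
    exact h1.symm
  have hYG : Y * G'' = V' := by
    rw [hG'', ← Matrix.mul_assoc, Matrix.mul_nonsing_inv _ hu, Matrix.one_mul]
  have hG0 : coP 0 G'' = (κ : ℚ) • (1 : Matrix ι ι ℚ) := by
    have h1 := congrArg (coP 0) hYG
    rw [gauge_coP_mul, hV0] at h1
    simpa [h0] using h1
  have hGn : ∀ n : ℕ, coP n G'' ∈ GG Y N := by
    intro n
    have h1 := hGG (n : ℤ)
    have h2 : coL (n : ℤ) G' = coP n G'' := by
      rw [hG'eq]
      ext a b
      rw [coL_apply, pM_apply, ps_coeff, if_neg (by omega), coP_apply]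
      simp
    rwa [h2] at h1
  -- the inverse
  have huG : IsUnit G''.det := by
    rw [PowerSeries.isUnit_iff_constantCoeff, RingHom.map_det]
    have h1 : (PowerSeries.constantCoeff (R := ℚ)).mapMatrix G'' = (κ : ℚ) • 1 := by
      rw [← hG0]
      ext1 a b
      rw [RingHom.mapMatrix_apply, Matrix.map_apply, coP_apply,
        PowerSeries.coeff_zero_eq_constantCoeff]
    rw [h1, Matrix.det_smul, Matrix.det_one, mul_one]
    exact (pow_ne_zero _ hκ0).isUnit
  set W : Matrix ι ι (PowerSeries ℚ) := (PowerSeries.C (κ : ℚ)) • G''⁻¹ with hW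
  have hGW : G'' * W = (PowerSeries.C (κ : ℚ)) • 1 := by
    rw [hW, Matrix.mul_smul, Matrix.mul_nonsing_inv _ huG]
  have hGWn : ∀ n, ∑ p ∈ Finset.HasAntidiagonal.antidiagonal n, coP p.1 G'' * coP p.2 W =
      if n = 0 then (κ : ℚ) • (1 : Matrix ι ι ℚ) else 0 := by
    intro n
    rw [← gauge_coP_mul, hGW]
    have h1 : coP n ((PowerSeries.C (κ : ℚ)) • (1 : Matrix ι ι (PowerSeries ℚ))) =
        (κ : ℚ) • coP n (1 : Matrix ι ι (PowerSeries ℚ)) := by
      ext a b
      rw [coP_apply, Matrix.smul_apply, Matrix.smul_apply, smul_eq_mul, smul_eq_mul,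
        PowerSeries.coeff_C_mul, coP_apply]
    rw [h1, gauge_coP_one]
    split_ifs
    · rfl
    · rw [smul_zero]
  have hW0 : coP 0 W = 1 := by
    have h1 := hGWn 0
    rw [if_pos rfl, Finset.Nat.antidiagonal_zero, Finset.sum_singleton, hG0, Matrix.smul_mul,
      Matrix.one_mul] at h1
    have h2 := congrArg (fun M => (κ : ℚ)⁻¹ • M) h1
    simpa only [smul_smul, inv_mul_cancel₀ hκ0, one_smul] using h2
  refine ⟨W, hW0, ?_, ?_⟩
  · rw [hVeq, ← pM_mul]
    have h1 : V' * W = (PowerSeries.C (κ : ℚ)) • Y := by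
      rw [← hYG, Matrix.mul_assoc, hGW, Matrix.mul_smul, Matrix.mul_one]
    rw [h1]
    ext1 a b
    have h2 : pM ((PowerSeries.C (κ : ℚ)) • Y) a b = ps (PowerSeries.C (κ : ℚ)) * ps (Y a b) := by
      rw [pM_apply, Matrix.smul_apply, smul_eq_mul, Subst12.ps_mul]
    rw [h2, Subst12.ps_C, Matrix.smul_apply, pM_apply]
    ext n
    rw [algebraMap_eq_single, HahnSeries.coeff_single_zero_mul, HahnSeries.coeff_smul, smul_eq_mul]
  · intro n
    induction n using Nat.strong_induction_on with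
    | _ n ih =>
      by_cases hn : n = 0
      · rw [hn, hW0]
        exact gg_one
      · have h1 := hGWn n
        rw [if_neg hn] at h1
        have h2 : (0, n) ∈ Finset.HasAntidiagonal.antidiagonal n := by simp
        rw [← Finset.add_sum_erase _ _ h2] at h1
        rw [hG0, Matrix.smul_mul, Matrix.one_mul] at h1
        have h3 : coP n W = (-(κ : ℚ)⁻¹) • ∑ p ∈ (Finset.HasAntidiagonal.antidiagonal n).erase (0, n),
            coP p.1 G'' * coP p.2 W := by
          have h4 : (κ : ℚ) • coP n W = -∑ p ∈ (Finset.HasAntidiagonal.antidiagonal n).erase (0, n),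
            coP p.1 G'' * coP p.2 W := eq_neg_of_add_eq_zero_left h1
          have h5 := congrArg (fun M => (κ : ℚ)⁻¹ • M) h4
          simp only [smul_smul, inv_mul_cancel₀ hκ0, one_smul] at h5
          rw [h5, smul_neg, neg_smul]
        rw [h3]
        apply gg_smul
        apply gg_sum
        rintro ⟨i, j⟩ hp
        rw [Finset.mem_erase, Finset.HasAntidiagonal.mem_antidiagonal] at hp
        obtain ⟨hp1, hp2⟩ := hp
        apply gg_mul hT h (hGn i)
        apply ih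
        change j < n
        simp only at hp2
        rcases Nat.eq_zero_or_pos i with hi | hi
        · exfalso
          apply hp1
          rw [hi] at hp2 ⊢
          rw [zero_add] at hp2
          rw [hp2]
        · omega

end Pool.Agent.Helper79.GX
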