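import Pool.Agent.Helper79.GX.KDefs

/-!
# GX-13: polynomials over the residue field as rational combinations of words

For pairs `(M, W)` (`W` of size `β × ι`, `β = Fin m × ι`) with `u^l M_{ak} = ∑_c Z_{(l,a),c} W_{c,k}` (`Z` a matrix over `κ`) and `e : ℕ` let `Rep e f` (`f` a function of the pair)
mean: there is `l : (Fin e → Option (…)) → ℚ` with `f (M, W) = ∑_α l_α ∏_j ltr (sqK ω W) (α j)` for all such pairs.
`Rep e` is closed under sums; `Rep e f → Rep (e+1) f` (letter `none`, value `1`); `Rep e f → Rep e' g → Rep (e + e') (f g)` (concatenate words, `Fin.append`, or: it suffices to multiply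
with `g` of `Rep 1`, `Fin.cons`); `Rep 0 (const)` only for rational constants. `Rep 1 ((M, W) ↦ c W_{b,k})` for `c ∈ κ`: coordinates of `c` in `ω` (any fixed column indices
`(j', (l', k))`, `J` and `Fin m` are nonempty). So `Rep 1 (c u^l M_{ak})` for `c ∈ κ`, `l < m` (by the hypothesis on the pairs, entries of `Z` in `κ`). Every element of `kapC κ x u` is
`∑_{l<m} c_l u^l`, `c_l ∈ κ`: `x ∈ κ` is a natural number; `u` is a root of the monic polynomial `X^m - ∑ c_l X^l` over `κ`, so it is algebraic, `u = (y : ℂ)`, `y ∈ Qbar`, and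
`kapC κ x u ≤ κ(y)`; the elements of `κ(y)` are polynomials in `y` over `κ` (`IntermediateField.adjoin_simple_toSubalgebra_of_isIntegral` or similar for `κ⟮y⟯`, an intermediate field of
`Qbar / κ`, `IntermediateField.restrictScalars ℚ`), and powers `u^l`, `l ≥ m`, reduce by the equation. Hence `Rep 1 (c M_{ak})` for all `c ∈ kapC κ x u`. Every monomial
`c M_{a₀k₀} ∏_{i ≤ d} M_{a_i k_i}`, `d ≤ δ`, is in `Rep (d + 1)`, so in `Rep (δ + 1)`; sum over the monomials of `r` (compare `rel_bad` in `Pool.Agent.Helper79.GC.RelBad`).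
-/

open Polynomial Filter Topology

namespace Pool.Agent.Helper79.GX

open Pool.Agent.Helper37.GP Pool.Agent.Helper79.GC Pool.Agent.Helper64.Per

/-- The square matrix with the entries `ω_j W_{b,k}`. -/
noncomputable def sqK {κ : IntermediateField ℚ Qbar} {J ι : Type} {m : ℕ} (ω : J → κ)
    (W : Matrix (Fin m × ι) ι ℂ) : Matrix (J × (Fin m × ι)) (J × (Fin m × ι)) ℂ :=
  Matrix.of fun p q => ((ω p.1 : Qbar) : ℂ) * W p.2 q.2.2

/-- every element of `kapC κ x u` is a combination of powers of `u` over `κ` -/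
theorem rep_kap {κ : IntermediateField ℚ Qbar} {m : ℕ} (hm : 0 < m) {x u : ℂ}
    (hx : ∃ n : ℕ, x = n) (hu : ∃ c : Fin m → κ, u ^ m = ∑ l, ((c l : Qbar) : ℂ) * u ^ (l : ℕ))
    (z : kapC κ x u) :
    ∃ c : Fin m → κ, ((z : Qbar) : ℂ) = ∑ l, ((c l : Qbar) : ℂ) * u ^ (l : ℕ) := by
  obtain ⟨n, rfl⟩ := hx
  obtain ⟨c, hc⟩ := hu
  let S : Subalgebra ℚ Qbar :=
    { carrier := {z | ∃ p : Polynomial κ, ((z : Qbar) : ℂ) = aeval u p}
      mul_mem' := by
        rintro a b ⟨p, hp⟩ ⟨q, hq⟩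
        exact ⟨p * q, by rw [map_mul, ← hp, ← hq]; rfl⟩
      add_mem' := by
        rintro a b ⟨p, hp⟩ ⟨q, hq⟩
        exact ⟨p + q, by rw [map_add, ← hp, ← hq]; rfl⟩
      algebraMap_mem' := fun r => ⟨C (algebraMap ℚ κ r), by rw [aeval_C]; rfl⟩ }
  have hinv : ∀ z ∈ S, z⁻¹ ∈ S := fun z hz =>
    Subalgebra.inv_mem_of_algebraic S (x := (⟨z, hz⟩ : S))
      ((algebraicClosure.isAlgebraic ℚ ℂ).isAlgebraic z)
  have hle : kapC κ n u ≤ S.toIntermediateField hinv := by
    unfold kapC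
    refine sup_le ?_ (IntermediateField.adjoin_le_iff.2 ?_)
    · intro z hz
      exact ⟨C ⟨z, hz⟩, by rw [aeval_C]; rfl⟩
    · rintro z (hz | hz)
      · exact ⟨(n : Polynomial κ), by rw [map_natCast, hz]⟩
      · exact ⟨X, by rw [aeval_X, hz]⟩
  obtain ⟨p, hp⟩ := hle z.2
  have hdeg : (∑ l : Fin m, (C (c l) : Polynomial κ) * X ^ (l : ℕ)).degree <
      (m : WithBot ℕ) := degree_sum_fin_lt c
  have hqm : (X ^ m - ∑ l : Fin m, (C (c l) : Polynomial κ) * X ^ (l : ℕ)).Monic :=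
    monic_X_pow_sub hdeg
  have hq0 : aeval u (X ^ m - ∑ l : Fin m, (C (c l) : Polynomial κ) * X ^ (l : ℕ)) = 0 := by
    rw [map_sub, map_pow, aeval_X, map_sum, hc, sub_eq_zero]
    refine Finset.sum_congr rfl fun l _ => ?_
    rw [map_mul, map_pow, aeval_X, aeval_C]
    rfl
  have hqd : (X ^ m - ∑ l : Fin m, (C (c l) : Polynomial κ) * X ^ (l : ℕ)).degree =
      (m : WithBot ℕ) := by
    rw [degree_sub_eq_left_of_degree_lt (by rw [degree_X_pow]; exact hdeg), degree_X_pow]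
  set q : Polynomial κ := X ^ m - ∑ l : Fin m, (C (c l) : Polynomial κ) * X ^ (l : ℕ)
  have hr : (p %ₘ q).degree < (m : WithBot ℕ) := by
    rw [← hqd]
    exact degree_modByMonic_lt p hqm
  have hpr : aeval u p = aeval u (p %ₘ q) := by
    conv_lhs => rw [← modByMonic_add_div p q]
    rw [map_add, map_mul, hq0, zero_mul, add_zero]
  refine ⟨fun l => (p %ₘ q).coeff l, ?_⟩
  have hsum : p %ₘ q = ∑ l ∈ Finset.range m, C ((p %ₘ q).coeff l) * X ^ l :=
    as_sum_range_C_mul_X_pow' _ (by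
      rcases eq_or_ne (p %ₘ q) 0 with h0 | h0
      · rw [h0, natDegree_zero]
        exact hm
      · exact (natDegree_lt_iff_degree_lt h0).2 hr)
  rw [hp, hpr]
  conv_lhs => rw [hsum]
  rw [map_sum, Finset.sum_range]
  refine Finset.sum_congr rfl fun l _ => ?_
  rw [map_mul, map_pow, aeval_X, aeval_C]
  rfl

open scoped Pointwise in
/-- elements of powers of a span are combinations of words -/
theorem rep_words {S B : Type} [Fintype B] (φ : B → S → ℂ) (e : ℕ) {f : S → ℂ}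
    (hf : f ∈ (Submodule.span ℚ (Set.range φ)) ^ e) :
    ∃ l : (Fin e → B) → ℚ, ∀ s, ∑ α, (l α : ℂ) * ∏ j, φ (α j) s = f s := by
  rw [Submodule.span_pow] at hf
  have hsub : (Set.range φ) ^ e ⊆ Set.range (fun α : Fin e → B => fun s => ∏ j, φ (α j) s) := by
    intro g hg
    rw [Set.mem_pow] at hg
    obtain ⟨w, rfl⟩ := hg
    choose α hα using fun i => (w i).2
    refine ⟨α, ?_⟩
    funext s
    rw [List.prod_ofFn, Finset.prod_apply]
    exact Finset.prod_congr rfl fun j _ => by rw [hα]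
  have hf' := Submodule.span_mono hsub hf
  rw [Submodule.mem_span_range_iff_exists_fun] at hf'
  obtain ⟨l, hl⟩ := hf'
  refine ⟨l, fun s => ?_⟩
  rw [← hl, Finset.sum_apply]
  refine Finset.sum_congr rfl fun α _ => ?_
  rw [Pi.smul_apply, Algebra.smul_def]
  rfl

theorem rep_pow_add {A : Type} [CommRing A] [Algebra ℚ A] (V : Submodule ℚ A) (a b : ℕ) :
    V ^ (a + b) = V ^ a * V ^ b := by
  induction b with
  | zero => rw [Nat.add_zero, Submodule.pow_zero, mul_one]
  | succ b ih => rw [← Nat.add_assoc, Submodule.pow_succ, Submodule.pow_succ, ih, mul_assoc]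

theorem rep_pow_mono {A : Type} [CommRing A] [Algebra ℚ A] {V : Submodule ℚ A} (h : 1 ≤ V)
    {a b : ℕ} (hab : a ≤ b) : V ^ a ≤ V ^ b := by
  induction b, hab using Nat.le_induction with
  | base => exact le_rfl
  | succ b _ ih =>
    refine ih.trans ?_
    rw [Submodule.pow_succ]
    conv_lhs => rw [← mul_one (V ^ b)]
    exact mul_le_mul_right h _

/-- monomials in elements of a subspace containing `1` -/
theorem rep_mono {A P : Type} [CommRing A] [Algebra ℚ A] {V : Submodule ℚ A} (h1 : (1 : A) ∈ V)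
    {g : P → A} (hg : ∀ p, g p ∈ V) (μ : P →₀ ℕ) {δ : ℕ} (hμ : (μ.sum fun _ e => e) ≤ δ) :
    (∏ p ∈ μ.support, g p ^ μ p) ∈ V ^ δ := by
  classical
  have h : ∀ s : Finset P, (∏ p ∈ s, g p ^ μ p) ∈ V ^ (∑ p ∈ s, μ p) := by
    intro s
    induction s using Finset.induction_on with
    | empty =>
      rw [Finset.prod_empty, Finset.sum_empty, Submodule.pow_zero]
      exact Submodule.mem_one.2 ⟨1, map_one _⟩
    | insert a s ha ih =>
      rw [Finset.prod_insert ha, Finset.sum_insert ha, rep_pow_add]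
      exact Submodule.mul_mem_mul (Submodule.pow_mem_pow V (hg a) _) ih
  exact rep_pow_mono (Submodule.one_le.2 h1) hμ (h _)

theorem rep_exists {ι : Type} [Fintype ι] [DecidableEq ι] {κ : IntermediateField ℚ Qbar}
    {J : Type} [Fintype J] [DecidableEq J] (ω : Module.Basis J ℚ κ) {m : ℕ} (hm : 0 < m) {x u : ℂ}
    (hx : ∃ n : ℕ, x = n) (hu : ∃ c : Fin m → κ, u ^ m = ∑ l, ((c l : Qbar) : ℂ) * u ^ (l : ℕ))
    (Z : Matrix (Fin m × ι) (Fin m × ι) κ) (a₀ k₀ : ι) {δ : ℕ}
    (r : MvPolynomial (ι × ι) (kapC κ x u)) (hr : r.totalDegree ≤ δ) :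
    ∃ l : (Fin (δ + 1) → Option ((J × (Fin m × ι)) × (J × (Fin m × ι)))) → ℚ,
      ∀ (M : Matrix ι ι ℂ) (W : Matrix (Fin m × ι) ι ℂ),
        (∀ b k, u ^ (b.1 : ℕ) * M b.2 k = ∑ c, ((Z b c : Qbar) : ℂ) * W c k) →
        ∑ α, (l α : ℂ) * ∏ j, ltr (sqK (fun j => ω j) W) (α j) =
          M a₀ k₀ * evK (kapC κ x u) r M := by
  classical
  let S : Type := {s : Matrix ι ι ℂ × Matrix (Fin m × ι) ι ℂ //
    ∀ b k, u ^ (b.1 : ℕ) * s.1 b.2 k = ∑ c, ((Z b c : Qbar) : ℂ) * s.2 c k}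
  let φ : Option ((J × (Fin m × ι)) × (J × (Fin m × ι))) → S → ℂ := fun o s =>
    ltr (sqK (fun j => ω j) s.1.2) o
  set V : Submodule ℚ (S → ℂ) := Submodule.span ℚ (Set.range φ) with hV
  have hone : (1 : S → ℂ) ∈ V := Submodule.subset_span ⟨none, rfl⟩
  have : Nonempty J := ω.index_nonempty
  have hW : ∀ (c : κ) (b : Fin m × ι) (k : ι),
      (fun s : S => ((c : Qbar) : ℂ) * s.1.2 b k) ∈ V := by
    intro c b k
    have h1 : (fun s : S => ((c : Qbar) : ℂ) * s.1.2 b k) =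
        ∑ j, (ω.repr c j) • (φ (some ((j, b), (Classical.arbitrary J, (⟨0, hm⟩, k))))) := by
      funext s
      rw [Finset.sum_apply]
      have h2 : ((c : Qbar) : ℂ) = ∑ j, ((ω.repr c j : ℚ) : ℂ) * ((ω j : Qbar) : ℂ) := by
        have h3 := congrArg (algebraMap κ ℂ) (ω.sum_repr c)
        rw [map_sum] at h3
        refine h3.symm.trans ?_
        refine Finset.sum_congr rfl fun j _ => ?_
        rw [Algebra.smul_def, map_mul]
        rfl
      rw [h2, Finset.sum_mul]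
      refine Finset.sum_congr rfl fun j _ => ?_
      rw [Pi.smul_apply, Algebra.smul_def, mul_assoc]
      rfl
    rw [h1]
    exact Submodule.sum_mem _ fun j _ => Submodule.smul_mem _ _ (Submodule.subset_span ⟨_, rfl⟩)
  have hM : ∀ (c : κ) (b : Fin m × ι) (k : ι),
      (fun s : S => ((c : Qbar) : ℂ) * (u ^ (b.1 : ℕ) * s.1.1 b.2 k)) ∈ V := by
    intro c b k
    have h1 : (fun s : S => ((c : Qbar) : ℂ) * (u ^ (b.1 : ℕ) * s.1.1 b.2 k)) =
        ∑ d, (fun s : S => (((c * Z b d : κ) : Qbar) : ℂ) * s.1.2 d k) := by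
      funext s
      rw [Finset.sum_apply, s.2 b k, Finset.mul_sum]
      refine Finset.sum_congr rfl fun d _ => ?_
      rw [← mul_assoc]
      rfl
    rw [h1]
    exact Submodule.sum_mem _ fun d _ => hW _ _ _
  have hK : ∀ (z : kapC κ x u) (a k : ι),
      (fun s : S => ((z : Qbar) : ℂ) * s.1.1 a k) ∈ V := by
    intro z a k
    obtain ⟨c, hc⟩ := rep_kap hm hx hu z
    have h1 : (fun s : S => ((z : Qbar) : ℂ) * s.1.1 a k) =
        ∑ l, (fun s : S => ((c l : Qbar) : ℂ) * (u ^ (((l, a) : Fin m × ι).1 : ℕ) *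
          s.1.1 ((l, a) : Fin m × ι).2 k)) := by
      funext s
      rw [Finset.sum_apply, hc, Finset.sum_mul]
      exact Finset.sum_congr rfl fun l _ => mul_assoc _ _ _
    rw [h1]
    exact Submodule.sum_mem _ fun l _ => hM _ _ _
  have hf : (fun s : S => s.1.1 a₀ k₀ * evK (kapC κ x u) r s.1.1) ∈ V ^ (δ + 1) := by
    have h1 : (fun s : S => s.1.1 a₀ k₀ * evK (kapC κ x u) r s.1.1) =
        ∑ μ ∈ r.support, (fun s : S =>
          (((MvPolynomial.coeff μ r : kapC κ x u) : Qbar) : ℂ) * s.1.1 a₀ k₀) *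
          ∏ p ∈ μ.support, (fun s : S => s.1.1 p.1 p.2) ^ μ p := by
      funext s
      rw [Finset.sum_apply]
      unfold evK
      rw [MvPolynomial.aeval_def, MvPolynomial.eval₂_eq, Finset.mul_sum]
      refine Finset.sum_congr rfl fun μ _ => ?_
      rw [Pi.mul_apply, Finset.prod_apply, ← mul_assoc, mul_comm (s.1.1 a₀ k₀)]
      rfl
    rw [h1]
    refine Submodule.sum_mem _ fun μ hμ => ?_
    rw [Nat.add_comm, rep_pow_add, Submodule.pow_one]
    refine Submodule.mul_mem_mul (hK _ _ _) (rep_mono hone (fun p => ?_) μ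
      (le_trans (MvPolynomial.le_totalDegree hμ) hr))
    have h2 := hK 1 p.1 p.2
    have h3 : (fun s : S => (((1 : kapC κ x u) : Qbar) : ℂ) * s.1.1 p.1 p.2) =
        (fun s : S => s.1.1 p.1 p.2) := by
      funext s
      exact one_mul _
    rw [h3] at h2
    exact h2
  obtain ⟨l, hl⟩ := rep_words φ (δ + 1) hf
  exact ⟨l, fun M W hMW => hl ⟨(M, W), hMW⟩⟩

end Pool.Agent.Helper79.GX
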