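import Pool.Agent.Helper79.GX.Defs
import Pool.Agent.Helper79.GC.LModFund
import Pool.Agent.Helper79.GC.WordSys

/-!
# GX-01: matrices with rational eigenvalues, closure properties

`Spec s M`: `(∏_{c ∈ s} (M - c))^m = 0` for some `m`.

* `spec_add`: in the commutative ring `Algebra.adjoin ℚ {M, M'}` an element is nilpotent iff it lies in all primes; a prime contains some `M - c` and some
  `M' - c'`, hence `M + M' - (c + c')` (compare `intEig_add` in `Pool.Agent.Helper79.GC.IntEigs`).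
* `spec_neg`, `spec_transpose`, `spec_slot`, `spec_lm`, `spec_rm`: `p(f(M)) = f(p(M))` for the (anti)homomorphisms (`slot j` is a unital algebra homomorphism:
  `slot_pow`, `slot_add`, …; `lm` is one on the algebra: `lm_pow` etc.; `rm` is an antihomomorphism on the algebra: column `β` of `rm M ^ k` is
  the coordinate vector of `g_β M^k`; compare `lm_half` and `ad_nil` in `GC.AdNil`). `lett M` (in `spec_word`) is `M ⊗ 1` plus a zero row and column, so the
  eigenvalue `0` is added.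
* `spec_sum_slot`, `spec_word`: sums of commuting matrices, induction over the slots (`wordM δ N = ∑ slot j (lett N)`).
-/

open Polynomial

namespace Pool.Agent.Helper79.GX

open Pool.Agent.Helper37.GP Pool.Agent.Helper79.GC

variable {ι : Type} [Fintype ι] [DecidableEq ι]

private theorem gx1_iff {s : Finset ℚ} {M : Matrix ι ι ℚ} :
    Spec s M ↔ IsNilpotent (aeval M (∏ c ∈ s, ((X : ℚ[X]) - C c))) := by
  constructor
  · rintro ⟨m, hm⟩
    exact ⟨m, by rw [← map_pow]; exact hm⟩
  · rintro ⟨m, hm⟩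
    exact ⟨m, by rw [map_pow]; exact hm⟩

theorem spec_mono {s s' : Finset ℚ} (h : s ⊆ s') {M : Matrix ι ι ℚ} (hM : Spec s M) :
    Spec s' M := by
  obtain ⟨m, hm⟩ := hM
  refine ⟨m, ?_⟩
  obtain ⟨q, hq⟩ := pow_dvd_pow_of_dvd (Finset.prod_dvd_prod_of_subset s s'
    (fun c : ℚ => ((X : ℚ[X]) - C c)) h) m
  rw [hq, map_mul, hm, zero_mul]

theorem spec_neg {s : Finset ℚ} {M : Matrix ι ι ℚ} (hM : Spec s M) :
    Spec (s.image fun c => -c) (-M) := by
  obtain ⟨m, hm⟩ := hM
  refine ⟨m, ?_⟩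
  rw [Finset.prod_image (fun a _ b _ h => neg_injective h)]
  have h1 : (-M) = aeval M (-X : ℚ[X]) := by rw [map_neg, aeval_X]
  rw [h1, ← aeval_comp, pow_comp, prod_comp]
  have h2 : ∏ c ∈ s, ((X : ℚ[X]) - C (-c)).comp (-X) =
      (∏ c ∈ s, (-1 : ℚ[X])) * ∏ c ∈ s, ((X : ℚ[X]) - C c) := by
    rw [← Finset.prod_mul_distrib]
    refine Finset.prod_congr rfl fun c _ => ?_
    rw [sub_comp, X_comp, C_comp, C_neg]
    ring
  rw [h2, mul_pow, map_mul, hm, mul_zero]

theorem spec_transpose {s : Finset ℚ} {M : Matrix ι ι ℚ} (hM : Spec s M) :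
    Spec s M.transpose := by
  obtain ⟨m, hm⟩ := hM
  refine ⟨m, ?_⟩
  have h1 : ∀ p : ℚ[X], aeval M.transpose p = (aeval M p).transpose := by
    intro p
    induction p using Polynomial.induction_on' with
    | add p q hp hq => rw [map_add, hp, hq, map_add, Matrix.transpose_add]
    | monomial n a =>
      rw [aeval_monomial, aeval_monomial, ← Algebra.smul_def, ← Algebra.smul_def,
        Matrix.transpose_smul, Matrix.transpose_pow]
  rw [h1, hm, Matrix.transpose_zero]

private theorem gx1_comm {R : Type} [CommRing R] [Algebra ℚ R] {s s' : Finset ℚ} {x y : R}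
    (hx : IsNilpotent (aeval x (∏ c ∈ s, ((X : ℚ[X]) - C c))))
    (hy : IsNilpotent (aeval y (∏ c ∈ s', ((X : ℚ[X]) - C c)))) :
    IsNilpotent (aeval (x + y) (∏ c ∈ (s ×ˢ s').image fun p => p.1 + p.2,
      ((X : ℚ[X]) - C c))) := by
  rw [nilpotent_iff_mem_prime] at hx hy ⊢
  intro J hJ
  have hx' := hx J hJ
  have hy' := hy J hJ
  rw [map_prod] at hx' hy' ⊢
  obtain ⟨k, hk, hk'⟩ := (hJ.prod_mem_iff).1 hx'
  obtain ⟨l, hl, hl'⟩ := (hJ.prod_mem_iff).1 hy'
  refine (hJ.prod_mem_iff).2 ⟨k + l, ?_, ?_⟩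
  · exact Finset.mem_image.2 ⟨(k, l), Finset.mem_product.2 ⟨hk, hl⟩, rfl⟩
  · have h := J.add_mem hk' hl'
    convert h using 1
    simp only [map_sub, aeval_X, aeval_C, map_add]
    ring

theorem spec_add {s s' : Finset ℚ} {M M' : Matrix ι ι ℚ} (hM : Spec s M) (hM' : Spec s' M')
    (hc : M * M' = M' * M) :
    Spec ((s ×ˢ s').image fun p => p.1 + p.2) (M + M') := by
  have hcomm : ∀ a ∈ ({M, M'} : Set (Matrix ι ι ℚ)), ∀ b ∈ ({M, M'} : Set (Matrix ι ι ℚ)),
      a * b = b * a := by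
    intro a ha b hb
    rcases ha with rfl | ha <;> rcases hb with rfl | hb
    · rfl
    · rw [Set.mem_singleton_iff] at hb
      rw [hb]
      exact hc
    · rw [Set.mem_singleton_iff] at ha
      rw [ha]
      exact hc.symm
    · rw [Set.mem_singleton_iff] at ha hb
      rw [ha, hb]
  let R := Algebra.adjoin ℚ ({M, M'} : Set (Matrix ι ι ℚ))
  let _ : CommRing R := Algebra.adjoinCommRingOfComm ℚ hcomm
  let x : R := ⟨M, Algebra.subset_adjoin (Set.mem_insert _ _)⟩
  let y : R := ⟨M', Algebra.subset_adjoin (Set.mem_insert_of_mem _ rfl)⟩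
  have hval : ∀ (z : R) (p : ℚ[X]), aeval (z : Matrix ι ι ℚ) p = ((aeval z p : R) : Matrix ι ι ℚ) := by
    intro z p
    have := Polynomial.aeval_algHom_apply (Subalgebra.val R) z p
    exact this
  have hnil : ∀ z : R, IsNilpotent (z : Matrix ι ι ℚ) ↔ IsNilpotent z := by
    intro z
    constructor
    · rintro ⟨m, hm⟩
      exact ⟨m, Subtype.ext hm⟩
    · rintro ⟨m, hm⟩
      refine ⟨m, ?_⟩
      have := congrArg (fun w : R => (w : Matrix ι ι ℚ)) hm
      exact this
  rw [gx1_iff] at hM hM' ⊢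
  have h1 : IsNilpotent (aeval x (∏ c ∈ s, ((X : ℚ[X]) - C c))) := by
    rw [← hnil, ← hval]
    exact hM
  have h2 : IsNilpotent (aeval y (∏ c ∈ s', ((X : ℚ[X]) - C c))) := by
    rw [← hnil, ← hval]
    exact hM'
  have h3 := gx1_comm h1 h2
  rw [← hnil, ← hval] at h3
  exact h3

theorem spec_slot {κ δ : Type} [Fintype κ] [DecidableEq κ] [Fintype δ] [DecidableEq δ]
    {s : Finset ℚ} {M : Matrix κ κ ℚ} (hM : Spec s M) (j : δ) : Spec s (slot j M) := by
  obtain ⟨m, hm⟩ := hM
  refine ⟨m, ?_⟩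
  have h1 : ∀ p : ℚ[X], aeval (slot j M) p = slot j (aeval M p) := by
    intro p
    induction p using Polynomial.induction_on' with
    | add p q hp hq => rw [map_add, hp, hq, map_add, slot_add]
    | monomial n a =>
      rw [aeval_monomial, aeval_monomial, ← Algebra.smul_def, ← Algebra.smul_def, slot_smul,
        slot_pow]
  rw [h1, hm, slot_zero]

theorem spec_sum_slot {κ δ : Type} [Fintype κ] [DecidableEq κ] [Fintype δ] [DecidableEq δ]
    {M : Matrix κ κ ℚ} {s : Finset ℚ} (hM : Spec s M) :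
    ∃ s' : Finset ℚ, Spec s' (∑ j : δ, slot j M) := by
  have key : ∀ t : Finset δ, ∃ s' : Finset ℚ, Spec s' (∑ j ∈ t, slot j M) := by
    intro t
    induction t using Finset.induction_on with
    | empty =>
      refine ⟨{0}, 1, ?_⟩
      rw [Finset.sum_empty]
      simp
    | insert a t ha ih =>
      obtain ⟨s', h⟩ := ih
      rw [Finset.sum_insert ha]
      refine ⟨_, spec_add (spec_slot hM a) h ?_⟩
      rw [Finset.mul_sum, Finset.sum_mul]
      refine Finset.sum_congr rfl fun i hi => ?_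
      refine slot_comm ?_ _ _
      rintro rfl
      exact ha hi
  exact key Finset.univ

omit [Fintype ι] in
private theorem gx1_lett_add (A B : Matrix ι ι ℚ) : lett (A + B) = lett A + lett B := by
  ext p q
  rcases p with _ | ⟨i, k⟩ <;> rcases q with _ | ⟨j, l⟩
  · simp [lett]
  · simp [lett]
  · simp [lett]
  · simp only [lett, Matrix.of_apply, Matrix.add_apply]
    split_ifs <;> simp

omit [Fintype ι] in
private theorem gx1_lett_smul (c : ℚ) (A : Matrix ι ι ℚ) : lett (c • A) = c • lett A := by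
  ext p q
  rcases p with _ | ⟨i, k⟩ <;> rcases q with _ | ⟨j, l⟩
  · simp [lett]
  · simp [lett]
  · simp [lett]
  · simp only [lett, Matrix.of_apply, Matrix.smul_apply]
    split_ifs <;> simp

omit [Fintype ι] in
private theorem gx1_lett_zero : lett (0 : Matrix ι ι ℚ) = 0 := by
  have := gx1_lett_smul 0 (0 : Matrix ι ι ℚ)
  rwa [zero_smul, zero_smul] at this

private theorem gx1_lett_mul (A B : Matrix ι ι ℚ) : lett (A * B) = lett A * lett B := by
  ext p q
  rw [Matrix.mul_apply, Fintype.sum_option]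
  rcases p with _ | ⟨i, k⟩ <;> rcases q with _ | ⟨j, l⟩
  · simp [lett]
  · simp [lett]
  · simp [lett]
  · rw [Fintype.sum_prod_type]
    simp only [lett, Matrix.of_apply, zero_mul, zero_add]
    have h1 : ∀ x : ι, ∑ y : ι, ((if k = y then A i x else 0) * if y = l then B x j else 0) =
        if k = l then A i x * B x j else 0 := by
      intro x
      rw [Finset.sum_eq_single k]
      · rw [if_pos rfl]
        split_ifs <;> simp
      · intro y _ hy
        rw [if_neg (Ne.symm hy), zero_mul]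
      · intro h
        exact absurd (Finset.mem_univ k) h
    simp only [h1]
    split_ifs with h
    · rw [Matrix.mul_apply]
    · simp

private theorem gx1_lett_pow (A : Matrix ι ι ℚ) (n : ℕ) :
    lett A ^ (n + 1) = lett (A ^ (n + 1)) := by
  induction n with
  | zero => rw [zero_add, pow_one, pow_one]
  | succ n ih => rw [pow_succ, ih, ← gx1_lett_mul, ← pow_succ]

private theorem gx1_aeval_lett (A : Matrix ι ι ℚ) (p : ℚ[X]) :
    aeval (lett A) p = lett (aeval A p) + p.coeff 0 • (1 - lett 1) := by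
  induction p using Polynomial.induction_on' with
  | add p q hp hq =>
    rw [map_add, hp, hq, map_add, gx1_lett_add, coeff_add, add_smul]
    abel
  | monomial n a =>
    rw [aeval_monomial, aeval_monomial, ← Algebra.smul_def, ← Algebra.smul_def, gx1_lett_smul]
    cases n with
    | zero =>
      rw [pow_zero, pow_zero, coeff_monomial_same, smul_sub]
      abel
    | succ n =>
      rw [gx1_lett_pow, coeff_monomial_of_ne _ (by omega), zero_smul, add_zero]

private theorem gx1_lett {s : Finset ℚ} {M : Matrix ι ι ℚ} (hM : Spec s M) :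
    Spec (insert 0 s) (lett M) := by
  obtain ⟨m, hm⟩ := spec_mono (Finset.subset_insert 0 s) hM
  refine ⟨m + 1, ?_⟩
  rw [gx1_aeval_lett]
  have h1 : aeval M ((∏ c ∈ insert 0 s, ((X : ℚ[X]) - C c)) ^ (m + 1)) = 0 := by
    rw [pow_succ, map_mul, hm, zero_mul]
  have h2 : ((∏ c ∈ insert 0 s, ((X : ℚ[X]) - C c)) ^ (m + 1)).coeff 0 = 0 := by
    rw [coeff_zero_eq_eval_zero, eval_pow, eval_prod]
    rw [Finset.prod_eq_zero (Finset.mem_insert_self 0 s) (by simp), zero_pow (by omega)]
  rw [h1, h2, gx1_lett_zero, zero_smul, add_zero]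

theorem spec_word {s : Finset ℚ} {N : Matrix ι ι ℚ} (hN : Spec s N) (δ : ℕ) :
    ∃ s' : Finset ℚ, Spec s' (wordM δ N) := by
  exact spec_sum_slot (gx1_lett hN)

theorem spec_lm {R : ℕ} (B : AlgBasis ι R) {s : Finset ℚ} {N : Matrix ι ι ℚ}
    (hN : B.Mem (RingHom.id ℚ) N) (h : Spec s N) : Spec s (B.lm (RingHom.id ℚ) N) := by
  obtain ⟨m, hm⟩ := h
  refine ⟨m, ?_⟩
  have h1 : ∀ p : ℚ[X], B.lm (RingHom.id ℚ) (aeval N p) = aeval (B.lm (RingHom.id ℚ) N) p := by
    intro p
    induction p using Polynomial.induction_on' with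
    | add p q hp hq => rw [map_add, lm_add, hp, hq, map_add]
    | monomial n a =>
      rw [aeval_monomial, aeval_monomial, ← Algebra.smul_def, ← Algebra.smul_def, lm_smul,
        lm_pow B _ hN]
  have h3 := lm_smul B (RingHom.id ℚ) (0 : ℚ) N
  rw [zero_smul, zero_smul] at h3
  rw [← h1, hm, h3]

private theorem gx1_rm_one {R : ℕ} (B : AlgBasis ι R) :
    B.rm (RingHom.id ℚ) (1 : Matrix ι ι ℚ) = 1 := by
  ext α β
  unfold AlgBasis.rm
  rw [Matrix.of_apply, Matrix.mul_one, lmod_crd_g, Matrix.one_apply]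

private theorem gx1_rm_add {R : ℕ} (B : AlgBasis ι R) (M M' : Matrix ι ι ℚ) :
    B.rm (RingHom.id ℚ) (M + M') = B.rm (RingHom.id ℚ) M + B.rm (RingHom.id ℚ) M' := by
  ext α β
  simp only [AlgBasis.rm, Matrix.of_apply, Matrix.add_apply, Matrix.mul_add, lmod_crd_add]

private theorem gx1_rm_smul {R : ℕ} (B : AlgBasis ι R) (c : ℚ) (M : Matrix ι ι ℚ) :
    B.rm (RingHom.id ℚ) (c • M) = c • B.rm (RingHom.id ℚ) M := by
  ext α β
  simp only [AlgBasis.rm, Matrix.of_apply, Matrix.smul_apply, Matrix.mul_smul, lmod_crd_smul,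
    smul_eq_mul]

private theorem gx1_rm_mul {R : ℕ} (B : AlgBasis ι R) {M : Matrix ι ι ℚ}
    (h : B.Mem (RingHom.id ℚ) M) (M' : Matrix ι ι ℚ) :
    B.rm (RingHom.id ℚ) (M * M') = B.rm (RingHom.id ℚ) M' * B.rm (RingHom.id ℚ) M := by
  ext α β
  rw [Matrix.mul_apply]
  have h1 : B.rm (RingHom.id ℚ) (M * M') α β =
      B.crd (RingHom.id ℚ) ((B.g β).map (RingHom.id ℚ) * M * M') α := by
    rw [Matrix.mul_assoc]
    rfl
  rw [h1, rm_expand B (RingHom.id ℚ) h β, Finset.sum_mul, lmod_crd_sum]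
  refine Finset.sum_congr rfl fun γ _ => ?_
  rw [Matrix.smul_mul, lmod_crd_smul, mul_comm]
  rfl

private theorem gx1_rm_pow {R : ℕ} (B : AlgBasis ι R) {M : Matrix ι ι ℚ}
    (h : B.Mem (RingHom.id ℚ) M) (k : ℕ) :
    B.rm (RingHom.id ℚ) (M ^ k) = B.rm (RingHom.id ℚ) M ^ k := by
  induction k with
  | zero => rw [pow_zero, pow_zero, gx1_rm_one]
  | succ k ih => rw [pow_succ, pow_succ', gx1_rm_mul B (mem_pow B _ h k), ih]

theorem spec_rm {R : ℕ} (B : AlgBasis ι R) {s : Finset ℚ} {N : Matrix ι ι ℚ}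
    (hN : B.Mem (RingHom.id ℚ) N) (h : Spec s N) : Spec s (B.rm (RingHom.id ℚ) N) := by
  obtain ⟨m, hm⟩ := h
  refine ⟨m, ?_⟩
  have h1 : ∀ p : ℚ[X], B.rm (RingHom.id ℚ) (aeval N p) = aeval (B.rm (RingHom.id ℚ) N) p := by
    intro p
    induction p using Polynomial.induction_on' with
    | add p q hp hq => rw [map_add, gx1_rm_add, hp, hq, map_add]
    | monomial n a =>
      rw [aeval_monomial, aeval_monomial, ← Algebra.smul_def, ← Algebra.smul_def, gx1_rm_smul,
        gx1_rm_pow B hN]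
  have h3 := gx1_rm_smul B (0 : ℚ) N
  rw [zero_smul, zero_smul] at h3
  rw [← h1, hm, h3]

end Pool.Agent.Helper79.GX
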