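import Pool.Agent.Helper79.GX.Defs
import Pool.Agent.Helper79.GX.GalBig
import Pool.Agent.Helper79.GX.FundBig
import Pool.Agent.Helper79.GX.PsiBounds
import Pool.Agent.Helper79.GX.BigCoeff
import Pool.Agent.Helper79.GX.FImain
import Pool.Agent.Helper79.GX.Core3

/-!
# GC-28: linear independence of the values of the products of block functions
-/

open Polynomial Filter Topology

namespace Pool.Agent.Helper79.GX

open Pool.Agent.Helper37.GP Pool.Agent.Helper79.GC

theorem gbound_mono' {H H' : ℕ} (h : H ≤ H') {f : PowerSeries ℚ} (hf : GBound H f) :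
    GBound H' f := fun n => le_trans (hf n)
  (pow_le_pow_left₀ (by positivity) (by exact_mod_cast h) _)

theorem gden_mono' {ι : Type} {H H' : ℕ} (h : H ≤ H') {f : ι → PowerSeries ℚ} (hf : GDen H f) :
    GDen H' f := fun n => by
  obtain ⟨d, h1, h2, h3⟩ := hf n
  exact ⟨d, h1, h2.trans (Nat.pow_le_pow_left h _), h3⟩

theorem natle_pow' {K : ℕ} (hK : 1 ≤ K) (n : ℕ) : n ≤ (K + 1) ^ n := by
  calc n ≤ 2 ^ n := (Nat.lt_two_pow_self).le
    _ ≤ (K + 1) ^ n := Nat.pow_le_pow_left (by omega) n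

theorem values {R : ℕ} (b : BlockData R) (d : ℕ) : ∃ C₃ : ℕ, ∀ (K : ℕ) (a : Fin d → ℕ), 1 ≤ K →
    (∀ j, a j ≤ K) → (∀ j, C₃ ≤ a j) → (∀ i j, i ≠ j → a i + C₃ ≤ a j ∨ a j + C₃ ≤ a i) →
    ∀ s : ℕ, (K + 1) ^ C₃ ≤ s → ∀ F : (Fin d → Fin R) → ℚ,
      ∑ α, (F α : ℝ) * ∏ j, pev (b.fn (a j) (α j)) s = 0 → F = 0 := by
  classical
  obtain ⟨H', hH', hG⟩ := gal_big b d
  obtain ⟨c1, hc1⟩ := bigE_bounds b d
  obtain ⟨c2, hc2⟩ := bigB_bounds b d
  obtain ⟨C₄, hC₄⟩ := block_indep b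
  obtain ⟨E, hE⟩ := bigN_spec b d
  obtain ⟨C₂, hC₂⟩ := gcore3 (Fin d → Fin R) (d * b.T.natDegree + 1) E
  set c := c1 + c2 + H' + 1 with hc
  refine ⟨c * C₂ + c1 + C₄ + 2, ?_⟩
  intro K a hK haK haC hsep s hs F hF
  have hKp : ∀ {m n : ℕ}, m ≤ n → (K + 1) ^ m ≤ (K + 1) ^ n := fun h =>
    Nat.pow_le_pow_right (by omega) h
  obtain ⟨hb1, hb2, hb3⟩ := hc1 K a hK haK
  obtain ⟨hT1, hB1⟩ := hc2 K a hK haK
  set H := (K + 1) ^ c with hH
  have hH2 : 2 ≤ H := by
    calc 2 ≤ (K + 1) ^ 1 := by rw [pow_one]; omega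
      _ ≤ _ := hKp (by omega)
  have hcore := hC₂ H hH2 (bigT b a) (bigB b a) (bigΨ b a) (bigN b d) (fun _ => b.i₀)
    (bigT_deg b a).le (bigB_deg b a)
    (fun i => (hT1 i).trans (by exact_mod_cast hKp (by omega : c2 ≤ c)))
    (fun α β i => (hB1 α β i).trans (by exact_mod_cast hKp (by omega : c2 ≤ c)))
    (by
      have h2 := hG a
      intro j
      obtain ⟨q, hq0, hq1, hq2⟩ := h2 j
      refine ⟨q, hq0, hq1.trans (Nat.pow_le_pow_left ?_ _), hq2⟩
      exact (natle_pow' hK H').trans (hKp (by omega)))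
    (fund_big b a) (coP_big b a) hE (fun α => bigN_col b α)
    (fun α => by
      rw [bigΨ_col]
      exact gbound_mono' (hKp (by omega)) (hb1 α))
    (by
      have h3 : (fun α => bigΨ b a α (fun _ => b.i₀)) = bigE b a := funext fun α => bigΨ_col b a α
      rw [h3]
      exact gden_mono' (hKp (by omega)) hb2)
    (fun P hP => by
      refine hC₄ d a (fun j => le_trans (by omega) (haC j)) (fun i j hij => ?_) P ?_
      · rcases hsep i j hij with h | h
        · left; omega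
        · right; omega
      · rw [← hP]
        exact Finset.sum_congr rfl fun α _ => by rw [bigΨ_col])
    s (by
      refine le_trans ?_ hs
      rw [hH, ← pow_mul]
      exact hKp (by omega))
  -- clear denominators
  obtain ⟨⟨q, hq⟩, hq2⟩ := IsLocalization.exist_integer_multiples_of_finite
    (nonZeroDivisors ℤ) F
  choose A hA using hq2
  have hq0 : (q : ℚ) ≠ 0 := by
    have := nonZeroDivisors.ne_zero hq
    exact_mod_cast this
  have hAA : ∀ μ, (A μ : ℚ) = q * F μ := by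
    intro μ
    have := hA μ
    simpa [Submonoid.smul_def] using this
  have hsc : ((K : ℝ) + 1) ^ c1 < s := by
    have h7 : (K + 1) ^ c1 < s := by
      calc (K + 1) ^ c1 < (K + 1) ^ (c * C₂ + c1 + C₄ + 2) :=
            Nat.pow_lt_pow_right (by omega) (by
              have := Nat.zero_le (c * C₂); omega)
        _ ≤ s := hs
    exact_mod_cast h7
  have hAz : ∑ α, (A α : ℝ) * pev (bigΨ b a α (fun _ => b.i₀)) s = 0 := by
    have h12 : ∀ μ, (A μ : ℝ) = (q : ℝ) * (F μ : ℝ) := by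
      intro μ
      have := hAA μ
      exact_mod_cast congrArg (fun x : ℚ => (x : ℝ)) this
    calc ∑ α, (A α : ℝ) * pev (bigΨ b a α (fun _ => b.i₀)) s
        = (q : ℝ) * ∑ α, (F α : ℝ) * ∏ j, pev (b.fn (a j) (α j)) s := by
          rw [Finset.mul_sum]
          refine Finset.sum_congr rfl fun α _ => ?_
          rw [h12, bigΨ_col, hb3 s hsc α]
          ring
      _ = 0 := by rw [hF, mul_zero]
  have hA0 : A = 0 := hcore A hAz
  funext μ
  have := hAA μ
  rw [hA0] at this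
  simp only [Pi.zero_apply, Int.cast_zero] at this
  rcases mul_eq_zero.mp this.symm with h | h
  · exact absurd h hq0
  · exact h

end Pool.Agent.Helper79.GX
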