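import Pool.Agent.Helper79.GX.Lin2
import Pool.Agent.Helper79.GC.WordSys

/-!
# GX: sparsity of the bad integers for the words
-/

open Polynomial Filter Topology

namespace Pool.Agent.Helper79.GX

open Pool.Agent.Helper37.GP Pool.Agent.Helper79.GC

variable {ι : Type} [Fintype ι] [DecidableEq ι]

/-- Sparsity of the bad integers for the words. -/
theorem word_sparse [Nonempty ι] {T : ℤ[X]} {A : Matrix ι ι ℚ[X]} {H : ℕ}
    (hG : Galochkin (T.map (Int.castRingHom ℚ)) A H) {N : Matrix ι ι ℚ}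
    (hR : IsRes (T.map (Int.castRingHom ℚ)) A N) {s : Finset ℚ} (hs : Spec s N)
    {P : ℂ → Matrix ι ι ℂ}
    (hP : ∃ t₀ : ℝ, ∀ t : ℝ, t₀ < t → ∀ i k, HasDerivAt (fun t : ℝ => P (t : ℂ) i k)
      ((aeval (t : ℂ) (T.map (Int.castRingHom ℚ)))⁻¹ * ∑ j, aeval (t : ℂ) (A i j) *
        P (t : ℂ) j k) t) (δ : ℕ) : Sparse (wz δ P) := by
  have hT1 : 1 ≤ (T.map (Int.castRingHom ℚ)).natDegree := by
    obtain ⟨i⟩ := ‹Nonempty ι›
    have := hR.2.1 i i
    omega
  obtain ⟨H', hG'⟩ := word_gal hR.1 hG δ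
  have hR' := word_res hR hT1 δ
  have hz := word_sol hP δ
  obtain ⟨s', hs'⟩ := spec_word hs δ
  exact lin2 hG' hR' hs' hz

end Pool.Agent.Helper79.GX
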